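import Pool.Agent.AMG.DefsB

/-!
# Constant terms for the classical matrices (Skel M13)
-/

open scoped BigOperators LaurentPolynomial Matrix Topology
open Polynomial Filter

namespace Pool.Agent.AMG

theorem cte_mul (f : ℂ[T;T⁻¹]) (c : ℂ) (n k : ℤ) :
    (f * (LaurentPolynomial.C c * LaurentPolynomial.T n)).coeff k = f.coeff (k - n) * c := by
  rw [← LaurentPolynomial.single_eq_C_mul_T]
  apply AddMonoidAlgebra.coeff_mul_single_eq_coeff_mul (k - n)
  intro m _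
  constructor
  · intro h
    omega
  · intro h
    omega

theorem cte_Cmul (f : ℂ[T;T⁻¹]) (c : ℂ) (k : ℤ) :
    (LaurentPolynomial.C c * f).coeff k = c * f.coeff k := by
  have h := cte_mul f c 0 k
  rw [LaurentPolynomial.T_zero, mul_one, sub_zero] at h
  rw [mul_comm, h, mul_comm]

theorem cte_one (k : ℤ) : ((1 : ℂ[T;T⁻¹]).coeff k) = if k = 0 then 1 else 0 := by
  by_cases hk : k = 0
  · subst hk
    rw [if_pos rfl]
    exact Finsupp.single_eq_same
  · rw [if_neg hk]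
    exact Finsupp.single_eq_of_ne hk

/-- the coefficients of the powers of `a T ^ (-1) + b T` -/
theorem cte_pow (a b : ℂ) (n : ℕ) (k : ℤ) :
    ((LaurentPolynomial.C a * LaurentPolynomial.T (-1) +
      LaurentPolynomial.C b * LaurentPolynomial.T 1 : ℂ[T;T⁻¹]) ^ n).coeff k =
      ∑ m ∈ Finset.range (n + 1), if (n : ℤ) - 2 * m = k then a ^ m * b ^ (n - m) * n.choose m
        else 0 := by
  rw [add_pow, AddMonoidAlgebra.coeff_sum, Finsupp.finsetSum_apply]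
  apply Finset.sum_congr rfl
  intro m hm
  rw [Finset.mem_range] at hm
  have h1 : (LaurentPolynomial.C a * LaurentPolynomial.T (-1) : ℂ[T;T⁻¹]) ^ m *
      (LaurentPolynomial.C b * LaurentPolynomial.T 1) ^ (n - m) * (n.choose m : ℂ[T;T⁻¹]) =
      1 * (LaurentPolynomial.C (a ^ m * b ^ (n - m) * n.choose m) *
        LaurentPolynomial.T ((n : ℤ) - 2 * m)) := by
    have h2 : (LaurentPolynomial.T ((n : ℤ) - 2 * m) : ℂ[T;T⁻¹]) =
        LaurentPolynomial.T (-1) ^ m * LaurentPolynomial.T 1 ^ (n - m) := by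
      rw [LaurentPolynomial.T_pow, LaurentPolynomial.T_pow, ← LaurentPolynomial.T_add]
      congr 1
      rw [Nat.cast_sub (by omega)]
      ring
    rw [h2, map_mul, map_mul, map_pow, map_pow, map_natCast, mul_pow, mul_pow]
    ring
  rw [h1, cte_mul, cte_one]
  by_cases h : (n : ℤ) - 2 * m = k
  · rw [if_pos h, if_pos (by omega), one_mul]
  · rw [if_neg h, if_neg (by omega), zero_mul]

theorem cte_pow_eq (a b : ℂ) (n m : ℕ) (hm : m ≤ n) (k : ℤ) (hk : (n : ℤ) - 2 * m = k) :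
    ((LaurentPolynomial.C a * LaurentPolynomial.T (-1) +
      LaurentPolynomial.C b * LaurentPolynomial.T 1 : ℂ[T;T⁻¹]) ^ n).coeff k =
      a ^ m * b ^ (n - m) * n.choose m := by
  rw [cte_pow, Finset.sum_eq_single m]
  · rw [if_pos hk]
  · intro m' _ hne
    rw [if_neg]
    intro h
    apply hne
    omega
  · intro h
    exact absurd (Finset.mem_range.2 (by omega)) h

theorem cte_pow_zero (a b : ℂ) (n : ℕ) (k : ℤ) (hk : ∀ m : ℕ, (n : ℤ) - 2 * m ≠ k) :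
    ((LaurentPolynomial.C a * LaurentPolynomial.T (-1) +
      LaurentPolynomial.C b * LaurentPolynomial.T 1 : ℂ[T;T⁻¹]) ^ n).coeff k = 0 := by
  rw [cte_pow]
  apply Finset.sum_eq_zero
  intro m _
  rw [if_neg (hk m)]

theorem cte_tX (x : ℂ) : tX x = LaurentPolynomial.C (Complex.I * (x⁻¹ - x)) := by
  rw [tX, Matrix.trace_fin_two]
  show LaurentPolynomial.C (Complex.I * x⁻¹) + LaurentPolynomial.C (-(Complex.I * x)) = _
  rw [← map_add]
  congr 1
  ring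

/-- the two coefficients -/
noncomputable def cte_a (x v : ℂ) : ℂ := (v * x - (v * x)⁻¹) / DD x
noncomputable def cte_b (x v : ℂ) : ℂ := (v * x⁻¹ - v⁻¹ * x) / DD x

theorem cte_tY (x v : ℂ) : tY x v =
    LaurentPolynomial.C (Complex.I * cte_a x v) * LaurentPolynomial.T (-1) +
      LaurentPolynomial.C (Complex.I * cte_b x v) * LaurentPolynomial.T 1 := by
  rw [tY, Matrix.trace_fin_two, cte_a, cte_b, ← mul_div_assoc, ← mul_div_assoc]
  rfl

theorem cte_tZ (x v : ℂ) : tZ x v =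
    LaurentPolynomial.C (-(x⁻¹ * cte_a x v)) * LaurentPolynomial.T (-1) +
      LaurentPolynomial.C (x * cte_b x v) * LaurentPolynomial.T 1 := by
  rw [tZ, Matrix.trace_fin_two, Matrix.mul_apply, Matrix.mul_apply, Fin.sum_univ_two,
    Fin.sum_univ_two]
  show LaurentPolynomial.C (Complex.I * x⁻¹) *
      (LaurentPolynomial.C (Complex.I * (v * x - (v * x)⁻¹) / DD x) * LaurentPolynomial.T (-1)) +
      0 * LaurentPolynomial.C (Complex.I * DD v / DD x) +
      (0 * LaurentPolynomial.C (Complex.I * DD v / DD x) +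
      LaurentPolynomial.C (-(Complex.I * x)) *
      (LaurentPolynomial.C (Complex.I * (v * x⁻¹ - v⁻¹ * x) / DD x) * LaurentPolynomial.T 1)) = _
  have h1 : -(x⁻¹ * cte_a x v) = (Complex.I * x⁻¹) * (Complex.I * (v * x - (v * x)⁻¹) / DD x) := by
    rw [cte_a]
    linear_combination (-(x⁻¹ * (v * x - (v * x)⁻¹) / DD x)) * Complex.I_mul_I
  have h2 : x * cte_b x v = (-(Complex.I * x)) * (Complex.I * (v * x⁻¹ - v⁻¹ * x) / DD x) := by
    rw [cte_b]
    linear_combination (x * (v * x⁻¹ - v⁻¹ * x) / DD x) * Complex.I_mul_I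
  rw [h1, h2, LaurentPolynomial.C.map_mul (Complex.I * x⁻¹)
      (Complex.I * (v * x - (v * x)⁻¹) / DD x),
    LaurentPolynomial.C.map_mul (-(Complex.I * x)) (Complex.I * (v * x⁻¹ - v⁻¹ * x) / DD x)]
  ring

theorem cte_DD {x : ℝ} (hx : 0 < x) : DD (x : ℂ) ≠ 0 := by
  rw [DD]
  have h : (0 : ℝ) < x + x⁻¹ := by positivity
  exact_mod_cast h.ne'

theorem cte_ab {x v : ℝ} (hx : 0 < x) (hv : 0 < v) :
    cte_a x v * cte_b x v = DD v ^ 2 / DD x ^ 2 - 1 := by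
  have hD := cte_DD hx
  have hx0 : (x : ℂ) ≠ 0 := by exact_mod_cast hx.ne'
  have hv0 : (v : ℂ) ≠ 0 := by exact_mod_cast hv.ne'
  have hD2 : (DD (x : ℂ)) ^ 2 ≠ 0 := pow_ne_zero _ hD
  rw [cte_a, cte_b, div_mul_div_comm, ← sq, eq_sub_iff_add_eq, div_add' _ _ _ hD2,
    div_left_inj' hD2, DD, DD]
  field_simp
  ring

theorem cte0 (x v : ℝ) (hx : 0 < x) (hv : 0 < v) (i j : ℕ) :
    (tX (x : ℂ) ^ i * tY x v ^ (2 * j)).coeff 0 =
      (Complex.I * (x⁻¹ - x)) ^ i * (1 - DD v ^ 2 / DD x ^ 2) ^ j * (2 * j).choose j := by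
  rw [Complex.ofReal_inv, cte_tX, ← map_pow, cte_Cmul, cte_tY,
    cte_pow_eq _ _ (2 * j) j (by omega) 0 (by push_cast; ring)]
  have h1 : 2 * j - j = j := by omega
  have h2 : (Complex.I * cte_a x v) ^ j * (Complex.I * cte_b x v) ^ j =
      (1 - DD v ^ 2 / DD x ^ 2) ^ j := by
    rw [← mul_pow]
    congr 1
    linear_combination (cte_a x v * cte_b x v) * Complex.I_mul_I - cte_ab hx hv
  rw [h1, h2]
  ring

theorem cte0' (x v : ℝ) (hx : 0 < x) (hv : 0 < v) (i j : ℕ) :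
    (tX (x : ℂ) ^ i * tY x v ^ (2 * j + 1)).coeff 0 = 0 := by
  rw [cte_tX, ← map_pow, cte_Cmul, cte_tY, cte_pow_zero, mul_zero]
  intro m
  push_cast
  omega

theorem cte1 (x v : ℝ) (hx : 0 < x) (hv : 0 < v) (i j : ℕ) :
    (tX (x : ℂ) ^ i * tY x v ^ (2 * j + 1) * tZ x v).coeff 0 =
      (Complex.I * (x⁻¹ - x)) ^ (i + 1) * (1 - DD v ^ 2 / DD x ^ 2) ^ (j + 1) *
        (2 * j + 1).choose j := by
  rw [Complex.ofReal_inv, cte_tX, ← map_pow, mul_assoc, cte_Cmul, cte_tZ, mul_add, AddMonoidAlgebra.coeff_add,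
    Finsupp.add_apply, cte_mul, cte_mul, cte_tY, zero_sub, zero_sub, neg_neg,
    cte_pow_eq _ _ (2 * j + 1) j (by omega) 1 (by push_cast; ring),
    cte_pow_eq _ _ (2 * j + 1) (j + 1) (by omega) (-1) (by push_cast; ring)]
  have h1 : 2 * j + 1 - j = j + 1 := by omega
  have h2 : 2 * j + 1 - (j + 1) = j := by omega
  have h3 : (Complex.I * cte_a x v) ^ j * (Complex.I * cte_b x v) ^ j =
      (1 - DD v ^ 2 / DD x ^ 2) ^ j := by
    rw [← mul_pow]
    congr 1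
    linear_combination (cte_a x v * cte_b x v) * Complex.I_mul_I - cte_ab hx hv
  have h4 : (2 * j + 1).choose (j + 1) = (2 * j + 1).choose j :=
    (Nat.choose_symm_of_eq_add (by omega)).symm
  have h5 : cte_a x v * cte_b x v = -(1 - DD v ^ 2 / DD x ^ 2) := by
    rw [cte_ab hx hv]; ring
  have hx0 : (x : ℂ) ≠ 0 := by exact_mod_cast hx.ne'
  rw [h1, h2, h4, pow_succ (Complex.I * cte_b x v) j, pow_succ (Complex.I * cte_a x v) j,
    pow_succ (1 - DD (v : ℂ) ^ 2 / DD (x : ℂ) ^ 2) j, ← h3, pow_succ (Complex.I * ((x : ℂ)⁻¹ - x)) i]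
  linear_combination ((Complex.I * ((x : ℂ)⁻¹ - x)) ^ i * (Complex.I * cte_a x v) ^ j *
    (Complex.I * cte_b x v) ^ j * ((2 * j + 1).choose j : ℂ) * Complex.I * ((x : ℂ) - x⁻¹)) * h5

theorem cte1' (x v : ℝ) (hx : 0 < x) (hv : 0 < v) (i j : ℕ) :
    (tX (x : ℂ) ^ i * tY x v ^ (2 * j) * tZ x v).coeff 0 = 0 := by
  rw [cte_tX, ← map_pow, mul_assoc, cte_Cmul, cte_tZ, mul_add, AddMonoidAlgebra.coeff_add,
    Finsupp.add_apply, cte_mul, cte_mul, cte_tY, cte_pow_zero, cte_pow_zero]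
  · ring
  · intro m
    push_cast
    omega
  · intro m
    push_cast
    omega

theorem lau_rel (x v : ℝ) (hx : 0 < x) (hv : 0 < v) :
    tZ (x : ℂ) v ^ 2 = tX x * tY x v * tZ x v - tX x ^ 2 - tY x v ^ 2 +
      LaurentPolynomial.C (4 - DD v ^ 2) := by
  have hx0 : (x : ℂ) ≠ 0 := by exact_mod_cast hx.ne'
  have hD := cte_DD hx
  set a := cte_a x v with ha
  set b := cte_b x v with hb
  have hg := cte_ab hx hv
  rw [← ha, ← hb] at hg
  have hi : (LaurentPolynomial.C Complex.I : ℂ[T;T⁻¹]) * LaurentPolynomial.C Complex.I = -1 := by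
    rw [← map_mul, Complex.I_mul_I, map_neg, map_one]
  have ht : (LaurentPolynomial.T (-1) : ℂ[T;T⁻¹]) * LaurentPolynomial.T 1 = 1 := by
    rw [← LaurentPolynomial.T_add, neg_add_cancel, LaurentPolynomial.T_zero]
  have hs : (LaurentPolynomial.C (x : ℂ) : ℂ[T;T⁻¹]) * LaurentPolynomial.C ((x : ℂ)⁻¹) = 1 := by
    rw [← map_mul, mul_inv_cancel₀ hx0, map_one]
  have hE : ((LaurentPolynomial.C ((x : ℂ)⁻¹) : ℂ[T;T⁻¹]) ^ 2 + LaurentPolynomial.C (x : ℂ) ^ 2 + 2) *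
      (LaurentPolynomial.C a * LaurentPolynomial.C b) =
      LaurentPolynomial.C (DD v ^ 2) - ((LaurentPolynomial.C ((x : ℂ)⁻¹) : ℂ[T;T⁻¹]) ^ 2 +
        LaurentPolynomial.C (x : ℂ) ^ 2 + 2) := by
    have h1 : ((x : ℂ)⁻¹) ^ 2 + (x : ℂ) ^ 2 + 2 = DD (x : ℂ) ^ 2 := by
      rw [DD]
      field_simp
      ring
    have h2 : ((LaurentPolynomial.C ((x : ℂ)⁻¹) : ℂ[T;T⁻¹]) ^ 2 + LaurentPolynomial.C (x : ℂ) ^ 2 + 2)
        = LaurentPolynomial.C (DD (x : ℂ) ^ 2) := by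
      rw [← h1, map_add, map_add, map_pow, map_pow, map_ofNat]
    rw [h2, ← map_mul, ← map_mul, ← map_sub]
    congr 1
    rw [hg]
    field_simp
  rw [cte_tX, cte_tY, cte_tZ, ← ha, ← hb]
  simp only [map_mul, map_sub, map_neg, map_ofNat]
  set s : ℂ[T;T⁻¹] := LaurentPolynomial.C (x : ℂ)
  set s' : ℂ[T;T⁻¹] := LaurentPolynomial.C ((x : ℂ)⁻¹)
  set A : ℂ[T;T⁻¹] := LaurentPolynomial.C a
  set B : ℂ[T;T⁻¹] := LaurentPolynomial.C b
  set t' : ℂ[T;T⁻¹] := LaurentPolynomial.T (-1)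
  set t : ℂ[T;T⁻¹] := LaurentPolynomial.T 1
  set i : ℂ[T;T⁻¹] := LaurentPolynomial.C Complex.I
  set W : ℂ[T;T⁻¹] := LaurentPolynomial.C (DD v ^ 2)
  linear_combination ((A * t') ^ 2 + (B * t) ^ 2 + 2) * hs +
    (-((s' ^ 2 + s ^ 2 + 2) * A * B)) * ht - hE +
    ((s' - s) ^ 2 + (A * t' + B * t) ^ 2 -
      (s' - s) * (A * t' + B * t) * (-(s' * A) * t' + s * B * t)) * hi

end Pool.Agent.AMG
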