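import Pool.Agent.AMG.DefsB

/-!
# Constant terms for the shear matrices (Skel M14)
-/

open scoped BigOperators LaurentPolynomial Matrix Topology
open Polynomial Filter

namespace Pool.Agent.AMG

theorem ctw_mon_mul (a b c d : ℤ) : mon a b * mon c d = mon (a + c) (b + d) := by
  rw [mon, mon, mon, AddMonoidAlgebra.single_mul_single, one_mul]
  rfl

theorem ctw_coeff (f : R2) (a b c d : ℤ) : (f * mon a b).coeff (c, d) = f.coeff (c - a, d - b) := by
  rw [mon, AddMonoidAlgebra.coeff_mul_single_eq_coeff_mul (c - a, d - b), mul_one]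
  rintro ⟨m₁, m₂⟩ _
  rw [Prod.mk_add_mk, Prod.mk.injEq, Prod.mk.injEq]
  omega

theorem ctw_zero (n : ℕ) (a b : ℤ) (h : a < 0 ∨ b < 0 ∨ 2 * (n : ℤ) < a + b ∨ Odd a ∨ Odd b) :
    (QQ ^ n).coeff (a, b) = 0 := by
  induction n generalizing a b with
  | zero =>
    rw [pow_zero]
    have hab : (a, b) ≠ ((0 : ℤ), (0 : ℤ)) := by
      intro h1
      rw [Prod.mk.injEq] at h1
      rcases h with h | h | h | h | h
      · omega
      · omega
      · push_cast at h; omega
      · rw [h1.1] at h; exact absurd h (by decide)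
      · rw [h1.2] at h; exact absurd h (by decide)
    exact Finsupp.single_eq_of_ne hab
  | succ n ih =>
    rw [pow_succ, QQ, mul_add, mul_add, mul_one, AddMonoidAlgebra.coeff_add,
      AddMonoidAlgebra.coeff_add, Finsupp.add_apply, Finsupp.add_apply, ← QQ, ctw_coeff,
      ctw_coeff, ih (a - 2) (b - 0), ih (a - 0) (b - 2), ih a b]
    · simp
    · rcases h with h | h | h | h | h
      · exact Or.inl h
      · exact Or.inr (Or.inl h)
      · refine Or.inr (Or.inr (Or.inl ?_)); push_cast at h; omega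
      · exact Or.inr (Or.inr (Or.inr (Or.inl h)))
      · exact Or.inr (Or.inr (Or.inr (Or.inr h)))
    · rcases h with h | h | h | h | h
      · refine Or.inl ?_; omega
      · refine Or.inr (Or.inl ?_); omega
      · refine Or.inr (Or.inr (Or.inl ?_)); push_cast at h; omega
      · refine Or.inr (Or.inr (Or.inr (Or.inl ?_))); rw [sub_zero]; exact h
      · refine Or.inr (Or.inr (Or.inr (Or.inr ?_))); exact h.sub_even (by decide)
    · rcases h with h | h | h | h | h
      · refine Or.inl ?_; omega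
      · refine Or.inr (Or.inl ?_); omega
      · refine Or.inr (Or.inr (Or.inl ?_)); push_cast at h; omega
      · refine Or.inr (Or.inr (Or.inr (Or.inl ?_))); exact h.sub_even (by decide)
      · refine Or.inr (Or.inr (Or.inr (Or.inr ?_))); rw [sub_zero]; exact h

theorem ctw_main (n : ℕ) (α β γ : ℕ) (h : α + β + γ = n) :
    (QQ ^ n).coeff (2 * (α : ℤ), 2 * (β : ℤ)) * (α.factorial * β.factorial * γ.factorial) =
      n.factorial := by
  induction n generalizing α β γ with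
  | zero =>
    obtain ⟨rfl, rfl, rfl⟩ : α = 0 ∧ β = 0 ∧ γ = 0 := by omega
    rw [pow_zero]
    have : ((1 : R2).coeff (2 * ((0 : ℕ) : ℤ), 2 * ((0 : ℕ) : ℤ))) = 1 := by
      simp only [Nat.cast_zero, mul_zero]
      exact Finsupp.single_eq_same
    rw [this]
    simp
  | succ n ih =>
    have hrec : (QQ ^ (n + 1)).coeff (2 * (α : ℤ), 2 * (β : ℤ)) =
        (QQ ^ n).coeff (2 * (α : ℤ) - 2, 2 * (β : ℤ)) +
        (QQ ^ n).coeff (2 * (α : ℤ), 2 * (β : ℤ) - 2) +
        (QQ ^ n).coeff (2 * (α : ℤ), 2 * (β : ℤ)) := by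
      rw [pow_succ, QQ, mul_add, mul_add, mul_one, AddMonoidAlgebra.coeff_add,
        AddMonoidAlgebra.coeff_add, Finsupp.add_apply, Finsupp.add_apply, ← QQ, ctw_coeff,
        ctw_coeff, sub_zero, sub_zero]
    rw [hrec, add_mul, add_mul]
    have h1 : (QQ ^ n).coeff (2 * (α : ℤ) - 2, 2 * (β : ℤ)) *
        (α.factorial * β.factorial * γ.factorial) = α * n.factorial := by
      rcases Nat.eq_zero_or_pos α with h0 | h0
      · subst h0
        rw [ctw_zero n _ _ (Or.inl (by norm_num))]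
        simp
      · obtain ⟨α', rfl⟩ : ∃ α', α = α' + 1 := ⟨α - 1, by omega⟩
        have h2 := ih α' β γ (by omega)
        have h3 : 2 * ((α' + 1 : ℕ) : ℤ) - 2 = 2 * (α' : ℤ) := by push_cast; ring
        rw [h3, Nat.factorial_succ]
        push_cast
        linear_combination ((α' : ℤ) + 1) * h2
    have h4 : (QQ ^ n).coeff (2 * (α : ℤ), 2 * (β : ℤ) - 2) *
        (α.factorial * β.factorial * γ.factorial) = β * n.factorial := by
      rcases Nat.eq_zero_or_pos β with h0 | h0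
      · subst h0
        rw [ctw_zero n _ _ (Or.inr (Or.inl (by norm_num)))]
        simp
      · obtain ⟨β', rfl⟩ : ∃ β', β = β' + 1 := ⟨β - 1, by omega⟩
        have h2 := ih α β' γ (by omega)
        have h3 : 2 * ((β' + 1 : ℕ) : ℤ) - 2 = 2 * (β' : ℤ) := by push_cast; ring
        rw [h3, Nat.factorial_succ]
        push_cast
        linear_combination ((β' : ℤ) + 1) * h2
    have h5 : (QQ ^ n).coeff (2 * (α : ℤ), 2 * (β : ℤ)) *
        (α.factorial * β.factorial * γ.factorial) = γ * n.factorial := by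
      rcases Nat.eq_zero_or_pos γ with h0 | h0
      · subst h0
        rw [ctw_zero n _ _ (Or.inr (Or.inr (Or.inl (by
          have : α + β = n + 1 := by omega
          have h6 : (α : ℤ) + β = n + 1 := by exact_mod_cast this
          linarith))))]
        simp
      · obtain ⟨γ', rfl⟩ : ∃ γ', γ = γ' + 1 := ⟨γ - 1, by omega⟩
        have h2 := ih α β γ' (by omega)
        rw [Nat.factorial_succ γ']
        push_cast
        linear_combination ((γ' : ℤ) + 1) * h2
    rw [h1, h4, h5, Nat.factorial_succ]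
    have h6 : (α : ℤ) + β + γ = n + 1 := by exact_mod_cast h
    push_cast
    linear_combination (n.factorial : ℤ) * h6

theorem ctw_NX : NX.trace = QQ * mon 0 (-1) := by
  rw [Matrix.trace_fin_two, QQ, add_mul, add_mul, one_mul, ctw_mon_mul, ctw_mon_mul]
  show mon 0 (-1) + mon 2 (-1) + mon 0 1 + 0 = mon 2 (-1) + mon 0 1 + mon 0 (-1)
  ring

theorem ctw_NY : NY.trace = QQ * mon (-1) 0 := by
  rw [Matrix.trace_fin_two, QQ, add_mul, add_mul, one_mul, ctw_mon_mul, ctw_mon_mul]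
  show mon (-1) 0 + (mon 1 0 + mon (-1) 2) = mon 1 0 + mon (-1) 2 + mon (-1) 0
  ring

theorem ctw_NXY : (NX * NY).trace = QQ * mon (-1) (-1) := by
  rw [Matrix.trace_fin_two, Matrix.mul_apply, Matrix.mul_apply, Fin.sum_univ_two,
    Fin.sum_univ_two, QQ, add_mul, add_mul, one_mul, ctw_mon_mul, ctw_mon_mul]
  show (mon 0 (-1) + mon 2 (-1) + mon 0 1) * mon (-1) 0 + mon 0 1 * (-mon (-1) 0) +
    (-mon 0 (-1) * (-mon (-1) 2) + 0 * (mon 1 0 + mon (-1) 2)) =
    mon 1 (-1) + mon (-1) 1 + mon (-1) (-1)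
  have e1 : mon 2 (-1) * mon (-1) 0 = mon 1 (-1) := by rw [ctw_mon_mul]; norm_num
  have e2 : mon 0 (-1) * mon (-1) 0 = mon (-1) (-1) := by rw [ctw_mon_mul]; norm_num
  have e3 : mon 0 (-1) * mon (-1) 2 = mon (-1) 1 := by rw [ctw_mon_mul]; norm_num
  linear_combination e1 + e2 + e3

theorem ctw_mon_pow (a b : ℤ) (n : ℕ) : mon a b ^ n = mon (n * a) (n * b) := by
  induction n with
  | zero =>
    rw [pow_zero]
    simp only [Nat.cast_zero, zero_mul]
    rfl
  | succ n ih =>
    rw [pow_succ, ih, ctw_mon_mul]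
    push_cast
    congr 1 <;> ring

theorem ctw_ct (n : ℕ) (a b : ℤ) : ct (QQ ^ n * mon a b) = (QQ ^ n).coeff (-a, -b) := by
  rw [ct]
  have := ctw_coeff (QQ ^ n) a b 0 0
  rw [zero_sub, zero_sub] at this
  exact this

theorem ctw_prod (i j : ℕ) : NX.trace ^ i * NY.trace ^ j =
    QQ ^ (i + j) * mon (-(j : ℤ)) (-(i : ℤ)) := by
  rw [ctw_NX, ctw_NY, mul_pow, mul_pow, ctw_mon_pow, ctw_mon_pow, pow_add]
  have e : mon (i * 0) (i * (-1)) * mon (j * (-1)) (j * 0) = mon (-(j : ℤ)) (-(i : ℤ)) := by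
    rw [ctw_mon_mul]
    congr 1 <;> ring
  linear_combination (QQ ^ i * QQ ^ j) * e

theorem ctw_prod1 (i j : ℕ) : NX.trace ^ i * NY.trace ^ j * (NX * NY).trace =
    QQ ^ (i + j + 1) * mon (-((j : ℤ) + 1)) (-((i : ℤ) + 1)) := by
  rw [ctw_prod, ctw_NXY, pow_succ]
  have e : mon (-(j : ℤ)) (-(i : ℤ)) * mon (-1) (-1) = mon (-((j : ℤ) + 1)) (-((i : ℤ) + 1)) := by
    rw [ctw_mon_mul]
    congr 1 <;> ring
  linear_combination (QQ ^ (i + j) * QQ) * e

theorem ctw0 (i j : ℕ) : ct (NX.trace ^ (2 * i) * NY.trace ^ (2 * j)) * (i.factorial * j.factorial *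
    (i + j).factorial) = (2 * i + 2 * j).factorial := by
  rw [ctw_prod, ctw_ct, neg_neg, neg_neg]
  have h := ctw_main (2 * i + 2 * j) j i (i + j) (by ring)
  push_cast at h ⊢
  linear_combination h

theorem ctw0' (i j : ℕ) (h : Odd i ∨ Odd j) : ct (NX.trace ^ i * NY.trace ^ j) = 0 := by
  rw [ctw_prod, ctw_ct, neg_neg, neg_neg]
  apply ctw_zero
  rcases h with h | h
  · exact Or.inr (Or.inr (Or.inr (Or.inr (by exact_mod_cast h))))
  · exact Or.inr (Or.inr (Or.inr (Or.inl (by exact_mod_cast h))))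

theorem ctw1 (i j : ℕ) : ct (NX.trace ^ (2 * i + 1) * NY.trace ^ (2 * j + 1) * (NX * NY).trace) *
    ((i + 1).factorial * (j + 1).factorial * (i + j + 1).factorial) =
      (2 * i + 2 * j + 3).factorial := by
  rw [ctw_prod1, ctw_ct, neg_neg, neg_neg]
  have h := ctw_main (2 * i + 2 * j + 3) (j + 1) (i + 1) (i + j + 1) (by ring)
  have e : 2 * i + 1 + (2 * j + 1) + 1 = 2 * i + 2 * j + 3 := by ring
  have e1 : ((2 * j + 1 : ℕ) : ℤ) + 1 = 2 * ((j + 1 : ℕ) : ℤ) := by push_cast; ring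
  have e2 : ((2 * i + 1 : ℕ) : ℤ) + 1 = 2 * ((i + 1 : ℕ) : ℤ) := by push_cast; ring
  rw [e, e1, e2]
  linear_combination h

theorem ctw1' (i j : ℕ) (h : Even i ∨ Even j) :
    ct (NX.trace ^ i * NY.trace ^ j * (NX * NY).trace) = 0 := by
  rw [ctw_prod1, ctw_ct, neg_neg, neg_neg]
  apply ctw_zero
  rcases h with h | h
  · refine Or.inr (Or.inr (Or.inr (Or.inr ?_)))
    exact_mod_cast h.add_one
  · refine Or.inr (Or.inr (Or.inr (Or.inl ?_)))
    exact_mod_cast h.add_one

theorem N_rel : (NX * NY).trace ^ 2 = NX.trace * NY.trace * (NX * NY).trace -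
    NX.trace ^ 2 - NY.trace ^ 2 := by
  rw [ctw_NX, ctw_NY, ctw_NXY]
  have e1 : mon 0 (-1) * mon (-1) 0 = mon (-1) (-1) := by rw [ctw_mon_mul]; norm_num
  have e2 : QQ * mon (-1) (-1) ^ 2 = mon 0 (-1) ^ 2 + mon (-1) 0 ^ 2 + mon (-1) (-1) ^ 2 := by
    rw [ctw_mon_pow, ctw_mon_pow, ctw_mon_pow, QQ, add_mul, add_mul, ctw_mon_mul, ctw_mon_mul,
      one_mul]
    norm_num
  linear_combination (-(QQ ^ 2 * QQ * mon (-1) (-1))) * e1 + (-(QQ ^ 2)) * e2

theorem N_det : NX.det = 1 ∧ NY.det = 1 := by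
  have e0 : mon 0 0 = 1 := rfl
  constructor
  · rw [Matrix.det_fin_two]
    show (mon 0 (-1) + mon 2 (-1) + mon 0 1) * 0 - mon 0 1 * (-mon 0 (-1)) = 1
    have e : mon 0 1 * mon 0 (-1) = 1 := by
      rw [ctw_mon_mul]
      exact e0
    linear_combination e
  · rw [Matrix.det_fin_two]
    show mon (-1) 0 * (mon 1 0 + mon (-1) 2) - -mon (-1) 2 * (-mon (-1) 0) = 1
    have e : mon (-1) 0 * mon 1 0 = 1 := by
      rw [ctw_mon_mul]
      exact e0
    linear_combination e

end Pool.Agent.AMG
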