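import Pool.Agent.AMG.DefsB

/-!
# The classical limit is the constant coefficient of a trace

At `a = 1` the coefficient of `T ^ j` of the `(s', s)` entry of the product of the classical letters
is `sym w s s' j x 1 v`, and the classical letters are the matrices `lauX`, `lauY` and their
adjugates up to a power of `i`, which disappears for fourth powers.
-/

open scoped BigOperators LaurentPolynomial Matrix

namespace Pool.Agent.AMG

namespace ClEq

/-- The classical matrix of a letter, without the factor `i`. -/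
noncomputable def clM (x v : ℝ) (l : Fin 2 × Bool) : Matrix (Fin 2) (Fin 2) ℂ[T;T⁻¹] :=
  Matrix.of fun s' s => ∑ i ∈ ({-1, 0, 1} : Finset ℤ),
    AddMonoidAlgebra.single i ((lsym l s s' i x 1 v : ℝ) : ℂ)

theorem coeff_clM_mul (x v : ℝ) (l : Fin 2 × Bool) (s' t : Fin 2) (f : ℂ[T;T⁻¹]) (j : ℤ) :
    (clM x v l s' t * f).coeff j =
      ∑ i ∈ ({-1, 0, 1} : Finset ℤ), ((lsym l t s' i x 1 v : ℝ) : ℂ) * f.coeff (j - i) := by
  unfold clM
  rw [Matrix.of_apply, Finset.sum_mul, AddMonoidAlgebra.coeff_sum, Finsupp.finsetSum_apply]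
  refine Finset.sum_congr rfl fun i _ => ?_
  refine AddMonoidAlgebra.coeff_single_mul_eq_mul_coeff _ ?_
  intro m' _
  constructor
  · intro h
    omega
  · intro h
    omega

theorem coeff_prod_clM (x v : ℝ) (w : List (Fin 2 × Bool)) (s s' : Fin 2) (j : ℤ) :
    (((w.map (clM x v)).prod) s' s).coeff j = ((sym w s s' j x 1 v : ℝ) : ℂ) := by
  induction w generalizing s s' j with
  | nil =>
    rw [List.map_nil, List.prod_nil]
    unfold sym
    rw [Matrix.one_apply]
    by_cases h : s' = s
    · by_cases hj : j = 0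
      · subst hj
        rw [if_pos h, if_pos ⟨h, rfl⟩, Complex.ofReal_one]
        exact Finsupp.single_eq_same
      · rw [if_pos h, if_neg (fun h' => hj h'.2), Complex.ofReal_zero]
        exact Finsupp.single_eq_of_ne hj
    · rw [if_neg h, if_neg (fun h' => h h'.1), Complex.ofReal_zero]
      rfl
  | cons l w ih =>
    rw [List.map_cons, List.prod_cons, Matrix.mul_apply, AddMonoidAlgebra.coeff_sum,
      Finsupp.finsetSum_apply]
    unfold sym
    rw [Complex.ofReal_sum]
    refine Finset.sum_congr rfl fun t _ => ?_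
    rw [coeff_clM_mul, Complex.ofReal_sum]
    refine Finset.sum_congr rfl fun i _ => ?_
    rw [ih, one_zpow, mul_one, Complex.ofReal_mul, mul_comm]

/-- The scalar of a letter. -/
noncomputable def un (l : Fin 2 × Bool) : ℂ := if l.2 then Complex.I else -Complex.I

theorem un_pow (l : Fin 2 × Bool) : un l ^ 4 = 1 := by
  unfold un
  split_ifs
  · exact Complex.I_pow_four
  · rw [neg_pow, Complex.I_pow_four]
    norm_num

/-- The normalised matrix of a letter. -/
noncomputable def nM (x v : ℝ) (l : Fin 2 × Bool) : Matrix (Fin 2) (Fin 2) ℂ[T;T⁻¹] :=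
  match l with
    | (0, true) => lauX x
    | (0, false) => (lauX x).adjugate
    | (1, true) => lauY x v
    | (1, false) => (lauY x v).adjugate

theorem ev2_eq (x v : ℝ) (w : List (Fin 2 × Bool)) :
    ev2 (lauX x) (lauY x v) w = (w.map (nM x v)).prod := rfl

theorem nM_eq (x v : ℝ) (l : Fin 2 × Bool) : nM x v l = un l • clM x v l := by
  obtain ⟨l1, l2⟩ := l
  refine Matrix.ext fun s' s => ?_
  fin_cases l1 <;> cases l2 <;> fin_cases s' <;> fin_cases s <;>
    simp [nM, un, clM, lauX, lauY, lsym, dir, flipc, shiftc, den, DD, Matrix.adjugate_fin_two,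
      LaurentPolynomial.single_eq_C_mul_T, LaurentPolynomial.smul_eq_C_mul, ← map_mul,
      ← mul_assoc] <;>
    first
      | exact Or.inl (congrArg _ (by ring))
      | exact congrArg _ (by ring)

theorem prod_nM (x v : ℝ) (w : List (Fin 2 × Bool)) :
    (w.map (nM x v)).prod = (w.map un).prod • (w.map (clM x v)).prod := by
  induction w with
  | nil =>
    rw [List.map_nil, List.map_nil, List.map_nil, List.prod_nil, List.prod_nil, one_smul]
  | cons l w ih =>
    rw [List.map_cons, List.map_cons, List.map_cons, List.prod_cons, List.prod_cons,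
      List.prod_cons, ih, nM_eq, smul_mul_smul_comm]

theorem prod_un_pow (w : List (Fin 2 × Bool)) : (w.map un).prod ^ 4 = 1 := by
  induction w with
  | nil => rw [List.map_nil, List.prod_nil, one_pow]
  | cons l w ih => rw [List.map_cons, List.prod_cons, mul_pow, un_pow, ih, mul_one]

theorem prod_un_pw (w : List (Fin 2 × Bool)) (n : ℕ) :
    ((pw w n).map un).prod = (w.map un).prod ^ n := by
  unfold pw
  induction n with
  | zero => rw [List.replicate_zero, List.flatten_nil, List.map_nil, List.prod_nil, pow_zero]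
  | succ n ih =>
    rw [List.replicate_succ, List.flatten_cons, List.map_append, List.prod_append, ih, pow_succ']

end ClEq

theorem cl_eq (w : List (Fin 2 × Bool)) (m : ℕ) {x v : ℝ} (hx : 0 < x) (hv : 0 < v) :
    (cl (pw w (4 * m)) x v : ℂ) =
      (ev2 (lauX x) (lauY x v) (pw w (4 * m))).trace.coeff 0 := by
  have h1 : ((pw w (4 * m)).map ClEq.un).prod = 1 := by
    rw [ClEq.prod_un_pw, pow_mul, ClEq.prod_un_pow, one_pow]
  rw [ClEq.ev2_eq, ClEq.prod_nM, h1, one_smul, Matrix.trace, AddMonoidAlgebra.coeff_sum,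
    Finsupp.finsetSum_apply]
  unfold cl
  rw [Complex.ofReal_sum]
  refine Finset.sum_congr rfl fun s _ => ?_
  rw [Matrix.diag_apply, ClEq.coeff_prod_clM]

theorem lau_det {x v : ℝ} (hx : 0 < x) (hv : 0 < v) :
    (lauX (x : ℂ)).det = 1 ∧ (lauY (x : ℂ) (v : ℂ)).det = 1 := by
  have hx0 : (x : ℂ) ≠ 0 := Complex.ofReal_ne_zero.2 hx.ne'
  have hv0 : (v : ℂ) ≠ 0 := Complex.ofReal_ne_zero.2 hv.ne'
  have hD : (x : ℂ) + (x : ℂ)⁻¹ ≠ 0 := by
    have h : x + x⁻¹ ≠ 0 := by positivity
    intro h'
    apply h
    exact_mod_cast h'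
  constructor
  · rw [Matrix.det_fin_two, lauX]
    simp only [Matrix.of_apply, Matrix.cons_val', Matrix.cons_val_zero, Matrix.cons_val_one,
      Matrix.cons_val_fin_one, mul_zero, sub_zero]
    rw [← map_mul, ← map_one LaurentPolynomial.C]
    congr 1
    have h2 : Complex.I * Complex.I = -1 := Complex.I_mul_I
    field_simp
    linear_combination -h2
  · rw [Matrix.det_fin_two, lauY]
    simp only [Matrix.of_apply, Matrix.cons_val', Matrix.cons_val_zero, Matrix.cons_val_one,
      Matrix.cons_val_fin_one]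
    have hT : (LaurentPolynomial.T (-1) : ℂ[T;T⁻¹]) * LaurentPolynomial.T 1 = 1 := by
      rw [← LaurentPolynomial.T_add, neg_add_cancel, LaurentPolynomial.T_zero]
    have hmain : (Complex.I * (v * x - ((v : ℂ) * x)⁻¹) / DD x) *
        (Complex.I * (v * (x : ℂ)⁻¹ - (v : ℂ)⁻¹ * x) / DD x) -
        (Complex.I * DD v / DD x) * (Complex.I * DD v / DD x) = 1 := by
      unfold DD
      have h2 : Complex.I ^ 2 = -1 := Complex.I_sq
      have h3 : (x : ℂ) ^ 2 + 1 ≠ 0 := by
        intro h'
        apply hD
        field_simp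
        rw [h', mul_zero]
      field_simp
      rw [h2]
      ring
    calc _ = LaurentPolynomial.C ((Complex.I * (v * x - ((v : ℂ) * x)⁻¹) / DD x) *
          (Complex.I * (v * (x : ℂ)⁻¹ - (v : ℂ)⁻¹ * x) / DD x)) *
          (LaurentPolynomial.T (-1) * LaurentPolynomial.T 1) -
          LaurentPolynomial.C ((Complex.I * DD v / DD x) * (Complex.I * DD v / DD x)) := by
          rw [map_mul, map_mul]
          ring
      _ = LaurentPolynomial.C ((Complex.I * (v * x - ((v : ℂ) * x)⁻¹) / DD x) *
        (Complex.I * (v * (x : ℂ)⁻¹ - (v : ℂ)⁻¹ * x) / DD x) -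
        (Complex.I * DD v / DD x) * (Complex.I * DD v / DD x)) := by
          rw [hT, mul_one, map_sub]
      _ = 1 := by rw [hmain, map_one]

end Pool.Agent.AMG
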