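import Pool.Agent.AMG.Inv

/-!
# Comparison of the quantum representation with the window representation
-/

set_option autoImplicit false

open scoped BigOperators Matrix

namespace Pool.Agent.AMG

theorem cmp_pow2 {r : ℕ} (hr : 0 < r) {A : ℂ} (hA : IsPrimitiveRoot A (4 * r)) :
    A ^ (r : ℤ) * A ^ (r : ℤ) = -1 := by
  rw [zpow_natCast, ← pow_add]
  have h1 : A ^ (r + r) * A ^ (r + r) = 1 := by
    rw [← pow_add]
    have h : r + r + (r + r) = 4 * r := by ring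
    rw [h]
    exact hA.pow_eq_one
  have h2 : A ^ (r + r) ≠ 1 := hA.pow_ne_one_of_pos_of_lt (by omega) (by omega)
  have h3 : (A ^ (r + r) - 1) * (A ^ (r + r) + 1) = 0 := by
    linear_combination h1
  rcases mul_eq_zero.mp h3 with h | h
  · exact absurd (sub_eq_zero.mp h) h2
  · exact eq_neg_of_add_eq_zero_left h

theorem good_of_prim {r C : ℕ} (h : C + 2 ≤ r) {A : ℂ} (hA : IsPrimitiveRoot A (4 * r)) :
    Good C A := by
  have hA0 : A ≠ 0 := hA.ne_zero (by omega)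
  refine ⟨hA0, fun n hn h0 => ?_⟩
  have h1 : A ^ n * A ^ n = -1 := by
    have h2 : A ^ n * A ^ (-n) = 1 := by
      rw [← zpow_add₀ hA0, add_neg_cancel, zpow_zero]
    linear_combination A ^ n * h0 - h2
  have h2 : A ^ (2 * n - 2 * (r : ℤ)) = 1 := by
    have h3 : 2 * n - 2 * (r : ℤ) = (n + n) - (r + r) := by ring
    rw [h3, zpow_sub₀ hA0, zpow_add₀ hA0, zpow_add₀ hA0, h1, cmp_pow2 (by omega) hA]
    norm_num
  rw [hA.zpow_eq_one_iff_dvd] at h2
  obtain ⟨k, hk⟩ := h2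
  push_cast at hk
  have hr : (C : ℤ) + 2 ≤ r := by exact_mod_cast h
  rw [abs_le] at hn
  rcases le_or_gt 0 k with h3 | h3
  · nlinarith
  · have h4 : k ≤ -1 := by omega
    nlinarith

theorem cmp_curr {r : ℕ} (hr : 0 < r) {A : ℂ} (hA : IsPrimitiveRoot A (4 * r)) (m : ℤ) :
    cur A (r + m) = A ^ (r : ℤ) * (A ^ m + A ^ (-m)) := by
  have hA0 : A ≠ 0 := hA.ne_zero (by omega)
  have h1 := cmp_pow2 hr hA
  have h2 : A ^ (-(r : ℤ)) = -A ^ (r : ℤ) := by
    rw [zpow_neg, inv_eq_iff_eq_inv]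
    refine eq_inv_of_mul_eq_one_left ?_
    linear_combination -h1
  rw [cur, zpow_add₀ hA0, neg_add, zpow_add₀ hA0, h2]
  ring

theorem cmp_cur2r {r : ℕ} (hr : 0 < r) {A : ℂ} (hA : IsPrimitiveRoot A (4 * r)) (m : ℤ) :
    cur A (2 * r + m) = A ^ (-m) - A ^ m := by
  have hA0 : A ≠ 0 := hA.ne_zero (by omega)
  have h1 := cmp_pow2 hr hA
  have h2 : A ^ (2 * (r : ℤ)) = -1 := by
    rw [two_mul, zpow_add₀ hA0, h1]
  have h3 : A ^ (-(2 * (r : ℤ))) = -1 := by
    rw [zpow_neg, h2]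
    norm_num
  rw [cur, zpow_add₀ hA0, neg_add, zpow_add₀ hA0, h2, h3]
  ring

/-- the colours of a window index -/
def cmp_a (h : ℕ) {C : ℕ} (p : Win C) : ℕ := if p.2 = 0 then p.1 + h + 1 else p.1 + h
def cmp_b (h : ℕ) {C : ℕ} (p : Win C) : ℕ := if p.2 = 0 then p.1 + h else p.1 + h + 1

theorem cmp_sig_aux {r c C h : ℕ} (hr : r = c + 2 + C) (hc : c = 2 * h + 1) (p : Win C) :
    cmp_a h p < r - 1 ∧ cmp_b h p < r - 1 ∧ Adm r (cmp_a h p) (cmp_b h p) c ∧
      Adm r (cmp_a h p) (cmp_b h p) 1 := by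
  obtain ⟨j, s⟩ := p
  have hj := j.2
  subst hc hr
  rw [cmp_a, cmp_b]
  simp only
  split_ifs with hs
  · refine ⟨by omega, by omega, ⟨⟨j + 2 * h + 1, by ring⟩, by omega, by omega, by omega, by omega⟩,
      ⟨⟨j + h + 1, by ring⟩, by omega, by omega, by omega, by omega⟩⟩
  · refine ⟨by omega, by omega, ⟨⟨j + 2 * h + 1, by ring⟩, by omega, by omega, by omega, by omega⟩,
      ⟨⟨j + h + 1, by ring⟩, by omega, by omega, by omega, by omega⟩⟩

/-- the map from the window basis to the colours -/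
def cmp_sig {r c C h : ℕ} (hr : r = c + 2 + C) (hc : c = 2 * h + 1) (p : Win C) : Col r c :=
  ⟨(⟨cmp_a h p, (cmp_sig_aux hr hc p).1⟩, ⟨cmp_b h p, (cmp_sig_aux hr hc p).2.1⟩),
    (cmp_sig_aux hr hc p).2.2⟩

theorem cmp_sig_bij {r c C h : ℕ} (hr : r = c + 2 + C) (hc : c = 2 * h + 1) :
    Function.Bijective (cmp_sig (C := C) hr hc) := by
  constructor
  · rintro ⟨i, s⟩ ⟨j, t⟩ he
    rw [cmp_sig, cmp_sig, Subtype.mk.injEq, Prod.mk.injEq, Fin.mk.injEq, Fin.mk.injEq, cmp_a, cmp_a,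
      cmp_b, cmp_b] at he
    simp only at he
    have hs : s = t := by
      fin_cases s <;> fin_cases t <;> simp at he ⊢
      · omega
      · omega
    subst hs
    refine Prod.ext (Fin.ext ?_) rfl
    simp only
    split_ifs at he <;> omega
  · rintro ⟨⟨⟨a, ha⟩, ⟨b, hb⟩⟩, ⟨⟨u, hu⟩, h1, h2, h3, h4⟩, ⟨⟨v, hv⟩, h5, h6, h7, h8⟩⟩
    simp only at hu h1 h2 h3 h4 hv h5 h6 h7 h8
    rcases Nat.lt_or_ge b a with hab | hab
    · refine ⟨(⟨b - h, by omega⟩, 0), ?_⟩
      rw [cmp_sig, Subtype.mk.injEq, Prod.mk.injEq, Fin.mk.injEq, Fin.mk.injEq, cmp_a, cmp_b]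
      simp only [if_true]
      omega
    · refine ⟨(⟨a - h, by omega⟩, 1), ?_⟩
      rw [cmp_sig, Subtype.mk.injEq, Prod.mk.injEq, Fin.mk.injEq, Fin.mk.injEq, cmp_a, cmp_b]
      simp only [one_ne_zero, if_false]
      omega

/-- the phases -/
noncomputable def cmp_G (r : ℕ) (A : ℂ) (C : ℕ) : Matrix (Win C) (Win C) ℂ :=
  Matrix.diagonal fun p => (A ^ (r : ℤ)) ^ (-((p.1 : ℕ) : ℤ))

noncomputable def cmp_G' (r : ℕ) (A : ℂ) (C : ℕ) : Matrix (Win C) (Win C) ℂ :=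
  Matrix.diagonal fun p => (A ^ (r : ℤ)) ^ ((p.1 : ℕ) : ℤ)

theorem cmp_GG {r : ℕ} {A : ℂ} (hA : A ≠ 0) (C : ℕ) :
    cmp_G r A C * cmp_G' r A C = 1 ∧ cmp_G' r A C * cmp_G r A C = 1 := by
  have h0 : A ^ (r : ℤ) ≠ 0 := zpow_ne_zero _ hA
  constructor
  · rw [cmp_G, cmp_G', Matrix.diagonal_mul_diagonal, ← Matrix.diagonal_one]
    congr 1
    funext p
    rw [← zpow_add₀ h0, neg_add_cancel, zpow_zero]
  · rw [cmp_G, cmp_G', Matrix.diagonal_mul_diagonal, ← Matrix.diagonal_one]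
    congr 1
    funext p
    rw [← zpow_add₀ h0, add_neg_cancel, zpow_zero]

theorem cmp_conj_apply (r : ℕ) (A : ℂ) (C : ℕ) (M : Matrix (Win C) (Win C) ℂ) (q p : Win C) :
    (cmp_G r A C * M * cmp_G' r A C) q p =
      (A ^ (r : ℤ)) ^ (-((q.1 : ℕ) : ℤ)) * M q p * (A ^ (r : ℤ)) ^ ((p.1 : ℕ) : ℤ) := by
  rw [cmp_G, cmp_G', Matrix.mul_diagonal, Matrix.diagonal_mul]

theorem cmp_tw_succ {A : ℂ} (hA : A ≠ 0) (a : ℕ) :
    tw A (a + 1) / tw A a = -A ^ (2 * (a : ℤ) + 3) := by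
  have h1 : A ^ (2 * (a : ℤ) + 3) = A ^ (2 * a + 3) := by
    rw [← zpow_natCast]
    push_cast
    rfl
  have h2 : (a + 1) * (a + 1 + 2) = a * (a + 2) + (2 * a + 3) := by ring
  have h3 : tw A a ≠ 0 := mul_ne_zero (pow_ne_zero _ (by norm_num)) (pow_ne_zero _ hA)
  rw [h1, div_eq_iff h3, tw, tw, h2, pow_succ, pow_add A]
  ring

theorem cmp_tw_succ' {A : ℂ} (hA : A ≠ 0) (a : ℕ) :
    tw A a / tw A (a + 1) = -A ^ (-(2 * (a : ℤ) + 3)) := by
  have h1 := cmp_tw_succ hA a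
  rw [← inv_div, h1, zpow_neg, inv_neg]

theorem cmp_X {r c C h : ℕ} (hr : r = c + 2 + C) (hc : c = 2 * h + 1) {A : ℂ}
    (hA : IsPrimitiveRoot A (4 * r)) :
    (pushX r c A).submatrix (cmp_sig (C := C) hr hc) (cmp_sig (C := C) hr hc) =
      A ^ (r : ℤ) • (cmp_G r A C * letW C A (0, true) * cmp_G' r A C) := by
  have hr0 : 0 < r := by omega
  have hA0 : A ≠ 0 := hA.ne_zero (by omega)
  have hε := cmp_pow2 hr0 hA
  have hε0 : A ^ (r : ℤ) ≠ 0 := zpow_ne_zero _ hA0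
  ext q p
  rw [Matrix.submatrix_apply, Matrix.smul_apply, cmp_conj_apply, pushX]
  by_cases hqp : q = p
  · subst hqp
    obtain ⟨j, s⟩ := q
    rw [Matrix.diagonal_apply_eq]
    have h1 : (A ^ (r : ℤ)) ^ (-((j : ℕ) : ℤ)) * (A ^ (r : ℤ)) ^ ((j : ℕ) : ℤ) = 1 := by
      rw [← zpow_add₀ hε0, neg_add_cancel, zpow_zero]
    have hrz : (r : ℤ) = 2 * h + 3 + C := by
      subst hr hc
      push_cast
      ring
    fin_cases s
    · have h2 : tw A (j + h) / tw A (j + h + 1) = A ^ (r : ℤ) * (A ^ (2 * (j : ℤ) - C))⁻¹ := by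
        rw [cmp_tw_succ' hA0]
        have h3 : -(2 * (((j : ℕ) + h : ℕ) : ℤ) + 3) = (-(r : ℤ)) + (-(2 * (j : ℤ) - C)) := by
          rw [hrz]
          push_cast
          ring
        rw [h3, zpow_add₀ hA0, zpow_neg A (2 * (j : ℤ) - C), ← neg_mul]
        congr 1
        rw [zpow_neg, neg_eq_iff_eq_neg, inv_eq_iff_eq_inv]
        refine eq_inv_of_mul_eq_one_left ?_
        linear_combination -hε
      simp only [cmp_sig, cmp_a, cmp_b, letW, lsym, Matrix.of_apply, Fin.zero_eta, if_true, sub_self,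
        and_self, smul_eq_mul]
      rw [h2]
      linear_combination -(A ^ (r : ℤ) * (A ^ (2 * (j : ℤ) - C))⁻¹) * h1
    · have h2 : tw A (j + h + 1) / tw A (j + h) = -(A ^ (r : ℤ) * A ^ (2 * (j : ℤ) - C)) := by
        rw [cmp_tw_succ hA0]
        have h3 : 2 * (((j : ℕ) + h : ℕ) : ℤ) + 3 = (r : ℤ) + (2 * (j : ℤ) - C) := by
          rw [hrz]
          push_cast
          ring
        rw [h3, zpow_add₀ hA0]
      simp only [cmp_sig, cmp_a, cmp_b, letW, lsym, Matrix.of_apply, Fin.mk_one, if_true, sub_self,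
        and_self, smul_eq_mul, one_ne_zero, if_false]
      rw [h2]
      linear_combination (A ^ (r : ℤ) * A ^ (2 * (j : ℤ) - C)) * h1
  · rw [Matrix.diagonal_apply_ne _ (fun he => hqp ((cmp_sig_bij hr hc).1 he))]
    have h1 : letW C A (0, true) q p = 0 := by
      rw [letW, Matrix.of_apply, lsym, if_pos rfl, if_neg]
      rintro ⟨h2, h3⟩
      apply hqp
      refine Prod.ext (Fin.ext ?_) h2
      omega
    rw [h1]
    simp

theorem cmp_dir0 : dir true 0 = -1 := by simp [dir]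

theorem cmp_dir1 : dir true 1 = 1 := by simp [dir]

theorem cmp_Y {r c C h : ℕ} (hr : r = c + 2 + C) (hc : c = 2 * h + 1) {A : ℂ}
    (hA : IsPrimitiveRoot A (4 * r)) :
    (pushY r c A).submatrix (cmp_sig (C := C) hr hc) (cmp_sig (C := C) hr hc) =
      cmp_G r A C * letW C A (1, true) * cmp_G' r A C := by
  have hr0 : 0 < r := by omega
  have hA0 : A ≠ 0 := hA.ne_zero (by omega)
  have hε := cmp_pow2 hr0 hA
  have hε0 : A ^ (r : ℤ) ≠ 0 := zpow_ne_zero _ hA0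
  have hrz : (r : ℤ) = 2 * h + 3 + C := by
    subst hr hc
    push_cast
    ring
  have hcz : (c : ℤ) = 2 * h + 1 := by
    subst hc
    push_cast
    ring
  have hei : (A ^ (r : ℤ))⁻¹ = -A ^ (r : ℤ) := by
    rw [inv_eq_iff_eq_inv]
    refine eq_inv_of_mul_eq_one_left ?_
    linear_combination -hε
  have hc1 : cur A (c + 1) = A ^ (r : ℤ) * (A * A ^ C + (A * A ^ C)⁻¹) := by
    have h1 : (c : ℤ) + 1 = r + (-(1 + (C : ℤ))) := by
      rw [hrz, hcz]
      ring
    have h2 : A ^ (C : ℤ) = A ^ C := zpow_natCast _ _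
    rw [h1, cmp_curr hr0 hA, neg_neg, zpow_neg, zpow_add₀ hA0, zpow_one, h2]
    ring
  ext ⟨i, s'⟩ ⟨j, s⟩
  rw [Matrix.submatrix_apply, cmp_conj_apply]
  have hG : ∀ m : ℤ, (j : ℤ) - (i : ℤ) = m → (A ^ (r : ℤ)) ^ (-((i : ℕ) : ℤ)) *
      (A ^ (r : ℤ)) ^ ((j : ℕ) : ℤ) = (A ^ (r : ℤ)) ^ m := by
    intro m hm
    rw [← zpow_add₀ hε0, ← hm]
    congr 1
    ring
  have hdm : cur A (2 * ((j + h : ℕ) : ℤ) + 2) =
      A ^ (r : ℤ) * den (A ^ (2 * (j : ℤ) - C)) A (-1) := by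
    have h1 : 2 * ((j + h : ℕ) : ℤ) + 2 = r + ((2 * (j : ℤ) - C) + (-1)) := by
      rw [hrz]
      push_cast
      ring
    rw [h1, cmp_curr hr0 hA, zpow_neg, zpow_add₀ hA0]
    rfl
  have hdp : cur A (2 * ((j + h + 1 : ℕ) : ℤ) + 2) =
      A ^ (r : ℤ) * den (A ^ (2 * (j : ℤ) - C)) A 1 := by
    have h1 : 2 * ((j + h + 1 : ℕ) : ℤ) + 2 = r + ((2 * (j : ℤ) - C) + 1) := by
      rw [hrz]
      push_cast
      ring
    rw [h1, cmp_curr hr0 hA, zpow_neg, zpow_add₀ hA0]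
    rfl
  have hdiv : ∀ N D : ℂ, (A ^ (r : ℤ) * N) / (A ^ (r : ℤ) * D) = N / D := fun N D =>
    mul_div_mul_left _ _ hε0
  have hG0 : (A ^ (r : ℤ)) ^ (-((j : ℕ) : ℤ)) * (A ^ (r : ℤ)) ^ ((j : ℕ) : ℤ) = 1 := by
    rw [← zpow_add₀ hε0, neg_add_cancel, zpow_zero]
  fin_cases s <;> fin_cases s'
  · -- from + to +
    simp only [pushY, Matrix.of_apply, cmp_sig, cmp_a, cmp_b, Fin.mk.injEq, letW, lsym,
      Fin.zero_eta, if_true, Fin.mk_lt_mk, one_ne_zero, if_false, ne_eq, not_true,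
      false_and, true_and, cmp_dir0, one_mul]
    by_cases hij : (i : ℕ) + 1 = j
    · rw [if_pos (by omega), if_neg (by omega), if_pos (by omega), if_pos (by omega), hdm]
      have e5 : 2 * (((j : ℕ) + h : ℕ) : ℤ) + 1 - (c : ℤ) = 2 * (j : ℤ) := by
        rw [hcz]
        push_cast
        ring
      have f1 : A ^ C * (A ^ (2 * (j : ℤ) - C)) ^ (-(-1 : ℤ)) = A ^ (2 * (j : ℤ)) := by
        rw [neg_neg, zpow_one, ← zpow_natCast, ← zpow_add₀ hA0]
        congr 1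
        ring
      have f2 : (A ^ C)⁻¹ * (A ^ (2 * (j : ℤ) - C)) ^ (-1 : ℤ) = A ^ (-(2 * (j : ℤ))) := by
        rw [← zpow_natCast, zpow_neg_one, ← mul_inv, ← zpow_add₀ hA0, zpow_neg]
        congr 2
        ring
      have f3 : -cur A (2 * (j : ℤ)) = A ^ (r : ℤ) * (A ^ (r : ℤ) * cur A (2 * (j : ℤ))) := by
        rw [← mul_assoc, hε, neg_one_mul]
      rw [e5, shiftc, f1, f2, mul_right_comm, hG 1 (by omega), zpow_one, f3, hdiv, cur]
      exact mul_div_assoc _ _ _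
    · rw [if_neg (by omega), if_neg (by omega), mul_zero, zero_mul]
  · -- from + to -
    simp only [pushY, Matrix.of_apply, cmp_sig, cmp_a, cmp_b, Fin.mk.injEq, letW, lsym,
      Fin.zero_eta, Fin.mk_one, if_true, Fin.mk_lt_mk, one_ne_zero, if_false, ne_eq,
      false_and, true_and, cmp_dir0, one_mul, not_false_iff]
    by_cases hij : (i : ℕ) = j
    · have hij' : i = j := Fin.ext hij
      subst hij'
      rw [if_pos rfl, if_pos rfl, if_pos (by omega), hdm, hc1, hdiv, mul_right_comm, hG0, one_mul,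
        flipc]
    · rw [if_neg (by omega), if_neg (by omega), mul_zero, zero_mul]
  · -- from - to +
    simp only [pushY, Matrix.of_apply, cmp_sig, cmp_a, cmp_b, Fin.mk.injEq, letW, lsym,
      Fin.zero_eta, Fin.mk_one, if_true, Fin.mk_lt_mk, one_ne_zero, if_false, ne_eq,
      false_and, true_and, cmp_dir1, one_mul, not_false_iff, zero_ne_one]
    by_cases hij : (i : ℕ) = j
    · have hij' : i = j := Fin.ext hij
      subst hij'
      rw [if_pos rfl, if_pos rfl, if_pos (by omega), hdp, hc1, hdiv, mul_right_comm, hG0, one_mul,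
        flipc]
    · rw [if_neg (by omega), if_neg (by omega), mul_zero, zero_mul]
  · -- from - to -
    simp only [pushY, Matrix.of_apply, cmp_sig, cmp_a, cmp_b, Fin.mk.injEq, letW, lsym,
      Fin.mk_one, if_true, Fin.mk_lt_mk, one_ne_zero, if_false, ne_eq, not_true,
      false_and, true_and, cmp_dir1, one_mul]
    by_cases hij : (i : ℕ) = j + 1
    · rw [if_pos (by omega), if_neg (by omega), if_neg (by omega), if_pos (by omega), hdp]
      have e5 : 2 * (((j : ℕ) + h + 1 : ℕ) : ℤ) + 3 + (c : ℤ) =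
          2 * (r : ℤ) + (2 * (j : ℤ) - 2 * C) := by
        rw [hcz, hrz]
        push_cast
        ring
      have f1 : A ^ C * (A ^ (2 * (j : ℤ) - C)) ^ (-(1 : ℤ)) = A ^ (-(2 * (j : ℤ) - 2 * C)) := by
        rw [← zpow_mul, ← zpow_natCast, ← zpow_add₀ hA0]
        congr 1
        ring
      have f2 : (A ^ C)⁻¹ * (A ^ (2 * (j : ℤ) - C)) ^ (1 : ℤ) = A ^ (2 * (j : ℤ) - 2 * C) := by
        rw [← zpow_natCast, zpow_one, ← zpow_neg, ← zpow_add₀ hA0]
        congr 1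
        ring
      have f3 : A ^ (-(2 * (j : ℤ) - 2 * C)) - A ^ (2 * (j : ℤ) - 2 * C) = A ^ (r : ℤ) *
          ((A ^ (r : ℤ))⁻¹ * (A ^ (-(2 * (j : ℤ) - 2 * C)) - A ^ (2 * (j : ℤ) - 2 * C))) := by
        rw [← mul_assoc, mul_inv_cancel₀ hε0, one_mul]
      rw [e5, cmp_cur2r hr0 hA, shiftc, f1, f2, mul_right_comm, hG (-1) (by omega), zpow_neg_one,
        f3, hdiv]
      rw [← mul_div_assoc, ← f3]
    · rw [if_neg (by omega), if_neg (by omega), mul_zero, zero_mul]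

/-- the word on the window -/
theorem cmp_word {r c C h : ℕ} (hr : r = c + 2 + C) (hc : c = 2 * h + 1) {A : ℂ}
    (hA : IsPrimitiveRoot A (4 * r)) (w : List (Fin 2 × Bool)) :
    ∃ u : ℂ, u ≠ 0 ∧
      (wordMat r c A w).submatrix (cmp_sig (C := C) hr hc) (cmp_sig (C := C) hr hc) =
        u • (cmp_G r A C * wordW C A w * cmp_G' r A C) := by
  have hA0 : A ≠ 0 := hA.ne_zero (by omega)
  have hε0 : A ^ (r : ℤ) ≠ 0 := zpow_ne_zero _ hA0
  have hgood : Good C A := good_of_prim (by omega) hA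
  obtain ⟨hG1, hG2⟩ := cmp_GG (r := r) hA0 C
  set e : Win C ≃ Col r c := Equiv.ofBijective _ (cmp_sig_bij (C := C) hr hc) with he
  have hinv : ∀ (M : Matrix (Col r c) (Col r c) ℂ) (i : Fin 2) (u : ℂ), u ≠ 0 →
      M.submatrix e e = u • (cmp_G r A C * letW C A (i, true) * cmp_G' r A C) →
      M⁻¹.submatrix e e = u⁻¹ • (cmp_G r A C * letW C A (i, false) * cmp_G' r A C) := by
    intro M i u hu hM
    rw [← Matrix.inv_submatrix_equiv, hM]
    refine Matrix.inv_eq_right_inv ?_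
    have h1 : cmp_G r A C * letW C A (i, true) * cmp_G' r A C *
        (cmp_G r A C * letW C A (i, false) * cmp_G' r A C) = 1 := by
      calc _ = cmp_G r A C * letW C A (i, true) * (cmp_G' r A C * cmp_G r A C) *
            letW C A (i, false) * cmp_G' r A C := by simp only [Matrix.mul_assoc]
        _ = cmp_G r A C * (letW C A (i, true) * letW C A (i, !true)) * cmp_G' r A C := by
            rw [hG2, Matrix.mul_one, Matrix.mul_assoc (cmp_G r A C)]
            rfl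
        _ = 1 := by rw [letW_inv hgood i true, Matrix.mul_one, hG1]
    rw [Matrix.smul_mul, Matrix.mul_smul, smul_smul, mul_inv_cancel₀ hu, one_smul, h1]
  have hX := cmp_X (C := C) hr hc hA
  have hY := cmp_Y (C := C) hr hc hA
  rw [← one_smul ℂ (cmp_G r A C * letW C A (1, true) * cmp_G' r A C)] at hY
  have hlet : ∀ l : Fin 2 × Bool, ∃ u : ℂ, u ≠ 0 ∧
      (wordMat r c A [l]).submatrix e e = u • (cmp_G r A C * letW C A l * cmp_G' r A C) := by
    rintro ⟨i, b⟩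
    fin_cases i <;> cases b
    · refine ⟨_, inv_ne_zero hε0, Eq.trans ?_ (hinv _ _ _ hε0 hX)⟩
      simp [wordMat]
    · refine ⟨_, hε0, Eq.trans ?_ hX⟩
      simp [wordMat]
      rfl
    · refine ⟨_, inv_ne_zero one_ne_zero, Eq.trans ?_ (hinv _ _ _ one_ne_zero hY)⟩
      simp [wordMat]
    · refine ⟨_, one_ne_zero, Eq.trans ?_ hY⟩
      simp [wordMat]
      rfl
  have hcons : ∀ (l : Fin 2 × Bool) (w : List (Fin 2 × Bool)),
      wordMat r c A (l :: w) = wordMat r c A [l] * wordMat r c A w := by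
    intro l w
    simp [wordMat]
  change ∃ u : ℂ, u ≠ 0 ∧ (wordMat r c A w).submatrix e e = _
  induction w with
  | nil =>
    refine ⟨1, one_ne_zero, ?_⟩
    rw [wordMat, List.map_nil, List.prod_nil, Matrix.submatrix_one_equiv, wordW, List.map_nil,
      List.prod_nil, Matrix.mul_one, hG1, one_smul]
  | cons l w ih =>
    obtain ⟨u, hu, hw⟩ := ih
    obtain ⟨u', hu', hl⟩ := hlet l
    refine ⟨u' * u, mul_ne_zero hu' hu, ?_⟩
    rw [wordW] at hw
    rw [hcons, wordW, List.map_cons, List.prod_cons, ← Matrix.submatrix_mul_equiv _ _ e e e, hl, hw,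
      Matrix.smul_mul, Matrix.mul_smul, smul_smul]
    congr 1
    calc _ = cmp_G r A C * letW C A l * (cmp_G' r A C * cmp_G r A C) *
          (w.map (letW C A)).prod * cmp_G' r A C := by simp only [Matrix.mul_assoc]
      _ = _ := by
          rw [hG2, Matrix.mul_one]
          simp only [Matrix.mul_assoc]

theorem cmp {r c C : ℕ} (hr : r = c + 2 + C) (hc : Odd c) {A : ℂ}
    (hA : IsPrimitiveRoot A (4 * r)) (w : List (Fin 2 × Bool)) :
    Nonempty (Col r c) ∧ ∀ (n : ℕ) (z : ℂ), wordMat r c A w ^ n = z • 1 →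
      ∃ z' : ℂ, wordW C A w ^ n = z' • 1 := by
  obtain ⟨h, hc⟩ := hc
  have hA0 : A ≠ 0 := hA.ne_zero (by omega)
  obtain ⟨hG1, hG2⟩ := cmp_GG (r := r) hA0 C
  refine ⟨⟨cmp_sig (C := C) hr hc (0, 0)⟩, fun n z hz => ?_⟩
  obtain ⟨u, hu, hw⟩ := cmp_word (C := C) hr hc hA w
  set e : Win C ≃ Col r c := Equiv.ofBijective _ (cmp_sig_bij (C := C) hr hc) with he
  change (wordMat r c A w).submatrix e e = _ at hw
  have h1 : ∀ m : ℕ, (wordMat r c A w ^ m).submatrix e e =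
      u ^ m • (cmp_G r A C * wordW C A w ^ m * cmp_G' r A C) := by
    intro m
    induction m with
    | zero =>
      rw [pow_zero, pow_zero, pow_zero, Matrix.submatrix_one_equiv, Matrix.mul_one, hG1, one_smul]
    | succ m ih =>
      rw [pow_succ, pow_succ, pow_succ, ← Matrix.submatrix_mul_equiv _ _ e e e, ih, hw,
        Matrix.smul_mul, Matrix.mul_smul, smul_smul]
      congr 1
      calc _ = cmp_G r A C * wordW C A w ^ m * (cmp_G' r A C * cmp_G r A C) *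
            wordW C A w * cmp_G' r A C := by simp only [Matrix.mul_assoc]
        _ = _ := by
            rw [hG2, Matrix.mul_one]
            simp only [Matrix.mul_assoc]
  have h2 := h1 n
  rw [hz] at h2
  have h3 : (z • (1 : Matrix (Col r c) (Col r c) ℂ)).submatrix e e = z • 1 := by
    ext i j
    rw [Matrix.submatrix_apply, Matrix.smul_apply, Matrix.smul_apply,
      Matrix.one_apply, Matrix.one_apply]
    simp only [EmbeddingLike.apply_eq_iff_eq]
  rw [h3] at h2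
  refine ⟨(u ^ n)⁻¹ * z, ?_⟩
  calc wordW C A w ^ n = cmp_G' r A C * (cmp_G r A C * wordW C A w ^ n * cmp_G' r A C) *
        cmp_G r A C := by
        rw [Matrix.mul_assoc (cmp_G r A C), ← Matrix.mul_assoc (cmp_G' r A C), hG2,
          Matrix.one_mul, Matrix.mul_assoc, hG2, Matrix.mul_one]
    _ = cmp_G' r A C * ((u ^ n)⁻¹ • (z • 1)) * cmp_G r A C := by
        rw [h2, smul_smul, inv_mul_cancel₀ (pow_ne_zero _ hu), one_smul]
    _ = _ := by
        rw [smul_smul, Matrix.mul_smul, Matrix.mul_one, Matrix.smul_mul, hG2]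

end Pool.Agent.AMG
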