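import Pool.Agent.AMG.DefsB

/-!
# Gordan's alternative in the plane, relative to a vector

Used by the AMG campaign (paper: step T5/T6).
-/

namespace Pool.Agent.AMG

namespace Sep

/-- The subsemigroup generated by a finite set. -/
def gen (W : Finset (ℤ × ℤ)) : AddSubsemigroup (ℤ × ℤ) :=
  AddSubsemigroup.closure (W : Set (ℤ × ℤ))

theorem mem_gen {W : Finset (ℤ × ℤ)} {w : ℤ × ℤ} (h : w ∈ W) : w ∈ gen W :=
  AddSubsemigroup.subset_closure h

theorem gen_mono {W W' : Finset (ℤ × ℤ)} (h : W ⊆ W') : gen W ≤ gen W' :=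
  AddSubsemigroup.closure_mono (by exact_mod_cast h)

theorem nsmul_mem {T : AddSubsemigroup (ℤ × ℤ)} {x : ℤ × ℤ} (hx : x ∈ T) (n : ℕ) (hn : 0 < n) :
    n • x ∈ T := by
  induction n with
  | zero => exact absurd hn (lt_irrefl 0)
  | succ n ih =>
    rcases Nat.eq_zero_or_pos n with rfl | h
    · simpa using hx
    · rw [succ_nsmul]
      exact T.add_mem (ih h) hx

theorem zsmul_mem {T : AddSubsemigroup (ℤ × ℤ)} {x : ℤ × ℤ} (hx : x ∈ T) (n : ℤ) (hn : 0 < n) :
    n • x ∈ T := by
  obtain ⟨m, rfl⟩ := Int.eq_ofNat_of_zero_le hn.le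
  have := nsmul_mem hx m (by exact_mod_cast hn)
  simpa using this

/-- Nonnegative combinations, not both coefficients zero. -/
theorem comb_mem {T : AddSubsemigroup (ℤ × ℤ)} {x y : ℤ × ℤ} (hx : x ∈ T) (hy : y ∈ T)
    (a b : ℤ) (ha : 0 ≤ a) (hb : 0 ≤ b) (hab : 0 < a ∨ 0 < b) : a • x + b • y ∈ T := by
  rcases ha.eq_or_lt with rfl | ha'
  · rcases hab with h | h
    · exact absurd h (lt_irrefl 0)
    · simpa using zsmul_mem hy b h
  · rcases hb.eq_or_lt with rfl | hb'
    · simpa using zsmul_mem hx a ha'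
    · exact T.add_mem (zsmul_mem hx a ha') (zsmul_mem hy b hb')

/-- Gordan's alternative in the plane. -/
theorem gordan (W : Finset (ℤ × ℤ)) :
    (0 : ℤ × ℤ) ∈ gen W ∨ ∃ p q : ℤ, ∀ w ∈ W, 0 < p * w.1 + q * w.2 := by
  classical
  induction W using Finset.induction_on with
  | empty => exact Or.inr ⟨0, 0, by simp⟩
  | insert v W hv ih =>
    rcases ih with h0 | ⟨p, q, hpq⟩
    · exact Or.inl (gen_mono (Finset.subset_insert v W) h0)
    rcases W.eq_empty_or_nonempty with rfl | hne
    · by_cases hv0 : v = 0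
      · left
        rw [← hv0]
        exact mem_gen (Finset.mem_insert_self _ _)
      · right
        refine ⟨v.1, v.2, fun w hw => ?_⟩
        have hw' : w = v := by simpa using hw
        subst hw'
        have : w.1 ≠ 0 ∨ w.2 ≠ 0 := by
          by_contra hcon
          push Not at hcon
          exact hv0 (Prod.ext hcon.1 hcon.2)
        rcases this with h | h
        · have := mul_self_pos.2 h
          nlinarith [mul_self_nonneg w.2]
        · have := mul_self_pos.2 h
          nlinarith [mul_self_nonneg w.1]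
    · by_cases hlv : 0 < p * v.1 + q * v.2
      · right
        refine ⟨p, q, fun w hw => ?_⟩
        rcases Finset.mem_insert.1 hw with rfl | hw
        · exact hlv
        · exact hpq w hw
      · push Not at hlv
        -- key extension
        have key : ∀ ε : ℤ, (∀ w ∈ W, 0 < ε * ((p * w.1 + q * w.2) * (-q * v.1 + p * v.2) -
            (p * v.1 + q * v.2) * (-q * w.1 + p * w.2))) →
            ∃ p' q' : ℤ, ∀ w ∈ insert v W, 0 < p' * w.1 + q' * w.2 := by
          intro ε hε
          -- choose `w0` which maximises `- f / l`, `f = ε * (-q, p)`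
          obtain ⟨w0, hw0, hmin⟩ := W.exists_min_image
            (fun w => ((ε * (-q * w.1 + p * w.2) : ℤ) : ℚ) / ((p * w.1 + q * w.2 : ℤ) : ℚ)) hne
          have hmin' : ∀ w ∈ W, (ε * (-q * w0.1 + p * w0.2)) * (p * w.1 + q * w.2) ≤
              (ε * (-q * w.1 + p * w.2)) * (p * w0.1 + q * w0.2) := by
            intro w hw
            have h1 := hmin w hw
            have h2 : (0 : ℚ) < ((p * w.1 + q * w.2 : ℤ) : ℚ) := by exact_mod_cast hpq w hw
            have h3 : (0 : ℚ) < ((p * w0.1 + q * w0.2 : ℤ) : ℚ) := by exact_mod_cast hpq w0 hw0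
            rw [div_le_div_iff₀ h3 h2] at h1
            exact_mod_cast h1
          set c : ℤ := (p * w0.1 + q * w0.2) - (p * v.1 + q * v.2) with hc
          set d : ℤ := ε * (-q * v.1 + p * v.2) - ε * (-q * w0.1 + p * w0.2) with hd
          refine ⟨c * (ε * (-q)) + d * p, c * (ε * p) + d * q, fun w hw => ?_⟩
          rcases Finset.mem_insert.1 hw with rfl | hw
          · have h1 := hε w0 hw0
            have h2 : (c * (ε * (-q)) + d * p) * w.1 + (c * (ε * p) + d * q) * w.2 =
                ε * ((p * w0.1 + q * w0.2) * (-q * w.1 + p * w.2) -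
                  (p * w.1 + q * w.2) * (-q * w0.1 + p * w0.2)) := by
              rw [hc, hd]; ring
            rw [h2]; exact h1
          · have h1 := hε w hw
            have h2 := hmin' w hw
            have h3 : (c * (ε * (-q)) + d * p) * w.1 + (c * (ε * p) + d * q) * w.2 =
                ε * ((p * w.1 + q * w.2) * (-q * v.1 + p * v.2) -
                  (p * v.1 + q * v.2) * (-q * w.1 + p * w.2)) +
                ((ε * (-q * w.1 + p * w.2)) * (p * w0.1 + q * w0.2) -
                  (ε * (-q * w0.1 + p * w0.2)) * (p * w.1 + q * w.2)) := by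
              rw [hc, hd]; ring
            rw [h3]; linarith
        by_cases hpos : ∀ w ∈ W, 0 < (p * w.1 + q * w.2) * (-q * v.1 + p * v.2) -
            (p * v.1 + q * v.2) * (-q * w.1 + p * w.2)
        · exact Or.inr (key 1 (by simpa using hpos))
        by_cases hneg : ∀ w ∈ W, (p * w.1 + q * w.2) * (-q * v.1 + p * v.2) -
            (p * v.1 + q * v.2) * (-q * w.1 + p * w.2) < 0
        · exact Or.inr (key (-1) (fun w hw => by have := hneg w hw; linarith))
        · left
          push Not at hpos hneg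
          obtain ⟨w2, hw2, h2⟩ := hpos
          obtain ⟨w1, hw1, h1⟩ := hneg
          set g1 : ℤ := (p * w1.1 + q * w1.2) * (-q * v.1 + p * v.2) -
            (p * v.1 + q * v.2) * (-q * w1.1 + p * w1.2) with hg1
          set g2 : ℤ := (p * w2.1 + q * w2.2) * (-q * v.1 + p * v.2) -
            (p * v.1 + q * v.2) * (-q * w2.1 + p * w2.2) with hg2
          have hv' : v ∈ gen (insert v W) := mem_gen (Finset.mem_insert_self _ _)
          have hm : ∀ w ∈ W, (p * w.1 + q * w.2) • v + (-(p * v.1 + q * v.2)) • w ∈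
              gen (insert v W) := fun w hw =>
            comb_mem hv' (mem_gen (Finset.mem_insert_of_mem hw)) _ _ (hpq w hw).le
              (by linarith) (Or.inl (hpq w hw))
          -- a vector killed by both forms is zero
          have hpq0 : 0 < p * p + q * q := by
            obtain ⟨w, hw⟩ := hne
            have h3 := hpq w hw
            by_contra hcon
            push Not at hcon
            have hp0 : p = 0 := by nlinarith [mul_self_nonneg p, mul_self_nonneg q]
            have hq0 : q = 0 := by nlinarith [mul_self_nonneg p, mul_self_nonneg q]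
            rw [hp0, hq0] at h3
            simp at h3
          have hzero : ∀ x : ℤ × ℤ, p * x.1 + q * x.2 = 0 → -q * x.1 + p * x.2 = 0 → x = 0 := by
            intro x hx1 hx2
            have e1 : (p * p + q * q) * x.1 = 0 := by linear_combination p * hx1 - q * hx2
            have e2 : (p * p + q * q) * x.2 = 0 := by linear_combination q * hx1 + p * hx2
            refine Prod.ext ?_ ?_
            · simpa [hpq0.ne'] using e1
            · simpa [hpq0.ne'] using e2
          by_cases hg : g1 = 0
          · have h4 : (p * w1.1 + q * w1.2) • v + (-(p * v.1 + q * v.2)) • w1 = 0 := by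
              apply hzero
              · simp only [Prod.fst_add, Prod.snd_add, Prod.smul_fst, Prod.smul_snd, smul_eq_mul]
                ring
              · simp only [Prod.fst_add, Prod.snd_add, Prod.smul_fst, Prod.smul_snd, smul_eq_mul]
                rw [← hg, hg1]; ring
            rw [← h4]
            exact hm w1 hw1
          · have hg1pos : 0 < g1 := lt_of_le_of_ne h1 (Ne.symm hg)
            have h5 := comb_mem (hm w1 hw1) (hm w2 hw2) (-g2) g1 (by linarith) hg1pos.le
              (Or.inr hg1pos)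
            have h4 : (-g2) • ((p * w1.1 + q * w1.2) • v + (-(p * v.1 + q * v.2)) • w1) +
                g1 • ((p * w2.1 + q * w2.2) • v + (-(p * v.1 + q * v.2)) • w2) = 0 := by
              apply hzero
              · simp only [Prod.fst_add, Prod.snd_add, Prod.smul_fst, Prod.smul_snd, smul_eq_mul]
                ring
              · simp only [Prod.fst_add, Prod.snd_add, Prod.smul_fst, Prod.smul_snd, smul_eq_mul]
                have e1 : ∀ w : ℤ × ℤ, -q * ((p * w.1 + q * w.2) * v.1 +
                    (-(p * v.1 + q * v.2)) * w.1) + p * ((p * w.1 + q * w.2) * v.2 +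
                    (-(p * v.1 + q * v.2)) * w.2) =
                    (p * w.1 + q * w.2) * (-q * v.1 + p * v.2) -
                    (p * v.1 + q * v.2) * (-q * w.1 + p * w.2) := fun w => by ring
                have e2 := e1 w1
                have e3 := e1 w2
                rw [← hg1] at e2
                rw [← hg2] at e3
                linear_combination (-g2) * e2 + g1 * e3
            rw [← h4]
            exact h5

/-- Gordan's alternative in the plane, relative to a vector `V`. -/
theorem gordanV (W : Finset (ℤ × ℤ)) (V : ℤ × ℤ) :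
    (∃ s : ℤ, s • V ∈ gen W) ∨
      ∃ p q : ℤ, p * V.1 + q * V.2 = 0 ∧ ∀ w ∈ W, 0 < p * w.1 + q * w.2 := by
  classical
  by_cases hV : V = 0
  · subst hV
    rcases gordan W with h | ⟨p, q, h⟩
    · exact Or.inl ⟨0, by simpa using h⟩
    · exact Or.inr ⟨p, q, by simp, h⟩
  · by_cases hpos : ∀ w ∈ W, 0 < V.1 * w.2 - V.2 * w.1
    · exact Or.inr ⟨-V.2, V.1, by ring, fun w hw => by have := hpos w hw; linarith⟩
    by_cases hneg : ∀ w ∈ W, V.1 * w.2 - V.2 * w.1 < 0
    · exact Or.inr ⟨V.2, -V.1, by ring, fun w hw => by have := hneg w hw; linarith⟩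
    left
    push Not at hpos hneg
    obtain ⟨w2, hw2, h2⟩ := hpos
    obtain ⟨w1, hw1, h1⟩ := hneg
    -- a vector in the semigroup parallel to `V`
    obtain ⟨x, hx, hx0⟩ : ∃ x ∈ gen W, V.1 * x.2 - V.2 * x.1 = 0 := by
      rcases h1.eq_or_lt with h | h
      · exact ⟨w1, mem_gen hw1, h.symm⟩
      · refine ⟨_, comb_mem (mem_gen hw1) (mem_gen hw2) (-(V.1 * w2.2 - V.2 * w2.1))
          (V.1 * w1.2 - V.2 * w1.1) (by linarith) h.le (Or.inr h), ?_⟩
        simp only [Prod.fst_add, Prod.snd_add, Prod.smul_fst, Prod.smul_snd, smul_eq_mul]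
        ring
    have hmul : ∀ k : ℤ, 0 < k → ∀ s : ℤ, k • x = s • V → ∃ s : ℤ, s • V ∈ gen W :=
      fun k hk s h => ⟨s, h ▸ zsmul_mem hx k hk⟩
    by_cases hV1 : V.1 = 0
    · have hV2 : V.2 ≠ 0 := fun h => hV (Prod.ext hV1 h)
      have hx1 : x.1 = 0 := by
        have : V.2 * x.1 = 0 := by rw [hV1] at hx0; linarith
        simpa [hV2] using this
      rcases lt_or_gt_of_ne hV2 with h | h
      · refine hmul (-V.2) (by linarith) (-x.2) (Prod.ext ?_ ?_)
        · simp [hx1, hV1]
        · simp only [Prod.smul_snd, smul_eq_mul]; ring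
      · refine hmul V.2 h x.2 (Prod.ext ?_ ?_)
        · simp [hx1, hV1]
        · simp only [Prod.smul_snd, smul_eq_mul]; ring
    · rcases lt_or_gt_of_ne hV1 with h | h
      · refine hmul (-V.1) (by linarith) (-x.1) (Prod.ext ?_ ?_)
        · simp only [Prod.smul_fst, smul_eq_mul]; ring
        · simp only [Prod.smul_snd, smul_eq_mul]; linarith
      · refine hmul V.1 h x.1 (Prod.ext ?_ ?_)
        · simp only [Prod.smul_fst, smul_eq_mul]; ring
        · simp only [Prod.smul_snd, smul_eq_mul]; linarith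

end Sep

theorem sep (U D : Finset (ℤ × ℤ)) (hU : U.Nonempty) (hD : D.Nonempty) (V : ℤ × ℤ) :
    (∃ L : List ((ℤ × ℤ) × (ℤ × ℤ)), L ≠ [] ∧ (∀ p ∈ L, p.1 ∈ U ∧ p.2 ∈ D) ∧
      ∃ s : ℤ, (L.map fun p => p.2 - p.1).sum = s • V) ∨
    ∃ (l : ℤ × ℤ →+ ℝ) (θ : ℝ), l V = 0 ∧ (∀ u ∈ U, l u < θ) ∧ ∀ d ∈ D, θ < l d := by
  classical
  set W : Finset (ℤ × ℤ) := (U ×ˢ D).image fun p => p.2 - p.1 with hWdef
  have hW : W.Nonempty := (hU.product hD).image _
  have hlist : ∀ x ∈ Sep.gen W, ∃ L : List ((ℤ × ℤ) × (ℤ × ℤ)), L ≠ [] ∧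
      (∀ p ∈ L, p.1 ∈ U ∧ p.2 ∈ D) ∧ (L.map fun p => p.2 - p.1).sum = x := by
    intro x hx
    refine AddSubsemigroup.closure_induction (p := fun x _ => ∃ L : List ((ℤ × ℤ) × (ℤ × ℤ)),
      L ≠ [] ∧ (∀ p ∈ L, p.1 ∈ U ∧ p.2 ∈ D) ∧ (L.map fun p => p.2 - p.1).sum = x) ?_ ?_ hx
    · intro w hw
      have hw' : w ∈ W := hw
      rw [hWdef, Finset.mem_image] at hw'
      obtain ⟨pr, hpr, rfl⟩ := hw'
      rw [Finset.mem_product] at hpr
      refine ⟨[pr], by simp, ?_, by simp⟩
      intro p hp
      rw [List.mem_singleton] at hp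
      rw [hp]; exact hpr
    · rintro x y _ _ ⟨L1, h1, h2, h3⟩ ⟨L2, h4, h5, h6⟩
      refine ⟨L1 ++ L2, by simp [h1], ?_, by rw [List.map_append, List.sum_append, h3, h6]⟩
      intro p hp
      rcases List.mem_append.1 hp with h | h
      · exact h2 p h
      · exact h5 p h
  rcases Sep.gordanV W V with ⟨s, hs⟩ | ⟨p, q, h0, hw⟩
  · left
    obtain ⟨L, h1, h2, h3⟩ := hlist _ hs
    exact ⟨L, h1, h2, s, h3⟩
  · right
    set l : ℤ × ℤ →+ ℝ :=
      { toFun := fun x => ((p * x.1 + q * x.2 : ℤ) : ℝ)
        map_zero' := by simp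
        map_add' := fun x y => by
          simp only [Prod.fst_add, Prod.snd_add]
          push_cast
          ring } with hl
    have hlap : ∀ x : ℤ × ℤ, l x = ((p * x.1 + q * x.2 : ℤ) : ℝ) := fun x => rfl
    obtain ⟨u0, hu0, hmax⟩ := U.exists_max_image (fun u => l u) hU
    obtain ⟨d0, hd0, hmin⟩ := D.exists_min_image (fun u => l u) hD
    have hlt : l u0 < l d0 := by
      have h1 := hw (d0 - u0) (by
        rw [hWdef, Finset.mem_image]
        exact ⟨(u0, d0), Finset.mem_product.2 ⟨hu0, hd0⟩, rfl⟩)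
      rw [hlap, hlap]
      simp only [Prod.fst_sub, Prod.snd_sub] at h1
      have h2 : p * u0.1 + q * u0.2 < p * d0.1 + q * d0.2 := by linarith
      exact_mod_cast h2
    refine ⟨l, (l u0 + l d0) / 2, ?_, fun u hu => ?_, fun d hd => ?_⟩
    · rw [hlap, h0]; simp
    · have := hmax u hu
      linarith
    · have := hmin d hd
      linarith

end Pool.Agent.AMG
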