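import Pool.Agent.AMG.DefsB

/-!
# Structure of separated edge paths (paper: step T6, first half)
-/

namespace Pool.Agent.AMG

namespace Struct

theorem sum3 (lam : ZMod 3 → ℝ) (hsum : lam 0 + lam 1 + lam 2 = 0) (c : ZMod 3) :
    lam c + lam (c + 1) + lam (c - 1) = 0 := by
  have h : ∀ c : ZMod 3, c = 0 ∨ c = 1 ∨ c = 2 := by decide
  have e1 : (0 : ZMod 3) + 1 = 1 := by decide
  have e2 : (0 : ZMod 3) - 1 = 2 := by decide
  have e3 : (1 : ZMod 3) + 1 = 2 := by decide
  have e4 : (1 : ZMod 3) - 1 = 0 := by decide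
  have e5 : (2 : ZMod 3) + 1 = 0 := by decide
  have e6 : (2 : ZMod 3) - 1 = 1 := by decide
  rcases h c with rfl | rfl | rfl
  · rw [e1, e2]; linarith
  · rw [e3, e4]; linarith
  · rw [e5, e6]; linarith

theorem turn {e : ℕ → ZMod 3} (h : ∀ i, e (i + 1) ≠ e i) (i : ℕ) :
    e (i + 1) = e i + 1 ∨ e (i + 1) = e i - 1 := by
  have h3 : ∀ x y : ZMod 3, y ≠ x → y = x + 1 ∨ y = x - 1 := by decide
  exact h3 _ _ (h i)

theorem per_mul {X : Type*} {f : ℕ → X} {N : ℕ} (h : ∀ i, f (i + N) = f i) (i k : ℕ) :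
    f (i + N * k) = f i := by
  induction k with
  | zero => simp
  | succ k ih => rw [Nat.mul_succ, ← Nat.add_assoc, h, ih]

/-- The case of one negative and two nonnegative weights. -/
theorem aux (e : ℕ → ZMod 3) (N : ℕ) (hN : 0 < N) (he : Cyc e N) (lam : ZMod 3 → ℝ)
    (hsum : lam 0 + lam 1 + lam 2 = 0) (G : ℕ → ℝ) (hG : ∀ i, G (i + 1) = G i + lam (e (i + 1)))
    (hGN : ∀ i, G (i + N) = G i) (θ : ℝ) (hup : ∀ i, e (i + 1) = e i + 1 → θ < G i)
    (hdn : ∀ i, e (i + 1) = e i - 1 → G i < θ) (c : ZMod 3) (hc : lam c < 0)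
    (ha : 0 ≤ lam (c + 1)) (hb : 0 ≤ lam (c - 1)) :
    (∀ i, e (i + 1) = e i + 1) ∨ (∀ i, e (i + 1) = e i - 1) ∨
    ∃ (a b c : ZMod 3) (t : ℕ) (α β : ℝ) (h : ℕ → ℝ), a ≠ b ∧ b ≠ c ∧ a ≠ c ∧ 0 ≤ α ∧ 0 ≤ β ∧
      (∀ i, h (i + N) = h i) ∧
      ∀ i, e (t + 2 * i) = b ∧
        ((e (t + 2 * i + 1) = a ∧ -α < h (t + 2 * i) ∧ h (t + 2 * i) < 0 ∧
            h (t + 2 * i + 2) = h (t + 2 * i) + β) ∨
          (e (t + 2 * i + 1) = c ∧ 0 < h (t + 2 * i) ∧ h (t + 2 * i) < β ∧
            h (t + 2 * i + 2) = h (t + 2 * i) - α)) := by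
  have hS := sum3 lam hsum c
  have f1 : ∀ x : ZMod 3, x + 1 + 1 = x - 1 := by decide
  have f2 : ∀ x : ZMod 3, x + 1 + 1 + 1 = x := by decide
  have f3 : ∀ x : ZMod 3, x - 1 + 1 = x := by decide
  have f4 : ∀ x : ZMod 3, x - 1 - 1 = x + 1 := by decide
  have f5 : ∀ x : ZMod 3, x + 1 - 1 = x := by decide
  have f6 : ∀ x y : ZMod 3, x ≠ y → x = y + 1 ∨ x = y - 1 := by decide
  have f7 : ∀ x y : ZMod 3, y = x - 1 → x = y + 1 := by decide
  have f8 : ∀ x y : ZMod 3, y = x + 1 → x = y - 1 := by decide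
  have d1 : ∀ x : ZMod 3, x + 1 ≠ x - 1 := by decide
  have d2 : ∀ x : ZMod 3, x - 1 ≠ x := by decide
  have d3 : ∀ x : ZMod 3, x + 1 ≠ x := by decide
  -- turns of definite sign
  have up : ∀ i, θ ≤ G i → e (i + 1) = e i + 1 := fun i hi => by
    rcases turn he.2 i with h | h
    · exact h
    · exact absurd (hdn i h) (not_lt.2 hi)
  have dn : ∀ i, G i ≤ θ → e (i + 1) = e i - 1 := fun i hi => by
    rcases turn he.2 i with h | h
    · exact absurd (hup i h) (not_lt.2 hi)
    · exact h
  -- a `c` which is followed by a turn up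
  by_cases h1 : ∃ i, e i = c ∧ e (i + 1) = c + 1
  · left
    obtain ⟨i, hi, hi'⟩ := h1
    have hθ : θ < G i := hup i (by rw [hi, hi'])
    have inv : ∀ k, (e (i + k) = c ∧ θ < G (i + k)) ∨
        (e (i + k) = c + 1 ∧ θ < G (i + k) - lam (c + 1)) ∨
        (e (i + k) = c - 1 ∧ θ < G (i + k) - lam (c + 1) - lam (c - 1)) := by
      intro k
      induction k with
      | zero => exact Or.inl ⟨hi, hθ⟩
      | succ k ih =>
        have hg := hG (i + k)
        rw [← Nat.add_assoc]
        rcases ih with ⟨h2, h3⟩ | ⟨h2, h3⟩ | ⟨h2, h3⟩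
        · right; left
          have h4 := up (i + k) h3.le
          rw [h2] at h4
          rw [h4] at hg
          exact ⟨h4, by rw [hg]; linarith⟩
        · right; right
          have h4 := up (i + k) (by linarith)
          rw [h2, f1] at h4
          rw [h4] at hg
          exact ⟨h4, by rw [hg]; linarith⟩
        · left
          have h4 := up (i + k) (by linarith)
          rw [h2, f3] at h4
          rw [h4] at hg
          exact ⟨h4, by rw [hg]; linarith⟩
    intro j
    have hbig : ∃ k, j + N * i = i + k := ⟨j + N * i - i, by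
      have : i ≤ N * i := Nat.le_mul_of_pos_left i hN
      omega⟩
    obtain ⟨k, hk⟩ := hbig
    have e1 : e (j + 1) = e (i + k + 1) := by
      rw [← hk, show j + N * i + 1 = (j + 1) + N * i by ring, per_mul he.1]
    have e2 : e j = e (i + k) := by rw [← hk, per_mul he.1]
    rw [e1, e2]
    apply up
    rcases inv k with ⟨_, h3⟩ | ⟨_, h3⟩ | ⟨_, h3⟩
    · exact h3.le
    · linarith
    · linarith
  -- a `c` which is preceded by a turn down
  by_cases h1' : ∃ i, e (i + 1) = c ∧ e i = c + 1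
  · right; left
    obtain ⟨i0, hi0', hi0⟩ := h1'
    intro j
    -- shift far to the right
    set i : ℕ := i0 + N * j with hidef
    have hi : e i = c + 1 := by rw [hidef, per_mul he.1]; exact hi0
    have hi' : e (i + 1) = c := by
      rw [hidef, show i0 + N * j + 1 = (i0 + 1) + N * j by ring, per_mul he.1]; exact hi0'
    have hji : j ≤ i := by
      have : j ≤ N * j := Nat.le_mul_of_pos_left j hN
      omega
    have hθ : G i < θ := hdn i (by rw [hi, hi', f5])
    have inv : ∀ k, k ≤ i → (e (i - k) = c + 1 ∧ G (i - k) < θ) ∨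
        (e (i - k) = c - 1 ∧ G (i - k) + lam (c + 1) < θ) ∨
        (e (i - k) = c ∧ G (i - k) + lam (c - 1) + lam (c + 1) < θ) := by
      intro k
      induction k with
      | zero => intro _; exact Or.inl ⟨hi, hθ⟩
      | succ k ih =>
        intro hk
        have hk1 : i - k = (i - (k + 1)) + 1 := by omega
        set m := i - (k + 1) with hm
        have hg := hG m
        rcases ih (by omega) with ⟨h2, h3⟩ | ⟨h2, h3⟩ | ⟨h2, h3⟩
        · right; left
          rw [hk1] at h2 h3
          rw [h2] at hg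
          have h4 := f7 _ _ (dn m (by linarith))
          rw [h2, f1] at h4
          exact ⟨h4, by linarith⟩
        · right; right
          rw [hk1] at h2 h3
          rw [h2] at hg
          have h4 := f7 _ _ (dn m (by linarith))
          rw [h2, f3] at h4
          exact ⟨h4, by linarith⟩
        · left
          rw [hk1] at h2 h3
          rw [h2] at hg
          have h4 := f7 _ _ (dn m (by linarith))
          rw [h2] at h4
          exact ⟨h4, by linarith⟩
    apply dn
    have h5 := inv (i - j) (by omega)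
    have h6 : i - (i - j) = j := by omega
    rw [h6] at h5
    rcases h5 with ⟨_, h3⟩ | ⟨_, h3⟩ | ⟨_, h3⟩
    · exact h3.le
    · linarith
    · linarith
  -- the alternating case
  right; right
  push Not at h1 h1'
  have nc : ∀ i, e i = c → e (i + 1) = c - 1 := fun i hi => by
    rcases turn he.2 i with h | h
    · rw [hi] at h; exact absurd h (h1 i hi)
    · rw [hi] at h; exact h
  have pc : ∀ i, e (i + 1) = c → e i = c - 1 := fun i hi => by
    rcases turn he.2 i with h | h
    · exact f8 _ _ h ▸ by rw [hi]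
    · exact absurd (by rw [f7 _ _ h, hi]) (h1' i hi)
  have na : ∀ i, e i = c + 1 → e (i + 1) = c - 1 := fun i hi => by
    rcases turn he.2 i with h | h
    · rw [hi, f1] at h; exact h
    · rw [hi, f5] at h
      have := pc i h
      rw [hi] at this
      exact absurd this (d1 c)
  have nb : ∀ i, e i ≠ c - 1 → e (i + 1) = c - 1 := fun i hi => by
    rcases eq_or_ne (e i) c with h | h
    · exact nc i h
    · rcases f6 _ _ h with h | h
      · exact na i h
      · exact absurd h hi
  have bb : ∀ i, e i = c - 1 → e (i + 2) = c - 1 := fun i hi => by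
    refine nb (i + 1) ?_
    rw [← hi]; exact he.2 i
  obtain ⟨t, ht⟩ : ∃ t, e t = c - 1 := by
    by_cases h : e 0 = c - 1
    · exact ⟨0, h⟩
    · exact ⟨1, nb 0 h⟩
  have hb' : ∀ i, e (t + 2 * i) = c - 1 := by
    intro i
    induction i with
    | zero => simpa using ht
    | succ i ih => rw [show t + 2 * (i + 1) = t + 2 * i + 2 by ring]; exact bb _ ih
  refine ⟨c + 1, c - 1, c, t, lam (c + 1), - lam c, fun i => G i - θ, ?_, ?_, ?_, ha, by linarith,
    fun i => by simp only; rw [hGN], fun i => ⟨hb' i, ?_⟩⟩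
  · exact d1 c
  · exact d2 c
  · exact d3 c
  · set s := t + 2 * i with hs
    have hsb : e s = c - 1 := hb' i
    have hs2 : e (s + 2) = c - 1 := bb _ hsb
    have g1 := hG s
    have g2 := hG (s + 1)
    rw [show s + 1 + 1 = s + 2 by ring] at g2
    rw [hs2] at g2
    simp only
    rcases turn he.2 s with h | h
    · right
      have h2 : e (s + 1) = c := by rw [h, hsb, f3]
      rw [h2] at g1
      have h3 := hup s h
      have h4 := hdn (s + 1) (by rw [h2]; exact hs2)
      exact ⟨h2, by linarith, by linarith, by rw [g2, g1]; linarith⟩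
    · left
      have h2 : e (s + 1) = c + 1 := by rw [h, hsb, f4]
      rw [h2] at g1
      have h3 := hdn s h
      have h4 := hup (s + 1) (by rw [h2, f1]; exact hs2)
      exact ⟨h2, by linarith, by linarith, by rw [g2, g1]; linarith⟩

end Struct

open Struct in
theorem struct (e : ℕ → ZMod 3) (N : ℕ) (hN : 0 < N) (he : Cyc e N) (lam : ZMod 3 → ℝ)
    (hsum : lam 0 + lam 1 + lam 2 = 0) (G : ℕ → ℝ) (hG : ∀ i, G (i + 1) = G i + lam (e (i + 1)))
    (hGN : ∀ i, G (i + N) = G i) (θ : ℝ) (hup : ∀ i, e (i + 1) = e i + 1 → θ < G i)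
    (hdn : ∀ i, e (i + 1) = e i - 1 → G i < θ) :
    (∀ i, e (i + 1) = e i + 1) ∨ (∀ i, e (i + 1) = e i - 1) ∨
    ∃ (a b c : ZMod 3) (t : ℕ) (α β : ℝ) (h : ℕ → ℝ), a ≠ b ∧ b ≠ c ∧ a ≠ c ∧ 0 ≤ α ∧ 0 ≤ β ∧
      (∀ i, h (i + N) = h i) ∧
      ∀ i, e (t + 2 * i) = b ∧
        ((e (t + 2 * i + 1) = a ∧ -α < h (t + 2 * i) ∧ h (t + 2 * i) < 0 ∧
            h (t + 2 * i + 2) = h (t + 2 * i) + β) ∨
          (e (t + 2 * i + 1) = c ∧ 0 < h (t + 2 * i) ∧ h (t + 2 * i) < β ∧
            h (t + 2 * i + 2) = h (t + 2 * i) - α)) := by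
  -- a negative weight with two nonnegative ones
  by_cases hneg : ∃ c, lam c < 0 ∧ 0 ≤ lam (c + 1) ∧ 0 ≤ lam (c - 1)
  · obtain ⟨c, hc, ha, hb⟩ := hneg
    exact aux e N hN he lam hsum G hG hGN θ hup hdn c hc ha hb
  by_cases hpos : ∃ c, 0 < lam c ∧ lam (c + 1) ≤ 0 ∧ lam (c - 1) ≤ 0
  · obtain ⟨c, hc, ha, hb⟩ := hpos
    have q1 : ∀ x y : ZMod 3, -y = -x + 1 → y = x - 1 := by decide
    have q2 : ∀ x y : ZMod 3, -y = -x - 1 → y = x + 1 := by decide
    have q3 : ∀ x : ZMod 3, -(-x + 1) = x - 1 := by decide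
    have q4 : ∀ x : ZMod 3, -(-x - 1) = x + 1 := by decide
    have q5 : ∀ x y : ZMod 3, -x = y → x = -y := by decide
    have r0 : -(0 : ZMod 3) = 0 := by decide
    have r1 : -(1 : ZMod 3) = 2 := by decide
    have r2 : -(2 : ZMod 3) = 1 := by decide
    have hmain := aux (fun i => - e i) N hN ⟨fun i => by show - e (i + N) = - e i; rw [he.1], fun i hi =>
      he.2 i (neg_injective hi)⟩ (fun x => - lam (-x)) (by simp only [r0, r1, r2]; linarith)
      (fun i => - G i) (fun i => by simp only [neg_neg]; rw [hG]; ring)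
      (fun i => by show - G (i + N) = - G i; rw [hGN]) (-θ)
      (fun i hi => by have := hdn i (q1 _ _ hi); show -θ < - G i; linarith)
      (fun i hi => by have := hup i (q2 _ _ hi); show - G i < -θ; linarith)
      (-c) (by simp only [neg_neg]; linarith) (by simp only [q3]; linarith)
      (by simp only [q4]; linarith)
    rcases hmain with h | h | ⟨a, b, c', t, α, β, h, h1, h2, h3, h4, h5, h6, h7⟩
    · exact Or.inr (Or.inl fun i => q1 _ _ (h i))
    · exact Or.inl fun i => q2 _ _ (h i)
    · refine Or.inr (Or.inr ⟨-a, -b, -c', t, α, β, h, fun hh => h1 (neg_injective hh),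
        fun hh => h2 (neg_injective hh), fun hh => h3 (neg_injective hh), h4, h5, h6, fun i => ?_⟩)
      obtain ⟨k1, k2⟩ := h7 i
      refine ⟨q5 _ _ k1, ?_⟩
      rcases k2 with ⟨k2, k3⟩ | ⟨k2, k3⟩
      · exact Or.inl ⟨q5 _ _ k2, k3⟩
      · exact Or.inr ⟨q5 _ _ k2, k3⟩
  -- all weights vanish
  push Not at hneg hpos
  have h0 : ∀ c, lam c = 0 := by
    have s := sum3 lam hsum
    have f1 : ∀ x : ZMod 3, x + 1 + 1 = x - 1 := by decide
    have f3 : ∀ x : ZMod 3, x - 1 + 1 = x := by decide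
    have f4 : ∀ x : ZMod 3, x - 1 - 1 = x + 1 := by decide
    have f5 : ∀ x : ZMod 3, x + 1 - 1 = x := by decide
    intro c
    have a1 := hneg c
    have a2 := hneg (c + 1)
    have a3 := hneg (c - 1)
    have b1 := hpos c
    have b2 := hpos (c + 1)
    have b3 := hpos (c - 1)
    have sc := s c
    rw [f1, f5] at a2 b2
    rw [f3, f4] at a3 b3
    rcases lt_trichotomy (lam c) 0 with h | h | h
    · exfalso
      by_cases hp : 0 ≤ lam (c + 1)
      · have h5 := a1 h hp
        have h6 := b2 (by linarith) h5.le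
        linarith
      · push Not at hp
        have h6 := b3 (by linarith) h.le
        linarith
    · exact h
    · exfalso
      by_cases hp : lam (c + 1) ≤ 0
      · have h5 := b1 h hp
        have h6 := a2 (by linarith) h5.le
        linarith
      · push Not at hp
        have h6 := a3 (by linarith) h.le
        linarith
  have hG0 : ∀ i, G i = G 0 := by
    intro i
    induction i with
    | zero => rfl
    | succ i ih => rw [hG, h0, add_zero, ih]
  rcases turn he.2 0 with h | h
  · left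
    intro i
    rcases turn he.2 i with h' | h'
    · exact h'
    · have h1 := hup 0 h
      have h2 := hdn i h'
      rw [hG0] at h2
      exact absurd h1 (not_lt.2 h2.le)
  · right; left
    intro i
    rcases turn he.2 i with h' | h'
    · have h1 := hdn 0 h
      have h2 := hup i h'
      rw [hG0] at h2
      exact absurd h1 (not_lt.2 h2.le)
    · exact h'

end Pool.Agent.AMG
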