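import Pool.Agent.AMG.Euclid
import Pool.Agent.AMG.Struct

/-!
# Paths with strictly separated turns give simple elements (Skel M21)
-/

set_option autoImplicit false

open scoped BigOperators

namespace Pool.Agent.AMG

private theorem stp_PP_aut {g : FreeGroup (Fin 2)} (ψ : FreeGroup (Fin 2) ≃* FreeGroup (Fin 2))
    (h : PP g) : PP (ψ g) := by
  obtain ⟨φ, n, rfl⟩ := h
  exact ⟨φ.trans ψ, n, by rw [map_zpow]; rfl⟩

private theorem stp_PP_conj {g : FreeGroup (Fin 2)} (a : FreeGroup (Fin 2)) (h : PP g) :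
    PP (a * g * a⁻¹) := by
  have h1 := stp_PP_aut (MulAut.conj a) h
  rwa [MulAut.conj_apply] at h1

/-- a basis of the free group -/
private def IsB (g h : FreeGroup (Fin 2)) : Prop :=
  ∃ ψ : FreeGroup (Fin 2) ≃* FreeGroup (Fin 2), ψ (FreeGroup.of 0) = g ∧ ψ (FreeGroup.of 1) = h

private theorem IsB.swap {g h : FreeGroup (Fin 2)} (H : IsB g h) : IsB h g := by
  obtain ⟨ψ, h0, h1⟩ := H
  refine ⟨(FreeGroup.freeGroupCongr (Equiv.swap 0 1)).trans ψ, ?_, ?_⟩
  · simp [h1]
  · simp [h0]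

private def invL : FreeGroup (Fin 2) ≃* FreeGroup (Fin 2) :=
  MonoidHom.toMulEquiv
    (FreeGroup.lift ![(FreeGroup.of 0)⁻¹, FreeGroup.of 1])
    (FreeGroup.lift ![(FreeGroup.of 0)⁻¹, FreeGroup.of 1])
    (by
      ext i
      fin_cases i <;> simp)
    (by
      ext i
      fin_cases i <;> simp)

private def shearL : FreeGroup (Fin 2) ≃* FreeGroup (Fin 2) :=
  MonoidHom.toMulEquiv
    (FreeGroup.lift ![FreeGroup.of 0 * FreeGroup.of 1, FreeGroup.of 1])
    (FreeGroup.lift ![FreeGroup.of 0 * (FreeGroup.of 1)⁻¹, FreeGroup.of 1])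
    (by
      ext i
      fin_cases i <;> simp)
    (by
      ext i
      fin_cases i <;> simp)

private theorem IsB.inv {g h : FreeGroup (Fin 2)} (H : IsB g h) : IsB g⁻¹ h := by
  obtain ⟨ψ, h0, h1⟩ := H
  refine ⟨invL.trans ψ, ?_, ?_⟩
  · simp [invL, h0]
  · simp [invL, h1]

private theorem IsB.inv' {g h : FreeGroup (Fin 2)} (H : IsB g h) : IsB g h⁻¹ :=
  H.swap.inv.swap

private theorem IsB.mul {g h : FreeGroup (Fin 2)} (H : IsB g h) : IsB (g * h) h := by
  obtain ⟨ψ, h0, h1⟩ := H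
  refine ⟨shearL.trans ψ, ?_, ?_⟩
  · simp [shearL, h0, h1]
  · simp [shearL, h1]

private theorem IsB.std : IsB (FreeGroup.of 0) (FreeGroup.of 1) :=
  ⟨MulEquiv.refl _, rfl, rfl⟩

private theorem gel0 : gel 0 = FreeGroup.of 0 * FreeGroup.of 1 := by
  unfold gel
  rw [if_neg (by decide), if_neg (by decide)]

private theorem gel1 : gel 1 = 1 := by
  unfold gel
  rw [if_pos rfl]

private theorem gel2 : gel 2 = FreeGroup.of 0 := by
  unfold gel
  rw [if_neg (by decide), if_pos rfl]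

private theorem zm3 (x : ZMod 3) : x = 0 ∨ x = 1 ∨ x = 2 := by
  revert x
  decide

/-- the three edges give bases -/
private theorem isB_gel {a b c : ZMod 3} (hab : a ≠ b) (hbc : b ≠ c) (hac : a ≠ c) :
    IsB ((gel b)⁻¹ * gel a) ((gel b)⁻¹ * gel c) := by
  have hxy : IsB (FreeGroup.of 0) (FreeGroup.of 1) := IsB.std
  -- `(x y, x)`
  have h1 : IsB (FreeGroup.of 0 * FreeGroup.of 1) (FreeGroup.of 0) := by
    have h2 := (hxy.inv.inv'.swap.mul).inv.inv'
    rwa [mul_inv_rev, inv_inv, inv_inv] at h2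
  -- `(y, x⁻¹)`
  have h3 : IsB (FreeGroup.of 1) (FreeGroup.of 0)⁻¹ := hxy.swap.inv'
  -- `(y⁻¹ x⁻¹, y⁻¹)`
  have h4 : IsB (FreeGroup.of 0 * FreeGroup.of 1)⁻¹ (FreeGroup.of 1)⁻¹ := hxy.mul.inv.inv'
  have e1 : (FreeGroup.of 0)⁻¹ * (FreeGroup.of 0 * FreeGroup.of 1) =
      (FreeGroup.of 1 : FreeGroup (Fin 2)) := by group
  have e2 : (FreeGroup.of 0 * FreeGroup.of 1)⁻¹ * FreeGroup.of 0 =
      (FreeGroup.of 1 : FreeGroup (Fin 2))⁻¹ := by group
  rcases zm3 a with rfl | rfl | rfl <;> rcases zm3 b with rfl | rfl | rfl <;>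
    rcases zm3 c with rfl | rfl | rfl <;>
    first
    | exact absurd rfl hab
    | exact absurd rfl hbc
    | exact absurd rfl hac
    | (simp only [gel0, gel1, gel2, inv_one, one_mul, mul_one, e1, e2]
       first
       | exact h1
       | exact h1.swap
       | exact h3
       | exact h3.swap
       | exact h4
       | exact h4.swap)

private theorem isB_gel' {a b c : ZMod 3} (hab : a ≠ b) (hbc : b ≠ c) (hac : a ≠ c) :
    IsB ((gel a)⁻¹ * gel b) ((gel c)⁻¹ * gel b) := by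
  have h := (isB_gel hab hbc hac).inv.inv'
  rwa [mul_inv_rev, mul_inv_rev, inv_inv] at h

private theorem map_range_succ {X : Type} (F : ℕ → X) (n m : ℕ) :
    (List.range (n + 1)).map (fun i => F (m + i)) =
      F m :: (List.range n).map (fun i => F (m + 1 + i)) := by
  rw [List.range_succ_eq_map, List.map_cons, List.map_map, add_zero]
  congr 1
  refine List.map_congr_left fun i _ => ?_
  simp only [Function.comp]
  congr 1
  omega

/-- the local condition -/
private def PC (e : ℕ → ZMod 3) (a b c : ZMod 3) (α β : ℝ) (h : ℕ → ℝ) (i : ℕ) : Prop :=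
  e i = b ∧ ((e (i + 1) = a ∧ -α < h i ∧ h i < 0 ∧ h (i + 2) = h i + β) ∨
    (e (i + 1) = c ∧ 0 < h i ∧ h i < β ∧ h (i + 2) = h i - α))

private theorem walk_of (e : ℕ → ZMod 3) (a b c : ZMod 3) (hac : a ≠ c) (α β : ℝ) (h : ℕ → ℝ)
    (t : ℕ) (hP : ∀ i, PC e a b c α β h (t + 2 * i)) (n : ℕ) : ∀ m : ℕ,
    Walk α β (h (t + 2 * m))
      ((List.range n).map fun i => decide (e (t + 2 * (m + i) + 1) = a)) (h (t + 2 * (m + n))) := by
  induction n with
  | zero =>
    intro m
    rfl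
  | succ n ih =>
    intro m
    have h1 := map_range_succ (fun i => decide (e (t + 2 * i + 1) = a)) n m
    rw [h1]
    have h2 := ih (m + 1)
    have h3 : m + (n + 1) = m + 1 + n := by omega
    rw [h3]
    have h4 : t + 2 * (m + 1) = t + 2 * m + 2 := by ring
    obtain ⟨_, ⟨g1, g2, g3, g4⟩ | ⟨g1, g2, g3, g4⟩⟩ := hP m
    · have h5 : decide (e (t + 2 * m + 1) = a) = true := decide_eq_true g1
      rw [h5]
      refine ⟨g2, g3, ?_⟩
      rw [← g4, ← h4]
      exact h2
    · have h5 : decide (e (t + 2 * m + 1) = a) = false := by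
        apply decide_eq_false
        rw [g1]
        exact fun h6 => hac h6.symm
      rw [h5]
      refine ⟨g2, g3, ?_⟩
      rw [← g4, ← h4]
      exact h2

private theorem per_mul {X : Type} (f : ℕ → X) (N : ℕ) (hf : ∀ i, f (i + N) = f i) (q i : ℕ) :
    f (i + N * q) = f i := by
  induction q with
  | zero => rfl
  | succ q ih =>
    have h1 : i + N * (q + 1) = i + N * q + N := by ring
    rw [h1, hf, ih]

private theorem PC_per (e : ℕ → ZMod 3) (a b c : ZMod 3) (α β : ℝ) (h : ℕ → ℝ) (N q i : ℕ)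
    (he : ∀ i, e (i + N) = e i) (hh : ∀ i, h (i + N) = h i)
    (hP : PC e a b c α β h (i + N * q)) : PC e a b c α β h i := by
  unfold PC at *
  have h1 : i + N * q + 1 = (i + 1) + N * q := by omega
  have h2 : i + N * q + 2 = (i + 2) + N * q := by omega
  rw [h1, h2, per_mul e N he, per_mul e N he, per_mul h N hh, per_mul h N hh] at hP
  exact hP

/-- the third case of the structure theorem -/
private theorem stp_third (e : ℕ → ZMod 3) (n : ℕ) (hn : 0 < n) (he : ∀ i, e (i + 2 * n) = e i)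
    (a b c : ZMod 3) (t : ℕ) (α β : ℝ) (h : ℕ → ℝ) (hab : a ≠ b) (hbc : b ≠ c) (hac : a ≠ c)
    (hα : 0 ≤ α) (hβ : 0 ≤ β) (hh : ∀ i, h (i + 2 * n) = h i)
    (hP : ∀ i, PC e a b c α β h (t + 2 * i)) : PP (evg e n) := by
  obtain ⟨u, t', ht', rfl⟩ : ∃ u t' : ℕ, t' ≤ 1 ∧ t = t' + 2 * u :=
    ⟨t / 2, t % 2, by omega, by omega⟩
  have hP' : ∀ i, PC e a b c α β h (t' + 2 * i) := by
    intro i
    have h1 : u ≤ n * u := Nat.le_mul_of_pos_left u hn
    obtain ⟨v, hv⟩ : ∃ v, n * u = u + v := ⟨n * u - u, by omega⟩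
    have h2 := hP (i + v)
    have h3 : t' + 2 * u + 2 * (i + v) = t' + 2 * i + 2 * n * u := by
      have : 2 * n * u = 2 * (n * u) := by ring
      rw [this, hv]
      ring
    rw [h3] at h2
    exact PC_per e a b c α β h (2 * n) u _ he hh h2
  have hw := walk_of e a b c hac α β h t' hP' n 0
  rw [mul_zero, add_zero, zero_add, hh] at hw
  have hE := euclid α β hα hβ _ _ hw
  rw [List.map_map] at hE
  rcases Nat.le_one_iff_eq_zero_or_eq_one.1 ht' with rfl | rfl
  · obtain ⟨ψ, hψ0, hψ1⟩ := isB_gel hab hbc hac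
    have h1 := stp_PP_aut ψ hE
    rw [map_list_prod, List.map_map] at h1
    have h2 : evg e n = ((List.range n).map (ψ ∘ ((fun b : Bool =>
        if b then FreeGroup.of 0 else FreeGroup.of 1) ∘
          fun i => decide (e (0 + 2 * (0 + i) + 1) = a)))).prod := by
      unfold evg
      congr 1
      refine List.map_congr_left fun i _ => ?_
      have h3 := hP' i
      obtain ⟨g0, ⟨g1, _⟩ | ⟨g1, _⟩⟩ := h3
      · rw [zero_add] at g0 g1
        simp only [Function.comp, zero_add]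
        rw [g0, g1, decide_eq_true rfl, if_pos rfl, hψ0]
      · rw [zero_add] at g0 g1
        simp only [Function.comp, zero_add]
        rw [g0, g1, decide_eq_false (fun h6 => hac h6.symm), if_neg (by decide), hψ1]
    rw [h2]
    exact h1
  · obtain ⟨ψ, hψ0, hψ1⟩ := isB_gel' hab hbc hac
    have h1 := stp_PP_aut ψ hE
    rw [map_list_prod, List.map_map] at h1
    have h2 : ((List.range n).map (fun i => (gel (e (2 * (1 + i))))⁻¹ *
        gel (e (2 * (1 + i) + 1)))).prod = ((List.range n).map (ψ ∘ ((fun b : Bool =>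
        if b then FreeGroup.of 0 else FreeGroup.of 1) ∘
          fun i => decide (e (1 + 2 * (0 + i) + 1) = a)))).prod := by
      congr 1
      refine List.map_congr_left fun i _ => ?_
      obtain ⟨g0, _⟩ := hP' (1 + i)
      have h4 : 2 * (1 + i) + 1 = 1 + 2 * (1 + i) := by ring
      have h5 : 2 * (1 + i) = 1 + 2 * i + 1 := by ring
      rw [h4, g0, h5]
      simp only [Function.comp, zero_add]
      obtain ⟨_, ⟨g1, _⟩ | ⟨g1, _⟩⟩ := hP' i
      · rw [g1, decide_eq_true rfl, if_pos rfl, hψ0]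
      · rw [g1, decide_eq_false (fun h6 => hac h6.symm), if_neg (by decide), hψ1]
    rw [← h2] at h1
    -- rotation
    obtain ⟨m, rfl⟩ : ∃ m, n = m + 1 := ⟨n - 1, by omega⟩
    have h3 : evg e (m + 1) = (gel (e 0))⁻¹ * gel (e 1) *
        ((List.range m).map (fun i => (gel (e (2 * (1 + i))))⁻¹ *
          gel (e (2 * (1 + i) + 1)))).prod := by
      unfold evg
      have h4 := map_range_succ (fun i => (gel (e (2 * i)))⁻¹ * gel (e (2 * i + 1))) m 0
      simp only [zero_add] at h4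
      rw [h4, List.prod_cons]
    rw [List.range_succ, List.map_append, List.prod_append] at h1
    have h5 : ((List.map (fun i => (gel (e (2 * (1 + i))))⁻¹ * gel (e (2 * (1 + i) + 1)))
        [m]).prod) = (gel (e 0))⁻¹ * gel (e 1) := by
      rw [List.map_singleton, List.prod_singleton]
      have h6 : 2 * (1 + m) = 0 + 2 * (m + 1) := by ring
      have h7 : 2 * (1 + m) + 1 = 1 + 2 * (m + 1) := by ring
      rw [h7, he, h6, he]
    rw [h5] at h1
    have h8 := stp_PP_conj ((gel (e 0))⁻¹ * gel (e 1)) h1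
    rw [h3]
    have h9 : ∀ g P : FreeGroup (Fin 2), g * (P * g) * g⁻¹ = g * P := by
      intro g P
      group
    rw [h9] at h8
    exact h8

private theorem evg_succ (e : ℕ → ZMod 3) (n : ℕ) :
    evg e (n + 1) = evg e n * ((gel (e (2 * n)))⁻¹ * gel (e (2 * n + 1))) := by
  unfold evg
  rw [List.range_succ, List.map_append, List.prod_append]
  simp

/-- one turn around the boundary -/
private theorem blockUp (s : ZMod 3) : ∃ (g : FreeGroup (Fin 2)),
    ((gel s)⁻¹ * gel (s + 1)) * ((gel (s + 2))⁻¹ * gel (s + 3)) * ((gel (s + 4))⁻¹ * gel (s + 5)) =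
      g * (FreeGroup.of 0 * FreeGroup.of 1 * (FreeGroup.of 0)⁻¹ * (FreeGroup.of 1)⁻¹) ^ (-1 : ℤ) *
        g⁻¹ := by
  rcases zm3 s with rfl | rfl | rfl
  · have h1 : (0 : ZMod 3) + 1 = 1 := by decide
    have h2 : (0 : ZMod 3) + 2 = 2 := by decide
    have h3 : (0 : ZMod 3) + 3 = 0 := by decide
    have h4 : (0 : ZMod 3) + 4 = 1 := by decide
    have h5 : (0 : ZMod 3) + 5 = 2 := by decide
    rw [h1, h2, h3, h4, h5, gel0, gel1, gel2]
    refine ⟨(FreeGroup.of 1 * FreeGroup.of 0)⁻¹, ?_⟩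
    group
  · have h1 : (1 : ZMod 3) + 1 = 2 := by decide
    have h2 : (1 : ZMod 3) + 2 = 0 := by decide
    have h3 : (1 : ZMod 3) + 3 = 1 := by decide
    have h4 : (1 : ZMod 3) + 4 = 2 := by decide
    have h5 : (1 : ZMod 3) + 5 = 0 := by decide
    rw [h1, h2, h3, h4, h5, gel0, gel1, gel2]
    refine ⟨(FreeGroup.of 1)⁻¹, ?_⟩
    group
  · have h1 : (2 : ZMod 3) + 1 = 0 := by decide
    have h2 : (2 : ZMod 3) + 2 = 1 := by decide
    have h3 : (2 : ZMod 3) + 3 = 2 := by decide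
    have h4 : (2 : ZMod 3) + 4 = 0 := by decide
    have h5 : (2 : ZMod 3) + 5 = 1 := by decide
    rw [h1, h2, h3, h4, h5, gel0, gel1, gel2]
    refine ⟨1, ?_⟩
    group

private theorem blockDown (s : ZMod 3) : ∃ (g : FreeGroup (Fin 2)),
    ((gel s)⁻¹ * gel (s - 1)) * ((gel (s - 2))⁻¹ * gel (s - 3)) * ((gel (s - 4))⁻¹ * gel (s - 5)) =
      g * (FreeGroup.of 0 * FreeGroup.of 1 * (FreeGroup.of 0)⁻¹ * (FreeGroup.of 1)⁻¹) ^ (1 : ℤ) *
        g⁻¹ := by
  rcases zm3 s with rfl | rfl | rfl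
  · have h1 : (0 : ZMod 3) - 1 = 2 := by decide
    have h2 : (0 : ZMod 3) - 2 = 1 := by decide
    have h3 : (0 : ZMod 3) - 3 = 0 := by decide
    have h4 : (0 : ZMod 3) - 4 = 2 := by decide
    have h5 : (0 : ZMod 3) - 5 = 1 := by decide
    rw [h1, h2, h3, h4, h5, gel0, gel1, gel2]
    refine ⟨(FreeGroup.of 1)⁻¹, ?_⟩
    group
  · have h1 : (1 : ZMod 3) - 1 = 0 := by decide
    have h2 : (1 : ZMod 3) - 2 = 2 := by decide
    have h3 : (1 : ZMod 3) - 3 = 1 := by decide
    have h4 : (1 : ZMod 3) - 4 = 0 := by decide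
    have h5 : (1 : ZMod 3) - 5 = 2 := by decide
    rw [h1, h2, h3, h4, h5, gel0, gel1, gel2]
    refine ⟨1, ?_⟩
    group
  · have h1 : (2 : ZMod 3) - 1 = 1 := by decide
    have h2 : (2 : ZMod 3) - 2 = 0 := by decide
    have h3 : (2 : ZMod 3) - 3 = 2 := by decide
    have h4 : (2 : ZMod 3) - 4 = 1 := by decide
    have h5 : (2 : ZMod 3) - 5 = 0 := by decide
    rw [h1, h2, h3, h4, h5, gel0, gel1, gel2]
    refine ⟨(FreeGroup.of 1 * FreeGroup.of 0)⁻¹, ?_⟩
    group

/-- powers of a block -/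
private theorem evg_block (e : ℕ → ZMod 3) (B : FreeGroup (Fin 2))
    (hB : ∀ k, ((gel (e (2 * (3 * k))))⁻¹ * gel (e (2 * (3 * k) + 1))) *
      ((gel (e (2 * (3 * k + 1))))⁻¹ * gel (e (2 * (3 * k + 1) + 1))) *
      ((gel (e (2 * (3 * k + 2))))⁻¹ * gel (e (2 * (3 * k + 2) + 1))) = B) (k : ℕ) :
    evg e (3 * k) = B ^ k := by
  induction k with
  | zero =>
    rw [mul_zero, pow_zero]
    rfl
  | succ k ih =>
    have h1 : 3 * (k + 1) = 3 * k + 1 + 1 + 1 := by ring
    rw [h1, evg_succ, evg_succ, evg_succ, ih, pow_succ, ← hB k]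
    simp only [mul_assoc]

private theorem conj_pow_aux (g c : FreeGroup (Fin 2)) (z : ℤ) (k : ℕ) :
    (g * c ^ z * g⁻¹) ^ k = g * c ^ (z * k) * g⁻¹ := by
  rw [conj_pow, zpow_mul, zpow_natCast]

theorem simple_of_const (e : ℕ → ZMod 3) (n : ℕ) (hn : 0 < n) (he : Cyc e (2 * n))
    (h : (∀ i, e (i + 1) = e i + 1) ∨ (∀ i, e (i + 1) = e i - 1)) : Simple (evg e n) := by
  have _ := hn
  rcases h with h | h
  · have h1 : ∀ i : ℕ, e i = e 0 + i := by
      intro i
      induction i with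
      | zero => simp
      | succ i ih =>
        rw [h, ih]
        push_cast
        ring
    have h3 : 3 ∣ n := by
      have h4 := he.1 0
      rw [h1 (0 + 2 * n), zero_add] at h4
      have h5 : ((2 * n : ℕ) : ZMod 3) = 0 := by
        have h6 : e 0 + ((2 * n : ℕ) : ZMod 3) = e 0 + 0 := by rw [h4, add_zero]
        exact add_left_cancel h6
      have h6 := (ZMod.natCast_eq_zero_iff (2 * n) 3).1 h5
      omega
    obtain ⟨k, rfl⟩ := h3
    obtain ⟨g, hg⟩ := blockUp (e 0)
    have hz : (3 : ZMod 3) = 0 := by decide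
    have h7 := evg_block e _ (fun k => by
      rw [h1 (2 * (3 * k)), h1 (2 * (3 * k) + 1), h1 (2 * (3 * k + 1)), h1 (2 * (3 * k + 1) + 1),
        h1 (2 * (3 * k + 2)), h1 (2 * (3 * k + 2) + 1)]
      have q0 : e 0 + ((2 * (3 * k) : ℕ) : ZMod 3) = e 0 := by
        push_cast
        linear_combination (2 * (k : ZMod 3)) * hz
      have q1 : e 0 + ((2 * (3 * k) + 1 : ℕ) : ZMod 3) = e 0 + 1 := by
        push_cast
        linear_combination (2 * (k : ZMod 3)) * hz
      have q2 : e 0 + ((2 * (3 * k + 1) : ℕ) : ZMod 3) = e 0 + 2 := by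
        push_cast
        linear_combination (2 * (k : ZMod 3)) * hz
      have q3 : e 0 + ((2 * (3 * k + 1) + 1 : ℕ) : ZMod 3) = e 0 + 3 := by
        push_cast
        linear_combination (2 * (k : ZMod 3)) * hz
      have q4 : e 0 + ((2 * (3 * k + 2) : ℕ) : ZMod 3) = e 0 + 4 := by
        push_cast
        linear_combination (2 * (k : ZMod 3)) * hz
      have q5 : e 0 + ((2 * (3 * k + 2) + 1 : ℕ) : ZMod 3) = e 0 + 5 := by
        push_cast
        linear_combination (2 * (k : ZMod 3)) * hz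
      rw [q0, q1, q2, q3, q4, q5]) k
    refine Or.inr ⟨g, -1 * k, ?_⟩
    rw [h7, hg, conj_pow_aux]
  · have h1 : ∀ i : ℕ, e i = e 0 - i := by
      intro i
      induction i with
      | zero => simp
      | succ i ih =>
        rw [h, ih]
        push_cast
        ring
    have h3 : 3 ∣ n := by
      have h4 := he.1 0
      rw [h1 (0 + 2 * n), zero_add] at h4
      have h5 : ((2 * n : ℕ) : ZMod 3) = 0 := by
        have h6 : ((2 * n : ℕ) : ZMod 3) = e 0 - (e 0 - ((2 * n : ℕ) : ZMod 3)) := by ring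
        rw [h6, h4, sub_self]
      have h6 := (ZMod.natCast_eq_zero_iff (2 * n) 3).1 h5
      omega
    obtain ⟨k, rfl⟩ := h3
    obtain ⟨g, hg⟩ := blockDown (e 0)
    have hz : (3 : ZMod 3) = 0 := by decide
    have h7 := evg_block e _ (fun k => by
      rw [h1 (2 * (3 * k)), h1 (2 * (3 * k) + 1), h1 (2 * (3 * k + 1)), h1 (2 * (3 * k + 1) + 1),
        h1 (2 * (3 * k + 2)), h1 (2 * (3 * k + 2) + 1)]
      have q0 : e 0 - ((2 * (3 * k) : ℕ) : ZMod 3) = e 0 := by
        push_cast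
        linear_combination (-2 * (k : ZMod 3)) * hz
      have q1 : e 0 - ((2 * (3 * k) + 1 : ℕ) : ZMod 3) = e 0 - 1 := by
        push_cast
        linear_combination (-2 * (k : ZMod 3)) * hz
      have q2 : e 0 - ((2 * (3 * k + 1) : ℕ) : ZMod 3) = e 0 - 2 := by
        push_cast
        linear_combination (-2 * (k : ZMod 3)) * hz
      have q3 : e 0 - ((2 * (3 * k + 1) + 1 : ℕ) : ZMod 3) = e 0 - 3 := by
        push_cast
        linear_combination (-2 * (k : ZMod 3)) * hz
      have q4 : e 0 - ((2 * (3 * k + 2) : ℕ) : ZMod 3) = e 0 - 4 := by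
        push_cast
        linear_combination (-2 * (k : ZMod 3)) * hz
      have q5 : e 0 - ((2 * (3 * k + 2) + 1 : ℕ) : ZMod 3) = e 0 - 5 := by
        push_cast
        linear_combination (-2 * (k : ZMod 3)) * hz
      rw [q0, q1, q2, q3, q4, q5]) k
    refine Or.inr ⟨g, 1 * k, ?_⟩
    rw [h7, hg, conj_pow_aux]

private theorem Gam_succ (e : ℕ → ZMod 3) (i : ℕ) : Gam e (i + 1) = Gam e i + wt (e (i + 1)) :=
  Finset.sum_range_succ _ _

private theorem Gam_per (e : ℕ → ZMod 3) (N : ℕ) (hN : 0 < N) (he : ∀ i, e (i + N) = e i) (i : ℕ) :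
    Gam e (i + N) = Gam e (N - 1) + Gam e i := by
  induction i with
  | zero =>
    obtain ⟨m, rfl⟩ : ∃ m, N = m + 1 := ⟨N - 1, by omega⟩
    rw [zero_add, Gam_succ, Nat.add_sub_cancel]
    have h1 := he 0
    rw [zero_add] at h1
    rw [h1]
    have h2 : Gam e 0 = wt (e 0) := by
      unfold Gam
      rw [zero_add, Finset.sum_range_one]
    rw [h2]
  | succ i ih =>
    have h1 : i + 1 + N = i + N + 1 := by omega
    rw [h1, Gam_succ, ih, Gam_succ, add_assoc]
    have h2 : i + N + 1 = (i + 1) + N := by omega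
    rw [h2, he]

theorem simple_of_TP (e : ℕ → ZMod 3) (n : ℕ) (hn : 0 < n) (he : Cyc e (2 * n))
    (l : ℤ × ℤ →+ ℝ) (θ : ℝ) (hV : l (Gam e (2 * n - 1)) = 0)
    (hup : ∀ i, e (i + 1) = e i + 1 → θ < l (Gam e i))
    (hdn : ∀ i, e (i + 1) = e i - 1 → l (Gam e i) < θ) : Simple (evg e n) := by
  have hsum : l (wt 0) + l (wt 1) + l (wt 2) = 0 := by
    rw [← map_add, ← map_add]
    have h1 : wt 0 + wt 1 + wt 2 = 0 := by decide
    rw [h1, map_zero]
  rcases struct e (2 * n) (by omega) he (fun x => l (wt x)) hsum (fun i => l (Gam e i))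
    (fun i => by
      show l (Gam e (i + 1)) = l (Gam e i) + l (wt (e (i + 1)))
      rw [Gam_succ, map_add])
    (fun i => by
      show l (Gam e (i + 2 * n)) = l (Gam e i)
      rw [Gam_per e (2 * n) (by omega) he.1, map_add, hV, zero_add])
    θ hup hdn with h | h | ⟨a, b, c, t, α, β, h, hab, hbc, hac, hα, hβ, hh, hP⟩
  · exact simple_of_const e n hn he (Or.inl h)
  · exact simple_of_const e n hn he (Or.inr h)
  · exact Or.inl (stp_third e n hn he.1 a b c t α β h hab hbc hac hα hβ hh hP)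

end Pool.Agent.AMG
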