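import Pool.Agent.AMG.CycRed
import Pool.Agent.AMG.Sep
import Pool.Agent.AMG.SimpleTP

/-!
# Combinatorics: a zero-weight combination for elements which are not simple

`comb_of` derives the combinatorial theorem from the separation lemma and the structure theorems,
which are hypotheses here.
-/

namespace Pool.Agent.AMG

theorem Simple.one : Simple 1 := Or.inl ⟨MulEquiv.refl _, 0, by rw [zpow_zero]⟩

theorem Simple.conj {g g' : FreeGroup (Fin 2)} (h : Simple g) (hc : IsConj g' g) : Simple g' := by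
  obtain ⟨k, hk⟩ := isConj_iff.1 hc.symm
  subst hk
  rcases h with ⟨φ, n, rfl⟩ | ⟨h, n, rfl⟩
  · refine Or.inl ⟨φ.trans (MulAut.conj k), n, ?_⟩
    rw [MulEquiv.trans_apply, MulAut.conj_apply, conj_zpow]
  · refine Or.inr ⟨k * h, n, ?_⟩
    group

private theorem Comb_turn (x y : ZMod 3) (h : y ≠ x) : y = x + 1 ∨ y = x - 1 := by
  revert x y
  decide

private theorem Comb_Gam (e : ℕ → ZMod 3) (N : ℕ) (hN : 0 < N) (he : Cyc e N) (i : ℕ) :
    Gam e (i + N) = Gam e i + Gam e (N - 1) := by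
  have h1 : N - 1 + 1 = N := by omega
  have h2 : i + N + 1 = N + (i + 1) := by omega
  unfold Gam
  rw [h1, h2, Finset.sum_range_add, add_comm]
  congr 1
  refine Finset.sum_congr rfl fun l _ => ?_
  rw [add_comm N l, he.1 l]

/-- reduction of the index to one period -/
private theorem Comb_red (e : ℕ → ZMod 3) (N : ℕ) (hN : 0 < N) (he : Cyc e N)
    (l : ℤ × ℤ →+ ℝ) (hl : l (Gam e (N - 1)) = 0) (i : ℕ) :
    ∃ j < N, e j = e i ∧ e (j + 1) = e (i + 1) ∧ l (Gam e j) = l (Gam e i) := by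
  induction i using Nat.strong_induction_on with
  | _ i ih =>
    by_cases h : i < N
    · exact ⟨i, h, rfl, rfl, rfl⟩
    · obtain ⟨m, rfl⟩ : ∃ m, i = m + N := ⟨i - N, by omega⟩
      obtain ⟨j, hj, h1, h2, h3⟩ := ih m (by omega)
      refine ⟨j, hj, ?_, ?_, ?_⟩
      · rw [h1, he.1]
      · rw [h2, ← he.1 (m + 1)]
        congr 1
        omega
      · rw [h3, Comb_Gam e N hN he, map_add, hl, add_zero]

theorem comb_of
    (cycRed : ∀ w : List (Fin 2 × Bool), FreeGroup.mk w ≠ 1 →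
      ∃ n > 0, ∃ e : ℕ → ZMod 3, Cyc e (2 * n) ∧ IsConj (FreeGroup.mk w) (evg e n))
    (sep : ∀ (U D : Finset (ℤ × ℤ)), U.Nonempty → D.Nonempty → ∀ V : ℤ × ℤ,
      (∃ L : List ((ℤ × ℤ) × (ℤ × ℤ)), L ≠ [] ∧ (∀ p ∈ L, p.1 ∈ U ∧ p.2 ∈ D) ∧
        ∃ s : ℤ, (L.map fun p => p.2 - p.1).sum = s • V) ∨
      ∃ (l : ℤ × ℤ →+ ℝ) (θ : ℝ), l V = 0 ∧ (∀ u ∈ U, l u < θ) ∧ ∀ d ∈ D, θ < l d)
    (simple_of_TP : ∀ (e : ℕ → ZMod 3) (n : ℕ), 0 < n → Cyc e (2 * n) →
      ∀ (l : ℤ × ℤ →+ ℝ) (θ : ℝ), l (Gam e (2 * n - 1)) = 0 →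
      (∀ i, e (i + 1) = e i + 1 → θ < l (Gam e i)) →
      (∀ i, e (i + 1) = e i - 1 → l (Gam e i) < θ) → Simple (evg e n))
    (simple_of_const : ∀ (e : ℕ → ZMod 3) (n : ℕ), 0 < n → Cyc e (2 * n) →
      ((∀ i, e (i + 1) = e i + 1) ∨ (∀ i, e (i + 1) = e i - 1)) → Simple (evg e n))
    (w : List (Fin 2 × Bool)) (hw : ¬ Simple (FreeGroup.mk w)) :
    ∃ n > 0, ∃ e : ℕ → ZMod 3, Cyc e (2 * n) ∧ IsConj (FreeGroup.mk w) (evg e n) ∧
      Zdat e (2 * n) := by
  classical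
  have h1 : FreeGroup.mk w ≠ 1 := fun h => hw (h ▸ Simple.one)
  obtain ⟨n, hn, e, he, hc⟩ := cycRed w h1
  refine ⟨n, hn, e, he, hc, ?_⟩
  have hS : ¬ Simple (evg e n) := fun h => hw (h.conj hc)
  set N := 2 * n with hN
  have hN0 : 0 < N := by omega
  let U : Finset (ℤ × ℤ) := ((Finset.range N).filter fun i => e (i + 1) = e i - 1).image (Gam e)
  let D : Finset (ℤ × ℤ) := ((Finset.range N).filter fun i => e (i + 1) = e i + 1).image (Gam e)
  have hUm : ∀ u ∈ U, ∃ i < N, e (i + 1) = e i - 1 ∧ Gam e i = u := by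
    intro u hu
    obtain ⟨i, hi, rfl⟩ := Finset.mem_image.1 hu
    rw [Finset.mem_filter, Finset.mem_range] at hi
    exact ⟨i, hi.1, hi.2, rfl⟩
  have hDm : ∀ u ∈ D, ∃ i < N, e (i + 1) = e i + 1 ∧ Gam e i = u := by
    intro u hu
    obtain ⟨i, hi, rfl⟩ := Finset.mem_image.1 hu
    rw [Finset.mem_filter, Finset.mem_range] at hi
    exact ⟨i, hi.1, hi.2, rfl⟩
  have hUi : ∀ i < N, e (i + 1) = e i - 1 → Gam e i ∈ U := fun i hi h =>
    Finset.mem_image_of_mem _ (Finset.mem_filter.2 ⟨Finset.mem_range.2 hi, h⟩)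
  have hDi : ∀ i < N, e (i + 1) = e i + 1 → Gam e i ∈ D := fun i hi h =>
    Finset.mem_image_of_mem _ (Finset.mem_filter.2 ⟨Finset.mem_range.2 hi, h⟩)
  have hl0 : (0 : ℤ × ℤ →+ ℝ) (Gam e (N - 1)) = 0 := rfl
  have hU : U.Nonempty := by
    by_contra h
    rw [Finset.not_nonempty_iff_eq_empty] at h
    refine hS (simple_of_const e n hn he (Or.inl fun i => ?_))
    obtain ⟨j, hj, h2, h3, _⟩ := Comb_red e N hN0 he 0 hl0 i
    rcases Comb_turn (e j) (e (j + 1)) (he.2 j) with h4 | h4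
    · rw [← h2, ← h3, h4]
    · exact absurd (hUi j hj h4) (by rw [h]; exact Finset.notMem_empty _)
  have hD : D.Nonempty := by
    by_contra h
    rw [Finset.not_nonempty_iff_eq_empty] at h
    refine hS (simple_of_const e n hn he (Or.inr fun i => ?_))
    obtain ⟨j, hj, h2, h3, _⟩ := Comb_red e N hN0 he 0 hl0 i
    rcases Comb_turn (e j) (e (j + 1)) (he.2 j) with h4 | h4
    · exact absurd (hDi j hj h4) (by rw [h]; exact Finset.notMem_empty _)
    · rw [← h2, ← h3, h4]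
  rcases sep U D hU hD (Gam e (N - 1)) with ⟨L, hL, hLm, s, hs⟩ | ⟨l, θ, hV, hlu, hld⟩
  · choose! f hf using hUm
    choose! g hg using hDm
    refine ⟨L.map fun p => (f p.1, g p.2), ?_, ?_, s, ?_⟩
    · intro h
      exact hL (List.map_eq_nil_iff.1 h)
    · intro p hp
      obtain ⟨q, hq, rfl⟩ := List.mem_map.1 hp
      have h2 := hf q.1 (hLm q hq).1
      have h3 := hg q.2 (hLm q hq).2
      exact ⟨h2.1, h3.1, h2.2.1, h3.2.1⟩
    · rw [← hs, List.map_map]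
      congr 1
      refine List.map_congr_left fun q hq => ?_
      have h2 := hf q.1 (hLm q hq).1
      have h3 := hg q.2 (hLm q hq).2
      rw [Function.comp_apply]
      change Gam e (g q.2) - Gam e (f q.1) = q.2 - q.1
      rw [h2.2.2, h3.2.2]
  · refine absurd (simple_of_TP e n hn he l θ hV (fun i hi => ?_) (fun i hi => ?_)) hS
    · obtain ⟨j, hj, h2, h3, h4⟩ := Comb_red e N hN0 he l hV i
      rw [← h4]
      exact hld _ (hDi j hj (by rw [h2, h3, hi]))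
    · obtain ⟨j, hj, h2, h3, h4⟩ := Comb_red e N hN0 he l hV i
      rw [← h4]
      exact hlu _ (hUi j hj (by rw [h2, h3, hi]))

theorem comb (w : List (Fin 2 × Bool)) (hw : ¬ Simple (FreeGroup.mk w)) :
    ∃ n > 0, ∃ e : ℕ → ZMod 3, Cyc e (2 * n) ∧ IsConj (FreeGroup.mk w) (evg e n) ∧
      Zdat e (2 * n) :=
  comb_of cycRed sep simple_of_TP simple_of_const w hw

end Pool.Agent.AMG
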