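import Pool.Agent.AMG.DefsB

/-!
# Cyclic reduction of edge paths on the theta graph
-/

set_option autoImplicit false

namespace Pool.Agent.AMG

/-- the alternating product -/
private def cr_evs : Bool → List (ZMod 3) → FreeGroup (Fin 2)
  | _, [] => 1
  | true, a :: l => (gel a)⁻¹ * cr_evs false l
  | false, a :: l => gel a * cr_evs true l

private theorem cr_app (u v : List (ZMod 3)) : ∀ b : Bool,
    cr_evs b (u ++ v) = cr_evs b u * cr_evs (if u.length % 2 = 0 then b else !b) v := by
  induction u with
  | nil =>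
    intro b
    cases b <;> simp [cr_evs]
  | cons a u ih =>
    intro b
    have h1 : ∀ b : Bool, (if (a :: u).length % 2 = 0 then b else !b)
        = (if u.length % 2 = 0 then !b else b) := by
      intro b
      rw [List.length_cons]
      by_cases h : u.length % 2 = 0
      · rw [if_pos h, if_neg (by omega)]
      · rw [if_neg h, if_pos (by omega)]
    cases b
    · rw [List.cons_append, cr_evs, cr_evs, ih, h1, mul_assoc]
      rfl
    · rw [List.cons_append, cr_evs, cr_evs, ih, h1, mul_assoc]
      rfl

private theorem cr_app_even (u v : List (ZMod 3)) (hu : u.length % 2 = 0) (b : Bool) :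
    cr_evs b (u ++ v) = cr_evs b u * cr_evs b v := by
  rw [cr_app, if_pos hu]

private theorem cr_dup (b : Bool) (a : ZMod 3) (v : List (ZMod 3)) :
    cr_evs b (a :: a :: v) = cr_evs b v := by
  cases b
  · rw [cr_evs, cr_evs, mul_inv_cancel_left]
  · rw [cr_evs, cr_evs, inv_mul_cancel_left]

/-- the letters as edge paths -/
private def cr_let (l : Fin 2 × Bool) : List (ZMod 3) :=
  match l with
  | (0, true) => [1, 2]
  | (0, false) => [2, 1]
  | (1, true) => [2, 0]
  | (1, false) => [0, 2]

private theorem cr_gel0 : gel 0 = FreeGroup.of 0 * FreeGroup.of 1 := by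
  unfold gel
  rw [if_neg (by decide), if_neg (by decide)]

private theorem cr_gel1 : gel 1 = 1 := by
  unfold gel
  rw [if_pos rfl]

private theorem cr_gel2 : gel 2 = FreeGroup.of 0 := by
  unfold gel
  rw [if_neg (by decide), if_pos rfl]

private theorem cr_word (w : List (Fin 2 × Bool)) : ∃ l : List (ZMod 3), l.length % 2 = 0 ∧
    cr_evs true l = FreeGroup.mk w := by
  induction w with
  | nil => exact ⟨[], rfl, rfl⟩
  | cons a w ih =>
    obtain ⟨l, hl, he⟩ := ih
    have h1 : FreeGroup.mk (a :: w) = FreeGroup.mk [a] * FreeGroup.mk w := by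
      rw [FreeGroup.mul_mk]; rfl
    have h2 : ∃ c d : ZMod 3, (gel c)⁻¹ * gel d = FreeGroup.mk [a] := by
      obtain ⟨i, b⟩ := a
      have h3 : ∀ i : Fin 2, FreeGroup.mk [(i, false)] = (FreeGroup.of i)⁻¹ := fun i => rfl
      have h4 : ∀ i : Fin 2, FreeGroup.mk [(i, true)] = FreeGroup.of i := fun i => rfl
      fin_cases i <;> cases b
      · exact ⟨2, 1, by rw [cr_gel1, cr_gel2, mul_one]; rfl⟩
      · exact ⟨1, 2, by rw [cr_gel1, cr_gel2, inv_one, one_mul]; rfl⟩
      · exact ⟨0, 2, by rw [cr_gel0, cr_gel2, mul_inv_rev, inv_mul_cancel_right]; rfl⟩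
      · exact ⟨2, 0, by rw [cr_gel0, cr_gel2, inv_mul_cancel_left]; rfl⟩
    obtain ⟨c, d, hcd⟩ := h2
    refine ⟨c :: d :: l, by rw [List.length_cons, List.length_cons]; omega, ?_⟩
    rw [cr_evs, cr_evs, he, h1, ← hcd, mul_assoc]

private theorem cr_conj (a : ZMod 3) (m : List (ZMod 3)) (hm : m.length % 2 = 0) :
    ∃ l : List (ZMod 3), l.length = m.length ∧
      IsConj (cr_evs true (a :: (m ++ [a]))) (cr_evs true l) := by
  have h1 : IsConj (cr_evs true (a :: (m ++ [a]))) (cr_evs false m) := by
    rw [cr_evs, cr_app_even _ _ hm, cr_evs, cr_evs, mul_one, ← mul_assoc]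
    rw [isConj_iff]
    exact ⟨gel a, by group⟩
  rcases m with _ | ⟨c, m⟩
  · exact ⟨[], rfl, h1⟩
  · refine ⟨m ++ [c], by simp, h1.trans ?_⟩
    have h2 : m.length % 2 ≠ 0 := by
      rw [List.length_cons] at hm
      omega
    rw [cr_evs, cr_app, if_neg h2, isConj_iff]
    refine ⟨(gel c)⁻¹, ?_⟩
    change (gel c)⁻¹ * (gel c * cr_evs true m) * (gel c)⁻¹⁻¹ =
      cr_evs true m * cr_evs false [c]
    rw [cr_evs, cr_evs]
    group

private theorem cr_evg (e : ℕ → ZMod 3) (n : ℕ) :
    evg e n = cr_evs true ((List.range (2 * n)).map e) := by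
  induction n with
  | zero => rfl
  | succ n ih =>
    have h1 : 2 * (n + 1) = 2 * n + 1 + 1 := by ring
    have h2 : ((List.range (2 * n)).map e).length % 2 = 0 := by
      rw [List.length_map, List.length_range]; omega
    rw [h1, List.range_succ, List.range_succ, List.map_append, List.map_append, List.append_assoc,
      cr_app_even _ _ h2, ← ih]
    unfold evg
    rw [List.range_succ, List.map_append, List.prod_append]
    simp [cr_evs]

theorem cycRed (w : List (Fin 2 × Bool)) (hw : FreeGroup.mk w ≠ 1) :
    ∃ n > 0, ∃ e : ℕ → ZMod 3, Cyc e (2 * n) ∧ IsConj (FreeGroup.mk w) (evg e n) := by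
  classical
  have hex : ∃ N : ℕ, ∃ l : List (ZMod 3), l.length = N ∧ l.length % 2 = 0 ∧
      IsConj (FreeGroup.mk w) (cr_evs true l) := by
    obtain ⟨l, h1, h2⟩ := cr_word w
    exact ⟨_, l, rfl, h1, by rw [h2]⟩
  obtain ⟨l, hlN, hl2, hlc⟩ := Nat.find_spec hex
  have hmin : ∀ l' : List (ZMod 3), l'.length % 2 = 0 →
      IsConj (FreeGroup.mk w) (cr_evs true l') → l.length ≤ l'.length := by
    intro l' h1 h2
    rw [hlN]
    exact Nat.find_min' hex ⟨l', rfl, h1, h2⟩
  have hA : ∀ (u v : List (ZMod 3)) (a : ZMod 3), l ≠ u ++ a :: a :: v := by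
    intro u v a h
    have h1 : cr_evs true l = cr_evs true (u ++ v) := by
      rw [h, cr_app, cr_dup, ← cr_app]
    have h2 : (u ++ v).length + 2 = l.length := by
      rw [h, List.length_append, List.length_append, List.length_cons, List.length_cons]
      omega
    have h3 := hmin (u ++ v) (by omega) (h1 ▸ hlc)
    omega
  have hB : ∀ (a : ZMod 3) (m : List (ZMod 3)), l ≠ a :: (m ++ [a]) := by
    intro a m h
    have h1 : m.length + 2 = l.length := by
      rw [h, List.length_cons, List.length_append, List.length_singleton]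
    obtain ⟨l', h2, h3⟩ := cr_conj a m (by omega)
    have h4 := hmin l' (by omega) (hlc.trans (h ▸ h3))
    omega
  have hne : l ≠ [] := by
    rintro rfl
    rw [isConj_iff] at hlc
    obtain ⟨c, hc⟩ := hlc
    apply hw
    have h1 : c * FreeGroup.mk w * c⁻¹ = 1 := hc
    rw [mul_inv_eq_one] at h1
    exact mul_left_cancel (a := c) (by rw [h1, mul_one])
  have hpos : 0 < l.length := List.length_pos_of_ne_nil hne
  obtain ⟨n, hn⟩ : ∃ n, l.length = 2 * n := ⟨l.length / 2, by omega⟩
  have hn0 : 0 < n := by omega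
  refine ⟨n, hn0, fun i => l.getD (i % (2 * n)) 0, ⟨?_, ?_⟩, ?_⟩
  · intro i
    change l.getD ((i + 2 * n) % (2 * n)) 0 = l.getD (i % (2 * n)) 0
    rw [Nat.add_mod_right]
  · intro i
    change l.getD ((i + 1) % (2 * n)) 0 ≠ l.getD (i % (2 * n)) 0
    have hr : i % (2 * n) < 2 * n := Nat.mod_lt _ (by omega)
    have hdm := Nat.mod_add_div i (2 * n)
    by_cases hlt : i % (2 * n) + 1 < 2 * n
    · have h1 : (i + 1) % (2 * n) = i % (2 * n) + 1 := by
        conv_lhs => rw [← hdm]
        rw [show i % (2 * n) + 2 * n * (i / (2 * n)) + 1 = i % (2 * n) + 1 + 2 * n * (i / (2 * n))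
          by ring, Nat.add_mul_mod_self_left, Nat.mod_eq_of_lt hlt]
      rw [h1]
      generalize i % (2 * n) = k at *
      rw [List.getD_eq_getElem _ _ (by omega), List.getD_eq_getElem _ _ (by omega)]
      intro heq
      refine hA (l.take k) (l.drop (k + 2)) (l[k]'(by omega)) ?_
      conv_lhs => rw [← List.take_append_drop k l]
      rw [List.drop_eq_getElem_cons (by omega : k < l.length),
        List.drop_eq_getElem_cons (by omega : k + 1 < l.length), heq]
    · have h1 : i % (2 * n) = 2 * n - 1 := by omega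
      have h2 : (i + 1) % (2 * n) = 0 := by
        conv_lhs => rw [← hdm, h1]
        rw [show 2 * n - 1 + 2 * n * (i / (2 * n)) + 1 = 2 * n * (i / (2 * n) + 1) by
          have : 2 * n - 1 + 1 = 2 * n := by omega
          calc 2 * n - 1 + 2 * n * (i / (2 * n)) + 1 = (2 * n - 1 + 1) + 2 * n * (i / (2 * n)) := by
                ring
            _ = _ := by rw [this]; ring]
        exact Nat.mul_mod_right _ _
      rw [h1, h2]
      intro heq
      obtain ⟨a, t, rfl⟩ := List.exists_cons_of_ne_nil hne
      have ht : t ≠ [] := by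
        rintro rfl
        rw [List.length_singleton] at hn
        omega
      have h3 : (a :: t).getD (2 * n - 1) 0 = t.getLast ht := by
        rw [← hn, List.getD_eq_getElem _ _ (by rw [List.length_cons]; omega)]
        rw [List.getLast_eq_getElem]
        have h4 : 0 < t.length := List.length_pos_of_ne_nil ht
        simp only [List.length_cons, Nat.add_sub_cancel]
        rw [List.getElem_cons, dif_neg h4.ne']
      rw [h3, List.getD_cons_zero] at heq
      refine hB a t.dropLast ?_
      conv_lhs => rw [← List.dropLast_append_getLast ht]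
      rw [← heq]
  · rw [cr_evg]
    have h1 : (List.range (2 * n)).map (fun i => l.getD (i % (2 * n)) 0) = l := by
      refine List.ext_getElem (by rw [List.length_map, List.length_range, hn]) ?_
      intro i h2 h3
      rw [List.getElem_map, List.getElem_range, Nat.mod_eq_of_lt (by omega),
        List.getD_eq_getElem _ _ h3]
    rw [h1]
    exact hlc

end Pool.Agent.AMG
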