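import Mathlib

/-!
# The quantum representations of the point pushing subgroup in genus one

`Σ_{1,2}` is the torus with two boundary components `∂₁`, `∂₂`. Capping `∂₂` gives the exact sequence
`1 → π₁(Σ_{1,1}) → Mod(Σ_{1,2}) → Mod(Σ_{1,1}) → 1` (modulo the boundary twist along `∂₂`), and
`π₁(Σ_{1,1})` is the free group on two simple loops `x`, `y` which meet once. An element `g` of it
acts by pushing `∂₂` along `g`.

The Blanchet-Habegger-Masbaum-Vogel space `V_r(Σ_{1,2}; c, 1)` at level `r` has the basis of the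
colourings `(a, b)` of a circle with two legs coloured `c` and `1` (in a solid torus with
meridian `x`) such that `(a, b, c)` and `(a, b, 1)` are admissible. Pushing `∂₂` along the
meridian `x` is the product of a Dehn twist and an inverse Dehn twist along the two meridians
coloured `a` and `b`. Pushing `∂₂` along `y` slides the leg coloured `1` once around the circle,
past the leg coloured `c`.
-/

namespace Pool.Agent.AMG

/-- Admissible triples of colours at level `r`. -/
def Adm (r a b c : ℕ) : Prop :=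
  Even (a + b + c) ∧ a ≤ b + c ∧ b ≤ a + c ∧ c ≤ a + b ∧ a + b + c ≤ 2 * (r - 2)

instance (r a b c : ℕ) : Decidable (Adm r a b c) := by unfold Adm; infer_instance

/-- The basis of `V_r(Σ_{1,2}; c, 1)`: pairs of colours `(a, b)` in `{0, …, r - 2}` such that
`(a, b, c)` and `(a, b, 1)` are admissible. -/
abbrev Col (r c : ℕ) : Type :=
  {p : Fin (r - 1) × Fin (r - 1) // Adm r p.1 p.2 c ∧ Adm r p.1 p.2 1}

/-- The quantum number `{n} = A ^ n - A ^ (-n)`. -/
noncomputable def cur (A : ℂ) (n : ℤ) : ℂ := A ^ n - A ^ (-n)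

/-- The twist coefficient `(-1) ^ a * A ^ (a * (a + 2))` of the colour `a`. -/
noncomputable def tw (A : ℂ) (a : ℕ) : ℂ := (-1) ^ a * A ^ (a * (a + 2))

/-- The action of the loop `x`: `e_(a,b) ↦ (μ_b / μ_a) e_(a,b)`. -/
noncomputable def pushX (r c : ℕ) (A : ℂ) : Matrix (Col r c) (Col r c) ℂ :=
  Matrix.diagonal fun p => tw A p.1.2 / tw A p.1.1

/-- The action of the loop `y`:
`e_(b+1,b) ↦ ({c+1} e_(b,b+1) - {2b+1-c} e_(b,b-1)) / {2b+2}` and
`e_(b-1,b) ↦ ({c+1} e_(b,b-1) + {2b+3+c} e_(b,b+1)) / {2b+2}`. -/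
noncomputable def pushY (r c : ℕ) (A : ℂ) : Matrix (Col r c) (Col r c) ℂ :=
  Matrix.of fun q p =>
    if q.1.1 = p.1.2 then
      (if q.1.2 = p.1.1 then cur A (c + 1)
       else if p.1.2 < p.1.1 then -cur A (2 * (p.1.2 : ℕ) + 1 - c)
       else cur A (2 * (p.1.2 : ℕ) + 3 + c)) / cur A (2 * (p.1.2 : ℕ) + 2)
    else 0

/-- The action of a word in `x = (0, true)`, `x⁻¹ = (0, false)`, `y = (1, true)`,
`y⁻¹ = (1, false)`. -/
noncomputable def wordMat (r c : ℕ) (A : ℂ) (w : List (Fin 2 × Bool)) :
    Matrix (Col r c) (Col r c) ℂ :=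
  (w.map fun l => match l with
    | (0, true) => pushX r c A
    | (0, false) => (pushX r c A)⁻¹
    | (1, true) => pushY r c A
    | (1, false) => (pushY r c A)⁻¹).prod

/-- `g` is a power of a primitive element (that is, conjugate to a power of a simple closed
non-peripheral curve on the torus with one hole), or conjugate to a power of the boundary curve. -/
def Simple (g : FreeGroup (Fin 2)) : Prop :=
  (∃ (φ : FreeGroup (Fin 2) ≃* FreeGroup (Fin 2)) (n : ℤ), g = φ (FreeGroup.of 0) ^ n) ∨
  (∃ (h : FreeGroup (Fin 2)) (n : ℤ),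
    g = h * (FreeGroup.of 0 * FreeGroup.of 1 * (FreeGroup.of 0)⁻¹ * (FreeGroup.of 1)⁻¹) ^ n * h⁻¹)

/-- The word `w` has infinite order in the projective representation on
`V_r(Σ_{1,2}; c, 1)` at the root of unity `A`: the space is not zero and no positive power acts as
a scalar. -/
def InfOrder (r c : ℕ) (A : ℂ) (w : List (Fin 2 × Bool)) : Prop :=
  Nonempty (Col r c) ∧ ∀ n : ℕ, 0 < n → ∀ z : ℂ, wordMat r c A w ^ n ≠ z • 1

end Pool.Agent.AMG
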