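import Pool.Agent.AMG.Win

/-!
# Auxiliary definitions for the classical limit and the state model
-/

open scoped BigOperators LaurentPolynomial Matrix

namespace Pool.Agent.AMG

/-- The coefficient of `|k + 2 j, s'⟩` in the image of `|k, s⟩` under a word on the infinite line,
where `x = A ^ k`, `a = A`, `v = A ^ C`. -/
def sym {F : Type*} [Field F] : List (Fin 2 × Bool) → Fin 2 → Fin 2 → ℤ → F → F → F → F
  | [], s, s', j, _, _, _ => if s' = s ∧ j = 0 then 1 else 0
  | l :: w, s, s', j, x, a, v =>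
      ∑ t : Fin 2, ∑ i ∈ ({-1, 0, 1} : Finset ℤ),
        sym w s t (j - i) x a v * lsym l t s' i (x * a ^ (2 * (j - i))) a v

/-- The classical limit of the trace: the constant coefficient of the trace of the classical
matrix. -/
noncomputable def cl (w : List (Fin 2 × Bool)) (x v : ℝ) : ℝ :=
  ∑ s : Fin 2, sym w s s 0 x 1 v

/-- The integrated classical limit. -/
noncomputable def HH (w : List (Fin 2 × Bool)) (T : ℝ) : ℝ :=
  ∫ σ in (-T)..T, cl w (Real.exp σ) (Real.exp T)

/-- Evaluation of a word at a pair of `2 × 2` matrices of determinant one. -/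
def ev2 {R : Type*} [CommRing R] (X Y : Matrix (Fin 2) (Fin 2) R) (w : List (Fin 2 × Bool)) :
    Matrix (Fin 2) (Fin 2) R :=
  (w.map fun l => match l with
    | (0, true) => X
    | (0, false) => X.adjugate
    | (1, true) => Y
    | (1, false) => Y.adjugate).prod

/-- `x + 1 / x`. -/
noncomputable def DD (x : ℂ) : ℂ := x + x⁻¹

/-- The classical matrix of `x`, normalised to determinant one. -/
noncomputable def lauX (x : ℂ) : Matrix (Fin 2) (Fin 2) ℂ[T;T⁻¹] :=
  !![LaurentPolynomial.C (Complex.I * x⁻¹), 0; 0, LaurentPolynomial.C (-(Complex.I * x))]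

/-- The classical matrix of `y`, normalised to determinant one. -/
noncomputable def lauY (x v : ℂ) : Matrix (Fin 2) (Fin 2) ℂ[T;T⁻¹] :=
  !![LaurentPolynomial.C (Complex.I * (v * x - (v * x)⁻¹) / DD x) * LaurentPolynomial.T (-1),
      LaurentPolynomial.C (Complex.I * DD v / DD x);
     LaurentPolynomial.C (Complex.I * DD v / DD x),
      LaurentPolynomial.C (Complex.I * (v * x⁻¹ - v⁻¹ * x) / DD x) * LaurentPolynomial.T 1]

/-- The three traces. -/
noncomputable def tX (x : ℂ) : ℂ[T;T⁻¹] := (lauX x).trace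
noncomputable def tY (x v : ℂ) : ℂ[T;T⁻¹] := (lauY x v).trace
noncomputable def tZ (x v : ℂ) : ℂ[T;T⁻¹] := (lauX x * lauY x v).trace

/-- `H` is a sum of `2 T P(e ^ T)`, `P` a Laurent polynomial with `P(1) = p`, and a rational
function of `e ^ T`. -/
def Mom (H : ℝ → ℂ) (p : ℂ) : Prop :=
  ∃ (P N D : Polynomial ℂ) (k : ℕ),
    (∀ T : ℝ, 0 < T → D.eval (Complex.exp T) ≠ 0) ∧
    (∀ T : ℝ, 0 < T → H T = 2 * T * (P.eval (Complex.exp T) / Complex.exp T ^ k) +
      N.eval (Complex.exp T) / D.eval (Complex.exp T)) ∧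
    P.eval 1 = p

/-- Laurent polynomials in two variables. -/
abbrev R2 : Type := AddMonoidAlgebra ℤ (ℤ × ℤ)

/-- The monomial. -/
noncomputable def mon (a b : ℤ) : R2 := AddMonoidAlgebra.single (a, b) 1

/-- `p ^ 2 + q ^ 2 + 1`. -/
noncomputable def QQ : R2 := mon 2 0 + mon 0 2 + 1

/-- The matrix of `x` in shear coordinates, `mon a b = p ^ a * q ^ b`. -/
noncomputable def NX : Matrix (Fin 2) (Fin 2) R2 :=
  !![mon 0 (-1) + mon 2 (-1) + mon 0 1, mon 0 1; -mon 0 (-1), 0]

/-- The matrix of `y` in shear coordinates. -/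
noncomputable def NY : Matrix (Fin 2) (Fin 2) R2 :=
  !![mon (-1) 0, -mon (-1) 2; -mon (-1) 0, mon 1 0 + mon (-1) 2]

/-- Coefficient of the monomial `1`. -/
noncomputable def ct (f : R2) : ℤ := f.coeff 0

/-- Weight of an edge of the theta graph. -/
def wt (e : ZMod 3) : ℤ × ℤ := if e = 0 then (0, 1) else if e = 1 then (-1, 0) else (1, -1)

/-- Left or right turn with the weight of the edge `e`. -/
noncomputable def fac (e e' : ZMod 3) : Matrix (Fin 2) (Fin 2) (AddMonoidAlgebra ℕ (ℤ × ℤ)) :=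
  if e' = e + 1 then
    !![AddMonoidAlgebra.single (wt e) 1, 0;
      AddMonoidAlgebra.single (-wt e) 1, AddMonoidAlgebra.single (-wt e) 1]
  else
    !![AddMonoidAlgebra.single (wt e) 1, AddMonoidAlgebra.single (wt e) 1;
      0, AddMonoidAlgebra.single (-wt e) 1]

/-- The monodromy matrix of an edge path. -/
noncomputable def MM (e : ℕ → ZMod 3) (n : ℕ) :
    Matrix (Fin 2) (Fin 2) (AddMonoidAlgebra ℕ (ℤ × ℤ)) :=
  ((List.range n).map fun i => fac (e i) (e (i + 1))).prod

/-- The product of half turns `M_0 M_e` as elements of the free group. -/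
def gel (e : ZMod 3) : FreeGroup (Fin 2) :=
  if e = 1 then 1 else if e = 2 then FreeGroup.of 0 else FreeGroup.of 0 * FreeGroup.of 1

/-- The element of the free group of an edge path of length `2 n`. -/
def evg (e : ℕ → ZMod 3) (n : ℕ) : FreeGroup (Fin 2) :=
  ((List.range n).map fun i => (gel (e (2 * i)))⁻¹ * gel (e (2 * i + 1))).prod

/-- Cumulative weight. -/
def Gam (e : ℕ → ZMod 3) (i : ℕ) : ℤ × ℤ := ∑ l ∈ Finset.range (i + 1), wt (e l)

/-- A closed reduced edge path. -/
def Cyc (e : ℕ → ZMod 3) (N : ℕ) : Prop := (∀ i, e (i + N) = e i) ∧ ∀ i, e (i + 1) ≠ e i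

/-- There is a non-trivial zero-weight combination. -/
def Zdat (e : ℕ → ZMod 3) (N : ℕ) : Prop :=
  ∃ L : List (ℕ × ℕ), L ≠ [] ∧
    (∀ p ∈ L, p.1 < N ∧ p.2 < N ∧ e (p.1 + 1) = e p.1 - 1 ∧ e (p.2 + 1) = e p.2 + 1) ∧
    ∃ s : ℤ, (L.map fun p => Gam e p.2 - Gam e p.1).sum = s • Gam e (N - 1)

/-- `g` is a power of a primitive element. -/
def PP (g : FreeGroup (Fin 2)) : Prop :=
  ∃ (φ : FreeGroup (Fin 2) ≃* FreeGroup (Fin 2)) (n : ℤ), g = φ (FreeGroup.of 0) ^ n

/-- Walk of a two-interval exchange. -/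
def Walk (α β : ℝ) : ℝ → List Bool → ℝ → Prop
  | h, [], h' => h = h'
  | h, true :: l, h' => -α < h ∧ h < 0 ∧ Walk α β (h + β) l h'
  | h, false :: l, h' => 0 < h ∧ h < β ∧ Walk α β (h - α) l h'

end Pool.Agent.AMG
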