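import Pool.Agent.AMG.DefsB

/-!
# The words of a two interval exchange (Skel M20)
-/

set_option autoImplicit false

namespace Pool.Agent.AMG

/-- the group element of a word of a walk -/
private def eg (l : List Bool) : FreeGroup (Fin 2) :=
  (l.map fun b => if b then FreeGroup.of 0 else FreeGroup.of 1).prod

private theorem eg_nil : eg [] = 1 := rfl

private theorem eg_true (l : List Bool) : eg (true :: l) = FreeGroup.of 0 * eg l := by
  simp [eg]

private theorem eg_false (l : List Bool) : eg (false :: l) = FreeGroup.of 1 * eg l := by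
  simp [eg]

private theorem eg_append (l₁ l₂ : List Bool) : eg (l₁ ++ l₂) = eg l₁ * eg l₂ := by
  simp [eg]

private theorem PP_aut {g : FreeGroup (Fin 2)} (ψ : FreeGroup (Fin 2) ≃* FreeGroup (Fin 2))
    (h : PP g) : PP (ψ g) := by
  obtain ⟨φ, n, rfl⟩ := h
  exact ⟨φ.trans ψ, n, by rw [map_zpow]; rfl⟩

private theorem PP_conj {g : FreeGroup (Fin 2)} (a : FreeGroup (Fin 2)) (h : PP g) :
    PP (a * g * a⁻¹) := by
  have h1 := PP_aut (MulAut.conj a) h
  rwa [MulAut.conj_apply] at h1

/-- `x ↦ x y`, `y ↦ y` -/
private def shear : FreeGroup (Fin 2) ≃* FreeGroup (Fin 2) :=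
  MonoidHom.toMulEquiv
    (FreeGroup.lift ![FreeGroup.of 0 * FreeGroup.of 1, FreeGroup.of 1])
    (FreeGroup.lift ![FreeGroup.of 0 * (FreeGroup.of 1)⁻¹, FreeGroup.of 1])
    (by
      ext i
      fin_cases i <;> simp)
    (by
      ext i
      fin_cases i <;> simp)

private theorem shear_zero : shear (FreeGroup.of 0) = FreeGroup.of 0 * FreeGroup.of 1 := by
  simp [shear]

private theorem shear_one : shear (FreeGroup.of 1) = FreeGroup.of 1 := by
  simp [shear]

/-- `x ↦ y`, `y ↦ x` -/
private def swp : FreeGroup (Fin 2) ≃* FreeGroup (Fin 2) :=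
  FreeGroup.freeGroupCongr (Equiv.swap 0 1)

private theorem swp_zero : swp (FreeGroup.of 0) = FreeGroup.of 1 := by
  simp [swp]

private theorem swp_one : swp (FreeGroup.of 1) = FreeGroup.of 0 := by
  simp [swp]

private theorem walk_append (α β : ℝ) (l₁ l₂ : List Bool) (h h' : ℝ) :
    Walk α β h (l₁ ++ l₂) h' ↔ ∃ k, Walk α β h l₁ k ∧ Walk α β k l₂ h' := by
  induction l₁ generalizing h with
  | nil =>
    simp only [List.nil_append]
    constructor
    · intro hw
      exact ⟨h, rfl, hw⟩
    · rintro ⟨k, hk, hw⟩
      have : h = k := hk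
      rwa [this]
  | cons b l₁ ih =>
    cases b
    · simp only [List.cons_append, Walk, ih]
      constructor
      · rintro ⟨h1, h2, k, h3, h4⟩
        exact ⟨k, ⟨h1, h2, h3⟩, h4⟩
      · rintro ⟨k, ⟨h1, h2, h3⟩, h4⟩
        exact ⟨h1, h2, k, h3, h4⟩
    · simp only [List.cons_append, Walk, ih]
      constructor
      · rintro ⟨h1, h2, k, h3, h4⟩
        exact ⟨k, ⟨h1, h2, h3⟩, h4⟩
      · rintro ⟨k, ⟨h1, h2, h3⟩, h4⟩
        exact ⟨h1, h2, k, h3, h4⟩

private theorem walk_swap (α β : ℝ) (l : List Bool) (h h' : ℝ) (hw : Walk α β h l h') :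
    Walk β α (-h) (l.map (!·)) (-h') := by
  induction l generalizing h with
  | nil =>
    have : h = h' := hw
    rw [this]
    rfl
  | cons b l ih =>
    cases b
    · obtain ⟨h1, h2, h3⟩ := hw
      have h4 := ih _ h3
      simp only [List.map_cons, Bool.not_false]
      refine ⟨by linarith, by linarith, ?_⟩
      have h5 : -h + α = -(h - α) := by ring
      rw [h5]
      exact h4
    · obtain ⟨h1, h2, h3⟩ := hw
      have h4 := ih _ h3
      simp only [List.map_cons, Bool.not_true]
      refine ⟨by linarith, by linarith, ?_⟩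
      have h5 : -h - β = -(h + β) := by ring
      rw [h5]
      exact h4

private theorem eg_swap (l : List Bool) : eg (l.map (!·)) = swp (eg l) := by
  induction l with
  | nil => simp [eg_nil]
  | cons b l ih =>
    cases b
    · rw [List.map_cons, Bool.not_false, eg_true, eg_false, map_mul, swp_one, ih]
    · rw [List.map_cons, Bool.not_true, eg_false, eg_true, map_mul, swp_zero, ih]

/-- parsing into the blocks `true false` and `false` -/
private theorem parse (α β : ℝ) (hα : 0 < α) (hαβ : α ≤ β) (n : ℕ) : ∀ (l : List Bool),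
    l.length ≤ n → ∀ h h' : ℝ, h < β - α → h' < 0 → Walk α β h l h' →
      ∃ l' : List Bool, Walk α (β - α) h l' h' ∧ eg l = shear (eg l') ∧ l'.length ≤ l.length ∧
        (true ∈ l → l'.length < l.length) := by
  induction n with
  | zero =>
    intro l hl h h' h1 h2 hw
    have h3 : l = [] := List.length_eq_zero_iff.1 (by omega)
    subst h3
    exact ⟨[], hw, by simp [eg_nil], le_rfl, fun h => absurd h (List.not_mem_nil)⟩
  | succ n ih =>
    intro l hl h h' h1 h2 hw
    rcases l with _ | ⟨b, l⟩
    · exact ⟨[], hw, by simp [eg_nil], le_rfl, fun h => absurd h (List.not_mem_nil)⟩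
    cases b
    · obtain ⟨h3, h4, h5⟩ := hw
      rw [List.length_cons] at hl
      obtain ⟨l', g1, g2, g3, g4⟩ := ih l (by omega) (h - α) h' (by linarith) h2 h5
      refine ⟨false :: l', ⟨h3, h1, g1⟩, ?_, ?_, ?_⟩
      · rw [eg_false, eg_false, map_mul, shear_one, g2]
      · rw [List.length_cons, List.length_cons]
        omega
      · intro h6
        rw [List.length_cons, List.length_cons]
        have h7 : true ∈ l := by simpa using h6
        have := g4 h7
        omega
    · obtain ⟨h3, h4, h5⟩ := hw
      rcases l with _ | ⟨b, l⟩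
      · have : h + β = h' := h5
        linarith
      cases b
      · obtain ⟨h6, h7, h8⟩ := h5
        rw [List.length_cons, List.length_cons] at hl
        have h9 : h + β - α = h + (β - α) := by ring
        rw [h9] at h8
        obtain ⟨l', g1, g2, g3, g4⟩ := ih l (by omega) (h + (β - α)) h' (by linarith) h2 h8
        refine ⟨true :: l', ⟨h3, h4, g1⟩, ?_, ?_, ?_⟩
        · rw [eg_true, eg_false, eg_true, map_mul, shear_zero, g2, mul_assoc]
        · rw [List.length_cons, List.length_cons, List.length_cons]
          omega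
        · intro _
          rw [List.length_cons, List.length_cons, List.length_cons]
          omega
      · obtain ⟨h6, h7, h8⟩ := h5
        linarith

private theorem eg_all_false (l : List Bool) (h : true ∉ l) : PP (eg l) := by
  refine ⟨swp, l.length, ?_⟩
  rw [swp_zero]
  induction l with
  | nil => simp [eg_nil]
  | cons b l ih =>
    rw [List.mem_cons, not_or] at h
    have hb : b = false := by
      cases b
      · rfl
      · exact absurd rfl h.1
    subst hb
    rw [eg_false, ih h.2, List.length_cons]
    push_cast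
    rw [add_comm, zpow_add, zpow_one]

/-- the step for `α ≤ β` -/
private theorem step (n : ℕ) (ih : ∀ l : List Bool, l.length < n → ∀ α β h : ℝ, 0 ≤ α → 0 ≤ β →
    Walk α β h l h → PP (eg l)) (l : List Bool) (hl : l.length = n) (α β h : ℝ)
    (hαβ : α ≤ β) (hw : Walk α β h l h) (ht : true ∈ l) : PP (eg l) := by
  obtain ⟨l₁, l₂, rfl⟩ := List.append_of_mem ht
  obtain ⟨k, h1, h2⟩ := (walk_append α β _ _ h h).1 hw
  have hk := h2
  obtain ⟨h3, h4, _⟩ := hk
  have h5 : Walk α β k ((true :: l₂) ++ l₁) k := (walk_append α β _ _ k k).2 ⟨h, h2, h1⟩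
  have hlen : ((true :: l₂) ++ l₁).length = n := by
    rw [← hl]
    simp only [List.length_append, List.length_cons]
    omega
  obtain ⟨l', g1, g2, _, g4⟩ := parse α β (by linarith) hαβ n _ hlen.le k k (by linarith) h4 h5
  have g5 := g4 (by simp)
  rw [hlen] at g5
  have g6 := ih l' g5 α (β - α) k (by linarith) (by linarith) g1
  have g7 := PP_aut shear g6
  rw [← g2, eg_append] at g7
  have g8 := PP_conj (eg l₁) g7
  have g9 : eg l₁ * (eg (true :: l₂) * eg l₁) * (eg l₁)⁻¹ = eg (l₁ ++ true :: l₂) := by
    rw [eg_append]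
    group
  rwa [g9] at g8

private theorem main_ind (n : ℕ) : ∀ l : List Bool, l.length = n → ∀ α β h : ℝ, 0 ≤ α → 0 ≤ β →
    Walk α β h l h → PP (eg l) := by
  induction n using Nat.strong_induction_on with
  | _ n ih =>
    intro l hl α β h hα hβ hw
    have ih' : ∀ l : List Bool, l.length < n → ∀ α β h : ℝ, 0 ≤ α → 0 ≤ β →
        Walk α β h l h → PP (eg l) := fun l h1 => ih l.length h1 l rfl
    by_cases ht : true ∈ l
    · rcases le_total α β with hc | hc
      · exact step n ih' l hl α β h hc hw ht
      · by_cases hf : false ∈ l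
        · have h1 := step n ih' (l.map (!·)) (by simpa using hl) β α (-h) hc
            (walk_swap α β l h h hw) (by simpa using hf)
          rw [eg_swap] at h1
          have h2 := PP_aut swp.symm h1
          rwa [MulEquiv.symm_apply_apply] at h2
        · have h1 := eg_all_false (l.map (!·)) (by simpa using hf)
          rw [eg_swap] at h1
          have h2 := PP_aut swp.symm h1
          rwa [MulEquiv.symm_apply_apply] at h2
    · exact eg_all_false l ht

/-! M20 -/
theorem euclid (α β : ℝ) (hα : 0 ≤ α) (hβ : 0 ≤ β) (h : ℝ) (l : List Bool)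
    (hw : Walk α β h l h) :
    PP ((l.map fun b => if b then FreeGroup.of 0 else FreeGroup.of 1).prod) :=
  main_ind l.length l rfl α β h hα hβ hw

end Pool.Agent.AMG
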