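import Pool.Agent.AMG.DefsB
import Pool.Agent.AMU.Expo

/-!
# Eigenvalues which are roots of unity
-/

open Matrix

namespace Pool.Agent.AMG

/-- [M4a] Eigenvalues of finite order of a matrix over `ℚ(A)`, `A` a primitive `N`-th root of
unity, have a bounded power which is an `N`-th root of unity. -/
theorem eig_exponent {ι : Type} [Fintype ι] [DecidableEq ι] {N : ℕ} (hN : 0 < N) {A : ℂ}
    (hA : IsPrimitiveRoot A N) (M : Matrix ι ι ℂ)
    (hM : ∀ i j, M i j ∈ IntermediateField.adjoin ℚ ({A} : Set ℂ)) {l : ℂ}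
    (hl : M.charpoly.IsRoot l) (hfin : ∃ m, 0 < m ∧ l ^ m = 1) :
    (l ^ (2 * Fintype.card ι).factorial) ^ N = 1 := by
  obtain ⟨m, hm, hlm⟩ := hfin
  have hAint : IsIntegral ℚ A := (hA.isIntegral hN).tower_top
  have hlint : IsIntegral ℤ l := by
    refine IsIntegral.of_pow hm ?_
    rw [hlm]
    exact isIntegral_one
  let E := IntermediateField.adjoin ℚ ({A} : Set ℂ)
  have hAE : A ∈ E := IntermediateField.mem_adjoin_simple_self ℚ A
  have hlE : IsIntegral E l := hlint.tower_top
  let F := IntermediateField.adjoin E ({l} : Set ℂ)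
  have hlF : l ∈ F := IntermediateField.mem_adjoin_simple_self E l
  have hfE : FiniteDimensional ℚ E := IntermediateField.adjoin.finiteDimensional hAint
  have hfF : FiniteDimensional E F := IntermediateField.adjoin.finiteDimensional hlE
  have hfQ : FiniteDimensional ℚ F := FiniteDimensional.trans ℚ E F
  have h1 : Module.finrank ℚ E = N.totient := by
    rw [IntermediateField.adjoin.finrank hAint, ← Polynomial.cyclotomic_eq_minpoly_rat hA hN,
      Polynomial.natDegree_cyclotomic]
  have h2 : Module.finrank E F ≤ Fintype.card ι := by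
    rw [IntermediateField.adjoin.finrank hlE]
    let M' : Matrix ι ι E := Matrix.of fun i j => ⟨M i j, hM i j⟩
    have h3 : M'.charpoly.map (algebraMap E ℂ) = M.charpoly := by
      rw [← Matrix.charpoly_map]
      congr 1
    have h4 : Polynomial.aeval l M'.charpoly = 0 := by
      rw [Polynomial.aeval_def, ← Polynomial.eval_map, h3]
      exact hl
    have h5 : minpoly E l ∣ M'.charpoly := minpoly.dvd E l h4
    have h6 := Polynomial.natDegree_le_of_dvd h5 (Matrix.charpoly_monic _).ne_zero
    rwa [Matrix.charpoly_natDegree_eq_dim] at h6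
  have h7 : Module.finrank ℚ F ≤ N.totient * Fintype.card ι := by
    rw [← Module.finrank_mul_finrank ℚ E F, h1]
    exact Nat.mul_le_mul_left _ h2
  -- an element of `F` of order the least common multiple
  let aF : F := ⟨A, (algebraMap E F ⟨A, hAE⟩).2⟩
  let lF : F := ⟨l, hlF⟩
  have hoA : orderOf aF = N := by
    have h8 : orderOf (algebraMap F ℂ aF) = orderOf aF :=
      orderOf_injective (algebraMap F ℂ).toMonoidHom (algebraMap F ℂ).injective aF
    rw [← h8]
    exact hA.eq_orderOf.symm
  have hol : orderOf lF = orderOf l := by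
    have h8 : orderOf (algebraMap F ℂ lF) = orderOf lF :=
      orderOf_injective (algebraMap F ℂ).toMonoidHom (algebraMap F ℂ).injective lF
    rw [← h8]
    rfl
  have hol0 : 0 < orderOf l := orderOf_pos_iff.2 (isOfFinOrder_iff_pow_eq_one.2 ⟨m, hm, hlm⟩)
  obtain ⟨z, -, hz⟩ := (Commute.all aF lF).exists_orderOf_eq_lcm
  rw [hoA, hol] at hz
  set L := Nat.lcm N (orderOf l) with hL
  have hL0 : 0 < L := Nat.lcm_pos hN hol0
  have hzp : IsPrimitiveRoot z L := by
    have := IsPrimitiveRoot.orderOf z
    rwa [hz] at this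
  have h9 : L.totient ≤ Module.finrank ℚ F := by
    have h10 := minpoly.natDegree_le (A := ℚ) z
    rwa [← Polynomial.cyclotomic_eq_minpoly_rat hzp hL0, Polynomial.natDegree_cyclotomic] at h10
  obtain ⟨s, hs⟩ : N ∣ L := Nat.dvd_lcm_left _ _
  have hs0 : 0 < s := Nat.pos_of_ne_zero (by rintro rfl; omega)
  have h11 : s.totient ≤ Fintype.card ι := by
    have h12 : N.totient * s.totient ≤ N.totient * Fintype.card ι :=
      (Nat.totient_super_multiplicative N s).trans (by rw [← hs]; exact h9.trans h7)
    exact Nat.le_of_mul_le_mul_left h12 (Nat.totient_pos.2 hN)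
  obtain ⟨q, hq⟩ := Pool.Agent.AMU.dvd_factorial_of_totient_le hs0 h11
  have h13 : (l ^ s) ^ N = 1 := by
    rw [← pow_mul, mul_comm, ← hs]
    exact orderOf_dvd_iff_pow_eq_one.1 (Nat.dvd_lcm_right _ _)
  rw [hq, pow_mul, ← pow_mul, mul_comm q, pow_mul, h13, one_pow]

end Pool.Agent.AMG
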