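import Pool.Agent.AMG.DefsB

/-!
# Fricke polynomials (Skel M10)
-/

open scoped BigOperators LaurentPolynomial Matrix Topology
open Polynomial Filter

namespace Pool.Agent.AMG

section
variable {R : Type} [CommRing R]

theorem fr_sq (X : Matrix (Fin 2) (Fin 2) R) (hX : X.det = 1) : X * X = X.trace • X - 1 := by
  rw [Matrix.det_fin_two] at hX
  ext i j
  fin_cases i <;> fin_cases j <;>
    simp [Matrix.mul_apply, Fin.sum_univ_two, Matrix.trace_fin_two]
  · linear_combination (-1 : R) * hX
  · ring
  · ring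
  · linear_combination (-1 : R) * hX

theorem fr_adj (X : Matrix (Fin 2) (Fin 2) R) : X.adjugate = X.trace • 1 - X := by
  ext i j
  fin_cases i <;> fin_cases j <;>
    simp [Matrix.adjugate_fin_two, Matrix.trace_fin_two]

theorem fr_YX (X Y : Matrix (Fin 2) (Fin 2) R) :
    Y * X = -(X * Y) + Y.trace • X + X.trace • Y + ((X * Y).trace - X.trace * Y.trace) • 1 := by
  ext i j
  fin_cases i <;> fin_cases j <;>
    simp [Matrix.mul_apply, Fin.sum_univ_two, Matrix.trace_fin_two] <;> ring

theorem fr_YXY (X Y : Matrix (Fin 2) (Fin 2) R) (hY : Y.det = 1) :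
    Y * (X * Y) = X + (X * Y).trace • Y - X.trace • 1 := by
  rw [Matrix.det_fin_two] at hY
  ext i j
  fin_cases i <;> fin_cases j <;>
    simp [Matrix.mul_apply, Fin.sum_univ_two, Matrix.trace_fin_two]
  · linear_combination (-(X 1 1) : R) * hY
  · linear_combination ((X 0 1) : R) * hY
  · linear_combination ((X 1 0) : R) * hY
  · linear_combination (-(X 0 0) : R) * hY

theorem fr_stepX (X Y : Matrix (Fin 2) (Fin 2) R) (hX : X.det = 1) (a b c d : R) :
    X * (a • 1 + b • X + c • Y + d • (X * Y)) =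
      (-b) • 1 + (a + X.trace * b) • X + (-d) • Y + (c + X.trace * d) • (X * Y) := by
  have h := fr_sq X hX
  rw [mul_add, mul_add, mul_add, mul_smul_comm, mul_smul_comm, mul_smul_comm, mul_smul_comm,
    mul_one, ← mul_assoc, h, sub_mul, smul_mul_assoc, one_mul]
  module

theorem fr_stepY (X Y : Matrix (Fin 2) (Fin 2) R) (hX : X.det = 1) (hY : Y.det = 1)
    (a b c d : R) :
    Y * (a • 1 + b • X + c • Y + d • (X * Y)) =
      (b * ((X * Y).trace - X.trace * Y.trace) - c - X.trace * d) • 1 +
      (Y.trace * b + d) • X + (a + X.trace * b + Y.trace * c + (X * Y).trace * d) • Y +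
      (-b) • (X * Y) := by
  rw [mul_add, mul_add, mul_add, mul_smul_comm, mul_smul_comm, mul_smul_comm, mul_smul_comm,
    mul_one, fr_sq Y hY, fr_YX X Y, fr_YXY X Y hY]
  module

theorem fr_cons1 (X Y : Matrix (Fin 2) (Fin 2) R) (w : List (Fin 2 × Bool)) (h : 0 < 2) :
    ev2 X Y ((⟨0, h⟩, true) :: w) = X * ev2 X Y w := by
  rw [ev2, List.map_cons, List.prod_cons]
  rfl

theorem fr_cons2 (X Y : Matrix (Fin 2) (Fin 2) R) (w : List (Fin 2 × Bool)) (h : 0 < 2) :
    ev2 X Y ((⟨0, h⟩, false) :: w) = X.adjugate * ev2 X Y w := by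
  rw [ev2, List.map_cons, List.prod_cons]
  rfl

theorem fr_cons3 (X Y : Matrix (Fin 2) (Fin 2) R) (w : List (Fin 2 × Bool)) (h : 1 < 2) :
    ev2 X Y ((⟨1, h⟩, true) :: w) = Y * ev2 X Y w := by
  rw [ev2, List.map_cons, List.prod_cons]
  rfl

theorem fr_cons4 (X Y : Matrix (Fin 2) (Fin 2) R) (w : List (Fin 2 × Bool)) (h : 1 < 2) :
    ev2 X Y ((⟨1, h⟩, false) :: w) = Y.adjugate * ev2 X Y w := by
  rw [ev2, List.map_cons, List.prod_cons]
  rfl

end

theorem fr_main (w : List (Fin 2 × Bool)) : ∃ al be ga de : MvPolynomial (Fin 3) ℤ,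
    ∀ (R : Type) [CommRing R] (X Y : Matrix (Fin 2) (Fin 2) R), X.det = 1 → Y.det = 1 →
      ev2 X Y w = (MvPolynomial.aeval ![X.trace, Y.trace, (X * Y).trace] al) • 1 +
        (MvPolynomial.aeval ![X.trace, Y.trace, (X * Y).trace] be) • X +
        (MvPolynomial.aeval ![X.trace, Y.trace, (X * Y).trace] ga) • Y +
        (MvPolynomial.aeval ![X.trace, Y.trace, (X * Y).trace] de) • (X * Y) := by
  induction w with
  | nil =>
    refine ⟨1, 0, 0, 0, ?_⟩
    intro R _ X Y _ _
    simp [ev2]
  | cons l w ih =>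
    obtain ⟨al, be, ga, de, h⟩ := ih
    set px : MvPolynomial (Fin 3) ℤ := MvPolynomial.X 0 with hpx
    set py : MvPolynomial (Fin 3) ℤ := MvPolynomial.X 1 with hpy
    set pz : MvPolynomial (Fin 3) ℤ := MvPolynomial.X 2 with hpz
    have ex : ∀ (R : Type) [CommRing R] (x y z : R),
        MvPolynomial.aeval ![x, y, z] px = x := by
      intro R _ x y z
      rw [hpx, MvPolynomial.aeval_X]
      rfl
    have ey : ∀ (R : Type) [CommRing R] (x y z : R),
        MvPolynomial.aeval ![x, y, z] py = y := by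
      intro R _ x y z
      rw [hpy, MvPolynomial.aeval_X]
      rfl
    have ez : ∀ (R : Type) [CommRing R] (x y z : R),
        MvPolynomial.aeval ![x, y, z] pz = z := by
      intro R _ x y z
      rw [hpz, MvPolynomial.aeval_X]
      rfl
    obtain ⟨i, b⟩ := l
    fin_cases i
    · cases b
      · -- the inverse of `X`
        refine ⟨px * al + be, px * be - (al + px * be), px * ga + de,
          px * de - (ga + px * de), ?_⟩
        intro R _ X Y hX hY
        rw [fr_cons2]
        rw [fr_adj, sub_mul, h R X Y hX hY, fr_stepX X Y hX, smul_mul_assoc, one_mul]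
        simp only [map_add, map_mul, map_sub, ex]
        module
      · refine ⟨-be, al + px * be, -de, ga + px * de, ?_⟩
        intro R _ X Y hX hY
        rw [fr_cons1]
        rw [h R X Y hX hY, fr_stepX X Y hX]
        simp only [map_add, map_mul, map_neg, ex]
    · cases b
      · refine ⟨py * al - (be * (pz - px * py) - ga - px * de), py * be - (py * be + de),
          py * ga - (al + px * be + py * ga + pz * de), py * de + be, ?_⟩
        intro R _ X Y hX hY
        rw [fr_cons4]
        rw [fr_adj, sub_mul, h R X Y hX hY, fr_stepY X Y hX hY, smul_mul_assoc, one_mul]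
        simp only [map_add, map_mul, map_sub, ex, ey, ez]
        module
      · refine ⟨be * (pz - px * py) - ga - px * de, py * be + de,
          al + px * be + py * ga + pz * de, -be, ?_⟩
        intro R _ X Y hX hY
        rw [fr_cons3]
        rw [h R X Y hX hY, fr_stepY X Y hX hY]
        simp only [map_add, map_mul, map_sub, map_neg, ex, ey, ez]

theorem fricke (w : List (Fin 2 × Bool)) : ∃ f : MvPolynomial (Fin 3) ℤ,
    ∀ (R : Type) [CommRing R] (X Y : Matrix (Fin 2) (Fin 2) R), X.det = 1 → Y.det = 1 →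
      (ev2 X Y w).trace = MvPolynomial.aeval ![X.trace, Y.trace, (X * Y).trace] f := by
  obtain ⟨al, be, ga, de, h⟩ := fr_main w
  refine ⟨2 * al + be * MvPolynomial.X 0 + ga * MvPolynomial.X 1 + de * MvPolynomial.X 2, ?_⟩
  intro R _ X Y hX hY
  rw [h R X Y hX hY]
  simp only [Matrix.trace_add, Matrix.trace_smul, Matrix.trace_one, Fintype.card_fin, map_add,
    map_mul, MvPolynomial.aeval_X, map_ofNat, smul_eq_mul]
  simp only [Matrix.cons_val_zero, Matrix.cons_val_one, Matrix.cons_val]
  push_cast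
  ring

end Pool.Agent.AMG
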