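import Pool.Agent.AMG.DefsB

/-!
# Growth of the number of closed paths of weight zero (Skel M17)
-/

set_option autoImplicit false

open scoped BigOperators Matrix

namespace Pool.Agent.AMG

private theorem coeff_mul_ge (f g : AddMonoidAlgebra ℕ (ℤ × ℤ)) (a b : ℤ × ℤ) :
    f.coeff a * g.coeff b ≤ (f * g).coeff (a + b) := by
  have h1 : (AddMonoidAlgebra.single a (f.coeff a) * g).coeff (a + b) = f.coeff a * g.coeff b := by
    rw [AddMonoidAlgebra.coeff_single_mul_apply, neg_add_cancel_left]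
  have h2 : f * g = AddMonoidAlgebra.single a (f.coeff a) * g + f.erase a * g := by
    rw [← add_mul, AddMonoidAlgebra.single_add_erase]
  rw [h2, AddMonoidAlgebra.coeff_add, Finsupp.add_apply, h1]
  exact Nat.le_add_right _ _

/-- reachable -/
private def Rch (M : Matrix (Fin 2) (Fin 2) (AddMonoidAlgebra ℕ (ℤ × ℤ))) (s s' : Fin 2)
    (g : ℤ × ℤ) : Prop := 1 ≤ (M s s').coeff g

private theorem entry_ge (M M' : Matrix (Fin 2) (Fin 2) (AddMonoidAlgebra ℕ (ℤ × ℤ)))
    (s s' : Fin 2) (x : ℤ × ℤ) :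
    ((M * M') s s').coeff x = (M s 0 * M' 0 s').coeff x + (M s 1 * M' 1 s').coeff x := by
  rw [Matrix.mul_apply, Fin.sum_univ_two, AddMonoidAlgebra.coeff_add, Finsupp.add_apply]

private theorem Rch.mul {M M' : Matrix (Fin 2) (Fin 2) (AddMonoidAlgebra ℕ (ℤ × ℤ))}
    {s t s' : Fin 2} {g g' : ℤ × ℤ} (h : Rch M s t g) (h' : Rch M' t s' g') :
    Rch (M * M') s s' (g + g') := by
  unfold Rch at *
  have h1 := coeff_mul_ge (M s t) (M' t s') g g'
  have h2 : 1 ≤ (M s t).coeff g * (M' t s').coeff g' := Nat.one_le_iff_ne_zero.2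
    (Nat.mul_ne_zero (by omega) (by omega))
  rw [entry_ge]
  fin_cases t
  · simp only [Fin.zero_eta] at *
    omega
  · simp only [Fin.mk_one] at *
    omega

private theorem Rch.pow_add {M : Matrix (Fin 2) (Fin 2) (AddMonoidAlgebra ℕ (ℤ × ℤ))}
    {s t s' : Fin 2} {g g' : ℤ × ℤ} {m n : ℕ} (h : Rch (M ^ m) s t g) (h' : Rch (M ^ n) t s' g') :
    Rch (M ^ (m + n)) s s' (g + g') := by
  rw [_root_.pow_add]
  exact h.mul h'

private theorem Rch.one (s : Fin 2) :
    Rch (1 : Matrix (Fin 2) (Fin 2) (AddMonoidAlgebra ℕ (ℤ × ℤ))) s s 0 := by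
  unfold Rch
  rw [Matrix.one_apply_eq]
  exact (Finsupp.single_eq_same (a := (0 : ℤ × ℤ)) (b := 1)).ge

private theorem Rch.pow {M : Matrix (Fin 2) (Fin 2) (AddMonoidAlgebra ℕ (ℤ × ℤ))}
    {s : Fin 2} {g : ℤ × ℤ} (h : Rch M s s g) (n : ℕ) : Rch (M ^ n) s s (n • g) := by
  induction n with
  | zero =>
    rw [pow_zero, zero_smul]
    exact Rch.one s
  | succ n ih =>
    rw [pow_succ, succ_nsmul]
    exact ih.mul h

private theorem coeff_single_self (g : ℤ × ℤ) :
    1 ≤ (AddMonoidAlgebra.single g 1 : AddMonoidAlgebra ℕ (ℤ × ℤ)).coeff g :=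
  (Finsupp.single_eq_same (a := g) (b := 1)).ge

private theorem fac00 (a b : ZMod 3) : Rch (fac a b) 0 0 (wt a) := by
  unfold Rch fac
  split_ifs
  · exact coeff_single_self _
  · exact coeff_single_self _

private theorem fac11 (a b : ZMod 3) : Rch (fac a b) 1 1 (-wt a) := by
  unfold Rch fac
  split_ifs
  · exact coeff_single_self _
  · exact coeff_single_self _

private theorem fac10 (a b : ZMod 3) (h : b = a + 1) : Rch (fac a b) 1 0 (-wt a) := by
  unfold Rch fac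
  rw [if_pos h]
  exact coeff_single_self _

private theorem fac01 (a b : ZMod 3) (h : b = a - 1) : Rch (fac a b) 0 1 (wt a) := by
  unfold Rch fac
  have h1 : ¬ b = a + 1 := by
    subst h
    revert a
    decide
  rw [if_neg h1]
  exact coeff_single_self _

private def Sm (e : ℕ → ZMod 3) (n : ℕ) : ℤ × ℤ := ∑ l ∈ Finset.range n, wt (e l)

private theorem Sm_succ (e : ℕ → ZMod 3) (n : ℕ) : Sm e (n + 1) = Sm e n + wt (e n) :=
  Finset.sum_range_succ _ _

private theorem MM_succ (e : ℕ → ZMod 3) (n : ℕ) :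
    MM e (n + 1) = MM e n * fac (e n) (e (n + 1)) := by
  unfold MM
  rw [List.range_succ, List.map_append, List.prod_append]
  simp

private theorem MM_zero (e : ℕ → ZMod 3) : MM e 0 = 1 := by
  simp [MM]

private theorem MM00 (e : ℕ → ZMod 3) (n : ℕ) : Rch (MM e n) 0 0 (Sm e n) := by
  induction n with
  | zero =>
    rw [MM_zero]
    exact Rch.one 0
  | succ n ih =>
    rw [MM_succ, Sm_succ]
    exact ih.mul (fac00 _ _)

private theorem MM11 (e : ℕ → ZMod 3) (n : ℕ) : Rch (MM e n) 1 1 (-Sm e n) := by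
  induction n with
  | zero =>
    rw [MM_zero]
    exact Rch.one 1
  | succ n ih =>
    rw [MM_succ, Sm_succ, neg_add]
    exact ih.mul (fac11 _ _)

private theorem MM01 (e : ℕ → ZMod 3) (i : ℕ) (h : e (i + 1) = e i - 1) (n : ℕ) :
    Rch (MM e (i + 1 + n)) 0 1 (2 • Sm e (i + 1) - Sm e (i + 1 + n)) := by
  induction n with
  | zero =>
    rw [add_zero, MM_succ]
    have h1 := (MM00 e i).mul (fac01 _ _ h)
    rw [← Sm_succ] at h1
    have h2 : 2 • Sm e (i + 1) - Sm e (i + 1) = Sm e (i + 1) := by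
      rw [two_smul, add_sub_cancel_right]
    rwa [h2]
  | succ n ih =>
    rw [← add_assoc, MM_succ, Sm_succ e (i + 1 + n)]
    have h1 := ih.mul (fac11 (e (i + 1 + n)) (e (i + 1 + n + 1)))
    have h2 : 2 • Sm e (i + 1) - Sm e (i + 1 + n) + -wt (e (i + 1 + n)) =
        2 • Sm e (i + 1) - (Sm e (i + 1 + n) + wt (e (i + 1 + n))) := by abel
    rwa [h2] at h1

private theorem MM10 (e : ℕ → ZMod 3) (i : ℕ) (h : e (i + 1) = e i + 1) (n : ℕ) :
    Rch (MM e (i + 1 + n)) 1 0 (Sm e (i + 1 + n) - 2 • Sm e (i + 1)) := by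
  induction n with
  | zero =>
    rw [add_zero, MM_succ]
    have h1 := (MM11 e i).mul (fac10 _ _ h)
    rw [← neg_add, ← Sm_succ] at h1
    have h2 : Sm e (i + 1) - 2 • Sm e (i + 1) = -Sm e (i + 1) := by
      rw [two_smul]
      abel
    rwa [h2]
  | succ n ih =>
    rw [← add_assoc, MM_succ, Sm_succ e (i + 1 + n)]
    have h1 := ih.mul (fac00 (e (i + 1 + n)) (e (i + 1 + n + 1)))
    have h2 : Sm e (i + 1 + n) - 2 • Sm e (i + 1) + wt (e (i + 1 + n)) =
        Sm e (i + 1 + n) + wt (e (i + 1 + n)) - 2 • Sm e (i + 1) := by abel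
    rwa [h2] at h1

private theorem up (e : ℕ → ZMod 3) {i N : ℕ} (hi : i < N) (h : e (i + 1) = e i - 1) :
    Rch (MM e N) 0 1 (2 • Gam e i - Sm e N) := by
  obtain ⟨n, rfl⟩ := Nat.exists_eq_add_of_lt hi
  have h1 := MM01 e i h n
  have h2 : i + n + 1 = i + 1 + n := by omega
  rw [h2]
  exact h1

private theorem down (e : ℕ → ZMod 3) {i N : ℕ} (hi : i < N) (h : e (i + 1) = e i + 1) :
    Rch (MM e N) 1 0 (Sm e N - 2 • Gam e i) := by
  obtain ⟨n, rfl⟩ := Nat.exists_eq_add_of_lt hi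
  have h1 := MM10 e i h n
  have h2 : i + n + 1 = i + 1 + n := by omega
  rw [h2]
  exact h1

private theorem chain (e : ℕ → ZMod 3) (N : ℕ) (L : List (ℕ × ℕ))
    (hL : ∀ p ∈ L, p.1 < N ∧ p.2 < N ∧ e (p.1 + 1) = e p.1 - 1 ∧ e (p.2 + 1) = e p.2 + 1) :
    Rch (MM e N ^ (2 * L.length)) 0 0
      (-(2 • (L.map fun p => Gam e p.2 - Gam e p.1).sum)) := by
  induction L with
  | nil =>
    simp only [List.length_nil, mul_zero, pow_zero, List.map_nil, List.sum_nil, smul_zero, neg_zero]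
    exact Rch.one 0
  | cons p L ih =>
    obtain ⟨h1, h2, h3, h4⟩ := hL p (List.mem_cons_self)
    have ih' := ih fun q hq => hL q (List.mem_cons_of_mem _ hq)
    have h5 := (((up e h1 h3).mul (down e h2 h4))).mul ih'
    have h6 : MM e N * MM e N * MM e N ^ (2 * L.length) = MM e N ^ (2 * (p :: L).length) := by
      rw [List.length_cons, Nat.mul_succ, add_comm (2 * L.length) 2, _root_.pow_add, pow_two]
    rw [h6] at h5
    have h7 : 2 • Gam e p.1 - Sm e N + (Sm e N - 2 • Gam e p.2) +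
        -(2 • (L.map fun p => Gam e p.2 - Gam e p.1).sum) =
        -(2 • ((p :: L).map fun p => Gam e p.2 - Gam e p.1).sum) := by
      rw [List.map_cons, List.sum_cons, smul_add, smul_sub]
      abel
    rwa [h7] at h5

/-! M17 -/
theorem grow (e : ℕ → ZMod 3) (N : ℕ) (hN : 0 < N) (he : Cyc e N) (hz : Zdat e N) :
    ∃ m0 > 0, ∀ k, 2 ^ k ≤ (MM e N ^ (m0 * k)).trace.coeff 0 := by
  obtain ⟨L, hne, hL, s, hs⟩ := hz
  have hV : Gam e (N - 1) = Sm e N := by
    unfold Gam Sm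
    rw [Nat.sub_add_cancel hN]
  rw [hV] at hs
  rcases L with _ | ⟨p, L⟩
  · exact absurd rfl hne
  obtain ⟨h1, h2, h3, h4⟩ := hL p (List.mem_cons_self)
  have hup := up e h1 h3
  have hdn := down e h2 h4
  have hch := chain e N L fun q hq => hL q (List.mem_cons_of_mem _ hq)
  set M := MM e N with hM
  set V := Sm e N with hVd
  set W := (L.map fun p => Gam e p.2 - Gam e p.1).sum with hW
  rw [List.map_cons, List.sum_cons, ← hW] at hs
  set g : ℕ := 2 * s.natAbs with hg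
  obtain ⟨h, hh⟩ : ∃ h : ℕ, (h : ℤ) = g + 1 - 2 * s := by
    refine ⟨((g : ℤ) + 1 - 2 * s).toNat, ?_⟩
    rw [Int.toNat_of_nonneg]
    have := Int.le_natAbs (a := s)
    omega
  have hup' : Rch (M ^ 1) 0 1 (2 • Gam e p.1 - V) := by rwa [pow_one]
  have hdn' : Rch (M ^ 1) 1 0 (V - 2 • Gam e p.2) := by rwa [pow_one]
  have h11 := (MM11 e N).pow h
  have h00 := (MM00 e N).pow g
  have h00' := (MM00 e N).pow (g + 1)
  rw [← hM] at h11 h00 h00'
  -- the two loops
  have r1 := (((hup'.pow_add h11).pow_add hdn').pow_add hch).pow_add h00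
  have r2 := ((h11.pow_add hdn').pow_add hch).pow_add h00'
  set n0 : ℕ := 1 + h + 1 + 2 * L.length + g with hn0
  have hn1 : h + 1 + 2 * L.length + (g + 1) = n0 := by omega
  rw [hn1] at r2
  -- weights
  have hkey : 2 • (Gam e p.1) - 2 • (Gam e p.2) - 2 • W = -((2 * s) • V) := by
    rw [mul_smul, ← hs]
    rw [show ((2 : ℤ) • (Gam e p.2 - Gam e p.1 + W)) = 2 • (Gam e p.2 - Gam e p.1 + W) from
      by rw [ofNat_zsmul]]
    rw [smul_add, smul_sub]
    abel
  have w1 : 2 • Gam e p.1 - V + h • (-V) + (V - 2 • Gam e p.2) + -(2 • W) + g • V = -V := by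
    have h5 : 2 • Gam e p.1 - V + h • (-V) + (V - 2 • Gam e p.2) + -(2 • W) + g • V =
        (2 • (Gam e p.1) - 2 • (Gam e p.2) - 2 • W) + ((g : ℤ) • V - (h : ℤ) • V) := by
      rw [natCast_zsmul, natCast_zsmul, smul_neg]
      abel
    rw [h5, hkey, ← sub_smul, ← neg_smul, ← add_smul, hh]
    have h6 : -(2 * s) + ((g : ℤ) - (g + 1 - 2 * s)) = -1 := by ring
    rw [h6, neg_smul, one_smul]
  have w2 : h • (-V) + (V - 2 • Gam e p.2) + -(2 • W) + (g + 1) • V =
      -(2 • Gam e p.1 - V) := by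
    have h5 : h • (-V) + (V - 2 • Gam e p.2) + -(2 • W) + (g + 1) • V =
        (2 • Gam e p.1 - V + h • (-V) + (V - 2 • Gam e p.2) + -(2 • W) + g • V) -
          (2 • Gam e p.1 - V) + V := by
      rw [succ_nsmul V g]
      abel
    rw [h5, w1]
    abel
  rw [w1] at r1
  rw [w2] at r2
  have htwo : 2 ≤ ((M ^ (n0 + 1)) 0 0).coeff 0 := by
    rw [pow_succ', entry_ge]
    have a1 := coeff_mul_ge (M 0 0) ((M ^ n0) 0 0) V (-V)
    have a2 := coeff_mul_ge (M 0 1) ((M ^ n0) 1 0) (2 • Gam e p.1 - V) (-(2 • Gam e p.1 - V))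
    rw [add_neg_cancel] at a1 a2
    have b1 : 1 ≤ (M 0 0).coeff V := MM00 e N
    have b2 : 1 ≤ (M 0 1).coeff (2 • Gam e p.1 - V) := hup
    have c1 : 1 ≤ (M 0 0).coeff V * ((M ^ n0) 0 0).coeff (-V) :=
      Nat.one_le_iff_ne_zero.2 (Nat.mul_ne_zero (by omega) (by have : 1 ≤ _ := r1; omega))
    have c2 : 1 ≤ (M 0 1).coeff (2 • Gam e p.1 - V) *
        ((M ^ n0) 1 0).coeff (-(2 • Gam e p.1 - V)) :=
      Nat.one_le_iff_ne_zero.2 (Nat.mul_ne_zero (by omega) (by have : 1 ≤ _ := r2; omega))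
    omega
  have hpow : ∀ k : ℕ, 2 ^ k ≤ ((M ^ ((n0 + 1) * k)) 0 0).coeff 0 := by
    intro k
    induction k with
    | zero =>
      rw [mul_zero, pow_zero, pow_zero]
      exact Rch.one 0
    | succ k ih =>
      rw [Nat.mul_succ, _root_.pow_add M, pow_succ 2 k, entry_ge]
      have a1 := coeff_mul_ge ((M ^ ((n0 + 1) * k)) 0 0) ((M ^ (n0 + 1)) 0 0) 0 0
      rw [add_zero] at a1
      calc 2 ^ k * 2 ≤ ((M ^ ((n0 + 1) * k)) 0 0).coeff 0 * ((M ^ (n0 + 1)) 0 0).coeff 0 :=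
            Nat.mul_le_mul ih htwo
        _ ≤ _ := a1
        _ ≤ _ := Nat.le_add_right _ _
  refine ⟨n0 + 1, Nat.succ_pos _, fun k => (hpow k).trans ?_⟩
  rw [Matrix.trace_fin_two, AddMonoidAlgebra.coeff_add, Finsupp.add_apply]
  exact Nat.le_add_right _ _

end Pool.Agent.AMG
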