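import Pool.Agent.AMG.DefsB

/-!
# The window matrices are specialisations of the symbols on the infinite line
-/

open scoped BigOperators

namespace Pool.Agent.AMG

namespace Sym

section
variable {F : Type*} [Field F]

theorem dir_mem (b : Bool) (s : Fin 2) : dir b s = -1 ∨ dir b s = 1 := by
  unfold dir
  split_ifs
  · exact Or.inl rfl
  · exact Or.inr rfl

/-- A letter moves by at most one. -/
theorem lsym_big (l : Fin 2 × Bool) (t s' : Fin 2) {i : ℤ} (hi : i ∉ ({-1, 0, 1} : Finset ℤ))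
    (x a v : F) : lsym l t s' i x a v = 0 := by
  have h1 : i ≠ -1 ∧ i ≠ 0 ∧ i ≠ 1 := by
    refine ⟨?_, ?_, ?_⟩ <;>
    · rintro rfl
      exact hi (by decide)
  have h2 : i ≠ dir l.2 t := by
    rcases dir_mem l.2 t with h | h
    · rw [h]
      exact h1.1
    · rw [h]
      exact h1.2.2
  unfold lsym
  by_cases hl : l.1 = 0
  · rw [if_pos hl, if_neg (fun h => h1.2.1 h.2)]
  · rw [if_neg hl, if_neg (fun h => h1.2.1 h.2), if_neg (fun h => h2 h.2)]

/-- A letter does not leave the window. -/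
theorem lsym_out (C : ℕ) {A : F} (hA : A ≠ 0) (l : Fin 2 × Bool) (t s' : Fin 2) (i y : ℤ)
    (hy : 0 ≤ y ∧ y ≤ C) (hi : i ∈ ({-1, 0, 1} : Finset ℤ)) (hyi : ¬ (0 ≤ y + i ∧ y + i ≤ C)) :
    lsym l t s' i (A ^ (2 * y - C)) A (A ^ C) = 0 := by
  have h0 : i ≠ 0 := by
    rintro rfl
    rw [add_zero] at hyi
    exact hyi hy
  have hz : ∀ d : ℤ, i = d → shiftc (A ^ (2 * y - C)) A (A ^ C) d = 0 := by
    rintro d rfl
    unfold shiftc
    have h1 : A ^ C * (A ^ (2 * y - (C : ℤ))) ^ (-i) - (A ^ C)⁻¹ * (A ^ (2 * y - (C : ℤ))) ^ i = 0 := by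
      rw [← zpow_natCast A C, ← zpow_neg, ← zpow_mul, ← zpow_mul, ← zpow_add₀ hA, ← zpow_add₀ hA,
        sub_eq_zero]
      congr 1
      simp only [Finset.mem_insert, Finset.mem_singleton] at hi
      rcases hi with rfl | rfl | rfl
      · have : y = 0 := by omega
        subst this
        ring
      · exact absurd rfl h0
      · have : y = C := by omega
        subst this
        ring
    rw [h1, zero_div]
  unfold lsym
  by_cases hl : l.1 = 0
  · rw [if_pos hl, if_neg (fun h => h0 h.2)]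
  · rw [if_neg hl, if_neg (fun h => h0 h.2)]
    by_cases h : s' = t ∧ i = dir l.2 t
    · rw [if_pos h, hz _ h.2, mul_zero]
    · rw [if_neg h]

theorem zpow_shift (C : ℕ) {A : F} (hA : A ≠ 0) (p j i : ℤ) :
    A ^ (2 * p - C) * A ^ (2 * (j - i)) = A ^ (2 * (p + j - i) - C) := by
  rw [← zpow_add₀ hA]
  congr 1
  ring

/-- A word does not leave the window. -/
theorem sym_out (C : ℕ) {A : F} (hA : A ≠ 0) (w : List (Fin 2 × Bool)) (s s' : Fin 2) (p j : ℤ)
    (hp : 0 ≤ p ∧ p ≤ C) (hpj : ¬ (0 ≤ p + j ∧ p + j ≤ C)) :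
    sym w s s' j (A ^ (2 * p - C)) A (A ^ C) = 0 := by
  induction w generalizing s' j with
  | nil =>
    unfold sym
    rw [if_neg]
    rintro ⟨-, rfl⟩
    rw [add_zero] at hpj
    exact hpj hp
  | cons l w ih =>
    unfold sym
    refine Finset.sum_eq_zero fun t _ => Finset.sum_eq_zero fun i hi => ?_
    by_cases h : 0 ≤ p + (j - i) ∧ p + (j - i) ≤ C
    · rw [zpow_shift C hA, add_sub_assoc, lsym_out C hA l t s' i _ h hi, mul_zero]
      have h1 : p + (j - i) + i = p + j := by ring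
      rw [h1]
      exact hpj
    · rw [ih t (j - i) h, zero_mul]

theorem wordW_eq (C : ℕ) {A : F} (hA : A ≠ 0) (w : List (Fin 2 × Bool)) (p q : Win C) :
    wordW C A w q p =
      sym w p.2 q.2 ((q.1 : ℤ) - (p.1 : ℤ)) (A ^ (2 * (p.1 : ℤ) - C)) A (A ^ C) := by
  have hp : (0 : ℤ) ≤ (p.1 : ℤ) ∧ (p.1 : ℤ) ≤ C := by
    have := p.1.isLt
    omega
  induction w generalizing q with
  | nil =>
    unfold wordW sym
    rw [List.map_nil, List.prod_nil, Matrix.one_apply]
    by_cases h : q = p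
    · rw [if_pos h, if_pos]
      subst h
      exact ⟨rfl, sub_self _⟩
    · rw [if_neg h, if_neg]
      rintro ⟨h1, h2⟩
      apply h
      refine Prod.ext (Fin.ext ?_) h1
      omega
  | cons l w ih =>
    have h1 : wordW C A (l :: w) = letW C A l * wordW C A w := by
      unfold wordW
      rw [List.map_cons, List.prod_cons]
    rw [h1, Matrix.mul_apply, Fintype.sum_prod_type_right]
    unfold sym
    refine Finset.sum_congr rfl fun t _ => ?_
    set G : ℤ → F := fun i => sym w p.2 t ((q.1 : ℤ) - (p.1 : ℤ) - i) (A ^ (2 * (p.1 : ℤ) - C)) A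
      (A ^ C) * lsym l t q.2 i (A ^ (2 * (p.1 : ℤ) - C) *
        A ^ (2 * ((q.1 : ℤ) - (p.1 : ℤ) - i))) A (A ^ C) with hG
    set I : Finset ℤ := Finset.univ.image (fun a : Fin (C + 1) => (q.1 : ℤ) - (a : ℤ)) with hI
    have h2 : ∑ a : Fin (C + 1), letW C A l q (a, t) * wordW C A w (a, t) p = ∑ i ∈ I, G i := by
      rw [hI, Finset.sum_image]
      · refine Finset.sum_congr rfl fun a _ => ?_
        rw [ih (a, t), hG]
        unfold letW
        simp only [Matrix.of_apply]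
        rw [zpow_shift C hA, mul_comm]
        have e1 : (q.1 : ℤ) - (p.1 : ℤ) - ((q.1 : ℤ) - (a : ℤ)) = (a : ℤ) - (p.1 : ℤ) := by ring
        have e2 : (p.1 : ℤ) + ((q.1 : ℤ) - (p.1 : ℤ)) - ((q.1 : ℤ) - (a : ℤ)) = (a : ℤ) := by ring
        rw [e1, e2]
      · intro a _ b _ hab
        apply Fin.ext
        have : (q.1 : ℤ) - (a : ℤ) = (q.1 : ℤ) - (b : ℤ) := hab
        omega
    rw [h2]
    have h3 : ∑ i ∈ I, G i = ∑ i ∈ I ∪ {-1, 0, 1}, G i := by
      refine Finset.sum_subset Finset.subset_union_left fun i _ hi => ?_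
      rw [hG]
      simp only
      rw [sym_out C hA w p.2 t _ _ hp, zero_mul]
      intro h4
      apply hi
      rw [hI, Finset.mem_image]
      refine ⟨⟨((q.1 : ℤ) - i).toNat, ?_⟩, Finset.mem_univ _, ?_⟩
      · omega
      · simp only
        omega
    have h5 : ∑ i ∈ ({-1, 0, 1} : Finset ℤ), G i = ∑ i ∈ I ∪ {-1, 0, 1}, G i := by
      refine Finset.sum_subset Finset.subset_union_right fun i _ hi => ?_
      rw [hG]
      simp only
      rw [lsym_big l t q.2 hi, mul_zero]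
    rw [h3, ← h5]

end

end Sym

theorem wordW_eq_sym (C : ℕ) {A : ℝ} (hA : 0 < A) (w : List (Fin 2 × Bool)) (p q : Win C) :
    wordW C A w q p = sym w p.2 q.2 ((q.1 : ℤ) - (p.1 : ℤ)) (A ^ (2 * (p.1 : ℤ) - C)) A (A ^ C) :=
  Sym.wordW_eq C hA.ne' w p q

end Pool.Agent.AMG
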