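import Pool.Agent.AMG.DefsB

/-!
# Continuity of the symbol on the positive octant
-/

namespace Pool.Agent.AMG

/-- the positive octant -/
private def SymC_U : Set (ℝ × ℝ × ℝ) := {t | 0 < t.1 ∧ 0 < t.2.1 ∧ 0 < t.2.2}

private theorem SymC_fst : ContinuousOn (fun t : ℝ × ℝ × ℝ => t.1) SymC_U := continuousOn_fst

private theorem SymC_a : ContinuousOn (fun t : ℝ × ℝ × ℝ => t.2.1) SymC_U :=
  (continuous_fst.comp continuous_snd).continuousOn

private theorem SymC_v : ContinuousOn (fun t : ℝ × ℝ × ℝ => t.2.2) SymC_U :=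
  (continuous_snd.comp continuous_snd).continuousOn

private theorem SymC_zpow {f : ℝ × ℝ × ℝ → ℝ} (hf : ContinuousOn f SymC_U)
    (h0 : ∀ t ∈ SymC_U, 0 < f t) (d : ℤ) : ContinuousOn (fun t => f t ^ d) SymC_U :=
  hf.zpow₀ d fun t ht => Or.inl (h0 t ht).ne'

private theorem SymC_denpos (t : ℝ × ℝ × ℝ) (ht : t ∈ SymC_U) (d : ℤ) : 0 < den t.1 t.2.1 d := by
  have h1 : 0 < t.1 * t.2.1 ^ d := mul_pos ht.1 (zpow_pos ht.2.1 d)
  exact add_pos h1 (inv_pos.2 h1)

private theorem SymC_den (d : ℤ) :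
    ContinuousOn (fun t : ℝ × ℝ × ℝ => den t.1 t.2.1 d) SymC_U := by
  have h1 : ContinuousOn (fun t : ℝ × ℝ × ℝ => t.1 * t.2.1 ^ d) SymC_U :=
    SymC_fst.mul (SymC_zpow SymC_a (fun t ht => ht.2.1) d)
  exact h1.add (h1.inv₀ fun t ht => (mul_pos ht.1 (zpow_pos ht.2.1 d)).ne')

private theorem SymC_flip (d : ℤ) :
    ContinuousOn (fun t : ℝ × ℝ × ℝ => flipc t.1 t.2.1 t.2.2 d) SymC_U := by
  have h1 : ContinuousOn (fun t : ℝ × ℝ × ℝ => t.2.1 * t.2.2) SymC_U := SymC_a.mul SymC_v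
  exact (h1.add (h1.inv₀ fun t ht => (mul_pos ht.2.1 ht.2.2).ne')).div (SymC_den d)
    fun t ht => (SymC_denpos t ht d).ne'

private theorem SymC_shift (d : ℤ) :
    ContinuousOn (fun t : ℝ × ℝ × ℝ => shiftc t.1 t.2.1 t.2.2 d) SymC_U := by
  have h1 : ∀ e : ℤ, ContinuousOn (fun t : ℝ × ℝ × ℝ => t.1 ^ e) SymC_U := fun e =>
    SymC_zpow SymC_fst (fun t ht => ht.1) e
  exact ((SymC_v.mul (h1 _)).sub ((SymC_v.inv₀ fun t ht => ht.2.2.ne').mul (h1 _))).div
    (SymC_den d) fun t ht => (SymC_denpos t ht d).ne'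

private theorem SymC_lsym (l : Fin 2 × Bool) (s s' : Fin 2) (i : ℤ) :
    ContinuousOn (fun t : ℝ × ℝ × ℝ => lsym l s s' i t.1 t.2.1 t.2.2) SymC_U := by
  have hinv : ContinuousOn (fun t : ℝ × ℝ × ℝ => t.1⁻¹) SymC_U :=
    SymC_fst.inv₀ fun t ht => ht.1.ne'
  unfold lsym
  by_cases h1 : l.1 = 0
  · simp only [h1, if_true]
    by_cases h2 : s' = s ∧ i = 0
    · simp only [h2, and_self, if_true]
      by_cases h3 : s = 0
      · simp only [h3, if_true]
        cases l.2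
        · exact SymC_fst
        · exact hinv
      · simp only [h3, if_false]
        cases l.2
        · exact hinv.neg
        · exact SymC_fst.neg
    · simp only [h2, if_false]
      exact continuousOn_const
  · simp only [h1, if_false]
    by_cases h2 : s' ≠ s ∧ i = 0
    · simp only [if_pos h2]
      exact SymC_flip _
    · simp only [if_neg h2]
      by_cases h3 : s' = s ∧ i = dir l.2 s
      · simp only [if_pos h3]
        exact continuousOn_const.mul (SymC_shift _)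
      · simp only [if_neg h3]
        exact continuousOn_const

private theorem SymC_main (w : List (Fin 2 × Bool)) : ∀ (s s' : Fin 2) (j : ℤ),
    ContinuousOn (fun t : ℝ × ℝ × ℝ => sym w s s' j t.1 t.2.1 t.2.2) SymC_U := by
  induction w with
  | nil =>
    intro s s' j
    simp only [sym]
    exact continuousOn_const
  | cons l w ih =>
    intro s s' j
    simp only [sym]
    refine continuousOn_finsetSum _ fun t _ => continuousOn_finsetSum _ fun i _ => ?_
    refine (ih s t (j - i)).mul ?_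
    have h1 : ContinuousOn (fun t : ℝ × ℝ × ℝ => t.2.1 ^ (2 * (j - i))) SymC_U :=
      SymC_zpow SymC_a (fun t ht => ht.2.1) _
    have h2 : ContinuousOn (fun t : ℝ × ℝ × ℝ => (t.1 * t.2.1 ^ (2 * (j - i)), t.2.1, t.2.2))
        SymC_U := (SymC_fst.mul h1).prodMk (SymC_a.prodMk SymC_v)
    exact (SymC_lsym l t s' i).comp h2 fun t ht =>
      ⟨mul_pos ht.1 (zpow_pos ht.2.1 _), ht.2.1, ht.2.2⟩

theorem sym_cont (w : List (Fin 2 × Bool)) (s s' : Fin 2) (j : ℤ) :
    ContinuousOn (fun t : ℝ × ℝ × ℝ => sym w s s' j t.1 t.2.1 t.2.2)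
      {t | 0 < t.1 ∧ 0 < t.2.1 ∧ 0 < t.2.2} :=
  SymC_main w s s' j

end Pool.Agent.AMG
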