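import Pool.Agent.AMG.DefsB
import Pool.Agent.AMG.Sym
import Pool.Agent.AMG.SymC

/-!
# The classical limit of the traces (helper87)

`riemann` and `star` are hypotheses, in the form of the skeleton.
-/

open scoped BigOperators LaurentPolynomial Matrix Topology
open Polynomial Filter

namespace Pool.Agent.AMG

private theorem Limit_cont (w : List (Fin 2 × Bool)) (T : ℝ) :
    Continuous fun t : ℝ × ℝ =>
      ∑ s : Fin 2, sym w s s 0 (Real.exp (T * t.1)) (Real.exp t.2) (Real.exp T) := by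
  refine continuous_finsetSum _ fun s _ => ?_
  have h1 : Continuous fun t : ℝ × ℝ =>
      ((Real.exp (T * t.1), Real.exp t.2, Real.exp T) : ℝ × ℝ × ℝ) := by fun_prop
  exact (sym_cont w s s 0).comp_continuous h1 fun t =>
    ⟨Real.exp_pos _, Real.exp_pos _, Real.exp_pos _⟩

private theorem Limit_trace (w : List (Fin 2 × Bool)) (T : ℝ) {C : ℕ} (hC : C ≠ 0) :
    (wordW C (Real.exp (T / C)) w).trace = ∑ j ∈ Finset.range (C + 1),
      ∑ s : Fin 2, sym w s s 0 (Real.exp (T * (-1 + 2 * (j : ℝ) / C))) (Real.exp (T / C))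
        (Real.exp T) := by
  have hC' : (C : ℝ) ≠ 0 := Nat.cast_ne_zero.2 hC
  rw [Matrix.trace, Fintype.sum_prod_type, Finset.sum_range]
  refine Finset.sum_congr rfl fun j _ => Finset.sum_congr rfl fun s _ => ?_
  rw [Matrix.diag_apply, wordW_eq_sym C (Real.exp_pos _)]
  have e1 : Real.exp (T / C) ^ (2 * ((j : ℕ) : ℤ) - (C : ℤ)) =
      Real.exp (T * (-1 + 2 * ((j : ℕ) : ℝ) / C)) := by
    rw [← Real.rpow_intCast, ← Real.exp_mul]
    congr 1
    push_cast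
    field_simp
    ring
  have e2 : Real.exp (T / C) ^ C = Real.exp T := by
    rw [← Real.exp_nat_mul]
    congr 1
    field_simp
  have e3 : (((j : ℕ) : ℤ) - ((j : ℕ) : ℤ)) = 0 := sub_self _
  change sym w s s (((j : ℕ) : ℤ) - ((j : ℕ) : ℤ)) (Real.exp (T / C) ^ (2 * ((j : ℕ) : ℤ) - (C : ℤ)))
    (Real.exp (T / C)) (Real.exp (T / C) ^ C) = _
  rw [e1, e2, e3]

/-- M7 -/
theorem limit (riemann : ∀ (g : ℝ × ℝ → ℝ) (_ : Continuous g) (T : ℝ) (p : ℕ),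
    Tendsto (fun n : ℕ => (∑ j ∈ Finset.range (2 * n + p + 1),
      g (-1 + 2 * (j : ℝ) / (2 * n + p : ℕ), T / (2 * n + p : ℕ))) / ((2 * n + p : ℕ) + 1)) atTop
      (𝓝 ((∫ τ in (-1 : ℝ)..1, g (τ, 0)) / 2))) (w : List (Fin 2 × Bool)) (T : ℝ) (p : ℕ) :
    Tendsto (fun n : ℕ => (wordW (2 * n + p) (Real.exp (T / (2 * n + p : ℕ))) w).trace /
      ((2 * n + p : ℕ) + 1)) atTop
      (𝓝 ((∫ τ in (-1 : ℝ)..1, cl w (Real.exp (T * τ)) (Real.exp T)) / 2)) := by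
  have h1 := riemann _ (Limit_cont w T) T p
  have h2 : (∫ τ in (-1 : ℝ)..1, cl w (Real.exp (T * τ)) (Real.exp T)) =
      ∫ τ in (-1 : ℝ)..1, ∑ s : Fin 2, sym w s s 0 (Real.exp (T * τ)) (Real.exp 0)
        (Real.exp T) := by
    simp only [cl, Real.exp_zero]
  rw [h2]
  refine h1.congr' ?_
  filter_upwards [eventually_gt_atTop 0] with n hn
  rw [Limit_trace w T (show 2 * n + p ≠ 0 by omega)]

/-- M8 -/
theorem HH_power (riemann : ∀ (g : ℝ × ℝ → ℝ) (_ : Continuous g) (T : ℝ) (p : ℕ),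
    Tendsto (fun n : ℕ => (∑ j ∈ Finset.range (2 * n + p + 1),
      g (-1 + 2 * (j : ℝ) / (2 * n + p : ℕ), T / (2 * n + p : ℕ))) / ((2 * n + p : ℕ) + 1)) atTop
      (𝓝 ((∫ τ in (-1 : ℝ)..1, g (τ, 0)) / 2)))
    (star : ∀ (C : ℕ) (w : List (Fin 2 × Bool))
      (_ : ∀ r0 : ℕ, ∃ r ≥ r0, ∃ A : ℂ, IsPrimitiveRoot A (4 * r) ∧
        ∃ n > 0, ∃ z : ℂ, wordW C A w ^ n = z • 1) (m : ℕ) (_ : 0 < m) (t : ℝ),
      (wordW C (Real.exp t) (pw w (4 * m))).trace = (wordW C (Real.exp (m * t)) (pw w 4)).trace)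
    (w : List (Fin 2 × Bool)) (p : ℕ)
    (h : ∀ C : ℕ, C % 2 = p % 2 → ∀ r0 : ℕ, ∃ r ≥ r0, ∃ A : ℂ, IsPrimitiveRoot A (4 * r) ∧
      ∃ n > 0, ∃ z : ℂ, wordW C A w ^ n = z • 1) (m : ℕ) (hm : 0 < m) (T : ℝ) (hT : 0 < T) :
    HH (pw w (4 * m)) T = HH (pw w 4) (m * T) / m := by
  have hm' : (0 : ℝ) < m := Nat.cast_pos.2 hm
  have h1 := limit riemann (pw w (4 * m)) T p
  have h2 := limit riemann (pw w 4) (m * T) p
  have h3 : (∫ τ in (-1 : ℝ)..1, cl (pw w (4 * m)) (Real.exp (T * τ)) (Real.exp T)) / 2 =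
      (∫ τ in (-1 : ℝ)..1, cl (pw w 4) (Real.exp (m * T * τ)) (Real.exp (m * T))) / 2 := by
    refine tendsto_nhds_unique (h1.congr fun n => ?_) h2
    rw [star (2 * n + p) w (h (2 * n + p) (by omega)) m hm, mul_div_assoc]
  have hsub : ∀ (w : List (Fin 2 × Bool)) (S : ℝ), S ≠ 0 →
      HH w S = S * ∫ τ in (-1 : ℝ)..1, cl w (Real.exp (S * τ)) (Real.exp S) := by
    intro w S hS
    have e := intervalIntegral.integral_comp_mul_left (a := (-1 : ℝ)) (b := 1)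
      (fun σ => cl w (Real.exp σ) (Real.exp S)) hS
    rw [e, smul_eq_mul, mul_neg_one, mul_one, mul_inv_cancel_left₀ hS]
    rfl
  rw [hsub _ T hT.ne', hsub _ (m * T) (mul_pos hm' hT).ne']
  have h4 := mul_right_cancel₀ (inv_ne_zero (two_ne_zero (α := ℝ)))
    (by simpa only [div_eq_mul_inv] using h3)
  rw [h4]
  field_simp

end Pool.Agent.AMG
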