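import Pool.Agent.AMG.DefsB

/-!
# Functions `2 T P(e^T) + R(e^T)`: closure properties and uniqueness of the leading coefficient
-/

open scoped BigOperators Topology

namespace Pool.Agent.AMG

/-- If `T a(e^T) = b(e^T)` for all positive `T`, with polynomials `a` and `b`, then `a(e^z)`
vanishes for every complex `z`. -/
theorem exp_poly_zero (a b : Polynomial ℂ)
    (h : ∀ T : ℝ, 0 < T → (T : ℂ) * a.eval (Complex.exp T) = b.eval (Complex.exp T)) (z : ℂ) :
    a.eval (Complex.exp z) = 0 := by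
  have h1 : Differentiable ℂ (fun z : ℂ => a.eval (Complex.exp z)) :=
    a.differentiable.comp Complex.differentiable_exp
  have h2 : Differentiable ℂ (fun z : ℂ => b.eval (Complex.exp z)) :=
    b.differentiable.comp Complex.differentiable_exp
  have hd : Differentiable ℂ
      (fun z : ℂ => z * a.eval (Complex.exp z) - b.eval (Complex.exp z)) :=
    (differentiable_id.mul h1).sub h2
  have han : AnalyticOnNhd ℂ
      (fun z : ℂ => z * a.eval (Complex.exp z) - b.eval (Complex.exp z)) Set.univ :=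
    hd.differentiableOn.analyticOnNhd isOpen_univ
  have h0 : AnalyticOnNhd ℂ (fun _ : ℂ => (0 : ℂ)) Set.univ :=
    (differentiable_const (0 : ℂ)).differentiableOn.analyticOnNhd isOpen_univ
  have hfr : ∃ᶠ z in 𝓝[≠] (1 : ℂ),
      (fun z : ℂ => z * a.eval (Complex.exp z) - b.eval (Complex.exp z)) z =
        (fun _ : ℂ => (0 : ℂ)) z := by
    have ht : Filter.Tendsto (fun x : ℝ => (x : ℂ)) (𝓝[>] (1 : ℝ)) (𝓝[≠] (1 : ℂ)) := by
      apply tendsto_nhdsWithin_of_tendsto_nhds_of_eventually_within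
      · have hc : Filter.Tendsto (fun x : ℝ => (x : ℂ)) (𝓝 (1 : ℝ)) (𝓝 ((1 : ℝ) : ℂ)) :=
          Complex.continuous_ofReal.tendsto 1
        rw [Complex.ofReal_one] at hc
        exact hc.mono_left nhdsWithin_le_nhds
      · filter_upwards [self_mem_nhdsWithin] with x hx
        intro hx1
        have hx2 : (x : ℂ) = 1 := hx1
        have hx3 : x = 1 := by exact_mod_cast hx2
        rw [hx3] at hx
        exact lt_irrefl (1 : ℝ) hx
    have hev : ∀ᶠ x : ℝ in 𝓝[>] (1 : ℝ),
        (fun z : ℂ => z * a.eval (Complex.exp z) - b.eval (Complex.exp z)) (x : ℂ) =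
          (fun _ : ℂ => (0 : ℂ)) (x : ℂ) := by
      filter_upwards [self_mem_nhdsWithin] with x hx
      have hx0 : (0 : ℝ) < x := lt_trans one_pos hx
      have := h x hx0
      beta_reduce
      rw [this, sub_self]
    exact ht.frequently hev.frequently
  have heq := han.eq_of_frequently_eq h0 hfr
  have hA := congrFun heq z
  have hB := congrFun heq (z + 2 * Real.pi * Complex.I)
  beta_reduce at hA hB
  have hper : Complex.exp (z + 2 * Real.pi * Complex.I) = Complex.exp z :=
    Complex.exp_periodic z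
  rw [hper] at hB
  have hC : (2 * Real.pi * Complex.I) * a.eval (Complex.exp z) = 0 := by
    linear_combination hB - hA
  rcases mul_eq_zero.mp hC with h3 | h3
  · exact absurd h3 Complex.two_pi_I_ne_zero
  · exact h3

theorem Mom.unique {H G : ℝ → ℂ} {p q : ℂ} (hH : Mom H p) (hG : Mom G q) (m : ℕ) (hm : 0 < m)
    (h : ∀ T : ℝ, 0 < T → G T = H (m * T) / m) : p = q := by
  obtain ⟨P, N, D, k, hD, hHT, hp⟩ := hH
  obtain ⟨P', N', D', k', hD', hGT, hq⟩ := hG
  have hm0 : (m : ℂ) ≠ 0 := by exact_mod_cast hm.ne'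
  have hmR : (0 : ℝ) < m := by exact_mod_cast hm
  have hexp : ∀ T : ℝ, Complex.exp ((m * T : ℝ) : ℂ) = Complex.exp T ^ m := by
    intro T
    rw [← Complex.exp_nat_mul]
    push_cast
    rfl
  -- the two polynomials
  have key := exp_poly_zero
    (2 * (m : Polynomial ℂ) * (D.comp (Polynomial.X ^ m)) * D' *
      (P' * Polynomial.X ^ (k * m) - (P.comp (Polynomial.X ^ m)) * Polynomial.X ^ k'))
    (Polynomial.X ^ (k' + k * m) *
      ((N.comp (Polynomial.X ^ m)) * D' - (m : Polynomial ℂ) * N' * (D.comp (Polynomial.X ^ m))))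
    (by
      intro T hT
      have hmT : 0 < (m : ℝ) * T := mul_pos hmR hT
      have e1 := h T hT
      rw [hGT T hT, hHT _ hmT, hexp T] at e1
      have d1 := hD _ hmT
      rw [hexp T] at d1
      have d2 := hD' T hT
      have hv : Complex.exp (T : ℂ) ≠ 0 := Complex.exp_ne_zero _
      simp only [Polynomial.eval_mul, Polynomial.eval_sub, Polynomial.eval_pow,
        Polynomial.eval_X, Polynomial.eval_comp, Polynomial.eval_natCast,
        Polynomial.eval_ofNat]
      generalize Complex.exp (T : ℂ) = v at e1 d1 d2 hv ⊢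
      have hcast : ((m * T : ℝ) : ℂ) = m * T := by push_cast; rfl
      rw [hcast] at e1
      have hvk : (v ^ m) ^ k ≠ 0 := pow_ne_zero _ (pow_ne_zero _ hv)
      have hvk' : v ^ k' ≠ 0 := pow_ne_zero _ hv
      have hrw : v ^ (k * m) = (v ^ m) ^ k := by rw [← pow_mul, mul_comm]
      rw [pow_add, hrw]
      field_simp at e1
      linear_combination (e1)) 
  have hzero : ∀ T : ℝ, 0 < T →
      P'.eval (Complex.exp T) * Complex.exp T ^ (k * m) -
        P.eval (Complex.exp T ^ m) * Complex.exp T ^ k' = 0 := by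
    intro T hT
    have hmT : 0 < (m : ℝ) * T := mul_pos hmR hT
    have d1 := hD _ hmT
    rw [hexp T] at d1
    have d2 := hD' T hT
    have e := key (T : ℂ)
    simp only [Polynomial.eval_mul, Polynomial.eval_sub, Polynomial.eval_pow,
        Polynomial.eval_X, Polynomial.eval_comp, Polynomial.eval_natCast,
        Polynomial.eval_ofNat] at e
    have hne : (2 : ℂ) * m * Polynomial.eval (Complex.exp T ^ m) D *
        Polynomial.eval (Complex.exp T) D' ≠ 0 :=
      mul_ne_zero (mul_ne_zero (mul_ne_zero two_ne_zero hm0) d1) d2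
    rcases mul_eq_zero.mp e with h3 | h3
    · exact absurd h3 hne
    · exact h3
  have hcont : Continuous (fun T : ℝ => P'.eval (Complex.exp T) * Complex.exp T ^ (k * m) -
        P.eval (Complex.exp T ^ m) * Complex.exp T ^ k') := by
    have he : Continuous (fun T : ℝ => Complex.exp (T : ℂ)) :=
      Complex.continuous_exp.comp Complex.continuous_ofReal
    exact ((P'.continuous.comp he).mul (he.pow _)).sub
      ((P.continuous.comp (he.pow m)).mul (he.pow _))
  have h0 : P'.eval (Complex.exp ((0 : ℝ) : ℂ)) * Complex.exp ((0 : ℝ) : ℂ) ^ (k * m) -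
        P.eval (Complex.exp ((0 : ℝ) : ℂ) ^ m) * Complex.exp ((0 : ℝ) : ℂ) ^ k' = 0 := by
    have hcl : IsClosed {T : ℝ | P'.eval (Complex.exp T) * Complex.exp T ^ (k * m) -
        P.eval (Complex.exp T ^ m) * Complex.exp T ^ k' = 0} :=
      isClosed_eq hcont continuous_const
    have hsub : Set.Ioi (0 : ℝ) ⊆ {T : ℝ | P'.eval (Complex.exp T) * Complex.exp T ^ (k * m) -
        P.eval (Complex.exp T ^ m) * Complex.exp T ^ k' = 0} := fun T hT => hzero T hT
    have hmem : (0 : ℝ) ∈ closure (Set.Ioi (0 : ℝ)) := by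
      rw [closure_Ioi]
      exact Set.self_mem_Ici
    exact (hcl.closure_subset_iff.mpr hsub) hmem
  simp only [Complex.ofReal_zero, Complex.exp_zero, one_pow, mul_one] at h0
  rw [← hp, ← hq]
  exact (sub_eq_zero.mp h0).symm

theorem Mom.add {H G : ℝ → ℂ} {p q : ℂ} (hH : Mom H p) (hG : Mom G q) :
    Mom (fun T => H T + G T) (p + q) := by
  obtain ⟨P, N, D, k, hD, hHT, hp⟩ := hH
  obtain ⟨P', N', D', k', hD', hGT, hq⟩ := hG
  refine ⟨P * Polynomial.X ^ k' + P' * Polynomial.X ^ k, N * D' + N' * D, D * D', k + k',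
    ?_, ?_, ?_⟩
  · intro T hT
    rw [Polynomial.eval_mul]
    exact mul_ne_zero (hD T hT) (hD' T hT)
  · intro T hT
    have d1 := hD T hT
    have d2 := hD' T hT
    have hv : Complex.exp (T : ℂ) ≠ 0 := Complex.exp_ne_zero _
    beta_reduce
    rw [hHT T hT, hGT T hT]
    simp only [Polynomial.eval_mul, Polynomial.eval_add, Polynomial.eval_pow, Polynomial.eval_X]
    generalize Complex.exp (T : ℂ) = v at d1 d2 hv ⊢
    rw [pow_add]
    field_simp
    ring
  · simp only [Polynomial.eval_mul, Polynomial.eval_add, Polynomial.eval_pow, Polynomial.eval_X,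
      one_pow, mul_one, hp, hq]

theorem Mom.smul {H : ℝ → ℂ} {p : ℂ} (hH : Mom H p) (c : ℂ) : Mom (fun T => c * H T) (c * p) := by
  obtain ⟨P, N, D, k, hD, hHT, hp⟩ := hH
  refine ⟨Polynomial.C c * P, Polynomial.C c * N, D, k, hD, ?_, ?_⟩
  · intro T hT
    beta_reduce
    rw [hHT T hT, Polynomial.eval_mul, Polynomial.eval_mul, Polynomial.eval_C]
    ring
  · rw [Polynomial.eval_mul, Polynomial.eval_C, hp]

theorem Mom.mulD {H : ℝ → ℂ} {p : ℂ} (hH : Mom H p) :
    Mom (fun T => DD (Complex.exp T) ^ 2 * H T) (4 * p) := by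
  obtain ⟨P, N, D, k, hD, hHT, hp⟩ := hH
  refine ⟨(Polynomial.X ^ 2 + 1) ^ 2 * P, (Polynomial.X ^ 2 + 1) ^ 2 * N, Polynomial.X ^ 2 * D,
    k + 2, ?_, ?_, ?_⟩
  · intro T hT
    rw [Polynomial.eval_mul, Polynomial.eval_pow, Polynomial.eval_X]
    exact mul_ne_zero (pow_ne_zero _ (Complex.exp_ne_zero _)) (hD T hT)
  · intro T hT
    have d1 := hD T hT
    have hv : Complex.exp (T : ℂ) ≠ 0 := Complex.exp_ne_zero _
    beta_reduce
    rw [hHT T hT]
    unfold DD
    simp only [Polynomial.eval_mul, Polynomial.eval_add, Polynomial.eval_pow, Polynomial.eval_X,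
      Polynomial.eval_one]
    generalize Complex.exp (T : ℂ) = v at d1 hv ⊢
    rw [pow_add]
    field_simp
  · simp only [Polynomial.eval_mul, Polynomial.eval_add, Polynomial.eval_pow, Polynomial.eval_X,
      Polynomial.eval_one, one_pow, hp]
    norm_num

theorem Mom.congr {H G : ℝ → ℂ} {p : ℂ} (hH : Mom H p) (h : ∀ T : ℝ, 0 < T → H T = G T) :
    Mom G p := by
  obtain ⟨P, N, D, k, hD, hHT, hp⟩ := hH
  exact ⟨P, N, D, k, hD, fun T hT => (h T hT).symm.trans (hHT T hT), hp⟩

end Pool.Agent.AMG
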