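import Pool.Agent.AMG.DefsB

/-!
# Moments of the basic integrals

With `D = u + 1/u`, `u = exp σ`, and `W = v + 1/v`, `v = exp T`, the integrals of
`(4 - D ^ 2) ^ I * (1 - W ^ 2 / D ^ 2) ^ J * D ^ (2 n)` over `[-T, T]` are of the form
`2 T P(v) + rational(v)`, with an explicit value of `P(1)`.
-/

open scoped BigOperators Topology
open Polynomial

namespace Pool.Agent.AMG

namespace IntD

/-! ### Closure properties of `Mom` -/

private theorem exp_ne (T : ℝ) : Complex.exp (T : ℂ) ≠ 0 := Complex.exp_ne_zero _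

private theorem sq_ne (T : ℝ) : Complex.exp (T : ℂ) ^ 2 + 1 ≠ 0 := by
  have h : Complex.exp (T : ℂ) ^ 2 + 1 = ((Real.exp T ^ 2 + 1 : ℝ) : ℂ) := by
    push_cast
    rfl
  rw [h]
  have h2 : (0 : ℝ) < Real.exp T ^ 2 + 1 := by positivity
  exact_mod_cast h2.ne'

private theorem mcongr {H G : ℝ → ℂ} {p q : ℂ} (hH : Mom H p) (h : ∀ T : ℝ, 0 < T → G T = H T)
    (hpq : p = q) : Mom G q := by
  obtain ⟨P, N, D, k, h1, h2, h3⟩ := hH
  exact ⟨P, N, D, k, h1, fun T hT => by rw [h T hT, h2 T hT], by rw [h3, hpq]⟩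

private theorem madd {H G : ℝ → ℂ} {p q : ℂ} (hH : Mom H p) (hG : Mom G q) :
    Mom (fun T => H T + G T) (p + q) := by
  obtain ⟨P, N, D, k, h1, h2, h3⟩ := hH
  obtain ⟨P', N', D', k', h1', h2', h3'⟩ := hG
  refine ⟨P * X ^ k' + P' * X ^ k, N * D' + N' * D, D * D', k + k', fun T hT => ?_,
    fun T hT => ?_, ?_⟩
  · rw [eval_mul]
    exact mul_ne_zero (h1 T hT) (h1' T hT)
  · have e1 := h1 T hT
    have e2 := h1' T hT
    have e3 := exp_ne T
    simp only [h2 T hT, h2' T hT, eval_add, eval_mul, eval_pow, eval_X]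
    field_simp
    ring
  · simp only [eval_add, eval_mul, eval_pow, eval_X, one_pow, mul_one, h3, h3']

private theorem msmul {H : ℝ → ℂ} {p : ℂ} (hH : Mom H p) (c : ℂ) :
    Mom (fun T => c * H T) (c * p) := by
  obtain ⟨P, N, D, k, h1, h2, h3⟩ := hH
  refine ⟨C c * P, C c * N, D, k, h1, fun T hT => ?_, ?_⟩
  · simp only [h2 T hT, eval_mul, eval_C]
    ring
  · simp only [eval_mul, eval_C, h3]

private theorem mmulD {H : ℝ → ℂ} {p : ℂ} (hH : Mom H p) :
    Mom (fun T => DD (Complex.exp T) ^ 2 * H T) (4 * p) := by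
  obtain ⟨P, N, D, k, h1, h2, h3⟩ := hH
  refine ⟨(X ^ 2 + 1) ^ 2 * P, (X ^ 2 + 1) ^ 2 * N, X ^ 2 * D, k + 2, fun T hT => ?_,
    fun T hT => ?_, ?_⟩
  · rw [eval_mul, eval_pow, eval_X]
    exact mul_ne_zero (pow_ne_zero _ (exp_ne T)) (h1 T hT)
  · have e1 := h1 T hT
    have e3 := exp_ne T
    simp only [h2 T hT, DD, eval_add, eval_mul, eval_pow, eval_X, eval_one]
    field_simp
    ring
  · simp only [eval_add, eval_mul, eval_pow, eval_X, eval_one, h3]
    norm_num

private theorem mrat {H : ℝ → ℂ} (N D : ℂ[X]) (h1 : ∀ T : ℝ, D.eval (Complex.exp T) ≠ 0)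
    (h2 : ∀ T : ℝ, H T = N.eval (Complex.exp T) / D.eval (Complex.exp T)) : Mom H 0 :=
  ⟨0, N, D, 0, fun T _ => h1 T, fun T _ => by rw [h2 T]; simp, by simp⟩

/-! ### The function `D` -/

/-- `D = u + 1 / u` as a function of `σ`. -/
noncomputable def dd (s : ℝ) : ℂ := DD (Complex.exp s)

theorem dd_eq (s : ℝ) : dd s = Complex.exp s + Complex.exp (-s) := by
  rw [dd, DD, Complex.exp_neg]

theorem dd_ne (s : ℝ) : dd s ≠ 0 := by
  have h : dd s = ((Real.exp s + Real.exp (-s) : ℝ) : ℂ) := by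
    rw [dd_eq]
    push_cast
    rfl
  rw [h]
  have h2 : (0 : ℝ) < Real.exp s + Real.exp (-s) := by positivity
  exact_mod_cast h2.ne'

theorem dd_neg (s : ℝ) : dd (-s) = dd s := by
  rw [dd_eq, dd_eq]
  push_cast
  rw [neg_neg, add_comm]

theorem dd_deriv (s : ℝ) : HasDerivAt dd (Complex.exp s - Complex.exp (-s)) s := by
  have h1 : HasDerivAt (fun s : ℝ => Complex.exp s) (Complex.exp s) s :=
    (Complex.hasDerivAt_exp (s : ℂ)).comp_ofReal
  have h2 : HasDerivAt (fun s : ℂ => Complex.exp (-s)) (-Complex.exp (-(s : ℂ))) (s : ℂ) := by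
    have := (Complex.hasDerivAt_exp (-(s : ℂ))).comp (s : ℂ) (hasDerivAt_neg (s : ℂ))
    simpa [Function.comp_def] using this
  have h3 : HasDerivAt (fun s : ℝ => Complex.exp (-s)) (-Complex.exp (-(s : ℂ))) s :=
    h2.comp_ofReal
  have h4 := h1.add h3
  have h5 : dd = (fun s : ℝ => Complex.exp s) + (fun s : ℝ => Complex.exp (-s)) := by
    funext t
    exact dd_eq t
  rw [h5, sub_eq_add_neg]
  exact h4

theorem ee_deriv (s : ℝ) :
    HasDerivAt (fun s : ℝ => Complex.exp s - Complex.exp (-s)) (dd s) s := by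
  have h1 : HasDerivAt (fun s : ℝ => Complex.exp s) (Complex.exp s) s :=
    (Complex.hasDerivAt_exp (s : ℂ)).comp_ofReal
  have h2 : HasDerivAt (fun s : ℂ => Complex.exp (-s)) (-Complex.exp (-(s : ℂ))) (s : ℂ) := by
    have := (Complex.hasDerivAt_exp (-(s : ℂ))).comp (s : ℂ) (hasDerivAt_neg (s : ℂ))
    simpa [Function.comp_def] using this
  have h3 : HasDerivAt (fun s : ℝ => Complex.exp (-s)) (-Complex.exp (-(s : ℂ))) s :=
    h2.comp_ofReal
  have h4 := h1.sub h3
  rw [sub_neg_eq_add, ← dd_eq] at h4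
  exact h4

theorem dd_cont : Continuous dd :=
  continuous_iff_continuousAt.mpr fun s => (dd_deriv s).continuousAt

theorem ddz_cont (n : ℤ) : Continuous fun s => dd s ^ n :=
  dd_cont.zpow₀ n fun s => Or.inl (dd_ne s)

/-- The basic recursion. -/
theorem ftc (n : ℤ) (T : ℝ) :
    (2 * (n + 1) : ℂ) * (∫ s in (-T)..T, dd s ^ (2 * (n + 1))) -
      4 * (2 * n + 1) * (∫ s in (-T)..T, dd s ^ (2 * n)) =
      2 * ((Complex.exp T - Complex.exp (-T)) * dd T ^ (2 * n + 1)) := by
  have hder : ∀ s ∈ Set.uIcc (-T) T,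
      HasDerivAt (fun s : ℝ => (Complex.exp s - Complex.exp (-s)) * dd s ^ (2 * n + 1))
        ((2 * (n + 1) : ℂ) * dd s ^ (2 * (n + 1)) - 4 * (2 * n + 1) * dd s ^ (2 * n)) s := by
    intro s _
    have h1 := ee_deriv s
    have h2 : HasDerivAt (fun s : ℝ => dd s ^ (2 * n + 1))
        (((2 * n + 1 : ℤ) : ℂ) * dd s ^ (2 * n + 1 - 1) * (Complex.exp s - Complex.exp (-s))) s :=
      (hasDerivAt_zpow (2 * n + 1) (dd s) (Or.inl (dd_ne s))).comp s (dd_deriv s)
    have h3 := h1.mul h2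
    have hd := dd_ne s
    have e1 : dd s ^ (2 * (n + 1)) = dd s ^ (2 * n) * dd s ^ 2 := by
      rw [mul_add, mul_one, zpow_add₀ hd]
      rfl
    have e2 : dd s ^ (2 * n + 1) = dd s ^ (2 * n) * dd s := by
      rw [zpow_add₀ hd, zpow_one]
    have e3 : (Complex.exp s - Complex.exp (-s)) ^ 2 = dd s ^ 2 - 4 := by
      have h4 : Complex.exp (s : ℂ) * Complex.exp (-s) = 1 := by
        rw [← Complex.exp_add]
        simp
      rw [dd_eq]
      linear_combination (-4) * h4
    have e4 : dd s * dd s ^ (2 * n + 1) + (Complex.exp s - Complex.exp (-s)) *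
        (((2 * n + 1 : ℤ) : ℂ) * dd s ^ (2 * n + 1 - 1) * (Complex.exp s - Complex.exp (-s))) =
        (2 * (n + 1) : ℂ) * dd s ^ (2 * (n + 1)) - 4 * (2 * n + 1) * dd s ^ (2 * n) := by
      rw [add_sub_cancel_right, e1, e2]
      push_cast
      linear_combination (2 * (n : ℂ) + 1) * dd s ^ (2 * n) * e3
    rw [← e4]
    exact h3
  have hc1 : Continuous fun s => (2 * (n + 1) : ℂ) * dd s ^ (2 * (n + 1)) :=
    continuous_const.mul (ddz_cont _)
  have hc2 : Continuous fun s => (4 * (2 * n + 1) : ℂ) * dd s ^ (2 * n) :=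
    continuous_const.mul (ddz_cont _)
  have h := intervalIntegral.integral_eq_sub_of_hasDerivAt hder
    ((hc1.sub hc2).intervalIntegrable _ _)
  rw [intervalIntegral.integral_sub (hc1.intervalIntegrable _ _) (hc2.intervalIntegrable _ _),
    intervalIntegral.integral_const_mul, intervalIntegral.integral_const_mul] at h
  rw [h, dd_neg]
  push_cast
  rw [neg_neg]
  ring

/-- The boundary term has no logarithmic part. -/
theorem mom_bd (m : ℤ) : Mom (fun T => 2 * ((Complex.exp T - Complex.exp (-T)) * dd T ^ m)) 0 := by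
  have key : ∀ T : ℝ, Complex.exp (T : ℂ) - Complex.exp (-T) =
      (Complex.exp (T : ℂ) ^ 2 - 1) / Complex.exp (T : ℂ) := by
    intro T
    have := exp_ne T
    rw [Complex.exp_neg]
    field_simp
  have key2 : ∀ T : ℝ, dd T = (Complex.exp (T : ℂ) ^ 2 + 1) / Complex.exp (T : ℂ) := by
    intro T
    have := exp_ne T
    rw [dd, DD]
    field_simp
  obtain ⟨a, rfl | rfl⟩ := m.eq_nat_or_neg
  · refine mrat (C 2 * (X ^ 2 - 1) * (X ^ 2 + 1) ^ a) (X ^ (a + 1)) (fun T => ?_) fun T => ?_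
    · rw [eval_pow, eval_X]
      exact pow_ne_zero _ (exp_ne T)
    · have e1 := exp_ne T
      simp only [key, key2, zpow_natCast, eval_mul, eval_sub, eval_add, eval_pow, eval_X, eval_one,
        eval_C, div_pow]
      field_simp
      ring
  · refine mrat (C 2 * (X ^ 2 - 1) * X ^ a) (X * (X ^ 2 + 1) ^ a) (fun T => ?_) fun T => ?_
    · rw [eval_mul, eval_pow, eval_add, eval_pow, eval_X, eval_one]
      exact mul_ne_zero (exp_ne T) (pow_ne_zero _ (sq_ne T))
    · have e1 := exp_ne T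
      have e2 := sq_ne T
      simp only [key, key2, zpow_neg, zpow_natCast, eval_mul, eval_sub, eval_add, eval_pow, eval_X,
        eval_one, eval_C, div_pow, inv_div]
      field_simp

/-! ### The values -/

/-- `(2 n)! / n!`, extended to negative integers. -/
noncomputable def phi : ℤ → ℂ
  | Int.ofNat n => ((2 * n).factorial : ℂ) / (n.factorial : ℂ)
  | Int.negSucc m => (-1) ^ (m + 1) * ((m + 1).factorial : ℂ) / ((2 * (m + 1)).factorial : ℂ)

/-- `1 / n!`, zero for negative integers. -/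
noncomputable def psi : ℤ → ℂ
  | Int.ofNat n => 1 / (n.factorial : ℂ)
  | Int.negSucc _ => 0

theorem phi_nat (n : ℕ) : phi (n : ℤ) = ((2 * n).factorial : ℂ) / (n.factorial : ℂ) := rfl

theorem psi_nat (n : ℕ) : psi (n : ℤ) = 1 / (n.factorial : ℂ) := rfl

private theorem fne (n : ℕ) : (n.factorial : ℂ) ≠ 0 := by
  exact_mod_cast n.factorial_ne_zero

theorem phi_neg (n : ℕ) :
    phi (-(n : ℤ)) = (-1) ^ n * (n.factorial : ℂ) / ((2 * n).factorial : ℂ) := by
  cases n with
  | zero => simp [phi]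
  | succ m => rfl

theorem psi_neg (n : ℕ) : psi (-((n : ℤ) + 1)) = 0 := rfl

private theorem fac2 (n : ℕ) : ((2 * (n + 1)).factorial : ℂ) =
    2 * (n + 1) * (2 * n + 1) * ((2 * n).factorial : ℂ) := by
  have h : (2 * (n + 1)).factorial = (2 * n + 2) * ((2 * n + 1) * (2 * n).factorial) := by
    rw [show 2 * (n + 1) = (2 * n + 1) + 1 by ring, Nat.factorial_succ, Nat.factorial_succ]
  rw [h]
  push_cast
  ring

private theorem fac1 (n : ℕ) : ((n + 1).factorial : ℂ) = (n + 1) * (n.factorial : ℂ) := by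
  rw [Nat.factorial_succ]
  push_cast
  rfl

theorem phi_succ (n : ℤ) : phi (n + 1) = 2 * (2 * n + 1) * phi n := by
  obtain ⟨a, rfl | rfl⟩ := n.eq_nat_or_neg
  · have h : ((a : ℤ) + 1) = ((a + 1 : ℕ) : ℤ) := by push_cast; rfl
    rw [h, phi_nat, phi_nat, fac2, fac1]
    have h1 := fne a
    have h2 : (a : ℂ) + 1 ≠ 0 := by exact_mod_cast Nat.succ_ne_zero a
    push_cast
    field_simp
  · cases a with
    | zero =>
      simp [phi]
    | succ a =>
      have h : (-((a + 1 : ℕ) : ℤ) + 1) = -(a : ℤ) := by push_cast; ring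
      rw [h, phi_neg, phi_neg, fac2, fac1, pow_succ]
      have h1 := fne (2 * a)
      have h2 : (a : ℂ) + 1 ≠ 0 := by exact_mod_cast Nat.succ_ne_zero a
      have h3 : 2 * (a : ℂ) + 1 ≠ 0 := by exact_mod_cast Nat.succ_ne_zero (2 * a)
      push_cast
      field_simp
      ring

theorem psi_succ (n : ℤ) : ((n : ℂ) + 1) * psi (n + 1) = psi n := by
  obtain ⟨a, rfl | rfl⟩ := n.eq_nat_or_neg
  · have h : ((a : ℤ) + 1) = ((a + 1 : ℕ) : ℤ) := by push_cast; rfl
    rw [h, psi_nat, psi_nat, fac1]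
    have h1 := fne a
    have h2 : (a : ℂ) + 1 ≠ 0 := by exact_mod_cast Nat.succ_ne_zero a
    push_cast
    field_simp
  · cases a with
    | zero =>
      simp [psi]
    | succ a =>
      have h : -((a + 1 : ℕ) : ℤ) = -((a : ℤ) + 1) := by push_cast; rfl
      rw [h, psi_neg]
      cases a with
      | zero => simp
      | succ b =>
        have h2 : -(((b + 1 : ℕ) : ℤ) + 1) + 1 = -((b : ℤ) + 1) := by push_cast; ring
        rw [h2, psi_neg, mul_zero]

/-- The moments. -/
noncomputable def cf (K : ℕ) (n : ℤ) : ℂ :=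
  ((2 * K).factorial : ℂ) / (K.factorial : ℂ) * phi n * psi (K + n)

theorem cf_zero (n : ℤ) : cf 0 n = phi n * psi n := by
  simp [cf]

theorem cf_succ (K : ℕ) (n : ℤ) : cf (K + 1) n = 4 * cf K n - cf K (n + 1) := by
  rw [cf, cf, cf, phi_succ, fac2, fac1]
  have h1 : ((K + 1 : ℕ) : ℤ) + n = (K : ℤ) + n + 1 := by push_cast; ring
  have h2 : (K : ℤ) + (n + 1) = (K : ℤ) + n + 1 := by ring
  have h3 := psi_succ ((K : ℤ) + n)
  rw [h1, h2]
  push_cast at h3 ⊢
  rw [← h3]
  have h4 := fne K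
  have h5 : (K : ℂ) + 1 ≠ 0 := by exact_mod_cast Nat.succ_ne_zero K
  field_simp
  ring

/-- The moments of the powers of `D`. -/
theorem mom_pow (n : ℤ) :
    Mom (fun T => ∫ s in (-T)..T, dd s ^ (2 * n)) (phi n * psi n) := by
  induction n with
  | zero =>
    refine ⟨1, 0, 1, 0, fun T _ => by simp, fun T _ => ?_, by simp [phi, psi]⟩
    simp
    ring
  | succ n ih =>
    have h1 := ftc (n : ℤ)
    have hn : ((n : ℂ) + 1) ≠ 0 := by exact_mod_cast Nat.succ_ne_zero n
    refine mcongr (madd (msmul ih (2 * (2 * n + 1) / (n + 1)))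
      (msmul (mom_bd (2 * (n : ℤ) + 1)) (1 / (2 * (n + 1))))) (fun T _ => ?_) ?_
    · have h2 := h1 T
      push_cast at h2
      rw [← h2]
      field_simp
      ring
    · rw [phi_succ, ← psi_succ (n : ℤ)]
      push_cast
      field_simp
      ring
  | pred n ih =>
    have h1 := ftc (-(n : ℤ) - 1)
    have hn : (2 * (-(n : ℂ) - 1) + 1) ≠ 0 := by
      have h : (2 * (-(n : ℂ) - 1) + 1) = -((2 * n + 1 : ℕ) : ℂ) := by push_cast; ring
      rw [h, neg_ne_zero]
      exact_mod_cast Nat.succ_ne_zero (2 * n)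
    have e1 : -(n : ℤ) - 1 + 1 = -(n : ℤ) := by ring
    refine mcongr (madd (msmul ih (-(n : ℂ) / (2 * (2 * (-(n : ℂ) - 1) + 1))))
      (msmul (mom_bd (2 * (-(n : ℤ) - 1) + 1)) (-1 / (4 * (2 * (-(n : ℂ) - 1) + 1)))))
      (fun T _ => ?_) ?_
    · have h2 := h1 T
      rw [e1] at h2
      push_cast at h2
      rw [← h2]
      field_simp
      ring
    · have h3 := phi_succ (-(n : ℤ) - 1)
      have h4 := psi_succ (-(n : ℤ) - 1)
      rw [e1] at h3 h4
      rw [h3, ← h4]
      push_cast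
      field_simp
      ring

/-! ### The general integrals -/

/-- The integrand. -/
noncomputable def gg (I J : ℕ) (n : ℤ) (T s : ℝ) : ℂ :=
  (4 - dd s ^ 2) ^ I * (1 - dd T ^ 2 / dd s ^ 2) ^ J * dd s ^ (2 * n)

theorem gg_cont (I J : ℕ) (n : ℤ) (T : ℝ) : Continuous (gg I J n T) := by
  have h1 : Continuous fun s => (4 - dd s ^ 2) ^ I := (continuous_const.sub (dd_cont.pow 2)).pow I
  have h2 : Continuous fun s => (1 - dd T ^ 2 / dd s ^ 2) ^ J :=
    (continuous_const.sub (continuous_const.div (dd_cont.pow 2)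
      fun s => pow_ne_zero 2 (dd_ne s))).pow J
  exact (h1.mul h2).mul (ddz_cont _)

theorem gg_succI (I J : ℕ) (n : ℤ) (T s : ℝ) :
    gg (I + 1) J n T s = 4 * gg I J n T s - gg I J (n + 1) T s := by
  have e1 : dd s ^ (2 * (n + 1)) = dd s ^ (2 * n) * dd s ^ 2 := by
    rw [mul_add, mul_one, zpow_add₀ (dd_ne s)]
    rfl
  rw [gg, gg, gg, e1]
  ring

theorem gg_succJ (I J : ℕ) (n : ℤ) (T s : ℝ) :
    gg I (J + 1) n T s = gg I J n T s - dd T ^ 2 * gg I J (n - 1) T s := by
  have e1 : dd s ^ (2 * n) = dd s ^ (2 * (n - 1)) * dd s ^ 2 := by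
    rw [show 2 * n = 2 * (n - 1) + 2 by ring, zpow_add₀ (dd_ne s)]
    rfl
  have e2 : dd T ^ 2 = dd T ^ 2 / dd s ^ 2 * dd s ^ 2 := by
    rw [div_mul_cancel₀ _ (pow_ne_zero 2 (dd_ne s))]
  rw [gg, gg, gg, e1, pow_succ (1 - dd T ^ 2 / dd s ^ 2) J]
  linear_combination (4 - dd s ^ 2) ^ I * (1 - dd T ^ 2 / dd s ^ 2) ^ J * dd s ^ (2 * (n - 1)) * e2

theorem mom_gen (I J : ℕ) (n : ℤ) :
    Mom (fun T => ∫ s in (-T)..T, gg I J n T s) ((-1) ^ J * cf (I + J) (n - J)) := by
  induction J generalizing I n with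
  | zero =>
    induction I generalizing n with
    | zero =>
      refine mcongr (mom_pow n) (fun T _ => ?_) ?_
      · refine intervalIntegral.integral_congr fun s _ => ?_
        simp [gg]
      · simp [cf_zero]
    | succ I ih =>
      refine mcongr (madd (msmul (ih n) 4) (msmul (ih (n + 1)) (-1))) (fun T _ => ?_) ?_
      · have h1 : ∀ s, gg (I + 1) 0 n T s = 4 * gg I 0 n T s - gg I 0 (n + 1) T s :=
          gg_succI I 0 n T
        have h2 : Continuous fun s => 4 * gg I 0 n T s := continuous_const.mul (gg_cont I 0 n T)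
        simp only [h1]
        rw [intervalIntegral.integral_sub (h2.intervalIntegrable _ _)
          ((gg_cont I 0 (n + 1) T).intervalIntegrable _ _),
          intervalIntegral.integral_const_mul]
        ring
      · have h2 := cf_succ I n
        simp only [pow_zero, one_mul, Nat.cast_zero, sub_zero, add_zero]
        rw [h2]
        ring
  | succ J ih =>
    refine mcongr (madd (ih I n) (msmul (mmulD (ih I (n - 1))) (-1))) (fun T _ => ?_) ?_
    · have h2 : Continuous fun s => dd T ^ 2 * gg I J (n - 1) T s :=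
        continuous_const.mul (gg_cont I J (n - 1) T)
      simp only [gg_succJ]
      rw [intervalIntegral.integral_sub ((gg_cont I J n T).intervalIntegrable _ _)
        (h2.intervalIntegrable _ _), intervalIntegral.integral_const_mul]
      change _ = _ + -1 * (dd T ^ 2 * _)
      ring
    · have h2 := cf_succ (I + J) (n - 1 - J)
      rw [← add_assoc, show n - ((J + 1 : ℕ) : ℤ) = n - 1 - J by push_cast; ring, h2,
        show n - 1 - (J : ℤ) + 1 = n - J by ring]
      ring

end IntD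

/-- The moments of the basic integrals. -/
theorem mom_base (I J : ℕ) :
    Mom (fun T => ∫ σ in (-T)..T, (4 - DD (Complex.exp σ) ^ 2) ^ I *
      (1 - DD (Complex.exp T) ^ 2 / DD (Complex.exp σ) ^ 2) ^ J)
      (((2 * I + 2 * J).factorial * J.factorial : ℂ) /
        (I.factorial * (I + J).factorial * (2 * J).factorial)) := by
  refine IntD.mcongr (IntD.mom_gen I J 0) (fun T _ => ?_) ?_
  · refine intervalIntegral.integral_congr fun s _ => ?_
    simp [IntD.gg, IntD.dd]
  · rw [IntD.cf, zero_sub, IntD.phi_neg, show ((I + J : ℕ) : ℤ) + -(J : ℤ) = (I : ℤ) by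
      push_cast; ring, IntD.psi_nat, show 2 * (I + J) = 2 * I + 2 * J by ring]
    have h1 : ((-1 : ℂ) ^ J) * (-1) ^ J = 1 := by
      rw [← mul_pow]
      simp
    have h2 : (I.factorial : ℂ) ≠ 0 := by exact_mod_cast I.factorial_ne_zero
    have h3 : ((I + J).factorial : ℂ) ≠ 0 := by exact_mod_cast (I + J).factorial_ne_zero
    have h4 : ((2 * J).factorial : ℂ) ≠ 0 := by exact_mod_cast (2 * J).factorial_ne_zero
    field_simp
    linear_combination ((2 * I + 2 * J).factorial : ℂ) * J.factorial * h1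

end Pool.Agent.AMG
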