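import Pool.Agent.AMG.Mom
import Pool.Agent.AMG.IntD
import Pool.Agent.AMG.CTE
import Pool.Agent.AMG.CTW

/-!
# The moments of all trace polynomials

Linearity, the cases `k = 0, 1` of the monomials `x ^ i * y ^ j * z ^ k` and the recursion given
by the relation between the three traces.
-/

open scoped BigOperators LaurentPolynomial Matrix
open MeasureTheory

namespace Pool.Agent.AMG

namespace MomAllAux

/-- The integrand. -/
noncomputable def EE (f : MvPolynomial (Fin 3) ℤ) (σ T : ℝ) : ℂ :=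
  (MvPolynomial.aeval ![tX (Real.exp σ : ℂ), tY (Real.exp σ : ℂ) (Real.exp T : ℂ),
        tZ (Real.exp σ : ℂ) (Real.exp T : ℂ)] f : ℂ[T;T⁻¹]).coeff 0

/-- The constant term on the shear side. -/
noncomputable def GG (f : MvPolynomial (Fin 3) ℤ) : ℤ :=
  ct (MvPolynomial.aeval ![NX.trace, NY.trace, (NX * NY).trace] f)

/-- The monomials. -/
noncomputable def m3 (i j k : ℕ) : MvPolynomial (Fin 3) ℤ :=
  MvPolynomial.X 0 ^ i * MvPolynomial.X 1 ^ j * MvPolynomial.X 2 ^ k

/-- What is proved. -/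
def Ok (f : MvPolynomial (Fin 3) ℤ) : Prop :=
  (∀ T : ℝ, Continuous fun σ : ℝ => EE f σ T) ∧
    Mom (fun T => ∫ σ in (-T)..T, EE f σ T) (GG f)

theorem EE_add (f g : MvPolynomial (Fin 3) ℤ) (σ T : ℝ) :
    EE (f + g) σ T = EE f σ T + EE g σ T := by
  rw [EE, map_add, AddMonoidAlgebra.coeff_add, Finsupp.add_apply]
  rfl

theorem EE_smul (a : ℤ) (f : MvPolynomial (Fin 3) ℤ) (σ T : ℝ) :
    EE (a • f) σ T = (a : ℂ) * EE f σ T := by
  rw [EE, map_zsmul, AddMonoidAlgebra.coeff_smul, Finsupp.smul_apply, zsmul_eq_mul]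
  rfl

theorem GG_add (f g : MvPolynomial (Fin 3) ℤ) : GG (f + g) = GG f + GG g := by
  rw [GG, map_add, ct, AddMonoidAlgebra.coeff_add, Finsupp.add_apply]
  rfl

theorem GG_smul (a : ℤ) (f : MvPolynomial (Fin 3) ℤ) : GG (a • f) = a * GG f := by
  rw [GG, map_zsmul, ct, AddMonoidAlgebra.coeff_smul, Finsupp.smul_apply, smul_eq_mul]
  rfl

theorem Ok.add {f g : MvPolynomial (Fin 3) ℤ} (hf : Ok f) (hg : Ok g) : Ok (f + g) := by
  refine ⟨fun T => ?_, ?_⟩
  · have h : (fun σ : ℝ => EE (f + g) σ T) = fun σ => EE f σ T + EE g σ T :=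
      funext fun σ => EE_add f g σ T
    rw [h]
    exact (hf.1 T).add (hg.1 T)
  · rw [GG_add]
    push_cast
    refine (hf.2.add hg.2).congr fun T _ => ?_
    rw [← intervalIntegral.integral_add ((hf.1 T).intervalIntegrable _ _)
      ((hg.1 T).intervalIntegrable _ _)]
    exact intervalIntegral.integral_congr fun σ _ => (EE_add f g σ T).symm

theorem Ok.smul {f : MvPolynomial (Fin 3) ℤ} (hf : Ok f) (a : ℤ) : Ok (a • f) := by
  refine ⟨fun T => ?_, ?_⟩
  · have h : (fun σ : ℝ => EE (a • f) σ T) = fun σ => (a : ℂ) * EE f σ T :=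
      funext fun σ => EE_smul a f σ T
    rw [h]
    exact continuous_const.mul (hf.1 T)
  · rw [GG_smul]
    push_cast
    refine (hf.2.smul a).congr fun T _ => ?_
    rw [← intervalIntegral.integral_const_mul]
    exact intervalIntegral.integral_congr fun σ _ => (EE_smul a f σ T).symm

theorem EE_m3 (i j k : ℕ) (σ T : ℝ) :
    EE (m3 i j k) σ T = (tX (Real.exp σ : ℂ) ^ i * tY (Real.exp σ : ℂ) (Real.exp T : ℂ) ^ j *
      tZ (Real.exp σ : ℂ) (Real.exp T : ℂ) ^ k).coeff 0 := by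
  rw [EE, m3]
  simp only [map_mul, map_pow, MvPolynomial.aeval_X]
  rfl

theorem GG_m3 (i j k : ℕ) :
    GG (m3 i j k) = ct (NX.trace ^ i * NY.trace ^ j * (NX * NY).trace ^ k) := by
  rw [GG, m3]
  simp only [map_mul, map_pow, MvPolynomial.aeval_X]
  rfl

theorem C_mul_coeff (c : ℂ) (p : ℂ[T;T⁻¹]) :
    (LaurentPolynomial.C c * p).coeff 0 = c * p.coeff 0 := by
  rw [← LaurentPolynomial.smul_eq_C_mul, AddMonoidAlgebra.coeff_smul, Finsupp.smul_apply,
    smul_eq_mul]

theorem EE_rec (i j k : ℕ) (σ T : ℝ) :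
    EE (m3 i j (k + 2)) σ T = EE (m3 (i + 1) (j + 1) (k + 1)) σ T - EE (m3 (i + 2) j k) σ T -
      EE (m3 i (j + 2) k) σ T + (4 - DD (Complex.exp T) ^ 2) * EE (m3 i j k) σ T := by
  rw [EE_m3, EE_m3, EE_m3, EE_m3, EE_m3, ← C_mul_coeff, ← Complex.ofReal_exp]
  have h := lau_rel (Real.exp σ) (Real.exp T) (Real.exp_pos σ) (Real.exp_pos T)
  set a := tX (Real.exp σ : ℂ)
  set b := tY (Real.exp σ : ℂ) (Real.exp T : ℂ)
  set c := tZ (Real.exp σ : ℂ) (Real.exp T : ℂ)
  set d : ℂ[T;T⁻¹] := LaurentPolynomial.C (4 - DD (Real.exp T : ℂ) ^ 2)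
  have h2 : a ^ i * b ^ j * c ^ (k + 2) = a ^ (i + 1) * b ^ (j + 1) * c ^ (k + 1) -
      a ^ (i + 2) * b ^ j * c ^ k - a ^ i * b ^ (j + 2) * c ^ k + d * (a ^ i * b ^ j * c ^ k) := by
    calc a ^ i * b ^ j * c ^ (k + 2) = a ^ i * b ^ j * c ^ k * c ^ 2 := by ring
      _ = a ^ i * b ^ j * c ^ k * (a * b * c - a ^ 2 - b ^ 2 + d) := by rw [h]
      _ = _ := by ring
  rw [h2]
  simp only [AddMonoidAlgebra.coeff_add, AddMonoidAlgebra.coeff_sub, Finsupp.add_apply,
    Finsupp.sub_apply]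

theorem GG_rec (i j k : ℕ) :
    GG (m3 i j (k + 2)) = GG (m3 (i + 1) (j + 1) (k + 1)) - GG (m3 (i + 2) j k) -
      GG (m3 i (j + 2) k) := by
  rw [GG_m3, GG_m3, GG_m3, GG_m3]
  have h := N_rel
  set a := NX.trace
  set b := NY.trace
  set c := (NX * NY).trace
  have h2 : a ^ i * b ^ j * c ^ (k + 2) = a ^ (i + 1) * b ^ (j + 1) * c ^ (k + 1) -
      a ^ (i + 2) * b ^ j * c ^ k - a ^ i * b ^ (j + 2) * c ^ k := by
    calc a ^ i * b ^ j * c ^ (k + 2) = a ^ i * b ^ j * c ^ k * c ^ 2 := by ring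
      _ = a ^ i * b ^ j * c ^ k * (a * b * c - a ^ 2 - b ^ 2) := by rw [h]
      _ = _ := by ring
  rw [h2]
  simp only [ct, AddMonoidAlgebra.coeff_sub, Finsupp.sub_apply]

theorem DD_ne (σ : ℝ) : DD (Real.exp σ : ℂ) ≠ 0 := by
  have h : DD (Real.exp σ : ℂ) = ((Real.exp σ + (Real.exp σ)⁻¹ : ℝ) : ℂ) := by
    rw [DD]; push_cast; rfl
  rw [h]
  have h2 : 0 < Real.exp σ + (Real.exp σ)⁻¹ := by positivity
  exact_mod_cast h2.ne'

theorem DD_cont : Continuous fun σ : ℝ => DD (Real.exp σ : ℂ) := by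
  have h : (fun σ : ℝ => DD (Real.exp σ : ℂ)) =
      fun σ : ℝ => ((Real.exp σ + Real.exp (-σ) : ℝ) : ℂ) := by
    funext σ
    rw [DD, Real.exp_neg]
    push_cast
    rfl
  rw [h]
  fun_prop

/-- The explicit integrand. -/
noncomputable def phi (i j : ℕ) (c : ℂ) (σ T : ℝ) : ℂ :=
  (Complex.I * ((Real.exp σ : ℂ)⁻¹ - Real.exp σ)) ^ i *
    (1 - DD (Real.exp T : ℂ) ^ 2 / DD (Real.exp σ : ℂ) ^ 2) ^ j * c

theorem phi_cont (i j : ℕ) (c : ℂ) (T : ℝ) : Continuous fun σ : ℝ => phi i j c σ T := by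
  have h1 : Continuous fun σ : ℝ => Complex.I * ((Real.exp σ : ℂ)⁻¹ - Real.exp σ) := by
    have h : (fun σ : ℝ => Complex.I * ((Real.exp σ : ℂ)⁻¹ - Real.exp σ)) =
        fun σ : ℝ => Complex.I * ((Real.exp (-σ) - Real.exp σ : ℝ) : ℂ) := by
      funext σ
      rw [Real.exp_neg]
      push_cast
      rfl
    rw [h]
    fun_prop
  have h2 : Continuous fun σ : ℝ =>
      1 - DD (Real.exp T : ℂ) ^ 2 / DD (Real.exp σ : ℂ) ^ 2 := by
    refine continuous_const.sub (continuous_const.div (DD_cont.pow 2) fun σ => ?_)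
    exact pow_ne_zero 2 (DD_ne σ)
  exact ((h1.pow i).mul (h2.pow j)).mul continuous_const

theorem DD_neg (σ : ℝ) : DD (Real.exp (-σ) : ℂ) = DD (Real.exp σ : ℂ) := by
  rw [DD, DD, Real.exp_neg]
  push_cast
  rw [inv_inv, add_comm]

theorem phi_neg (i j : ℕ) (c : ℂ) (σ T : ℝ) (hi : Odd i) :
    phi i j c (-σ) T = -phi i j c σ T := by
  have h : Complex.I * ((Real.exp (-σ) : ℂ)⁻¹ - Real.exp (-σ)) =
      -(Complex.I * ((Real.exp σ : ℂ)⁻¹ - Real.exp σ)) := by
    rw [Real.exp_neg]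
    push_cast
    rw [inv_inv]
    ring
  rw [phi, phi, DD_neg, h, hi.neg_pow]
  ring

theorem phi_int_odd (i j : ℕ) (c : ℂ) (T : ℝ) (hi : Odd i) :
    ∫ σ in (-T)..T, phi i j c σ T = 0 := by
  have h1 : ∫ σ in (-T)..T, phi i j c (-σ) T = ∫ σ in (-T)..T, phi i j c σ T := by
    have := intervalIntegral.integral_comp_neg (a := -T) (b := T) (fun σ => phi i j c σ T)
    rw [this, neg_neg]
  have h2 : ∫ σ in (-T)..T, phi i j c (-σ) T = -∫ σ in (-T)..T, phi i j c σ T := by
    rw [← intervalIntegral.integral_neg]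
    exact intervalIntegral.integral_congr fun σ _ => phi_neg i j c σ T hi
  have h3 : (2 : ℂ) * ∫ σ in (-T)..T, phi i j c σ T = 0 := by
    linear_combination h2 - h1
  rcases mul_eq_zero.mp h3 with h4 | h4
  · norm_num at h4
  · exact h4

theorem sq_eq (σ : ℝ) : (Complex.I * ((Real.exp σ : ℂ)⁻¹ - Real.exp σ)) ^ 2 =
    4 - DD (Real.exp σ : ℂ) ^ 2 := by
  have h : (Real.exp σ : ℂ) * (Real.exp σ : ℂ)⁻¹ = 1 :=
    mul_inv_cancel₀ (by exact_mod_cast (Real.exp_pos σ).ne')
  rw [mul_pow, Complex.I_sq, DD]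
  linear_combination 4 * h

theorem mom_zero : Mom (fun _ => 0) 0 := by
  have h := (mom_base 0 0).smul 0
  rw [zero_mul] at h
  exact h.congr fun T _ => zero_mul _

theorem phi_mom_odd (i j : ℕ) (c : ℂ) (hi : Odd i) :
    Mom (fun T => ∫ σ in (-T)..T, phi i j c σ T) 0 :=
  mom_zero.congr fun T _ => (phi_int_odd i j c T hi).symm

theorem phi_mom_even (i j : ℕ) (c : ℂ) :
    Mom (fun T => ∫ σ in (-T)..T, phi (2 * i) j c σ T)
      (c * (((2 * i + 2 * j).factorial * j.factorial : ℂ) /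
        (i.factorial * (i + j).factorial * (2 * j).factorial))) := by
  refine ((mom_base i j).smul c).congr fun T _ => ?_
  rw [← intervalIntegral.integral_const_mul]
  refine intervalIntegral.integral_congr fun σ _ => ?_
  simp only [phi]
  rw [pow_mul, sq_eq, Complex.ofReal_exp, Complex.ofReal_exp]
  ring

theorem ok_zero (f : MvPolynomial (Fin 3) ℤ) (h : ∀ σ T : ℝ, EE f σ T = 0) (hG : GG f = 0) :
    Ok f := by
  refine ⟨fun T => ?_, ?_⟩
  · have h1 : (fun σ : ℝ => EE f σ T) = fun _ => 0 := funext fun σ => h σ T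
    rw [h1]
    exact continuous_const
  · rw [hG]
    push_cast
    refine mom_zero.congr fun T _ => ?_
    have h1 : (fun σ : ℝ => EE f σ T) = fun _ => 0 := funext fun σ => h σ T
    rw [h1]
    simp

theorem ok_phi (f : MvPolynomial (Fin 3) ℤ) (i j : ℕ) (c : ℂ)
    (h : ∀ σ T : ℝ, EE f σ T = phi i j c σ T)
    (hm : Mom (fun T => ∫ σ in (-T)..T, phi i j c σ T) (GG f)) : Ok f := by
  refine ⟨fun T => ?_, ?_⟩
  · have h1 : (fun σ : ℝ => EE f σ T) = fun σ => phi i j c σ T := funext fun σ => h σ T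
    rw [h1]
    exact phi_cont i j c T
  · exact hm.congr fun T _ => intervalIntegral.integral_congr fun σ _ => (h σ T).symm

theorem ok0 (i j : ℕ) : Ok (m3 i j 0) := by
  rcases Nat.even_or_odd' j with ⟨J, rfl | rfl⟩
  · have hE : ∀ σ T : ℝ, EE (m3 i (2 * J) 0) σ T = phi i J ((2 * J).choose J : ℕ) σ T := by
      intro σ T
      rw [EE_m3, pow_zero, mul_one, cte0 _ _ (Real.exp_pos σ) (Real.exp_pos T),
        Complex.ofReal_inv]
      rfl
    rcases Nat.even_or_odd' i with ⟨I, rfl | rfl⟩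
    · refine ok_phi _ _ _ _ hE ?_
      have h := phi_mom_even I J ((2 * J).choose J : ℕ)
      have hG := ctw0 I J
      have h2 : ((GG (m3 (2 * I) (2 * J) 0) : ℤ) : ℂ) = ((2 * J).choose J : ℕ) *
          (((2 * I + 2 * J).factorial * J.factorial : ℂ) /
            (I.factorial * (I + J).factorial * (2 * J).factorial)) := by
        rw [GG_m3, pow_zero, mul_one]
        have hG' : (ct (NX.trace ^ (2 * I) * NY.trace ^ (2 * J)) : ℂ) *
            (I.factorial * J.factorial * (I + J).factorial) = (2 * I + 2 * J).factorial := by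
          exact_mod_cast hG
        have hc := Nat.choose_mul_factorial_mul_factorial (n := 2 * J) (k := J) (by omega)
        have hJ : 2 * J - J = J := by omega
        rw [hJ] at hc
        have hc' : (((2 * J).choose J : ℕ) : ℂ) * J.factorial * J.factorial =
            (2 * J).factorial := by exact_mod_cast hc
        have n1 : (I.factorial : ℂ) ≠ 0 := by exact_mod_cast I.factorial_ne_zero
        have n2 : (J.factorial : ℂ) ≠ 0 := by exact_mod_cast J.factorial_ne_zero
        have n3 : ((I + J).factorial : ℂ) ≠ 0 := by exact_mod_cast (I + J).factorial_ne_zero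
        have n4 : ((2 * J).factorial : ℂ) ≠ 0 := by exact_mod_cast (2 * J).factorial_ne_zero
        rw [mul_div_assoc', eq_div_iff (mul_ne_zero (mul_ne_zero n1 n3) n4)]
        linear_combination (((2 * J).choose J : ℕ) : ℂ) * J.factorial * hG' -
          (ct (NX.trace ^ (2 * I) * NY.trace ^ (2 * J)) : ℂ) * I.factorial *
            (I + J).factorial * hc'
      rw [h2]
      exact h
    · refine ok_phi _ _ _ _ hE ?_
      have h2 : GG (m3 (2 * I + 1) (2 * J) 0) = 0 := by
        rw [GG_m3, pow_zero, mul_one]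
        exact ctw0' _ _ (Or.inl ⟨I, rfl⟩)
      rw [h2]
      push_cast
      exact phi_mom_odd _ _ _ ⟨I, rfl⟩
  · refine ok_zero _ (fun σ T => ?_) ?_
    · rw [EE_m3, pow_zero, mul_one, cte0' _ _ (Real.exp_pos σ) (Real.exp_pos T)]
    · rw [GG_m3, pow_zero, mul_one]
      exact ctw0' _ _ (Or.inr ⟨J, rfl⟩)

theorem ok1 (i j : ℕ) : Ok (m3 i j 1) := by
  rcases Nat.even_or_odd' j with ⟨J, rfl | rfl⟩
  · refine ok_zero _ (fun σ T => ?_) ?_
    · rw [EE_m3, pow_one, cte1' _ _ (Real.exp_pos σ) (Real.exp_pos T)]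
    · rw [GG_m3, pow_one]
      exact ctw1' _ _ (Or.inr ⟨J, two_mul J⟩)
  · have hE : ∀ σ T : ℝ, EE (m3 i (2 * J + 1) 1) σ T =
        phi (i + 1) (J + 1) ((2 * J + 1).choose J : ℕ) σ T := by
      intro σ T
      rw [EE_m3, pow_one, cte1 _ _ (Real.exp_pos σ) (Real.exp_pos T), Complex.ofReal_inv]
      rfl
    rcases Nat.even_or_odd' i with ⟨I, rfl | rfl⟩
    · refine ok_phi _ _ _ _ hE ?_
      have h2 : GG (m3 (2 * I) (2 * J + 1) 1) = 0 := by
        rw [GG_m3, pow_one]
        exact ctw1' _ _ (Or.inl ⟨I, two_mul I⟩)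
      rw [h2]
      push_cast
      exact phi_mom_odd _ _ _ ⟨I, rfl⟩
    · refine ok_phi _ _ _ _ hE ?_
      have e1 : 2 * I + 1 + 1 = 2 * (I + 1) := by ring
      rw [e1]
      have h := phi_mom_even (I + 1) (J + 1) ((2 * J + 1).choose J : ℕ)
      have hG := ctw1 I J
      have h2 : ((GG (m3 (2 * I + 1) (2 * J + 1) 1) : ℤ) : ℂ) = ((2 * J + 1).choose J : ℕ) *
          (((2 * (I + 1) + 2 * (J + 1)).factorial * (J + 1).factorial : ℂ) /
            ((I + 1).factorial * (I + 1 + (J + 1)).factorial * (2 * (J + 1)).factorial)) := by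
        rw [GG_m3, pow_one]
        have hG' : (ct (NX.trace ^ (2 * I + 1) * NY.trace ^ (2 * J + 1) * (NX * NY).trace) : ℂ) *
            ((I + 1).factorial * (J + 1).factorial * (I + J + 1).factorial) =
              (2 * I + 2 * J + 3).factorial := by
          exact_mod_cast hG
        have hc := Nat.choose_mul_factorial_mul_factorial (n := 2 * J + 1) (k := J) (by omega)
        have hJ : 2 * J + 1 - J = J + 1 := by omega
        rw [hJ] at hc
        have hc' : (((2 * J + 1).choose J : ℕ) : ℂ) * J.factorial * (J + 1).factorial =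
            (2 * J + 1).factorial := by exact_mod_cast hc
        have n1 : ((I + 1).factorial : ℂ) ≠ 0 := by exact_mod_cast (I + 1).factorial_ne_zero
        have n2 : ((J + 1).factorial : ℂ) ≠ 0 := by exact_mod_cast (J + 1).factorial_ne_zero
        have n3 : ((I + 1 + (J + 1)).factorial : ℂ) ≠ 0 := by
          exact_mod_cast (I + 1 + (J + 1)).factorial_ne_zero
        have n4 : ((2 * (J + 1)).factorial : ℂ) ≠ 0 := by
          exact_mod_cast (2 * (J + 1)).factorial_ne_zero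
        rw [mul_div_assoc', eq_div_iff (mul_ne_zero (mul_ne_zero n1 n3) n4)]
        have f1 : ((I + 1 + (J + 1)).factorial : ℂ) = (I + J + 2) * (I + J + 1).factorial := by
          have : I + 1 + (J + 1) = (I + J + 1) + 1 := by ring
          rw [this, Nat.factorial_succ]
          push_cast
          ring
        have f2 : ((2 * (J + 1)).factorial : ℂ) = (2 * J + 2) * (2 * J + 1).factorial := by
          have : 2 * (J + 1) = (2 * J + 1) + 1 := by ring
          rw [this, Nat.factorial_succ]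
          push_cast
          ring
        have f3 : ((2 * (I + 1) + 2 * (J + 1)).factorial : ℂ) =
            (2 * I + 2 * J + 4) * (2 * I + 2 * J + 3).factorial := by
          have : 2 * (I + 1) + 2 * (J + 1) = (2 * I + 2 * J + 3) + 1 := by ring
          rw [this, Nat.factorial_succ]
          push_cast
          ring
        have f4 : ((J + 1).factorial : ℂ) = (J + 1) * J.factorial := by
          rw [Nat.factorial_succ]
          push_cast
          ring
        rw [f1, f2, f3]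
        set c : ℂ := (ct (NX.trace ^ (2 * I + 1) * NY.trace ^ (2 * J + 1) *
          (NX * NY).trace) : ℂ)
        set b : ℂ := (((2 * J + 1).choose J : ℕ) : ℂ)
        rw [← hG', ← hc', f4]
        ring
      rw [h2]
      exact h

theorem ok_all (k : ℕ) : ∀ i j : ℕ, Ok (m3 i j k) ∧ Ok (m3 i j (k + 1)) := by
  induction k with
  | zero => exact fun i j => ⟨ok0 i j, ok1 i j⟩
  | succ k ih =>
    intro i j
    refine ⟨(ih i j).2, ?_⟩
    obtain ⟨c1, m1⟩ := (ih (i + 1) (j + 1)).2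
    obtain ⟨c2, m2⟩ := (ih (i + 2) j).1
    obtain ⟨c3, m3'⟩ := (ih i (j + 2)).1
    obtain ⟨c4, m4⟩ := (ih i j).1
    refine ⟨fun T => ?_, ?_⟩
    · have h : (fun σ : ℝ => EE (m3 i j (k + 1 + 1)) σ T) = fun σ =>
          EE (m3 (i + 1) (j + 1) (k + 1)) σ T - EE (m3 (i + 2) j k) σ T -
            EE (m3 i (j + 2) k) σ T + (4 - DD (Complex.exp T) ^ 2) * EE (m3 i j k) σ T :=
        funext fun σ => EE_rec i j k σ T
      rw [h]
      exact (((c1 T).sub (c2 T)).sub (c3 T)).add (continuous_const.mul (c4 T))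
    · have hG : ((GG (m3 i j (k + 1 + 1)) : ℤ) : ℂ) = (GG (m3 (i + 1) (j + 1) (k + 1)) : ℂ) +
          (-1) * (GG (m3 (i + 2) j k) : ℂ) + (-1) * (GG (m3 i (j + 2) k) : ℂ) +
          (4 * (GG (m3 i j k) : ℂ) + (-1) * (4 * (GG (m3 i j k) : ℂ))) := by
        rw [GG_rec]
        push_cast
        ring
      rw [hG]
      refine (((m1.add (m2.smul (-1))).add (m3'.smul (-1))).add
        ((m4.smul 4).add (m4.mulD.smul (-1)))).congr fun T _ => ?_
      have i1 := (c1 T).intervalIntegrable (μ := volume) (-T) T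
      have i2 := (c2 T).intervalIntegrable (μ := volume) (-T) T
      have i3 := (c3 T).intervalIntegrable (μ := volume) (-T) T
      have i4 := (c4 T).intervalIntegrable (μ := volume) (-T) T
      have e : ∫ σ in (-T)..T, EE (m3 i j (k + 1 + 1)) σ T =
          ∫ σ in (-T)..T, (EE (m3 (i + 1) (j + 1) (k + 1)) σ T - EE (m3 (i + 2) j k) σ T -
            EE (m3 i (j + 2) k) σ T + (4 - DD (Complex.exp T) ^ 2) * EE (m3 i j k) σ T) :=
        intervalIntegral.integral_congr fun σ _ => EE_rec i j k σ T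
      rw [e, intervalIntegral.integral_add ((i1.sub i2).sub i3) (i4.const_mul _),
        intervalIntegral.integral_sub (i1.sub i2) i3, intervalIntegral.integral_sub i1 i2,
        intervalIntegral.integral_const_mul]
      ring

theorem monomial_eq (d : Fin 3 →₀ ℕ) (a : ℤ) :
    MvPolynomial.monomial d a = a • m3 (d 0) (d 1) (d 2) := by
  rw [MvPolynomial.monomial_eq, Finsupp.prod_fintype _ _ (fun i => pow_zero _),
    Fin.prod_univ_three, m3, MvPolynomial.C_mul']

theorem ok (f : MvPolynomial (Fin 3) ℤ) : Ok f := by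
  induction f using MvPolynomial.induction_on' with
  | monomial d a =>
    rw [monomial_eq]
    exact ((ok_all _ _ _).1).smul a
  | add f g hf hg => exact hf.add hg

end MomAllAux

theorem mom_all (f : MvPolynomial (Fin 3) ℤ) :
    Mom (fun T => ∫ σ in (-T)..T,
      (MvPolynomial.aeval ![tX (Real.exp σ : ℂ), tY (Real.exp σ : ℂ) (Real.exp T : ℂ),
        tZ (Real.exp σ : ℂ) (Real.exp T : ℂ)] f : ℂ[T;T⁻¹]).coeff 0)
      (ct (MvPolynomial.aeval ![NX.trace, NY.trace, (NX * NY).trace] f)) :=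
  (MomAllAux.ok f).2

end Pool.Agent.AMG
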