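import Pool.Agent.AMG.DefsB

/-!
# AMG, module NMM: traces of words and monodromy matrices of edge paths
-/

set_option autoImplicit false

open scoped BigOperators LaurentPolynomial Matrix Topology
open Polynomial Filter

namespace Pool.Agent.AMG

/-- the group -/
private abbrev NMMG : Type := Matrix.SpecialLinearGroup (Fin 2) R2

private theorem NMM_mon (a b c d : ℤ) : mon a b * mon c d = mon (a + c) (b + d) := by
  unfold mon
  rw [AddMonoidAlgebra.single_mul_single, mul_one]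
  rfl

private theorem NMM_mon0 : mon 0 0 = 1 := rfl

private theorem NMM_P : mon 1 0 * mon (-1) 0 = 1 := by
  rw [NMM_mon, add_neg_cancel, add_zero, NMM_mon0]

private theorem NMM_Q : mon 0 1 * mon 0 (-1) = 1 := by
  rw [NMM_mon, add_neg_cancel, add_zero, NMM_mon0]

private noncomputable def NMM_z (e : ZMod 3) : R2 := AddMonoidAlgebra.single (wt e) 1

private noncomputable def NMM_y (e : ZMod 3) : R2 := AddMonoidAlgebra.single (-wt e) 1

private theorem NMM_zy (e : ZMod 3) : NMM_z e * NMM_y e = 1 := by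
  unfold NMM_z NMM_y
  rw [AddMonoidAlgebra.single_mul_single, mul_one, add_neg_cancel]
  rfl

private noncomputable def NMM_E (e : ZMod 3) : NMMG :=
  ⟨!![0, NMM_z e; -NMM_y e, 0], by
    rw [Matrix.det_fin_two_of]
    linear_combination NMM_zy e⟩

private noncomputable def NMM_I : NMMG :=
  ⟨!![1, 1; -1, 0], by
    rw [Matrix.det_fin_two_of]
    ring⟩

private noncomputable def NMM_F (e e' : ZMod 3) : NMMG :=
  if e' = e + 1 then
    ⟨!![NMM_z e, 0; NMM_y e, NMM_y e], by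
      rw [Matrix.det_fin_two_of]
      linear_combination NMM_zy e⟩
  else
    ⟨!![NMM_z e, NMM_z e; 0, NMM_y e], by
      rw [Matrix.det_fin_two_of]
      linear_combination NMM_zy e⟩

private theorem NMM_of {a b c d a' b' c' d' : R2} (h1 : a = a') (h2 : b = b') (h3 : c = c')
    (h4 : d = d') : (!![a, b; c, d] : Matrix (Fin 2) (Fin 2) R2) = !![a', b'; c', d'] := by
  rw [h1, h2, h3, h4]

private theorem NMM_ext {A B : NMMG} (h : (A : Matrix (Fin 2) (Fin 2) R2) = B) : A = B :=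
  Subtype.ext h

private theorem NMM_coe_neg (A : NMMG) : ((-A : NMMG) : Matrix (Fin 2) (Fin 2) R2) = -A := rfl

private theorem NMM_III : NMM_I * NMM_I * NMM_I = -1 := by
  apply NMM_ext
  rw [NMM_coe_neg, Matrix.SpecialLinearGroup.coe_mul, Matrix.SpecialLinearGroup.coe_mul,
    Matrix.SpecialLinearGroup.coe_one, Matrix.one_fin_two]
  simp only [NMM_I, Matrix.mul_fin_two, Matrix.neg_of, Matrix.neg_cons, Matrix.neg_empty]
  congr 1
  ring_nf

private theorem NMM_EE (e : ZMod 3) : NMM_E e * NMM_E e = -1 := by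
  apply NMM_ext
  have h := NMM_zy e
  rw [NMM_coe_neg, Matrix.SpecialLinearGroup.coe_mul,
    Matrix.SpecialLinearGroup.coe_one, Matrix.one_fin_two]
  simp only [NMM_E, Matrix.mul_fin_two, Matrix.neg_of, Matrix.neg_cons, Matrix.neg_empty]
  exact NMM_of (by linear_combination -h) (by ring) (by ring) (by linear_combination -h)

private theorem NMM_IT (A : NMMG) : ((A⁻¹ : NMMG) : Matrix (Fin 2) (Fin 2) R2) =
    (A : Matrix (Fin 2) (Fin 2) R2).adjugate := Matrix.SpecialLinearGroup.coe_inv A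

private theorem NMM_EI (e : ZMod 3) : NMM_E e * NMM_I = -NMM_F e (e + 1) := by
  apply NMM_ext
  rw [NMM_coe_neg, Matrix.SpecialLinearGroup.coe_mul]
  unfold NMM_F
  rw [if_pos rfl]
  simp only [NMM_E, NMM_I, Matrix.mul_fin_two, Matrix.neg_of, Matrix.neg_cons, Matrix.neg_empty]
  exact NMM_of (by ring) (by ring) (by ring) (by ring)

private theorem NMM_EI' (e e' : ZMod 3) (h : e' ≠ e + 1) : NMM_E e * NMM_I⁻¹ = NMM_F e e' := by
  apply NMM_ext
  rw [Matrix.SpecialLinearGroup.coe_mul, NMM_IT]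
  unfold NMM_F
  rw [if_neg h]
  simp only [NMM_E, NMM_I, Matrix.adjugate_fin_two_of, Matrix.mul_fin_two]
  exact NMM_of (by ring) (by ring) (by ring) (by ring)

/-- powers of `I` -/
private noncomputable def NMM_J (e : ZMod 3) : NMMG :=
  if e = 0 then 1 else if e = 1 then NMM_I else NMM_I * NMM_I

private noncomputable def NMM_M (e : ZMod 3) : NMMG := NMM_J e * NMM_E e * (NMM_J e)⁻¹

private theorem NMM_MM (e : ZMod 3) : NMM_M e * NMM_M e = -1 := by
  unfold NMM_M
  calc NMM_J e * NMM_E e * (NMM_J e)⁻¹ * (NMM_J e * NMM_E e * (NMM_J e)⁻¹)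
      = NMM_J e * (NMM_E e * NMM_E e) * (NMM_J e)⁻¹ := by group
    _ = -1 := by
      rw [NMM_EE, mul_neg, mul_one, neg_mul, mul_inv_cancel]

private theorem NMM_Minv (e : ZMod 3) : (NMM_M e)⁻¹ = -NMM_M e := by
  rw [inv_eq_iff_mul_eq_one, mul_neg, NMM_MM, neg_neg]

private theorem NMM_J0 : NMM_J 0 = 1 := by
  unfold NMM_J
  rw [if_pos rfl]

private theorem NMM_J1 : NMM_J 1 = NMM_I := by
  unfold NMM_J
  rw [if_neg (by decide), if_pos rfl]

private theorem NMM_J2 : NMM_J 2 = NMM_I * NMM_I := by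
  unfold NMM_J
  rw [if_neg (by decide), if_neg (by decide)]

private theorem NMM_II : NMM_I * NMM_I = -NMM_I⁻¹ := by
  have h := NMM_III
  have h1 : NMM_I * NMM_I = -1 * NMM_I⁻¹ := by
    rw [← h]
    group
  rw [h1, neg_mul, one_mul]

private theorem NMM_IIinv : (NMM_I * NMM_I)⁻¹ = -NMM_I := by
  rw [NMM_II, inv_eq_iff_mul_eq_one, neg_mul_neg, inv_mul_cancel]

private theorem NMM_step (a b : ZMod 3) (h : b ≠ a) :
    ∃ s : ℕ, NMM_E a * (NMM_J a)⁻¹ * NMM_J b = (-1) ^ s * NMM_F a b := by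
  have key : ∀ x y : ZMod 3, y ≠ x → (x = 0 ∧ y = 1) ∨ (x = 1 ∧ y = 2) ∨ (x = 2 ∧ y = 0) ∨
      (x = 1 ∧ y = 0) ∨ (x = 2 ∧ y = 1) ∨ (x = 0 ∧ y = 2) := by decide
  rcases key a b h with ⟨rfl, rfl⟩ | ⟨rfl, rfl⟩ | ⟨rfl, rfl⟩ | ⟨rfl, rfl⟩ | ⟨rfl, rfl⟩ | ⟨rfl, rfl⟩
  · refine ⟨1, ?_⟩
    rw [NMM_J0, NMM_J1, inv_one, mul_one, NMM_EI, pow_one, neg_one_mul]
    rfl
  · refine ⟨1, ?_⟩
    rw [NMM_J1, NMM_J2, mul_assoc, inv_mul_cancel_left, NMM_EI, pow_one, neg_one_mul]
    rfl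
  · refine ⟨0, ?_⟩
    rw [NMM_J2, NMM_J0, NMM_IIinv, mul_one, mul_neg, NMM_EI, neg_neg, pow_zero, one_mul]
    rfl
  · refine ⟨0, ?_⟩
    rw [NMM_J1, NMM_J0, mul_one, pow_zero, one_mul]
    exact NMM_EI' 1 0 (by decide)
  · refine ⟨0, ?_⟩
    rw [NMM_J2, NMM_J1, mul_inv_rev, mul_assoc, mul_assoc, inv_mul_cancel, mul_one, pow_zero,
      one_mul]
    exact NMM_EI' 2 1 (by decide)
  · refine ⟨1, ?_⟩
    rw [NMM_J0, NMM_J2, inv_one, mul_one, NMM_II, mul_neg, pow_one, neg_one_mul]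
    congr 1
    exact NMM_EI' 0 2 (by decide)

/-! ### the matrices of the generators -/

private theorem NMM_detX : NX.det = 1 := by
  unfold NX
  rw [Matrix.det_fin_two_of]
  linear_combination NMM_Q

private theorem NMM_detY : NY.det = 1 := by
  unfold NY
  rw [Matrix.det_fin_two_of]
  have h1 : mon (-1) 2 = mon (-1) 0 * mon 0 1 * mon 0 1 := by
    rw [NMM_mon, NMM_mon]
    norm_num
  rw [h1]
  linear_combination NMM_P

private noncomputable def NMM_X : NMMG := ⟨NX, NMM_detX⟩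

private noncomputable def NMM_Y : NMMG := ⟨NY, NMM_detY⟩

private theorem NMM_z0 : NMM_z 0 = mon 0 1 := rfl

private theorem NMM_y0 : NMM_y 0 = mon 0 (-1) := rfl

private theorem NMM_z1 : NMM_z 1 = mon (-1) 0 := rfl

private theorem NMM_y1 : NMM_y 1 = mon 1 0 := rfl

private theorem NMM_z2 : NMM_z 2 = mon 1 0 * mon 0 (-1) := by
  rw [NMM_mon]
  rfl

private theorem NMM_y2 : NMM_y 2 = mon (-1) 0 * mon 0 1 := by
  rw [NMM_mon]
  rfl

private theorem NMM_M0 : (NMM_M 0 : Matrix (Fin 2) (Fin 2) R2) =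
    !![0, mon 0 1; -mon 0 (-1), 0] := by
  unfold NMM_M
  rw [NMM_J0, inv_one, mul_one, one_mul]
  rfl

private theorem NMM_M1 : (NMM_M 1 : Matrix (Fin 2) (Fin 2) R2) =
    !![mon (-1) 0, mon (-1) 0 + mon 1 0; -mon (-1) 0, -mon (-1) 0] := by
  unfold NMM_M
  rw [NMM_J1, Matrix.SpecialLinearGroup.coe_mul, Matrix.SpecialLinearGroup.coe_mul, NMM_IT]
  simp only [NMM_E, NMM_I, Matrix.adjugate_fin_two_of, Matrix.mul_fin_two, NMM_z1, NMM_y1]
  exact NMM_of (by ring) (by ring) (by ring) (by ring)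

private theorem NMM_M2 : (NMM_M 2 : Matrix (Fin 2) (Fin 2) R2) =
    !![mon (-1) 0 * mon 0 1, mon (-1) 0 * mon 0 1;
      -(mon 1 0 * mon 0 (-1)) - mon (-1) 0 * mon 0 1, -(mon (-1) 0 * mon 0 1)] := by
  unfold NMM_M
  rw [NMM_J2, Matrix.SpecialLinearGroup.coe_mul, Matrix.SpecialLinearGroup.coe_mul, NMM_IT,
    Matrix.SpecialLinearGroup.coe_mul]
  simp only [NMM_E, NMM_I, Matrix.adjugate_fin_two_of, Matrix.mul_fin_two, NMM_z2, NMM_y2]
  exact NMM_of (by ring) (by ring) (by ring) (by ring)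

private theorem NMM_Xeq : NMM_X = -(NMM_M 1 * NMM_M 2) := by
  apply NMM_ext
  rw [NMM_coe_neg, Matrix.SpecialLinearGroup.coe_mul, NMM_M1, NMM_M2]
  simp only [Matrix.mul_fin_two, Matrix.neg_of, Matrix.neg_cons, Matrix.neg_empty]
  show NX = _
  unfold NX
  have h1 : mon 2 (-1) = mon 1 0 * mon 1 0 * mon 0 (-1) := by
    rw [NMM_mon, NMM_mon]
    norm_num
  rw [h1]
  have hP := NMM_P
  have hQ := NMM_Q
  exact NMM_of (by linear_combination (-(mon 0 1 + mon 0 (-1))) * hP)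
    (by linear_combination (-(mon 0 1)) * hP) (by linear_combination (mon 0 (-1)) * hP)
    (by ring)

private theorem NMM_Yeq : NMM_Y = -(NMM_M 2 * NMM_M 0) := by
  apply NMM_ext
  rw [NMM_coe_neg, Matrix.SpecialLinearGroup.coe_mul, NMM_M2, NMM_M0]
  simp only [Matrix.mul_fin_two, Matrix.neg_of, Matrix.neg_cons, Matrix.neg_empty]
  show NY = _
  unfold NY
  have h1 : mon (-1) 2 = mon (-1) 0 * mon 0 1 * mon 0 1 := by
    rw [NMM_mon, NMM_mon]
    norm_num
  rw [h1]
  have hP := NMM_P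
  have hQ := NMM_Q
  exact NMM_of (by linear_combination (-(mon (-1) 0)) * hQ)
    (by ring) (by linear_combination (mon (-1) 0) * hQ)
    (by linear_combination (-(mon 1 0)) * hQ)

/-! ### the representation -/

private noncomputable def NMM_phi : FreeGroup (Fin 2) →* NMMG := FreeGroup.lift ![NMM_X, NMM_Y]

private theorem NMM_ev (w : List (Fin 2 × Bool)) :
    ev2 NX NY w = (NMM_phi (FreeGroup.mk w) : Matrix (Fin 2) (Fin 2) R2) := by
  unfold NMM_phi
  rw [FreeGroup.lift_mk]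
  unfold ev2
  induction w with
  | nil => rfl
  | cons l w ih =>
    rw [List.map_cons, List.prod_cons, List.map_cons, List.prod_cons,
      Matrix.SpecialLinearGroup.coe_mul, ← ih]
    congr 1
    rcases l with ⟨i, b⟩
    fin_cases i <;> cases b
    · exact (NMM_IT NMM_X).symm
    · rfl
    · exact (NMM_IT NMM_Y).symm
    · rfl

private theorem NMM_ev_pw (w : List (Fin 2 × Bool)) (k : ℕ) :
    ev2 NX NY (pw w k) = (ev2 NX NY w) ^ k := by
  unfold pw
  induction k with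
  | zero => rfl
  | succ k ih =>
    rw [List.replicate_succ, List.flatten_cons, pow_succ', ← ih]
    unfold ev2
    rw [List.map_append, List.prod_append]

private theorem NMM_gel (b : ZMod 3) : NMM_phi (gel b) = -(NMM_M 1 * NMM_M b) := by
  have key : ∀ x : ZMod 3, x = 0 ∨ x = 1 ∨ x = 2 := by decide
  have hX : NMM_phi (FreeGroup.of 0) = NMM_X := by
    unfold NMM_phi
    rw [FreeGroup.lift_apply_of]
    rfl
  have hY : NMM_phi (FreeGroup.of 1) = NMM_Y := by
    unfold NMM_phi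
    rw [FreeGroup.lift_apply_of]
    rfl
  unfold gel
  rcases key b with rfl | rfl | rfl
  · rw [if_neg (by decide), if_neg (by decide), map_mul, hX, hY, NMM_Xeq, NMM_Yeq, neg_mul_neg]
    have h := NMM_MM 2
    calc NMM_M 1 * NMM_M 2 * (NMM_M 2 * NMM_M 0) = NMM_M 1 * (NMM_M 2 * NMM_M 2) * NMM_M 0 := by
          group
      _ = -(NMM_M 1 * NMM_M 0) := by rw [h, mul_neg, mul_one, neg_mul]
  · rw [if_pos rfl, map_one, NMM_MM, neg_neg]
  · rw [if_neg (by decide), if_pos rfl, hX, NMM_Xeq]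

private theorem NMM_gel2 (a b : ZMod 3) :
    (NMM_phi (gel a))⁻¹ * NMM_phi (gel b) = -1 * (NMM_M a * NMM_M b) := by
  rw [NMM_gel, NMM_gel]
  have h1 : (-(NMM_M 1 * NMM_M a))⁻¹ = -((NMM_M a)⁻¹ * (NMM_M 1)⁻¹) := by
    rw [inv_eq_iff_mul_eq_one, neg_mul_neg]
    group
  rw [h1, neg_mul_neg, neg_one_mul, ← neg_mul, ← NMM_Minv]
  group

/-! ### products -/

private theorem NMM_c (s : ℕ) (A B : NMMG) : A * ((-1) ^ s * B) = (-1) ^ s * (A * B) :=
  ((Commute.neg_one_right A).pow_right s).left_comm B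

private noncomputable def NMM_PM (e : ℕ → ZMod 3) (N : ℕ) : NMMG :=
  ((List.range N).map fun i => NMM_M (e i)).prod

private noncomputable def NMM_PF (e : ℕ → ZMod 3) (N : ℕ) : NMMG :=
  ((List.range N).map fun i => NMM_F (e i) (e (i + 1))).prod

private theorem NMM_PM_succ (e : ℕ → ZMod 3) (N : ℕ) :
    NMM_PM e (N + 1) = NMM_PM e N * NMM_M (e N) := by
  unfold NMM_PM
  rw [List.range_succ, List.map_append, List.prod_append, List.map_singleton, List.prod_singleton]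

private theorem NMM_PF_succ (e : ℕ → ZMod 3) (N : ℕ) :
    NMM_PF e (N + 1) = NMM_PF e N * NMM_F (e N) (e (N + 1)) := by
  unfold NMM_PF
  rw [List.range_succ, List.map_append, List.prod_append, List.map_singleton, List.prod_singleton]

private theorem NMM_evg (e : ℕ → ZMod 3) (n : ℕ) :
    NMM_phi (evg e n) = (-1) ^ n * NMM_PM e (2 * n) := by
  induction n with
  | zero =>
    have h1 : evg e 0 = 1 := by
      unfold evg
      rw [List.range_zero, List.map_nil, List.prod_nil]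
    have h2 : NMM_PM e 0 = 1 := rfl
    rw [mul_zero, h1, h2, map_one, pow_zero, one_mul]
  | succ n ih =>
    have h1 : evg e (n + 1) = evg e n * ((gel (e (2 * n)))⁻¹ * gel (e (2 * n + 1))) := by
      unfold evg
      rw [List.range_succ, List.map_append, List.prod_append, List.map_singleton,
        List.prod_singleton]
    rw [h1, map_mul, ih, map_mul, map_inv, NMM_gel2, mul_assoc]
    have h2 := NMM_c 1 (NMM_PM e (2 * n)) (NMM_M (e (2 * n)) * NMM_M (e (2 * n + 1)))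
    rw [pow_one] at h2
    have h3 : NMM_PM e (2 * (n + 1)) =
        NMM_PM e (2 * n) * (NMM_M (e (2 * n)) * NMM_M (e (2 * n + 1))) := by
      rw [show 2 * (n + 1) = 2 * n + 1 + 1 from by ring, NMM_PM_succ, NMM_PM_succ, mul_assoc]
    rw [h2, h3, pow_succ, mul_assoc]

private theorem NMM_path (e : ℕ → ZMod 3) (he : ∀ i, e (i + 1) ≠ e i) (N : ℕ) :
    ∃ s : ℕ, NMM_PM e N = (-1) ^ s * (NMM_J (e 0) * NMM_PF e N * (NMM_J (e N))⁻¹) := by
  induction N with
  | zero =>
    refine ⟨0, ?_⟩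
    rw [pow_zero, one_mul]
    have h1 : NMM_PF e 0 = 1 := rfl
    have h2 : NMM_PM e 0 = 1 := rfl
    rw [h1, h2, mul_one, mul_inv_cancel]
  | succ N ih =>
    obtain ⟨s, hs⟩ := ih
    obtain ⟨s', hs'⟩ := NMM_step (e N) (e (N + 1)) (he N)
    refine ⟨s + s', ?_⟩
    have h1 : NMM_E (e N) * (NMM_J (e N))⁻¹ =
        (-1) ^ s' * (NMM_F (e N) (e (N + 1)) * (NMM_J (e (N + 1)))⁻¹) := by
      rw [← mul_assoc, ← hs', mul_inv_cancel_right]
    rw [NMM_PM_succ, hs, NMM_PF_succ, pow_add]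
    unfold NMM_M
    calc (-1) ^ s * (NMM_J (e 0) * NMM_PF e N * (NMM_J (e N))⁻¹) *
          (NMM_J (e N) * NMM_E (e N) * (NMM_J (e N))⁻¹)
        = (-1) ^ s * (NMM_J (e 0) * NMM_PF e N * (NMM_E (e N) * (NMM_J (e N))⁻¹)) := by group
      _ = (-1) ^ s * ((-1) ^ s' * (NMM_J (e 0) * NMM_PF e N *
          (NMM_F (e N) (e (N + 1)) * (NMM_J (e (N + 1)))⁻¹))) := by rw [h1, NMM_c]
      _ = _ := by simp only [mul_assoc]

/-! ### from natural to integral coefficients -/

private noncomputable def NMM_f : AddMonoidAlgebra ℕ (ℤ × ℤ) →+* R2 :=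
  AddMonoidAlgebra.mapRingHom (ℤ × ℤ) (Nat.castRingHom ℤ)

private theorem NMM_fs (a : ℤ × ℤ) : NMM_f (AddMonoidAlgebra.single a 1) =
    AddMonoidAlgebra.single a 1 := by
  unfold NMM_f
  simp

private theorem NMM_map (a b c d : AddMonoidAlgebra ℕ (ℤ × ℤ)) :
    NMM_f.mapMatrix !![a, b; c, d] = !![NMM_f a, NMM_f b; NMM_f c, NMM_f d] := by
  apply Matrix.ext
  intro i j
  fin_cases i <;> fin_cases j <;> rfl

private theorem NMM_ff (a b : ZMod 3) : (NMM_F a b : Matrix (Fin 2) (Fin 2) R2) =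
    NMM_f.mapMatrix (fac a b) := by
  unfold NMM_F fac
  split_ifs
  · rw [NMM_map, map_zero, NMM_fs, NMM_fs]
    rfl
  · rw [NMM_map, map_zero, NMM_fs, NMM_fs]
    rfl

private theorem NMM_PFcoe (e : ℕ → ZMod 3) (N : ℕ) :
    (NMM_PF e N : Matrix (Fin 2) (Fin 2) R2) = NMM_f.mapMatrix (MM e N) := by
  induction N with
  | zero =>
    have h1 : NMM_PF e 0 = 1 := rfl
    have h2 : MM e 0 = 1 := rfl
    rw [h1, h2, map_one, Matrix.SpecialLinearGroup.coe_one]
  | succ N ih =>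
    have h1 : MM e (N + 1) = MM e N * fac (e N) (e (N + 1)) := by
      unfold MM
      rw [List.range_succ, List.map_append, List.prod_append, List.map_singleton,
        List.prod_singleton]
    rw [NMM_PF_succ, h1, Matrix.SpecialLinearGroup.coe_mul, ih, NMM_ff, map_mul]

private theorem NMM_sign (s : ℕ) (A : NMMG) :
    (((-1) ^ s * A : NMMG) : Matrix (Fin 2) (Fin 2) R2).trace =
      (-1) ^ s * (A : Matrix (Fin 2) (Fin 2) R2).trace := by
  induction s with
  | zero => rw [pow_zero, pow_zero, one_mul, one_mul]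
  | succ s ih =>
    rw [pow_succ', pow_succ', mul_assoc, mul_assoc, ← ih, neg_one_mul, neg_one_mul, NMM_coe_neg,
      Matrix.trace_neg]

private theorem NMM_conj (A B : NMMG) :
    ((B * A * B⁻¹ : NMMG) : Matrix (Fin 2) (Fin 2) R2).trace =
      (A : Matrix (Fin 2) (Fin 2) R2).trace := by
  rw [Matrix.SpecialLinearGroup.coe_mul, Matrix.trace_mul_comm, ← Matrix.SpecialLinearGroup.coe_mul,
    ← mul_assoc, inv_mul_cancel, one_mul]

/-- Traces of words and monodromy matrices of edge paths. -/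
theorem N_MM (w : List (Fin 2 × Bool)) (e : ℕ → ZMod 3) (n : ℕ) (he : Cyc e (2 * n))
    (hw : IsConj (FreeGroup.mk w) (evg e n)) (k : ℕ) :
    ∃ ε : ℤ, |ε| = 1 ∧ ct (ev2 NX NY (pw w k)).trace =
      ε * (((MM e (2 * n) ^ k).trace.coeff 0 : ℕ) : ℤ) := by
  obtain ⟨s, hs⟩ := NMM_path e he.2 (2 * n)
  have h0 : e (2 * n) = e 0 := by
    have := he.1 0
    rwa [zero_add] at this
  rw [h0] at hs
  -- the word
  obtain ⟨c, hc⟩ := isConj_iff.1 hw
  have h1 : FreeGroup.mk w = c⁻¹ * evg e n * c := by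
    rw [← hc]
    group
  have h2 : NMM_phi (FreeGroup.mk w) ^ k = (NMM_phi c)⁻¹ * NMM_phi (evg e n) ^ k *
      ((NMM_phi c)⁻¹)⁻¹ := by
    rw [h1, map_mul, map_mul, map_inv, inv_inv]
    have h3 := conj_pow (i := k) (a := (NMM_phi c)⁻¹) (b := NMM_phi (evg e n))
    rw [inv_inv] at h3
    exact h3
  have h3 : NMM_phi (evg e n) ^ k = (-1) ^ ((n + s) * k) *
      (NMM_J (e 0) * NMM_PF e (2 * n) ^ k * (NMM_J (e 0))⁻¹) := by
    rw [NMM_evg, hs, ← mul_assoc, ← pow_add]
    have h4 : Commute ((-1 : NMMG) ^ (n + s))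
        (NMM_J (e 0) * NMM_PF e (2 * n) * (NMM_J (e 0))⁻¹) :=
      (Commute.neg_one_left _).pow_left _
    rw [h4.mul_pow, ← pow_mul, conj_pow]
  refine ⟨(-1) ^ ((n + s) * k), ?_, ?_⟩
  · rw [abs_pow, abs_neg, abs_one, one_pow]
  · rw [NMM_ev_pw, NMM_ev, ← Matrix.SpecialLinearGroup.coe_pow, h2, NMM_conj, h3, NMM_sign,
      NMM_conj, Matrix.SpecialLinearGroup.coe_pow, NMM_PFcoe, ← map_pow]
    have h5 : (NMM_f.mapMatrix (MM e (2 * n) ^ k)).trace =
        NMM_f ((MM e (2 * n) ^ k).trace) := by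
      rw [Matrix.trace_fin_two, Matrix.trace_fin_two, map_add]
      rfl
    rw [h5]
    have h6 : ∀ (t : ℕ) (x : R2), ct ((-1) ^ t * x) = (-1) ^ t * ct x := by
      intro t x
      induction t with
      | zero => rw [pow_zero, pow_zero, one_mul, one_mul]
      | succ t ih =>
        rw [pow_succ', pow_succ', mul_assoc, mul_assoc, ← ih, neg_one_mul, neg_one_mul]
        rfl
    rw [h6]
    have h7 : ct (NMM_f ((MM e (2 * n) ^ k).trace)) =
        (((MM e (2 * n) ^ k).trace.coeff 0 : ℕ) : ℤ) := by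
      unfold ct NMM_f
      exact AddMonoidAlgebra.coeff_mapRingHom _ _ _
    rw [h7]

end Pool.Agent.AMG
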