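import Pool.Agent.AMG.DefsB

/-!
# Riemann sums (Skel M7a)
-/

open scoped BigOperators LaurentPolynomial Matrix Topology
open Polynomial Filter

namespace Pool.Agent.AMG

theorem riem_part (h : ℝ → ℝ) (hh : Continuous h) (N : ℕ) :
    ∑ j ∈ Finset.range (N + 1), ∫ u in ((j : ℝ) / (N + 1))..(((j + 1 : ℕ) : ℝ) / (N + 1)),
      h (-1 + 2 * u) = (∫ τ in (-1 : ℝ)..1, h τ) / 2 := by
  have hc : Continuous fun u : ℝ => h (-1 + 2 * u) := by fun_prop
  have h1 := intervalIntegral.sum_integral_adjacent_intervals (f := fun u : ℝ => h (-1 + 2 * u))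
    (μ := MeasureTheory.volume) (a := fun j : ℕ => (j : ℝ) / (N + 1)) (n := N + 1)
    (fun k _ => hc.intervalIntegrable _ _)
  rw [h1]
  have hN : ((N : ℝ) + 1) ≠ 0 := by positivity
  have e0 : ((0 : ℕ) : ℝ) / (N + 1) = 0 := by simp
  have e1 : ((N + 1 : ℕ) : ℝ) / (N + 1) = 1 := by
    push_cast
    exact div_self hN
  rw [e0, e1, intervalIntegral.integral_comp_add_mul h (by norm_num : (2 : ℝ) ≠ 0)]
  norm_num
  ring

theorem riem_main (g : ℝ × ℝ → ℝ) (hg : Continuous g) (T : ℝ) :
    Tendsto (fun N : ℕ => (∑ j ∈ Finset.range (N + 1),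
      g (-1 + 2 * (j : ℝ) / N, T / N)) / ((N : ℝ) + 1)) atTop
      (𝓝 ((∫ τ in (-1 : ℝ)..1, g (τ, 0)) / 2)) := by
  have hcomp : IsCompact (Set.Icc (-1 : ℝ) 1 ×ˢ Set.Icc (-|T|) |T|) :=
    isCompact_Icc.prod isCompact_Icc
  have huc := hcomp.uniformContinuousOn_of_continuous hg.continuousOn
  rw [Metric.tendsto_atTop]
  intro ε hε
  obtain ⟨δ, hδ, hδ'⟩ := Metric.uniformContinuousOn_iff.1 huc (ε / 2) (by positivity)
  obtain ⟨N₀, hN₀⟩ := exists_nat_gt ((2 + |T|) / δ)
  refine ⟨N₀ + 1, fun N hN => ?_⟩
  have hN1 : (1 : ℝ) ≤ N := by exact_mod_cast (by omega : 1 ≤ N)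
  have hN0 : (0 : ℝ) < N := by linarith
  have hNδ : (2 + |T|) / N < δ := by
    rw [div_lt_iff₀ hδ] at hN₀
    rw [div_lt_iff₀ hN0]
    have : (N₀ : ℝ) ≤ N := by exact_mod_cast (by omega : N₀ ≤ N)
    nlinarith
  have hg0 : Continuous fun τ : ℝ => g (τ, 0) := by fun_prop
  have hpart := riem_part (fun τ => g (τ, 0)) hg0 N
  rw [← hpart, Real.dist_eq, Finset.sum_div, ← Finset.sum_sub_distrib]
  have hterm : ∀ j ∈ Finset.range (N + 1),
      |g (-1 + 2 * (j : ℝ) / N, T / N) / ((N : ℝ) + 1) -
        ∫ u in ((j : ℝ) / (N + 1))..(((j + 1 : ℕ) : ℝ) / (N + 1)), g (-1 + 2 * u, 0)| ≤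
      (ε / 2) * (1 / ((N : ℝ) + 1)) := by
    intro j hj
    rw [Finset.mem_range] at hj
    have hjN : (j : ℝ) ≤ N := by exact_mod_cast (by omega : j ≤ N)
    have hj0 : (0 : ℝ) ≤ j := Nat.cast_nonneg _
    have hlen : (((j + 1 : ℕ) : ℝ) / (N + 1)) - ((j : ℝ) / (N + 1)) = 1 / ((N : ℝ) + 1) := by
      push_cast
      ring
    have hN1p : (0 : ℝ) < (N : ℝ) + 1 := by linarith
    have hle : ((j : ℝ) / (N + 1)) ≤ (((j + 1 : ℕ) : ℝ) / (N + 1)) := by
      have : (0 : ℝ) ≤ 1 / ((N : ℝ) + 1) := by positivity
      linarith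
    have hconst : g (-1 + 2 * (j : ℝ) / N, T / N) / ((N : ℝ) + 1) =
        ∫ u in ((j : ℝ) / (N + 1))..(((j + 1 : ℕ) : ℝ) / (N + 1)),
          g (-1 + 2 * (j : ℝ) / N, T / N) := by
      rw [intervalIntegral.integral_const, hlen, smul_eq_mul]
      ring
    rw [hconst, ← intervalIntegral.integral_sub]
    · have hb := intervalIntegral.norm_integral_le_of_norm_le_const
        (a := ((j : ℝ) / (N + 1))) (b := (((j + 1 : ℕ) : ℝ) / (N + 1))) (C := ε / 2)
        (f := fun u => g (-1 + 2 * (j : ℝ) / N, T / N) - g (-1 + 2 * u, 0)) (by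
          intro u hu
          rw [Set.uIoc_of_le hle] at hu
          rw [← dist_eq_norm]
          have hu1 : (j : ℝ) / (N + 1) < u := hu.1
          have hu2 : u ≤ ((j : ℝ) + 1) / (N + 1) := by
            have := hu.2
            push_cast at this
            exact this
          have hjj1 : (j : ℝ) / (N + 1) ≤ j / N := by
            apply div_le_div_of_nonneg_left hj0 hN0
            linarith
          have hjj2 : (j : ℝ) / N ≤ ((j : ℝ) + 1) / (N + 1) := by
            rw [div_le_div_iff₀ hN0 hN1p]
            nlinarith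
          have h01 : (0 : ℝ) ≤ u := by
            have : (0 : ℝ) ≤ (j : ℝ) / (N + 1) := by positivity
            linarith
          have h11 : u ≤ 1 := by
            refine hu2.trans ?_
            rw [div_le_one hN1p]
            linarith
          have hjN0 : (0 : ℝ) ≤ (j : ℝ) / N := by positivity
          have hjN1 : (j : ℝ) / N ≤ 1 := by
            rw [div_le_one hN0]
            exact hjN
          have hinvN : 1 / ((N : ℝ) + 1) ≤ 1 / N := by
            apply one_div_le_one_div_of_le hN0
            linarith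
          have hdiff : |(j : ℝ) / N - u| ≤ 1 / N := by
            refine le_trans ?_ hinvN
            have e1 : ((j : ℝ) + 1) / (N + 1) = (j : ℝ) / (N + 1) + 1 / ((N : ℝ) + 1) := by ring
            rw [abs_le]
            constructor
            · linarith
            · linarith
          have hTN : |T / N| ≤ |T| := by
            rw [abs_div, abs_of_pos hN0]
            exact div_le_self (abs_nonneg _) hN1
          refine (hδ' _ ?_ _ ?_ ?_).le
          · refine Set.mk_mem_prod ?_ ?_
            · rw [Set.mem_Icc, mul_div_assoc]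
              constructor <;> linarith
            · rw [Set.mem_Icc]
              exact abs_le.1 hTN
          · refine Set.mk_mem_prod ?_ ?_
            · rw [Set.mem_Icc]
              constructor <;> linarith
            · rw [Set.mem_Icc]
              constructor
              · linarith [abs_nonneg T]
              · exact abs_nonneg T
          · rw [Prod.dist_eq]
            apply max_lt
            · rw [Real.dist_eq]
              show |(-1 + 2 * (j : ℝ) / N) - (-1 + 2 * u)| < δ
              have e2 : (-1 + 2 * (j : ℝ) / N) - (-1 + 2 * u) = 2 * ((j : ℝ) / N - u) := by ring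
              rw [e2, abs_mul, abs_two]
              have e3 : 2 * (1 / (N : ℝ)) ≤ (2 + |T|) / N := by
                rw [mul_one_div]
                apply div_le_div_of_nonneg_right _ hN0.le
                linarith [abs_nonneg T]
              linarith
            · rw [Real.dist_eq]
              show |T / N - 0| < δ
              rw [sub_zero, abs_div, abs_of_pos hN0]
              have e3 : |T| / (N : ℝ) ≤ (2 + |T|) / N := by
                apply div_le_div_of_nonneg_right _ hN0.le
                linarith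
              linarith)
      rw [Real.norm_eq_abs, hlen, abs_of_nonneg (by positivity : (0 : ℝ) ≤ 1 / ((N : ℝ) + 1))] at hb
      exact hb
    · exact continuous_const.intervalIntegrable _ _
    · have : Continuous fun u : ℝ => g (-1 + 2 * u, 0) := by fun_prop
      exact this.intervalIntegrable _ _
  refine lt_of_le_of_lt (Finset.abs_sum_le_sum_abs _ _) ?_
  refine lt_of_le_of_lt (Finset.sum_le_sum hterm) ?_
  rw [Finset.sum_const, Finset.card_range, nsmul_eq_mul]
  push_cast
  have hN1p : ((N : ℝ) + 1) ≠ 0 := by positivity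
  field_simp
  linarith

theorem riemann (g : ℝ × ℝ → ℝ) (hg : Continuous g) (T : ℝ) (p : ℕ) :
    Tendsto (fun n : ℕ => (∑ j ∈ Finset.range (2 * n + p + 1),
      g (-1 + 2 * (j : ℝ) / (2 * n + p : ℕ), T / (2 * n + p : ℕ))) / ((2 * n + p : ℕ) + 1)) atTop
      (𝓝 ((∫ τ in (-1 : ℝ)..1, g (τ, 0)) / 2)) := by
  have h1 : Tendsto (fun n : ℕ => 2 * n + p) atTop atTop := by
    apply tendsto_atTop_mono (f := fun n : ℕ => n) _ tendsto_id
    intro n
    show n ≤ 2 * n + p
    omega
  exact (riem_main g hg T).comp h1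

end Pool.Agent.AMG
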