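import Pool.Agent.AMG.Star
import Pool.Agent.AMG.Cmp
import Pool.Agent.AMG.Limit
import Pool.Agent.AMG.Riem
import Pool.Agent.AMG.ClEq
import Pool.Agent.AMG.Fricke
import Pool.Agent.AMG.Mom
import Pool.Agent.AMG.MomAll
import Pool.Agent.AMG.NMM
import Pool.Agent.AMG.Grow
import Pool.Agent.AMG.Comb
import Pool.Agent.AMG.CTW

open scoped BigOperators LaurentPolynomial Matrix Topology
open Polynomial Filter

namespace Pool.Agent.AMG

/-- If the word `w` has finite order in infinitely many levels of each window of the parity `p`,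
then it is a power of a simple closed curve. -/
theorem simple_of_fail (w : List (Fin 2 × Bool)) (p : ℕ)
    (h1 : ∀ C : ℕ, C % 2 = p % 2 → ∀ r0 : ℕ, ∃ r ≥ r0, ∃ A : ℂ, IsPrimitiveRoot A (4 * r) ∧
        ∃ n > 0, ∃ z : ℂ, wordW C A w ^ n = z • 1) : Simple (FreeGroup.mk w) := by
  by_contra hw
  obtain ⟨n, hn, e, he, hconj, hz⟩ := comb w hw
  obtain ⟨m0, hm0, hgrow⟩ := grow e (2 * n) (by omega) he hz
  have h2 := HH_power riemann star w p h1
  obtain ⟨F⟩ : Nonempty Unit := ⟨()⟩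
  -- moments
  have h3 : ∀ m : ℕ, Mom (fun T => ((HH (pw w (4 * m)) T : ℝ) : ℂ))
      (ct (ev2 NX NY (pw w (4 * m))).trace) := by
    intro m
    obtain ⟨f, hf⟩ := fricke (pw w (4 * m))
    rw [hf R2 NX NY N_det.1 N_det.2]
    refine (mom_all f).congr fun T hT => ?_
    rw [HH]
    rw [← intervalIntegral.integral_ofReal]
    refine intervalIntegral.integral_congr fun σ _ => ?_
    show _ = ((cl _ _ _ : ℝ) : ℂ)
    rw [cl_eq w m (Real.exp_pos σ) (Real.exp_pos T)]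
    obtain ⟨hd1, hd2⟩ := lau_det (Real.exp_pos σ) (Real.exp_pos T)
    rw [hf _ (lauX (Real.exp σ : ℂ)) (lauY (Real.exp σ : ℂ) (Real.exp T : ℂ)) hd1 hd2]
    rfl
  have h4 : ∀ m : ℕ, 0 < m → (ct (ev2 NX NY (pw w (4 * 1))).trace : ℂ) =
      (ct (ev2 NX NY (pw w (4 * m))).trace : ℂ) := by
    intro m hm
    refine Mom.unique (h3 1) (h3 m) m hm fun T hT => ?_
    rw [h2 m hm T hT]
    push_cast
    rfl
  obtain ⟨ε1, hε1, h5⟩ := N_MM w e n he hconj (4 * 1)
  set X := |ct (ev2 NX NY (pw w (4 * 1))).trace| with hX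
  have h6 : ∀ m, 0 < m → (((MM e (2 * n) ^ (4 * m)).trace.coeff 0 : ℕ) : ℤ) = X := by
    intro m hm
    obtain ⟨ε, hε, h7⟩ := N_MM w e n he hconj (4 * m)
    have h8 : ct (ev2 NX NY (pw w (4 * 1))).trace = ct (ev2 NX NY (pw w (4 * m))).trace := by
      exact_mod_cast h4 m hm
    rw [hX, h8, h7, abs_mul, hε, one_mul]
    exact (abs_of_nonneg (by positivity)).symm
  obtain ⟨k, hk⟩ : ∃ k : ℕ, X < 2 ^ (4 * (k + 1)) := by
    refine ⟨X.toNat, ?_⟩
    have h9 : X ≤ X.toNat := Int.self_le_toNat X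
    have h10 : X.toNat < 2 ^ X.toNat := Nat.lt_two_pow_self
    have h11 : 2 ^ X.toNat ≤ 2 ^ (4 * (X.toNat + 1)) := Nat.pow_le_pow_right (by norm_num) (by omega)
    have h12 : X.toNat < 2 ^ (4 * (X.toNat + 1)) := lt_of_lt_of_le h10 h11
    calc X ≤ X.toNat := h9
      _ < ((2 ^ (4 * (X.toNat + 1)) : ℕ) : ℤ) := by exact_mod_cast h12
      _ = _ := by push_cast; rfl
  have h13 := hgrow (4 * (k + 1))
  have h14 := h6 (m0 * (k + 1)) (by positivity)
  have h15 : m0 * (4 * (k + 1)) = 4 * (m0 * (k + 1)) := by ring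
  rw [h15] at h13
  have h16 : ((2 ^ (4 * (k + 1)) : ℕ) : ℤ) ≤ X := by
    rw [← h14]
    exact_mod_cast h13
  push_cast at h16
  omega

/-- The AMU conjecture for the point pushing maps of the torus with two holes. -/
theorem main (w : List (Fin 2 × Bool)) (hw : ¬ Simple (FreeGroup.mk w)) :
    ∃ K r0 : ℕ, ∀ r, r0 ≤ r → ∃ c, c + 2 ≤ r ∧ r ≤ c + 2 + K ∧
      ∀ A : ℂ, IsPrimitiveRoot A (4 * r) → InfOrder r c A w := by
  -- for each parity there is a good window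
  have key : ∀ p : ℕ, ∃ C : ℕ, C % 2 = p % 2 ∧ ∃ r0 : ℕ, ∀ r ≥ r0, ∀ A : ℂ,
      IsPrimitiveRoot A (4 * r) → ∀ n > 0, ∀ z : ℂ, wordW C A w ^ n ≠ z • 1 := by
    intro p
    by_contra hcon
    push Not at hcon
    exact hw (simple_of_fail w p hcon)
  obtain ⟨C0, hC0, r00, h0⟩ := key 0
  obtain ⟨C1, hC1, r01, h1⟩ := key 1
  refine ⟨max C0 C1, max (max r00 r01) (max C0 C1 + 3), fun r hr => ?_⟩
  have hr1 : r00 ≤ r := le_trans (le_trans (le_max_left _ _) (le_max_left _ _)) hr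
  have hr2 : r01 ≤ r := le_trans (le_trans (le_max_right _ _) (le_max_left _ _)) hr
  have hr3 : max C0 C1 + 3 ≤ r := le_trans (le_max_right _ _) hr
  have hC0' : C0 ≤ max C0 C1 := le_max_left _ _
  have hC1' : C1 ≤ max C0 C1 := le_max_right _ _
  -- choose the parity
  rcases Nat.even_or_odd r with hev | hodd
  · refine ⟨r - 2 - C1, by omega, by omega, fun A hA => ?_⟩
    obtain ⟨ne, hcmp⟩ := cmp (c := r - 2 - C1) (C := C1) (by omega)
      (by obtain ⟨u, hu⟩ := hev; refine ⟨(r - 2 - C1) / 2, by omega⟩) hA w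
    refine ⟨ne, fun n hn z hz => ?_⟩
    obtain ⟨z', hz'⟩ := hcmp n z hz
    exact h1 r hr2 A hA n hn z' hz'
  · refine ⟨r - 2 - C0, by omega, by omega, fun A hA => ?_⟩
    obtain ⟨ne, hcmp⟩ := cmp (c := r - 2 - C0) (C := C0) (by omega)
      (by obtain ⟨u, hu⟩ := hodd; refine ⟨(r - 2 - C0) / 2, by omega⟩) hA w
    refine ⟨ne, fun n hn z hz => ?_⟩
    obtain ⟨z', hz'⟩ := hcmp n z hz
    exact h0 r hr1 A hA n hn z' hz'

end Pool.Agent.AMG
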