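import Pool.Agent.AMG.DefsB

/-!
# Module Inv: the matrices of the letters are invertible, determinants, powers, `A = 1`
-/

namespace Pool.Agent.AMG

variable {F : Type*} [Field F]

private def Rg (C : ℕ) (i : ℤ) : Prop := 0 ≤ i ∧ i ≤ C

private def ix {C : ℕ} {i : ℤ} (h : Rg C i) : Fin (C + 1) := ⟨i.toNat, by
  obtain ⟨h1, h2⟩ := h
  omega⟩

private theorem ix_coe {C : ℕ} {i : ℤ} (h : Rg C i) : ((ix h : Fin (C + 1)) : ℤ) = i := by
  have := h.1
  simp only [ix]
  omega

private theorem sum_ix {C : ℕ} (c : Fin (C + 1) → F) (j : Fin (C + 1)) (d : ℤ) [Decidable (Rg C ((j : ℤ) - d))] :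
    (∑ i : Fin (C + 1), if (j : ℤ) - (i : ℤ) = d then c i else 0) =
      if h : Rg C ((j : ℤ) - d) then c (ix h) else 0 := by
  split_ifs with h
  · rw [Finset.sum_eq_single (ix h)]
    · rw [if_pos]
      rw [ix_coe]
      ring
    · intro i _ hi
      rw [if_neg]
      intro h1
      apply hi
      apply Fin.ext
      have := ix_coe h
      have h2 := (ix h).2
      zify
      rw [this]
      omega
    · intro h1
      exact absurd (Finset.mem_univ _) h1
  · apply Finset.sum_eq_zero
    intro i _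
    rw [if_neg]
    intro h1
    apply h
    have := i.2
    constructor <;> omega

/-- the other spin -/
private def fl (s : Fin 2) : Fin 2 := if s = 0 then 1 else 0

private theorem dir_fl (b : Bool) (s : Fin 2) : dir b (fl s) = -dir b s := by
  fin_cases s <;> cases b <;> simp [dir, fl]

private theorem dir_not (b : Bool) (s : Fin 2) : dir (!b) s = -dir b s := by
  fin_cases s <;> cases b <;> simp [dir]

private theorem dir_pm (b : Bool) (s : Fin 2) : dir b s = 1 ∨ dir b s = -1 := by
  fin_cases s <;> cases b <;> simp [dir]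

private theorem fl_fl (s : Fin 2) : fl (fl s) = s := by
  fin_cases s <;> simp [fl]

private noncomputable def sg (F : Type*) [Field F] (b : Bool) : F := if b then 1 else -1

/-- the action of `y ^ (±1)` on functions -/
private theorem mulVec_one (C : ℕ) (A : F) (b : Bool) (f : Win C → F) (j : Fin (C + 1))
    (s : Fin 2) [Decidable (Rg C ((j : ℤ) - dir b s))] :
    (letW C A (1, b)).mulVec f (j, s) =
      flipc (A ^ (2 * (j : ℤ) - C)) A (A ^ C) (-dir b s) * f (j, fl s) +
        if h : Rg C ((j : ℤ) - dir b s) then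
          sg F b * shiftc (A ^ (2 * ((j : ℤ) - dir b s) - C)) A (A ^ C) (dir b s) * f (ix h, s)
        else 0 := by
  classical
  have h1 : (letW C A (1, b)).mulVec f (j, s) =
      ∑ i : Fin (C + 1), (letW C A (1, b) (j, s) (i, s) * f (i, s)) +
      ∑ i : Fin (C + 1), (letW C A (1, b) (j, s) (i, fl s) * f (i, fl s)) := by
    rw [Matrix.mulVec, dotProduct, Fintype.sum_prod_type, ← Finset.sum_add_distrib]
    refine Finset.sum_congr rfl fun i _ => ?_
    rw [Fin.sum_univ_two]
    fin_cases s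
    · rfl
    · simp only [fl]
      rw [add_comm]
      rfl
  have h2 : ∑ i : Fin (C + 1), (letW C A (1, b) (j, s) (i, s) * f (i, s)) =
      ∑ i : Fin (C + 1), if (j : ℤ) - (i : ℤ) = dir b s then
        sg F b * shiftc (A ^ (2 * (i : ℤ) - C)) A (A ^ C) (dir b s) * f (i, s) else 0 := by
    refine Finset.sum_congr rfl fun i _ => ?_
    simp only [letW, Matrix.of_apply, lsym, sg]
    have h3 : ¬ ((1 : Fin 2) = 0) := by decide
    rw [if_neg h3, if_neg (by tauto)]
    by_cases h4 : (j : ℤ) - (i : ℤ) = dir b s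
    · rw [if_pos ⟨trivial, h4⟩, if_pos h4]
    · rw [if_neg (fun h => h4 h.2), if_neg h4, zero_mul]
  have h3 : ∑ i : Fin (C + 1), (letW C A (1, b) (j, s) (i, fl s) * f (i, fl s)) =
      flipc (A ^ (2 * (j : ℤ) - C)) A (A ^ C) (-dir b s) * f (j, fl s) := by
    rw [Finset.sum_eq_single j]
    · simp only [letW, Matrix.of_apply, lsym]
      have h3 : ¬ ((1 : Fin 2) = 0) := by decide
      have h5 : s ≠ fl s := by fin_cases s <;> simp [fl]
      rw [if_neg h3, if_pos ⟨h5, sub_self _⟩, dir_fl]
    · intro i _ hi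
      simp only [letW, Matrix.of_apply, lsym]
      have h3 : ¬ ((1 : Fin 2) = 0) := by decide
      have h5 : s ≠ fl s := by fin_cases s <;> simp [fl]
      rw [if_neg h3, if_neg, if_neg (fun h => h5 h.1), zero_mul]
      rintro ⟨-, h6⟩
      apply hi
      apply Fin.ext
      omega
    · intro h
      exact absurd (Finset.mem_univ _) h
  rw [h1, h2, h3, sum_ix]
  rw [add_comm]
  congr 1
  split_ifs with h
  · rw [ix_coe]
  · rfl

private theorem key_id {u a v : F} {d : ℤ} (hd : d = 1 ∨ d = -1) (hu : u ≠ 0) (ha : a ≠ 0)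
    (hv : v ≠ 0) (hden : den u a (-d) ≠ 0) :
    flipc u a v (-d) * flipc u a v (-d) -
      shiftc (u * a ^ (-(2 * d))) a v d * shiftc u a v (-d) = 1 ∧
    flipc u a v (-d) = flipc (u * a ^ (-(2 * d))) a v d := by
  rcases hd with rfl | rfl
  · have e1 : a ^ (-(2 * 1) : ℤ) = (a ^ 2)⁻¹ := by
      have : (-(2 * 1) : ℤ) = -((2 : ℕ) : ℤ) := by norm_num
      rw [this, zpow_neg, zpow_natCast]
    rw [e1]
    simp only [flipc, shiftc, den, zpow_one, neg_neg, zpow_neg_one] at hden ⊢
    have h1 : u * (a ^ 2)⁻¹ * a = u * a⁻¹ := by field_simp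
    rw [h1]
    refine ⟨?_, rfl⟩
    rw [div_mul_div_comm, div_mul_div_comm, ← sub_div, div_eq_one_iff_eq (mul_ne_zero hden hden)]
    field_simp
    ring
  · have e1 : a ^ (-(2 * -1) : ℤ) = a ^ 2 := by
      have : (-(2 * -1) : ℤ) = ((2 : ℕ) : ℤ) := by norm_num
      rw [this, zpow_natCast]
    rw [e1]
    simp only [flipc, shiftc, den, zpow_one, neg_neg, zpow_neg_one] at hden ⊢
    have h1 : u * a ^ 2 * a⁻¹ = u * a := by field_simp
    rw [h1]
    refine ⟨?_, rfl⟩
    rw [div_mul_div_comm, div_mul_div_comm, ← sub_div, div_eq_one_iff_eq (mul_ne_zero hden hden)]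
    field_simp
    ring


private theorem goodk {C : ℕ} {A : F} (hA : Good C A) (j : Fin (C + 1)) {d : ℤ}
    (hd : d = 1 ∨ d = -1) : den (A ^ (2 * (j : ℤ) - C)) A (-d) ≠ 0 := by
  have h1 := hA.2 (2 * (j : ℤ) - C - d) (by
    have := j.2
    rw [abs_le]
    constructor <;> rcases hd with rfl | rfl <;> omega)
  have h2 : A ^ (2 * (j : ℤ) - C) * A ^ (-d) = A ^ (2 * (j : ℤ) - C - d) := by
    rw [← zpow_add₀ hA.1]
    rfl
  unfold den
  rw [h2, ← zpow_neg]
  exact h1

private theorem mulVec_inv {C : ℕ} {A : F} (hA : Good C A) (b : Bool) (f : Win C → F) :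
    (letW C A (1, b)).mulVec ((letW C A (1, !b)).mulVec f) = f := by
  classical
  funext ⟨j, s⟩
  have hA0 : A ≠ 0 := hA.1
  set d : ℤ := dir b s with hd
  have hdpm : d = 1 ∨ d = -1 := dir_pm b s
  have hdn : dir (!b) s = -d := dir_not b s
  have hdf : dir (!b) (fl s) = d := by rw [dir_fl, hdn, neg_neg]
  have hsg : sg F (!b) = -sg F b := by cases b <;> simp [sg]
  have hsg2 : sg F b * sg F b = 1 := by cases b <;> simp [sg]
  set k : ℤ := 2 * (j : ℤ) - C with hk
  have hu : A ^ k ≠ 0 := zpow_ne_zero _ hA0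
  have hv : A ^ C ≠ 0 := pow_ne_zero _ hA0
  have hden : den (A ^ k) A (-d) ≠ 0 := goodk hA j hdpm
  have hkd : A ^ (2 * ((j : ℤ) - d) - C) = A ^ k * A ^ (-(2 * d)) := by
    rw [← zpow_add₀ hA0]
    congr 1
    rw [hk]
    ring
  obtain ⟨id1, id2⟩ := key_id hdpm hu hA0 hv hden
  rw [mulVec_one, ← hd, ← hk, mulVec_one, fl_fl, hdf, ← hk]
  by_cases h : Rg C ((j : ℤ) - d)
  · rw [dif_pos h, dif_pos h, mulVec_one, hdn, neg_neg, ix_coe]
    have h2 : Rg C (((ix h : Fin (C + 1)) : ℤ) - -d) := by
      rw [ix_coe]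
      have := j.2
      constructor <;> omega
    have h4 : 2 * ((j : ℤ) - d - -d) - C = k := by rw [hk]; ring
    rw [ix_coe] at h2
    rw [dif_pos h2]
    have h5 : (ix h2 : Fin (C + 1)) = j := by
      apply Fin.ext
      have := ix_coe h2
      omega
    rw [h5, h4, hkd, hsg, ← id2]
    have e : flipc (A ^ k) A (A ^ C) (-d) *
          (flipc (A ^ k) A (A ^ C) (-d) * f (j, s) +
            -sg F b * shiftc (A ^ k * A ^ (-(2 * d))) A (A ^ C) d * f (ix h, fl s)) +
        sg F b * shiftc (A ^ k * A ^ (-(2 * d))) A (A ^ C) d *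
          (flipc (A ^ k) A (A ^ C) (-d) * f (ix h, fl s) +
            -sg F b * shiftc (A ^ k) A (A ^ C) (-d) * f (j, s)) =
        (flipc (A ^ k) A (A ^ C) (-d) * flipc (A ^ k) A (A ^ C) (-d) -
          (sg F b * sg F b) * (shiftc (A ^ k * A ^ (-(2 * d))) A (A ^ C) d *
            shiftc (A ^ k) A (A ^ C) (-d))) * f (j, s) := by ring
    rw [e, hsg2, one_mul, id1, one_mul]
  · rw [dif_neg h, dif_neg h, add_zero, add_zero]
    -- the coefficient of the other shift vanishes
    have h6 : shiftc (A ^ k) A (A ^ C) (-d) = 0 := by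
      have h7 : (C : ℤ) + d * k = 0 := by
        have := j.2
        rw [hk]
        have h8 : ¬ (0 ≤ (j : ℤ) - d ∧ (j : ℤ) - d ≤ C) := h
        rcases hdpm with h9 | h9
        · rw [h9] at h8 ⊢
          omega
        · rw [h9] at h8 ⊢
          omega
      unfold shiftc
      have h8 : A ^ C * (A ^ k) ^ (- -d) - (A ^ C)⁻¹ * (A ^ k) ^ (-d) = 0 := by
        rw [neg_neg, ← zpow_mul, ← zpow_mul, ← zpow_natCast, ← zpow_neg, ← zpow_add₀ hA0,
          ← zpow_add₀ hA0]
        have h9 : (C : ℤ) + k * d = 0 := by rw [mul_comm k d]; exact h7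
        have h10 : -(C : ℤ) + k * -d = 0 := by linarith [mul_neg k d]
        rw [h9, h10, sub_self]
      rw [h8, zero_div]
    rw [h6, mul_zero, sub_zero] at id1
    rw [← mul_assoc, id1, one_mul]

theorem letW_inv {F : Type*} [Field F] {C : ℕ} {A : F} (hA : Good C A) (i : Fin 2) (b : Bool) :
    letW C A (i, b) * letW C A (i, !b) = 1 := by
  classical
  have hA0 : A ≠ 0 := hA.1
  rcases (show i = 0 ∨ i = 1 by omega) with rfl | rfl
  · have h1 : ∀ b : Bool, letW C A (0, b) = Matrix.diagonal fun p : Win C =>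
        lsym (0, b) p.2 p.2 0 (A ^ (2 * (p.1 : ℤ) - C)) A (A ^ C) := by
      intro b
      ext q p
      by_cases h : q = p
      · subst h
        rw [Matrix.diagonal_apply_eq]
        simp only [letW, Matrix.of_apply, sub_self]
      · rw [Matrix.diagonal_apply_ne _ h]
        simp only [letW, Matrix.of_apply, lsym, if_true]
        rw [if_neg]
        rintro ⟨h2, h3⟩
        apply h
        refine Prod.ext (Fin.ext ?_) h2
        omega
    rw [h1, h1, Matrix.diagonal_mul_diagonal, ← Matrix.diagonal_one]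
    congr 1
    funext p
    have hx : A ^ (2 * (p.1 : ℤ) - C) ≠ 0 := zpow_ne_zero _ hA0
    simp only [lsym, if_true, and_self]
    rcases (show p.2 = 0 ∨ p.2 = 1 by omega) with h | h
    · rw [h]
      cases b <;> simp [hx]
    · rw [h]
      cases b <;> simp [hx]
  · apply Matrix.ext_of_mulVec_single
    intro p
    rw [← Matrix.mulVec_mulVec, mulVec_inv hA, Matrix.one_mulVec]

private theorem det_conj {ι : Type*} [Fintype ι] [DecidableEq ι] (M M' : Matrix ι ι F)
    (σ : Equiv.Perm ι) (ε : ι → F) (hε : ∀ i, ε i * ε i = 1)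
    (h : ∀ q p, M' q p = ε q * M (σ q) (σ p) * ε p) : M'.det = M.det := by
  have h1 : M' = Matrix.diagonal ε * M.submatrix σ σ * Matrix.diagonal ε := by
    ext q p
    rw [Matrix.mul_diagonal, Matrix.diagonal_mul, Matrix.submatrix_apply, h]
  rw [h1, Matrix.det_mul, Matrix.det_mul, Matrix.det_submatrix_equiv_self, Matrix.det_diagonal]
  have h2 : (∏ i, ε i) * (∏ i, ε i) = 1 := by
    rw [← Finset.prod_mul_distrib]
    exact Finset.prod_eq_one fun i _ => hε i
  linear_combination M.det * h2

private theorem det_eq (C : ℕ) (A : F) (i : Fin 2) :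
    (letW C A (i, false)).det = (letW C A (i, true)).det := by
  classical
  rcases (show i = 0 ∨ i = 1 by omega) with rfl | rfl
  · refine det_conj _ _ (Equiv.prodCongr Fin.revPerm (Equiv.refl _)) (fun _ => 1)
      (fun _ => one_mul 1) ?_
    rintro ⟨j', s'⟩ ⟨j, s⟩
    rw [one_mul, mul_one]
    simp only [letW, Matrix.of_apply, lsym, if_true, Equiv.prodCongr_apply, Prod.map_apply,
      Fin.revPerm_apply, Equiv.refl_apply]
    have h1 : (2 * ((Fin.rev j : Fin (C + 1)) : ℤ) - C) = -(2 * (j : ℤ) - C) := by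
      rw [Fin.val_rev]
      have := j.2
      omega
    have h2 : (((Fin.rev j' : Fin (C + 1)) : ℤ) - ((Fin.rev j : Fin (C + 1)) : ℤ) = 0) ↔
        ((j' : ℤ) - (j : ℤ) = 0) := by
      rw [Fin.val_rev, Fin.val_rev]
      have := j.2
      have := j'.2
      omega
    rw [h1, zpow_neg]
    by_cases h3 : s' = s ∧ (j' : ℤ) - (j : ℤ) = 0
    · have h4 : s' = s ∧ (((Fin.rev j' : Fin (C + 1)) : ℤ) -
          ((Fin.rev j : Fin (C + 1)) : ℤ) = 0) := ⟨h3.1, h2.2 h3.2⟩
      rw [if_pos h3, if_pos h4]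
      simp
    · rw [if_neg h3, if_neg fun h => h3 ⟨h.1, h2.1 h.2⟩]
  · have hfl : Function.Involutive (fun p : Win C => ((p.1, fl p.2) : Win C)) := by
      intro p
      change (p.1, fl (fl p.2)) = p
      rw [fl_fl]
    refine det_conj _ _ (Function.Involutive.toPerm _ hfl) (fun p => (-1) ^ (p.1 : ℕ)) ?_ ?_
    · intro p
      rw [← pow_add]
      exact Even.neg_one_pow ⟨_, rfl⟩
    rintro ⟨j', s'⟩ ⟨j, s⟩
    have h0 : ¬ ((1 : Fin 2) = 0) := by decide
    have hne : fl s' ≠ fl s ↔ s' ≠ s := by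
      constructor
      · intro h h'
        exact h (by rw [h'])
      · intro h h'
        apply h
        have := congrArg fl h'
        rwa [fl_fl, fl_fl] at this
    have hd : dir true (fl s) = dir false s := by
      fin_cases s <;> simp [dir, fl]
    have hq : Function.Involutive.toPerm _ hfl (j', s') = (j', fl s') := rfl
    have hp : Function.Involutive.toPerm _ hfl (j, s) = (j, fl s) := rfl
    rw [hq, hp]
    simp only [letW, Matrix.of_apply, lsym]
    rw [if_neg h0, if_neg h0]
    by_cases h1 : s' ≠ s ∧ (j' : ℤ) - (j : ℤ) = 0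
    · rw [if_pos h1, if_pos ⟨hne.2 h1.1, h1.2⟩, hd]
      have h2 : (j' : ℕ) = j := by
        have := h1.2
        omega
      have h3 : ((-1 : F) ^ (j : ℕ)) * (-1) ^ (j : ℕ) = 1 := by
        rw [← pow_add]
        exact Even.neg_one_pow ⟨_, rfl⟩
      rw [h2]
      linear_combination (-flipc (A ^ (2 * (j : ℤ) - C)) A (A ^ C) (dir false s)) * h3
    · have h1' : ¬ (fl s' ≠ fl s ∧ (j' : ℤ) - (j : ℤ) = 0) := fun h => h1 ⟨hne.1 h.1, h.2⟩
      rw [if_neg h1, if_neg h1']
      have hne' : fl s' = fl s ↔ s' = s := not_iff_not.1 hne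
      by_cases h2 : s' = s ∧ (j' : ℤ) - (j : ℤ) = dir false s
      · have h2' : fl s' = fl s ∧ (j' : ℤ) - (j : ℤ) = dir true (fl s) :=
          ⟨hne'.2 h2.1, by rw [hd]; exact h2.2⟩
        rw [if_pos h2, if_pos h2', hd]
        have h3 : ((-1 : F) ^ (j' : ℕ)) * (-1) ^ (j : ℕ) = -1 := by
          rw [← pow_add]
          apply Odd.neg_one_pow
          rcases dir_pm false s with h4 | h4
          · refine ⟨j, ?_⟩
            have := h2.2
            omega
          · refine ⟨j', ?_⟩
            have := h2.2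
            omega
        simp only [if_true, Bool.false_eq_true, if_false]
        linear_combination (-shiftc (A ^ (2 * (j : ℤ) - C)) A (A ^ C) (dir false s)) * h3
      · have h2' : ¬ (fl s' = fl s ∧ (j' : ℤ) - (j : ℤ) = dir true (fl s)) := fun h =>
          h2 ⟨hne'.1 h.1, by rw [← hd]; exact h.2⟩
        rw [if_neg h2, if_neg h2', mul_zero, zero_mul]

private theorem wordW_cons {K : Type*} [Field K] (C : ℕ) (B : K) (l : Fin 2 × Bool)
    (w : List (Fin 2 × Bool)) : wordW C B (l :: w) = letW C B l * wordW C B w := by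
  simp [wordW]

theorem det_wordW {F : Type*} [Field F] {C : ℕ} {A : F} (hA : Good C A)
    (w : List (Fin 2 × Bool)) : (wordW C A w).det ^ 2 = 1 := by
  have h1 : ∀ l : Fin 2 × Bool, (letW C A l).det ^ 2 = 1 := by
    rintro ⟨i, b⟩
    have h2 : (letW C A (i, true)).det * (letW C A (i, false)).det = 1 := by
      have h0 := letW_inv hA i true
      rw [Bool.not_true] at h0
      rw [← Matrix.det_mul, h0, Matrix.det_one]
    rw [det_eq] at h2
    cases b
    · rw [det_eq, sq]
      exact h2
    · rw [sq]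
      exact h2
  induction w with
  | nil => simp [wordW]
  | cons l w ih =>
    rw [wordW_cons, Matrix.det_mul, mul_pow, h1, ih, one_mul]

theorem wordW_pw {F : Type*} [Field F] (C : ℕ) (A : F) (w : List (Fin 2 × Bool)) (n : ℕ) :
    wordW C A (pw w n) = wordW C A w ^ n := by
  induction n with
  | zero => simp [wordW, pw]
  | succ n ih =>
    have h1 : pw w (n + 1) = w ++ pw w n := by
      simp [pw, List.replicate_succ]
    have h2 : wordW C A (w ++ pw w n) = wordW C A w * wordW C A (pw w n) := by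
      simp [wordW]
    rw [h1, h2, ih, pow_succ']

theorem wordW_map {F G : Type*} [Field F] [Field G] (f : F →+* G) (C : ℕ) (A : F)
    (w : List (Fin 2 × Bool)) : (wordW C A w).map f = wordW C (f A) w := by
  have hl : ∀ l, (letW C A l).map f = letW C (f A) l := by
    intro l
    ext q p
    simp only [Matrix.map_apply, letW, Matrix.of_apply, lsym, flipc, shiftc, den]
    split_ifs <;> simp
  induction w with
  | nil =>
    simp only [wordW, List.map_nil, List.prod_nil]
    exact Matrix.map_one f (map_zero f) (map_one f)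
  | cons l w ih =>
    rw [wordW_cons, wordW_cons, Matrix.map_mul, hl, ih]

private theorem one_X (C : ℕ) (b : Bool) : letW C (1 : ℂ) (0, b) =
    Matrix.diagonal fun p : Win C => if p.2 = 0 then (1 : ℂ) else -1 := by
  classical
  ext q p
  by_cases h : q = p
  · subst h
    rw [Matrix.diagonal_apply_eq]
    simp only [letW, Matrix.of_apply, lsym, sub_self, if_true, and_self, one_zpow, inv_one]
    cases b <;> simp
  · rw [Matrix.diagonal_apply_ne _ h]
    simp only [letW, Matrix.of_apply, lsym, if_true]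
    rw [if_neg]
    rintro ⟨h2, h3⟩
    apply h
    refine Prod.ext (Fin.ext ?_) h2
    omega

private theorem one_Y (C : ℕ) (b : Bool) (f : Win C → ℂ) (j : Fin (C + 1)) (s : Fin 2) :
    (letW C (1 : ℂ) (1, b)).mulVec f (j, s) = f (j, fl s) := by
  classical
  rw [mulVec_one]
  have h1 : ∀ d : ℤ, flipc (1 : ℂ) 1 1 d = 1 := by
    intro d
    simp only [flipc, den, one_zpow, mul_one, inv_one]
    norm_num
  have h2 : ∀ d : ℤ, shiftc (1 : ℂ) 1 1 d = 0 := by
    intro d
    simp [shiftc]
  simp only [one_zpow, one_pow, h1, h2, mul_zero, zero_mul, one_mul]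
  split_ifs <;> simp

theorem wordW_one (C : ℕ) (w : List (Fin 2 × Bool)) : wordW C (1 : ℂ) (pw w 4) = 1 := by
  classical
  rw [wordW_pw]
  set X : Matrix (Win C) (Win C) ℂ := letW C (1 : ℂ) (0, true) with hX
  set Y : Matrix (Win C) (Win C) ℂ := letW C (1 : ℂ) (1, true) with hY
  have hYv : ∀ (f : Win C → ℂ) j s, Y.mulVec f (j, s) = f (j, fl s) := one_Y C true
  have hXv : ∀ (f : Win C → ℂ) j s, X.mulVec f (j, s) = (if s = 0 then (1 : ℂ) else -1) *
      f (j, s) := by
    intro f j s
    rw [hX, one_X, Matrix.mulVec_diagonal]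
  have hl0 : ∀ b, letW C (1 : ℂ) (0, b) = X := fun b => by rw [hX, one_X, one_X]
  have hl1 : ∀ b, letW C (1 : ℂ) (1, b) = Y := fun b => by
    apply Matrix.ext_of_mulVec_single
    intro p
    funext ⟨j, s⟩
    rw [one_Y, hYv]
  have hXX : X * X = 1 := by
    apply Matrix.ext_of_mulVec_single
    intro p
    funext ⟨j, s⟩
    rw [← Matrix.mulVec_mulVec, hXv, hXv, Matrix.one_mulVec]
    split_ifs <;> ring
  have hYY : Y * Y = 1 := by
    apply Matrix.ext_of_mulVec_single
    intro p
    funext ⟨j, s⟩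
    rw [← Matrix.mulVec_mulVec, hYv, hYv, Matrix.one_mulVec, fl_fl]
  have hYX : Y * X = -(X * Y) := by
    apply Matrix.ext_of_mulVec_single
    intro p
    funext ⟨j, s⟩
    rw [← Matrix.mulVec_mulVec, Matrix.neg_mulVec, Pi.neg_apply, ← Matrix.mulVec_mulVec, hYv,
      hXv, hXv, hYv]
    fin_cases s <;> simp [fl]
  have hXi : ∀ M, X * (X * M) = M := fun M => by rw [← mul_assoc, hXX, one_mul]
  have hYi : ∀ M, Y * (Y * M) = M := fun M => by rw [← mul_assoc, hYY, one_mul]
  have hYXi : ∀ M, Y * (X * M) = -(X * (Y * M)) := fun M => by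
    rw [← mul_assoc, hYX, neg_mul, mul_assoc]
  have key : ∀ w : List (Fin 2 × Bool), wordW C (1 : ℂ) w = 1 ∨ wordW C (1 : ℂ) w = -1 ∨
      wordW C (1 : ℂ) w = X ∨ wordW C (1 : ℂ) w = -X ∨ wordW C (1 : ℂ) w = Y ∨
      wordW C (1 : ℂ) w = -Y ∨ wordW C (1 : ℂ) w = X * Y ∨ wordW C (1 : ℂ) w = -(X * Y) := by
    intro w
    induction w with
    | nil => left; simp [wordW]
    | cons l w ih =>
      obtain ⟨i, b⟩ := l
      rw [wordW_cons]
      rcases (show i = 0 ∨ i = 1 by omega) with rfl | rfl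
      · rw [hl0]
        rcases ih with h | h | h | h | h | h | h | h <;> rw [h]
        · simp
        · simp
        · simp [hXX]
        · simp [hXX]
        · simp
        · simp
        · simp [hXi]
        · simp [hXi]
      · rw [hl1]
        rcases ih with h | h | h | h | h | h | h | h <;> rw [h]
        · simp
        · simp
        · simp [hYX]
        · simp [hYX]
        · simp [hYY]
        · simp [hYY]
        · simp [hYXi, hYY]
        · simp [hYXi, hYY]
  have hsq : wordW C (1 : ℂ) w * wordW C (1 : ℂ) w = 1 ∨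
      wordW C (1 : ℂ) w * wordW C (1 : ℂ) w = -1 := by
    rcases key w with h | h | h | h | h | h | h | h <;> rw [h]
    · simp
    · simp
    · simp [hXX]
    · simp [hXX]
    · simp [hYY]
    · simp [hYY]
    · right
      rw [mul_assoc, hYXi, hYY, mul_neg, mul_one, hXX]
    · right
      rw [neg_mul_neg, mul_assoc, hYXi, hYY, mul_neg, mul_one, hXX]
  have h4 : wordW C (1 : ℂ) w ^ 4 = (wordW C (1 : ℂ) w * wordW C (1 : ℂ) w) *
      (wordW C (1 : ℂ) w * wordW C (1 : ℂ) w) := by
    noncomm_ring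
  rw [h4]
  rcases hsq with h | h <;> rw [h] <;> simp

end Pool.Agent.AMG
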