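import Pool.Agent.AMG.DefsB

/-!
# AMG, module Near: the eigenvalues near `A = 1`
-/

open scoped BigOperators LaurentPolynomial Matrix Topology
open Polynomial Filter

namespace Pool.Agent.AMG

private lemma near_poly (g : ℂ[X]) (hg : g.eval 1 = 0) :
    ∃ M : ℝ, 0 ≤ M ∧ ∀ A : ℂ, ‖A - 1‖ ≤ 1 → ‖g.eval A‖ ≤ M * ‖A - 1‖ := by
  obtain ⟨q, hq⟩ := dvd_iff_isRoot.2 hg
  obtain ⟨M, hM⟩ := (isCompact_closedBall (1 : ℂ) 1).exists_bound_of_continuousOn
    (f := fun A => q.eval A) q.continuous.continuousOn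
  have hM0 : 0 ≤ M := (norm_nonneg _).trans (hM 1 (Metric.mem_closedBall_self zero_le_one))
  refine ⟨M, hM0, fun A hA => ?_⟩
  have h1 := hM A (by rwa [Metric.mem_closedBall, dist_eq_norm])
  rw [hq, eval_mul, eval_sub, eval_X, eval_C, norm_mul, mul_comm]
  exact mul_le_mul_of_nonneg_right h1 (norm_nonneg _)

theorem near_one {ι : Type} [Fintype ι] [DecidableEq ι] (U : ℂ → Matrix ι ι ℂ) (δ : ℤ[X]) (n : ℕ)
    (P : Matrix ι ι ℤ[X])
    (hP : ∀ A : ℂ, aeval A δ ≠ 0 → (aeval A δ) ^ n • U A = P.map (aeval A))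
    (hδ1 : aeval (1 : ℂ) δ ≠ 0) (h1 : U 1 = 1) :
    ∃ c > (0 : ℝ), ∃ ρ > (0 : ℝ), ∀ A : ℂ, ‖A - 1‖ < ρ → ∀ l : ℂ, (U A).charpoly.IsRoot l →
      ‖l - 1‖ ≤ c * ‖A - 1‖ := by
  -- the entries
  have hg : ∀ i j, ∃ M : ℝ, 0 ≤ M ∧ ∀ A : ℂ, ‖A - 1‖ ≤ 1 →
      ‖aeval A (P i j) - (aeval A δ) ^ n * (1 : Matrix ι ι ℂ) i j‖ ≤ M * ‖A - 1‖ := by
    intro i j
    have h2 := near_poly ((P i j).map (algebraMap ℤ ℂ)
      - (δ.map (algebraMap ℤ ℂ)) ^ n * C ((1 : Matrix ι ι ℂ) i j)) (by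
        have h3 := congrFun (congrFun (hP 1 hδ1) i) j
        rw [h1, Matrix.smul_apply, Matrix.map_apply, smul_eq_mul] at h3
        rw [eval_sub, eval_mul, eval_pow, eval_C, eval_map_algebraMap, eval_map_algebraMap, ← h3,
          sub_self])
    obtain ⟨M, hM0, hM⟩ := h2
    refine ⟨M, hM0, fun A hA => ?_⟩
    have h3 := hM A hA
    rwa [eval_sub, eval_mul, eval_pow, eval_C, eval_map_algebraMap, eval_map_algebraMap] at h3
  choose M hM0 hM using hg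
  -- the denominator
  have hcont : Continuous fun A : ℂ => ‖(aeval A δ) ^ n‖ := by
    have : (fun A : ℂ => ‖(aeval A δ) ^ n‖) = fun A : ℂ => ‖((δ.map (algebraMap ℤ ℂ)).eval A) ^ n‖ := by
      funext A
      rw [eval_map_algebraMap]
    rw [this]
    exact ((δ.map (algebraMap ℤ ℂ)).continuous.pow n).norm
  set η := ‖(aeval (1 : ℂ) δ) ^ n‖ / 2 with hη
  have hη0 : 0 < η := by
    rw [hη]
    have : 0 < ‖(aeval (1 : ℂ) δ) ^ n‖ := norm_pos_iff.2 (pow_ne_zero _ hδ1)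
    linarith
  have hev : ∀ᶠ A in 𝓝 (1 : ℂ), η < ‖(aeval A δ) ^ n‖ := by
    apply (hcont.tendsto 1).eventually_const_lt
    show η < ‖(aeval (1 : ℂ) δ) ^ n‖
    linarith
  have hcont2 : Continuous fun A : ℂ => aeval A δ := by
    have : (fun A : ℂ => aeval A δ) = fun A : ℂ => (δ.map (algebraMap ℤ ℂ)).eval A := by
      funext A
      rw [eval_map_algebraMap]
    rw [this]
    exact (δ.map (algebraMap ℤ ℂ)).continuous
  have hev2 : ∀ᶠ A in 𝓝 (1 : ℂ), aeval A δ ≠ 0 := hcont2.tendsto 1 |>.eventually_ne hδ1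
  obtain ⟨ρ, hρ, hball⟩ := Metric.eventually_nhds_iff.1 (hev.and hev2)
  set S := ∑ i, ∑ j, M i j with hS
  have hS0 : 0 ≤ S := Finset.sum_nonneg fun i _ => Finset.sum_nonneg fun j _ => hM0 i j
  refine ⟨S / η + 1, by positivity, min ρ 1, lt_min hρ one_pos, fun A hA l hl => ?_⟩
  obtain ⟨hA1, hA2⟩ := hball (by rw [dist_eq_norm]; exact hA.trans_le (min_le_left _ _))
  have hA3 : ‖A - 1‖ ≤ 1 := (hA.trans_le (min_le_right _ _)).le
  -- the entries of `U A - 1`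
  have hent : ∀ i j, ‖(U A - 1) i j‖ ≤ M i j * ‖A - 1‖ / η := by
    intro i j
    have h3 := congrFun (congrFun (hP A hA2) i) j
    rw [Matrix.smul_apply, Matrix.map_apply, smul_eq_mul] at h3
    have h4 := hM i j A hA3
    rw [← h3, ← mul_sub, norm_mul] at h4
    rw [le_div_iff₀ hη0, Matrix.sub_apply]
    calc ‖U A i j - (1 : Matrix ι ι ℂ) i j‖ * η
        ≤ ‖U A i j - (1 : Matrix ι ι ℂ) i j‖ * ‖(aeval A δ) ^ n‖ :=
          mul_le_mul_of_nonneg_left hA1.le (norm_nonneg _)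
      _ = ‖(aeval A δ) ^ n‖ * ‖U A i j - (1 : Matrix ι ι ℂ) i j‖ := mul_comm _ _
      _ ≤ _ := h4
  -- an eigenvector
  have hdet : (Matrix.scalar ι l - U A).det = 0 := by
    rw [← Matrix.eval_charpoly]; exact hl
  obtain ⟨v, hv0, hv⟩ := Matrix.exists_mulVec_eq_zero_iff.2 hdet
  have hne : Nonempty ι := by
    by_contra hc
    rw [not_nonempty_iff] at hc
    exact hv0 (Subsingleton.elim _ _)
  obtain ⟨i0, hi0⟩ := Finite.exists_max fun i => ‖v i‖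
  have hvi : 0 < ‖v i0‖ := by
    by_contra hc
    apply hv0
    funext i
    have h3 := hi0 i
    have h4 : ‖v i‖ ≤ 0 := h3.trans (not_lt.1 hc)
    exact norm_le_zero_iff.1 h4
  have heq : (l - 1) * v i0 = ∑ j, (U A - 1) i0 j * v j := by
    have h3 := congrFun hv i0
    rw [Matrix.sub_mulVec, Pi.sub_apply, Pi.zero_apply, sub_eq_zero] at h3
    have h4 : (Matrix.scalar ι l).mulVec v i0 = l * v i0 := by
      rw [Matrix.scalar_apply, Matrix.mulVec_diagonal]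
    rw [h4] at h3
    have h5 : ∑ j, (U A - 1) i0 j * v j = (U A - 1).mulVec v i0 := rfl
    rw [h5, Matrix.sub_mulVec, Pi.sub_apply, Matrix.one_mulVec, ← h3]
    ring
  have hle : ‖l - 1‖ * ‖v i0‖ ≤ (∑ j, ‖(U A - 1) i0 j‖) * ‖v i0‖ := by
    rw [← norm_mul, heq, Finset.sum_mul]
    refine (norm_sum_le _ _).trans (Finset.sum_le_sum fun j _ => ?_)
    rw [norm_mul]
    exact mul_le_mul_of_nonneg_left (hi0 j) (norm_nonneg _)
  have hle2 := le_of_mul_le_mul_right hle hvi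
  refine hle2.trans ?_
  have h6 : ∑ j, ‖(U A - 1) i0 j‖ ≤ ∑ j, M i0 j * ‖A - 1‖ / η :=
    Finset.sum_le_sum fun j _ => hent i0 j
  have h7 : ∑ j, M i0 j * ‖A - 1‖ / η = (∑ j, M i0 j) / η * ‖A - 1‖ := by
    rw [← Finset.sum_div, ← Finset.sum_mul]; ring
  have h8 : ∑ j, M i0 j ≤ S :=
    Finset.single_le_sum (f := fun i => ∑ j, M i j)
      (fun i _ => Finset.sum_nonneg fun j _ => hM0 i j) (Finset.mem_univ i0)
  have h9 : (∑ j, M i0 j) / η * ‖A - 1‖ ≤ (S / η + 1) * ‖A - 1‖ := by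
    apply mul_le_mul_of_nonneg_right _ (norm_nonneg _)
    have := div_le_div_of_nonneg_right h8 hη0.le
    linarith
  linarith

end Pool.Agent.AMG
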