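import Pool.Agent.AMG.DefsB

/-!
# The entries of the window representation are rational functions of `A`
-/

open scoped BigOperators Polynomial
open Polynomial

namespace Pool.Agent.AMG

/-- the common denominator -/
private noncomputable def del (C : ℕ) : ℤ[X] :=
  X * ∏ n ∈ Finset.range (C + 2), (X ^ (2 * n) + 1)

private theorem del_eval (C : ℕ) (A : ℂ) :
    aeval A (del C) = A * ∏ n ∈ Finset.range (C + 2), (A ^ (2 * n) + 1) := by
  rw [del, map_mul, aeval_X, map_prod]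
  simp only [map_add, map_pow, aeval_X, map_one]

private theorem br_eq {A : ℂ} (hA : A ≠ 0) (n : ℤ) :
    A ^ n + A ^ (-n) = (A ^ n.natAbs)⁻¹ * (A ^ (2 * n.natAbs) + 1) := by
  have h1 : A ^ n.natAbs ≠ 0 := pow_ne_zero _ hA
  have h2 : ∀ m : ℕ, A ^ m ≠ 0 → A ^ m + (A ^ m)⁻¹ = (A ^ m)⁻¹ * (A ^ (2 * m) + 1) := by
    intro m hm
    rw [two_mul, pow_add, mul_add, ← mul_assoc, inv_mul_cancel₀ hm, one_mul, mul_one]
  rcases Int.natAbs_eq n with h | h
  · have h3 : A ^ n = A ^ n.natAbs := by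
      conv_lhs => rw [h]
      rw [zpow_natCast]
    rw [zpow_neg, h3]
    exact h2 _ h1
  · have h3 : A ^ (-n) = A ^ n.natAbs := by
      conv_lhs => rw [h]
      rw [neg_neg, zpow_natCast]
    have h4 : A ^ n = (A ^ n.natAbs)⁻¹ := by
      rw [← h3, zpow_neg, inv_inv]
    rw [h3, h4, add_comm]
    exact h2 _ h1

private theorem del_good (C : ℕ) (A : ℂ) : aeval A (del C) ≠ 0 ↔ Good C A := by
  rw [del_eval, mul_ne_zero_iff, Finset.prod_ne_zero_iff]
  constructor
  · rintro ⟨h1, h2⟩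
    refine ⟨h1, fun n hn => ?_⟩
    rw [br_eq h1]
    refine mul_ne_zero (inv_ne_zero (pow_ne_zero _ h1)) (h2 _ ?_)
    rw [Finset.mem_range]
    rw [Int.abs_eq_natAbs] at hn
    omega
  · rintro ⟨h1, h2⟩
    refine ⟨h1, fun n hn => ?_⟩
    rw [Finset.mem_range] at hn
    have h3 := h2 (n : ℤ) (by rw [Int.abs_eq_natAbs]; omega)
    rw [br_eq h1, Int.natAbs_natCast] at h3
    exact right_ne_zero_of_mul h3

/-- rational functions with denominator a power of `del` -/
private def Rt (C : ℕ) (f : ℂ → ℂ) : Prop :=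
  ∃ (n : ℕ) (P : ℤ[X]), ∀ A : ℂ, Good C A → (aeval A (del C)) ^ n * f A = aeval A P

private theorem Rt.add {C : ℕ} {f g : ℂ → ℂ} (hf : Rt C f) (hg : Rt C g) :
    Rt C fun A => f A + g A := by
  obtain ⟨n, P, hP⟩ := hf
  obtain ⟨m, Q, hQ⟩ := hg
  refine ⟨n + m, del C ^ m * P + del C ^ n * Q, fun A hA => ?_⟩
  rw [map_add, map_mul, map_mul, map_pow, map_pow, ← hP A hA, ← hQ A hA]
  ring

private theorem Rt.mul {C : ℕ} {f g : ℂ → ℂ} (hf : Rt C f) (hg : Rt C g) :
    Rt C fun A => f A * g A := by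
  obtain ⟨n, P, hP⟩ := hf
  obtain ⟨m, Q, hQ⟩ := hg
  refine ⟨n + m, P * Q, fun A hA => ?_⟩
  rw [map_mul, ← hP A hA, ← hQ A hA]
  ring

private theorem Rt.int (C : ℕ) (z : ℤ) : Rt C fun _ => (z : ℂ) :=
  ⟨0, Polynomial.C z, fun A _ => by simp⟩

private theorem Rt.zero (C : ℕ) : Rt C fun _ => 0 := by
  have h := Rt.int C 0
  simpa using h

private theorem Rt.one (C : ℕ) : Rt C fun _ => 1 := by
  have h := Rt.int C 1
  simpa using h

private theorem Rt.neg {C : ℕ} {f : ℂ → ℂ} (hf : Rt C f) : Rt C fun A => -f A := by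
  obtain ⟨n, P, hP⟩ := hf
  refine ⟨n, -P, fun A hA => ?_⟩
  rw [map_neg, ← hP A hA]
  ring

private theorem Rt.congr {C : ℕ} {f g : ℂ → ℂ} (hf : Rt C f)
    (h : ∀ A, Good C A → g A = f A) : Rt C g := by
  obtain ⟨n, P, hP⟩ := hf
  exact ⟨n, P, fun A hA => by rw [h A hA]; exact hP A hA⟩

private theorem Rt.sub {C : ℕ} {f g : ℂ → ℂ} (hf : Rt C f) (hg : Rt C g) :
    Rt C fun A => f A - g A :=
  (hf.add hg.neg).congr fun _ _ => sub_eq_add_neg _ _

private theorem Rt.sum {C : ℕ} {ι : Type} (s : Finset ι) {f : ι → ℂ → ℂ}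
    (hf : ∀ i, Rt C (f i)) : Rt C fun A => ∑ i ∈ s, f i A := by
  classical
  induction s using Finset.induction_on with
  | empty =>
    refine (Rt.zero C).congr fun A _ => ?_
    rw [Finset.sum_empty]
  | insert a s ha ih =>
    refine ((hf a).add ih).congr fun A _ => ?_
    rw [Finset.sum_insert ha]

private theorem Rt.X (C : ℕ) : Rt C fun A => A :=
  ⟨0, Polynomial.X, fun A _ => by simp⟩

private theorem Rt.pow {C : ℕ} {f : ℂ → ℂ} (hf : Rt C f) (n : ℕ) : Rt C fun A => f A ^ n := by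
  induction n with
  | zero => exact (Rt.one C).congr fun A _ => pow_zero _
  | succ n ih => exact (ih.mul hf).congr fun A _ => pow_succ _ _

private theorem Rt.inv (C : ℕ) : Rt C fun A => A⁻¹ := by
  refine ⟨1, ∏ n ∈ Finset.range (C + 2), (Polynomial.X ^ (2 * n) + 1), fun A hA => ?_⟩
  rw [pow_one, del_eval, map_prod]
  simp only [map_add, map_pow, aeval_X, map_one]
  rw [mul_assoc, mul_comm, mul_assoc, inv_mul_cancel₀ hA.1, mul_one]

private theorem Rt.zpow (C : ℕ) (n : ℤ) : Rt C fun A => A ^ n := by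
  rcases Int.natAbs_eq n with h | h
  · refine ((Rt.X C).pow n.natAbs).congr fun A _ => ?_
    conv_lhs => rw [h]
    rw [zpow_natCast]
  · refine ((Rt.inv C).pow n.natAbs).congr fun A _ => ?_
    conv_lhs => rw [h]
    rw [zpow_neg, zpow_natCast, inv_pow]

private theorem Rt.den (C : ℕ) {n : ℤ} (hn : |n| ≤ C + 1) :
    Rt C fun A => (A ^ n + A ^ (-n))⁻¹ := by
  have hm : n.natAbs ∈ Finset.range (C + 2) := by
    rw [Finset.mem_range]
    rw [Int.abs_eq_natAbs] at hn
    omega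
  refine ⟨1, Polynomial.X ^ n.natAbs * (Polynomial.X *
    ∏ k ∈ (Finset.range (C + 2)).erase n.natAbs, (Polynomial.X ^ (2 * k) + 1)), fun A hA => ?_⟩
  have h1 : A ^ (2 * n.natAbs) + 1 ≠ 0 := by
    have h2 := hA.2 n hn
    rw [br_eq hA.1] at h2
    exact right_ne_zero_of_mul h2
  show aeval A (del C) ^ 1 * (A ^ n + A ^ (-n))⁻¹ = _
  rw [pow_one, del_eval, map_mul, map_mul, map_prod, map_pow, aeval_X, br_eq hA.1,
    ← Finset.mul_prod_erase _ _ hm, mul_inv, inv_inv]
  simp only [map_add, map_pow, aeval_X, map_one]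
  have h3 : (A ^ (2 * n.natAbs) + 1) * (A ^ (2 * n.natAbs) + 1)⁻¹ = 1 := mul_inv_cancel₀ h1
  linear_combination (A * (∏ k ∈ (Finset.range (C + 2)).erase n.natAbs, (A ^ (2 * k) + 1)) *
    A ^ n.natAbs) * h3

/-- the entries of the letters -/
private theorem rt_letter (C : ℕ) (l : Fin 2 × Bool) (q p : Win C) :
    Rt C fun A => letW C A l q p := by
  -- exponents
  obtain ⟨k, hk⟩ : ∃ k : ℤ, k = 2 * (p.1 : ℤ) - C := ⟨_, rfl⟩
  have hkC : |k| ≤ C := by
    have := p.1.2
    rw [abs_le]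
    constructor <;> omega
  have hden : ∀ d : ℤ, |d| ≤ 1 → Rt C fun A : ℂ => (den (A ^ k) A d)⁻¹ := by
    intro d hd
    have h1 : |k + d| ≤ C + 1 := (abs_add_le k d).trans (add_le_add hkC hd)
    refine (Rt.den C h1).congr fun A hA => ?_
    rw [den, ← zpow_add₀ hA.1, ← zpow_neg]
  have hdir : ∀ (b : Bool) (s : Fin 2), |dir b s| ≤ 1 := by
    intro b s
    unfold dir
    split_ifs <;> norm_num
  have hx : Rt C fun A : ℂ => A ^ k := Rt.zpow C k
  have hx' : Rt C fun A : ℂ => (A ^ k)⁻¹ := (Rt.zpow C (-k)).congr fun A _ => (zpow_neg _ _).symm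
  have hflip : ∀ d : ℤ, |d| ≤ 1 → Rt C fun A : ℂ => flipc (A ^ k) A (A ^ C) d := by
    intro d hd
    refine (((Rt.zpow C (C + 1)).add (Rt.zpow C (-(C + 1)))).mul (hden d hd)).congr
      fun A hA => ?_
    have h1 : A * A ^ C = A ^ ((C : ℤ) + 1) := by
      rw [zpow_add₀ hA.1, zpow_one, zpow_natCast, mul_comm]
    rw [flipc, h1, zpow_neg, div_eq_mul_inv]
  have hshift : ∀ d : ℤ, |d| ≤ 1 → Rt C fun A : ℂ => shiftc (A ^ k) A (A ^ C) d := by
    intro d hd
    refine (((Rt.zpow C (C + k * (-d))).sub (Rt.zpow C (-C + k * d))).mul (hden d hd)).congr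
      fun A hA => ?_
    rw [shiftc, div_eq_mul_inv, zpow_add₀ hA.1, zpow_add₀ hA.1, zpow_natCast, zpow_neg A (C : ℤ),
      zpow_natCast, zpow_mul, zpow_mul]
  have key : ∀ (s s' : Fin 2) (i : ℤ), Rt C fun A : ℂ => lsym l s s' i (A ^ k) A (A ^ C) := by
    intro s s' i
    unfold lsym
    split_ifs
    · exact hx'
    · exact hx
    · exact hx.neg
    · exact hx'.neg
    · exact Rt.zero C
    · exact hflip _ (hdir _ _)
    · exact (hshift _ (hdir _ _)).congr fun A _ => one_mul _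
    · exact (hshift _ (hdir _ _)).neg.congr fun A _ => neg_one_mul _
    · exact Rt.zero C
  refine (key p.2 q.2 ((q.1 : ℤ) - (p.1 : ℤ))).congr fun A _ => ?_
  rw [hk]
  rfl

private theorem rt_word (C : ℕ) (w : List (Fin 2 × Bool)) :
    ∀ q p : Win C, Rt C fun A => wordW C A w q p := by
  induction w with
  | nil =>
    intro q p
    by_cases h : q = p
    · refine (Rt.one C).congr fun A _ => ?_
      show (1 : Matrix (Win C) (Win C) ℂ) q p = 1
      rw [h, Matrix.one_apply_eq]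
    · refine (Rt.zero C).congr fun A _ => ?_
      show (1 : Matrix (Win C) (Win C) ℂ) q p = 0
      rw [Matrix.one_apply_ne h]
  | cons l w ih =>
    intro q p
    refine (Rt.sum Finset.univ fun k : Win C => (rt_letter C l q k).mul (ih k p)).congr
      fun A _ => ?_
    show (letW C A l * wordW C A w) q p = _
    rw [Matrix.mul_apply]

/-- [M3] -/
theorem polyW (C : ℕ) (w : List (Fin 2 × Bool)) :
    ∃ (δ : ℤ[X]) (n : ℕ) (P : Matrix (Win C) (Win C) ℤ[X]),
      (∀ A : ℂ, aeval A δ ≠ 0 ↔ Good C A) ∧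
      ∀ A : ℂ, Good C A → (aeval A δ) ^ n • wordW C A w = P.map (aeval A) := by
  choose n P hP using rt_word C w
  obtain ⟨N, hN⟩ : ∃ N : ℕ, ∀ q p, n q p ≤ N :=
    ⟨∑ q, ∑ p, n q p, fun q p =>
      (Finset.single_le_sum (f := fun p => n q p) (fun _ _ => Nat.zero_le _)
        (Finset.mem_univ p)).trans
      (Finset.single_le_sum (f := fun q => ∑ p, n q p) (fun _ _ => Nat.zero_le _)
        (Finset.mem_univ q))⟩
  refine ⟨del C, N, Matrix.of fun q p => del C ^ (N - n q p) * P q p, del_good C, fun A hA => ?_⟩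
  ext q p
  rw [Matrix.smul_apply, Matrix.map_apply, Matrix.of_apply, map_mul, map_pow, ← hP q p A hA,
    smul_eq_mul, ← mul_assoc, ← pow_add, Nat.sub_add_cancel (hN q p)]

end Pool.Agent.AMG
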