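import Pool.Agent.AMG.T2
import Pool.Agent.AMG.PolyW
import Pool.Agent.AMG.Inv
import Pool.Agent.AMG.Cmp

/-!
# AMG, module Star: the relation between the traces
-/

open scoped BigOperators LaurentPolynomial Matrix Topology
open Polynomial Filter

set_option linter.unusedVariables false

namespace Pool.Agent.AMG

private theorem star_good (C : ℕ) (t : ℝ) : Good C (Complex.exp t) := by
  refine ⟨Complex.exp_ne_zero _, fun n _ => ?_⟩
  rw [← Complex.exp_int_mul, ← Complex.exp_int_mul]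
  have h1 : Complex.exp (n * t) + Complex.exp ((-n : ℤ) * t) =
      ((Real.exp (n * t) + Real.exp (-(n * t)) : ℝ) : ℂ) := by
    push_cast
    congr 2
    ring
  rw [h1]
  have h2 := Real.exp_pos (n * t)
  have h3 := Real.exp_pos (-(n * t))
  exact_mod_cast (add_pos h2 h3).ne'

theorem star (C : ℕ) (w : List (Fin 2 × Bool))
    (h : ∀ r0 : ℕ, ∃ r ≥ r0, ∃ A : ℂ, IsPrimitiveRoot A (4 * r) ∧
      ∃ n > 0, ∃ z : ℂ, wordW C A w ^ n = z • 1) (m : ℕ) (hm : 0 < m) (t : ℝ) :
    (wordW C (Real.exp t) (pw w (4 * m))).trace = (wordW C (Real.exp (m * t)) (pw w 4)).trace := by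
  obtain ⟨δ, n, P, hδ, hP⟩ := polyW C (pw w 4)
  have hgood1 : Good C (1 : ℂ) := by
    have := star_good C 0
    rwa [Complex.ofReal_zero, Complex.exp_zero] at this
  obtain ⟨F, hF, K, c, hT⟩ := T2 (fun A : ℂ => wordW C A (pw w 4)) δ n P
    (fun A hA => hP A ((hδ A).1 hA)) ((hδ 1).2 hgood1) (wordW_one C w)
    (fun A hA => det_wordW ((hδ A).1 hA) _) (by
      intro N0
      obtain ⟨r, hr, A, hA, k, hk, z, hz⟩ := h (max N0 (C + 2))
      have h1 : N0 ≤ r := le_trans (le_max_left _ _) hr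
      have h2 : C + 2 ≤ r := le_trans (le_max_right _ _) hr
      refine ⟨4 * r, by omega, A, hA, (hδ A).2 (good_of_prim h2 hA), k, hk, z ^ 4, ?_⟩
      show wordW C A (pw w 4) ^ k = z ^ 4 • 1
      rw [wordW_pw, ← pow_mul, mul_comm, pow_mul, hz, _root_.smul_pow, one_pow])
  have hF0 : (F : ℂ) ≠ 0 := by exact_mod_cast (Nat.pos_iff_ne_zero.1 hF)
  have hB : ∀ s : ℝ, Complex.exp (s / F) ^ F = Complex.exp s := by
    intro s
    rw [← Complex.exp_nat_mul]
    congr 1
    field_simp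
  have hm1 := hT m (Complex.exp (t / F)) (Complex.exp_ne_zero _) (by
    rw [hB t]
    exact (hδ _).2 (star_good C t))
  have hm2 := hT 1 (Complex.exp (((m * t : ℝ) : ℂ) / F)) (Complex.exp_ne_zero _) (by
    rw [hB (m * t)]
    exact (hδ _).2 (star_good C (m * t)))
  rw [hB t] at hm1
  rw [hB (m * t), pow_one] at hm2
  have hsum : ∀ k : ℤ, Complex.exp (t / F) ^ ((m : ℤ) * k) =
      Complex.exp (((m * t : ℝ) : ℂ) / F) ^ (((1 : ℕ) : ℤ) * k) := by
    intro k
    rw [← Complex.exp_int_mul, ← Complex.exp_int_mul]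
    congr 1
    push_cast
    ring
  have heq : (wordW C (Complex.exp t) (pw w 4) ^ m).trace =
      (wordW C (Complex.exp ((m * t : ℝ) : ℂ)) (pw w 4)).trace := by
    rw [hm1, hm2]
    exact Finset.sum_congr rfl fun k _ => by rw [hsum k]
  have hpw : wordW C (Complex.exp t) (pw w (4 * m)) = wordW C (Complex.exp t) (pw w 4) ^ m := by
    rw [wordW_pw, wordW_pw, ← pow_mul]
  rw [← hpw] at heq
  have hmap : ∀ (s : ℝ) (v : List (Fin 2 × Bool)), (wordW C (Complex.exp s) v).trace =
      (((wordW C (Real.exp s) v).trace : ℝ) : ℂ) := by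
    intro s v
    have h1 := wordW_map Complex.ofRealHom C (Real.exp s) v
    have h2 : Complex.ofRealHom (Real.exp s) = Complex.exp s := Complex.ofReal_exp s
    rw [h2] at h1
    rw [← h1]
    exact (AddMonoidHom.map_trace (Complex.ofRealHom : ℝ →+ ℂ) _).symm
  rw [hmap, hmap] at heq
  exact_mod_cast heq

end Pool.Agent.AMG
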