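import Pool.Agent.AMG.DefsB

/-!
# AMG, module Trans: Galois transfer of finite projective order
-/

open scoped BigOperators LaurentPolynomial Matrix Topology
open Polynomial Filter

namespace Pool.Agent.AMG

private lemma trans_gal {N : ℕ} (hN : 0 < N) {A A' : ℂ} (hA : IsPrimitiveRoot A N)
    (hA' : IsPrimitiveRoot A' N) {p : ℤ[X]} (h : aeval A p = 0) : aeval A' p = 0 := by
  have h3 : minpoly ℤ A ∣ p := minpoly.isIntegrallyClosed_dvd (hA.isIntegral hN) h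
  have h4 : minpoly ℤ A = minpoly ℤ A' := by
    rw [← cyclotomic_eq_minpoly hA hN, ← cyclotomic_eq_minpoly hA' hN]
  obtain ⟨Q, hQ⟩ := h3
  rw [hQ, h4, map_mul, minpoly.aeval, zero_mul]

private lemma trans_pow {ι : Type} [Fintype ι] [DecidableEq ι] (P : Matrix ι ι ℤ[X]) (B : ℂ)
    (k : ℕ) : (P.map (aeval B)) ^ k = (P ^ k).map (aeval B : ℤ[X] →ₐ[ℤ] ℂ) := by
  have h : ((aeval B : ℤ[X] →ₐ[ℤ] ℂ).toRingHom.mapMatrix P) ^ k
      = (aeval B : ℤ[X] →ₐ[ℤ] ℂ).toRingHom.mapMatrix (P ^ k) := (map_pow _ P k).symm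
  exact h

theorem transfer {ι : Type} [Fintype ι] [DecidableEq ι] (U : ℂ → Matrix ι ι ℂ) (δ : ℤ[X]) (n : ℕ)
    (P : Matrix ι ι ℤ[X])
    (hP : ∀ A : ℂ, aeval A δ ≠ 0 → (aeval A δ) ^ n • U A = P.map (aeval A))
    {N : ℕ} (hN : 0 < N) {A A' : ℂ} (hA : IsPrimitiveRoot A N) (hA' : IsPrimitiveRoot A' N)
    (hδ : aeval A δ ≠ 0) :
    aeval A' δ ≠ 0 ∧ ∀ (k : ℕ) (z : ℂ), U A ^ k = z • 1 → ∃ z' : ℂ, U A' ^ k = z' • 1 := by
  have hδ' : aeval A' δ ≠ 0 := fun h => hδ (trans_gal hN hA' hA h)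
  refine ⟨hδ', fun k z hz => ?_⟩
  have key : ∀ B : ℂ, aeval B δ ≠ 0 →
      ((aeval B δ) ^ n) ^ k • U B ^ k = (P ^ k).map (aeval B : ℤ[X] →ₐ[ℤ] ℂ) := by
    intro B hB
    rw [← trans_pow, ← hP B hB, _root_.smul_pow]
  have hA1 := key A hδ
  rw [hz, smul_smul] at hA1
  have hoff : ∀ i j, i ≠ j → aeval A' ((P ^ k) i j) = 0 := by
    intro i j hij
    apply trans_gal hN hA hA'
    have h1 := congrFun (congrFun hA1 i) j
    rw [Matrix.smul_apply, Matrix.one_apply_ne hij, smul_zero] at h1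
    exact h1.symm
  have hdiag : ∀ i j, aeval A' ((P ^ k) i i) = aeval A' ((P ^ k) j j) := by
    intro i j
    rw [← sub_eq_zero, ← map_sub]
    apply trans_gal hN hA hA'
    have h1 := congrFun (congrFun hA1 i) i
    have h2 := congrFun (congrFun hA1 j) j
    rw [Matrix.smul_apply, Matrix.one_apply_eq, Matrix.map_apply] at h1 h2
    rw [map_sub, ← h1, ← h2, sub_self]
  rcases isEmpty_or_nonempty ι with he | ⟨⟨i0⟩⟩
  · refine ⟨0, ?_⟩
    ext i
    exact (he.false i).elim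
  · have hc : ((aeval A' δ) ^ n) ^ k ≠ 0 := pow_ne_zero _ (pow_ne_zero _ hδ')
    refine ⟨(((aeval A' δ) ^ n) ^ k)⁻¹ * aeval A' ((P ^ k) i0 i0), ?_⟩
    have h1 := key A' hδ'
    have h2 : (P ^ k).map (aeval A' : ℤ[X] →ₐ[ℤ] ℂ)
        = (aeval A' ((P ^ k) i0 i0)) • (1 : Matrix ι ι ℂ) := by
      ext i j
      rw [Matrix.map_apply, Matrix.smul_apply]
      by_cases hij : i = j
      · subst hij
        rw [Matrix.one_apply_eq, smul_eq_mul, mul_one]
        exact hdiag i i0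
      · rw [Matrix.one_apply_ne hij, smul_zero]
        exact hoff i j hij
    rw [h2] at h1
    rw [mul_smul, ← h1, smul_smul, inv_mul_cancel₀ hc, one_smul]

end Pool.Agent.AMG
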