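import Pool.Agent.AMG.T2c
import Pool.Agent.AMG.Exp
import Pool.Agent.AMG.Trans
import Pool.Agent.AMG.Near

/-!
# AMG, module T2: finite projective order at infinitely many roots of unity
-/

open scoped BigOperators LaurentPolynomial Matrix Topology
open Polynomial Filter

namespace Pool.Agent.AMG

theorem T2 {ι : Type} [Fintype ι] [DecidableEq ι] (U : ℂ → Matrix ι ι ℂ) (δ : ℤ[X]) (n : ℕ)
    (P : Matrix ι ι ℤ[X])
    (hP : ∀ A : ℂ, aeval A δ ≠ 0 → (aeval A δ) ^ n • U A = P.map (aeval A))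
    (hδ1 : aeval (1 : ℂ) δ ≠ 0) (h1 : U 1 = 1)
    (hdet : ∀ A : ℂ, aeval A δ ≠ 0 → (U A).det ^ 2 = 1)
    (hfin : ∀ N0 : ℕ, ∃ N ≥ N0, ∃ A : ℂ, IsPrimitiveRoot A N ∧ aeval A δ ≠ 0 ∧
      ∃ n > 0, ∃ z : ℂ, U A ^ n = z • 1) :
    ∃ F > 0, ∃ (K : ℕ) (c : ℤ → ℕ), ∀ (m : ℕ) (B : ℂ), B ≠ 0 → aeval (B ^ F) δ ≠ 0 →
      (U (B ^ F) ^ m).trace = ∑ k ∈ Finset.Icc (-K : ℤ) K, (c k : ℂ) * B ^ ((m : ℤ) * k) :=
  T2_core U δ n P hP hdet hfin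
    (fun hN _ hA M hM _ hl hm => eig_exponent hN hA M hM hl hm)
    (fun hN _ _ hA hA' hδ => transfer U δ n P hP hN hA hA' hδ)
    (near_one U δ n P hP hδ1 h1)

end Pool.Agent.AMG
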