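import Pool.Agent.AMG.DefsB
import Pool.Agent.SAD.Tools

/-!
# AMG, module T2c: finite projective order at infinitely many roots of unity
-/

open scoped BigOperators LaurentPolynomial Matrix Topology
open Polynomial Filter

namespace Pool.Agent.AMG

private theorem T2_mem (A : ℂ) (p : ℤ[X]) :
    aeval A p ∈ IntermediateField.adjoin ℚ ({A} : Set ℂ) := by
  rw [aeval_eq_sum_range]
  refine sum_mem fun i _ => ?_
  rw [zsmul_eq_mul]
  refine mul_mem (intCast_mem _ _) (pow_mem ?_ i)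
  exact IntermediateField.subset_adjoin ℚ _ (Set.mem_singleton A)

private theorem T2_entries {ι : Type} (U : ℂ → Matrix ι ι ℂ) (δ : ℤ[X]) (n : ℕ)
    (P : Matrix ι ι ℤ[X])
    (hP : ∀ A : ℂ, aeval A δ ≠ 0 → (aeval A δ) ^ n • U A = P.map (aeval A)) {A : ℂ}
    (hA : aeval A δ ≠ 0) (i j : ι) :
    U A i j ∈ IntermediateField.adjoin ℚ ({A} : Set ℂ) := by
  have h1 := congrFun (congrFun (hP A hA) i) j
  rw [Matrix.smul_apply, Matrix.map_apply, smul_eq_mul] at h1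
  have h2 : (aeval A δ) ^ n ≠ 0 := pow_ne_zero n hA
  have h3 : U A i j = aeval A (P i j) / (aeval A δ) ^ n := by
    rw [eq_div_iff h2, mul_comm]
    exact h1
  rw [h3]
  exact div_mem (T2_mem A _) (pow_mem (T2_mem A _) n)

/-- eigenvalues of a matrix with a scalar power and determinant `± 1` are roots of unity -/
private theorem T2_fin {ι : Type} [Fintype ι] [DecidableEq ι] (M : Matrix ι ι ℂ)
    (hdet : M.det ^ 2 = 1) {n : ℕ} (hn : 0 < n) {z : ℂ} (hz : M ^ n = z • 1) {l : ℂ}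
    (hl : Module.End.HasEigenvalue (Matrix.toLin' M) l) : ∃ m, 0 < m ∧ l ^ m = 1 := by
  obtain ⟨v, hv⟩ := hl.exists_hasEigenvector
  have hv0 : v ≠ 0 := hv.2
  have hne : Nonempty ι := by
    by_contra h
    rw [not_nonempty_iff] at h
    exact hv0 (Subsingleton.elim _ _)
  have h1 : ∀ k : ℕ, (M ^ k).mulVec v = l ^ k • v := by
    intro k
    induction k with
    | zero => simp
    | succ k ih =>
      have h2 : M.mulVec v = l • v := by
        have := hv.apply_eq_smul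
        rwa [Matrix.toLin'_apply] at this
      rw [pow_succ, ← Matrix.mulVec_mulVec, h2, Matrix.mulVec_smul, ih, smul_smul, pow_succ,
        mul_comm]
  have h3 : l ^ n = z := by
    have h4 := h1 n
    rw [hz, Matrix.smul_mulVec, Matrix.one_mulVec] at h4
    have h5 : (z - l ^ n) • v = 0 := by rw [sub_smul, h4, sub_self]
    rcases smul_eq_zero.1 h5 with h6 | h6
    · exact (sub_eq_zero.1 h6).symm
    · exact absurd h6 hv0
  have h7 : z ^ Fintype.card ι = M.det ^ n := by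
    rw [← Matrix.det_pow, hz, Matrix.det_smul, Matrix.det_one, mul_one]
  refine ⟨n * (Fintype.card ι * 2), Nat.mul_pos hn (Nat.mul_pos Fintype.card_pos two_pos), ?_⟩
  rw [pow_mul, h3, pow_mul, h7, ← pow_mul, mul_comm n 2, pow_mul, hdet, one_pow]

/-- a root of unity is a small power of the standard one -/
private theorem T2_arg {l : ℂ} {N : ℕ} (hN : 0 < N) (hl : l ^ N = 1) :
    ∃ k : ℤ, l = Complex.exp (2 * Real.pi * Complex.I / N) ^ k ∧ 4 * |(k : ℝ)| ≤ N * ‖l - 1‖ := by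
  have hnorm : ‖l‖ = 1 := by
    have h1 : ‖l‖ ^ N = 1 := by rw [← norm_pow, hl, norm_one]
    exact (pow_eq_one_iff_of_nonneg (norm_nonneg l) hN.ne').1 h1
  have hl0 : l ≠ 0 := by
    intro h
    rw [h, norm_zero] at hnorm
    exact zero_ne_one hnorm
  have h2 : l = Complex.exp (l.arg * Complex.I) := by
    have := Complex.norm_mul_exp_arg_mul_I l
    rw [hnorm, Complex.ofReal_one, one_mul] at this
    exact this.symm
  have h3 : Complex.exp (N * (l.arg * Complex.I)) = 1 := by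
    rw [Complex.exp_nat_mul, ← h2, hl]
  obtain ⟨k, hk⟩ := Complex.exp_eq_one_iff.1 h3
  have hN0 : (N : ℂ) ≠ 0 := by exact_mod_cast hN.ne'
  have hNr : (0 : ℝ) < N := by exact_mod_cast hN
  have hk2 : (N : ℝ) * l.arg = k * (2 * Real.pi) := by
    have h4 : ((N * l.arg : ℝ) : ℂ) * Complex.I = ((k * (2 * Real.pi) : ℝ) : ℂ) * Complex.I := by
      push_cast
      linear_combination hk
    have h5 := mul_right_cancel₀ Complex.I_ne_zero h4
    exact_mod_cast h5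
  refine ⟨k, ?_, ?_⟩
  · rw [← Complex.exp_int_mul]
    conv_lhs => rw [h2]
    congr 1
    field_simp
    have h6 : ((N : ℂ) * (l.arg : ℂ)) = k * (2 * Real.pi) := by exact_mod_cast hk2
    linear_combination h6
  · have h7 := Complex.mul_angle_le_norm_sub hnorm (norm_one (α := ℂ))
    rw [Complex.angle_one_right hl0] at h7
    have h8 : (N : ℝ) * |l.arg| = |(k : ℝ)| * (2 * Real.pi) := by
      have := congrArg abs hk2
      rw [abs_mul, abs_mul, abs_of_pos hNr, abs_of_pos Real.two_pi_pos] at this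
      exact this
    have hpi := Real.pi_pos
    calc 4 * |(k : ℝ)| = N * (2 / Real.pi * |l.arg|) := by
          have : N * (2 / Real.pi * |l.arg|) = 2 / Real.pi * (N * |l.arg|) := by ring
          rw [this, h8]
          field_simp
          ring
      _ ≤ N * ‖l - 1‖ := mul_le_mul_of_nonneg_left h7 hNr.le

/-- the traces at one root of unity of large order -/
private theorem T2_N {ι : Type} [Fintype ι] [DecidableEq ι] (U : ℂ → Matrix ι ι ℂ)
    (δ : ℤ[X]) (n : ℕ) (P : Matrix ι ι ℤ[X])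
    (hP : ∀ A : ℂ, aeval A δ ≠ 0 → (aeval A δ) ^ n • U A = P.map (aeval A))
    (hdet : ∀ A : ℂ, aeval A δ ≠ 0 → (U A).det ^ 2 = 1)
    (heig : ∀ {N : ℕ}, 0 < N → ∀ {A : ℂ}, IsPrimitiveRoot A N → ∀ M : Matrix ι ι ℂ,
      (∀ i j, M i j ∈ IntermediateField.adjoin ℚ ({A} : Set ℂ)) → ∀ {l : ℂ},
      M.charpoly.IsRoot l → (∃ m, 0 < m ∧ l ^ m = 1) →
      (l ^ (2 * Fintype.card ι).factorial) ^ N = 1)
    (c ρ : ℝ) (K : ℕ) (hK : c * Real.pi * (2 * Fintype.card ι).factorial ≤ 2 * K)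
    (hc : 0 < c)
    (hnear : ∀ A : ℂ, ‖A - 1‖ < ρ → ∀ l : ℂ, (U A).charpoly.IsRoot l → ‖l - 1‖ ≤ c * ‖A - 1‖)
    {N : ℕ} (hN : 0 < N) (hNρ : 2 * Real.pi / N < ρ)
    (hδ : aeval (Complex.exp (2 * Real.pi * Complex.I / N)) δ ≠ 0)
    (hfin : ∃ k > 0, ∃ z : ℂ, U (Complex.exp (2 * Real.pi * Complex.I / N)) ^ k = z • 1) :
    ∃ e : ℤ → ℕ, (∀ k, e k ≤ Fintype.card ι) ∧ ∀ m : ℕ,
      (U (Complex.exp (2 * Real.pi * Complex.I / N)) ^ m).trace =
        ∑ k ∈ Finset.Icc (-K : ℤ) K, (e k : ℂ) *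
          (Complex.exp (2 * Real.pi * Complex.I /
            ((N * (2 * Fintype.card ι).factorial : ℕ) : ℂ))) ^ ((m : ℤ) * k) := by
  classical
  set A : ℂ := Complex.exp (2 * Real.pi * Complex.I / N) with hA
  set F : ℕ := (2 * Fintype.card ι).factorial with hF
  set B : ℂ := Complex.exp (2 * Real.pi * Complex.I / ((N * F : ℕ) : ℂ)) with hB
  have hFpos : 0 < F := Nat.factorial_pos _
  have hprim : IsPrimitiveRoot A N := Complex.isPrimitiveRoot_exp N hN.ne'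
  have hNr : (0 : ℝ) < N := by exact_mod_cast hN
  have hpi := Real.pi_pos
  have hA1 : ‖A - 1‖ ≤ 2 * Real.pi / N := by
    have h1 := Real.norm_exp_I_mul_ofReal_sub_one_le (x := 2 * Real.pi / N)
    have h2 : Complex.I * ((2 * Real.pi / N : ℝ) : ℂ) = 2 * Real.pi * Complex.I / N := by
      push_cast
      ring
    rw [h2, Real.norm_of_nonneg (by positivity)] at h1
    exact h1
  obtain ⟨s, e0, hs, hsum, htr⟩ := SAD.trace_pow_eq_sum' (Matrix.toLin' (U A))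
  have hev : ∀ μ ∈ s, ∃ k : ℤ, μ = B ^ k ∧ k ∈ Finset.Icc (-K : ℤ) K := by
    intro μ hμ
    have h1 := hs μ hμ
    obtain ⟨k0, hk0, z, hz⟩ := hfin
    have h2 := T2_fin (U A) (hdet A hδ) hk0 hz h1
    have h3 : (U A).charpoly.IsRoot μ := by
      have := (Module.End.hasEigenvalue_iff_isRoot_charpoly _ _).1 h1
      rwa [Matrix.charpoly_toLin'] at this
    have h4 := heig hN hprim (U A) (T2_entries U δ n P hP hδ) h3 h2
    have h5 : μ ^ (N * F) = 1 := by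
      rw [mul_comm, pow_mul]
      exact h4
    obtain ⟨k, hk1, hk2⟩ := T2_arg (Nat.mul_pos hN hFpos) h5
    refine ⟨k, hk1, ?_⟩
    have h6 := hnear A (lt_of_le_of_lt hA1 hNρ) μ h3
    have h7 : 4 * |(k : ℝ)| ≤ 4 * K := by
      calc 4 * |(k : ℝ)| ≤ ((N * F : ℕ) : ℝ) * ‖μ - 1‖ := hk2
        _ ≤ ((N * F : ℕ) : ℝ) * (c * (2 * Real.pi / N)) := by
            apply mul_le_mul_of_nonneg_left _ (Nat.cast_nonneg _)
            exact h6.trans (mul_le_mul_of_nonneg_left hA1 hc.le)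
        _ = 2 * (c * Real.pi * F) := by
            push_cast
            field_simp
        _ ≤ 4 * K := by linarith
    have h8 : |(k : ℝ)| ≤ K := by linarith
    rw [Finset.mem_Icc, ← abs_le]
    exact_mod_cast h8
  choose! κ hκ1 hκ2 using hev
  refine ⟨fun k => ∑ μ ∈ s.filter (fun μ => κ μ = k), e0 μ, ?_, ?_⟩
  · intro k
    have h1 : ∑ μ ∈ s.filter (fun μ => κ μ = k), e0 μ ≤ ∑ μ ∈ s, e0 μ :=
      Finset.sum_le_sum_of_subset (Finset.filter_subset _ _)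
    rw [hsum, Module.finrank_fintype_fun_eq_card] at h1
    exact h1
  · intro m
    have h1 := htr m
    rw [← Matrix.toLin'_pow, Matrix.trace_toLin'_eq] at h1
    rw [h1, ← Finset.sum_fiberwise_of_maps_to (g := κ) (t := Finset.Icc (-K : ℤ) K) hκ2]
    apply Finset.sum_congr rfl
    intro k hk
    rw [Nat.cast_sum, Finset.sum_mul]
    apply Finset.sum_congr rfl
    intro μ hμ
    rw [Finset.mem_filter] at hμ
    rw [hκ1 μ hμ.1, hμ.2, ← zpow_natCast, ← zpow_mul, mul_comm k]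

/-- the identity of the traces propagates from infinitely many points -/
private theorem T2_prop {ι : Type} [Fintype ι] [DecidableEq ι] (U : ℂ → Matrix ι ι ℂ)
    (δ : ℤ[X]) (n : ℕ) (P : Matrix ι ι ℤ[X])
    (hP : ∀ A : ℂ, aeval A δ ≠ 0 → (aeval A δ) ^ n • U A = P.map (aeval A))
    (F K : ℕ) (e : ℤ → ℂ) (m : ℕ) (Bs : Set ℂ) (hinf : Bs.Infinite)
    (hBs : ∀ B ∈ Bs, B ≠ 0 ∧ aeval (B ^ F) δ ≠ 0 ∧
      (U (B ^ F) ^ m).trace = ∑ k ∈ Finset.Icc (-K : ℤ) K, e k * B ^ ((m : ℤ) * k))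
    (B : ℂ) (hB : B ≠ 0) (hδ : aeval (B ^ F) δ ≠ 0) :
    (U (B ^ F) ^ m).trace = ∑ k ∈ Finset.Icc (-K : ℤ) K, e k * B ^ ((m : ℤ) * k) := by
  -- the two polynomials
  set Q : ℂ[X] := (((P ^ m).trace).map (Int.castRingHom ℂ)).comp (X ^ F) * X ^ (m * K) with hQ
  set R : ℂ[X] := ((δ.map (Int.castRingHom ℂ)).comp (X ^ F)) ^ (n * m) *
    ∑ k ∈ Finset.Icc (-K : ℤ) K, C (e k) * X ^ (((m : ℤ) * (k + K)).toNat) with hR
  have hQe : ∀ B : ℂ, B ≠ 0 → aeval (B ^ F) δ ≠ 0 →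
      Q.eval B = (aeval (B ^ F) δ) ^ (n * m) * (U (B ^ F) ^ m).trace * B ^ (m * K) := by
    intro B hB hδ
    have h1 : (((aeval (B ^ F) δ) ^ n • U (B ^ F)) ^ m).trace =
        aeval (B ^ F) ((P ^ m).trace) := by
      rw [hP _ hδ]
      have h2 : (P.map (aeval (B ^ F))) ^ m = (P ^ m).map (aeval (B ^ F)) := by
        have := (map_pow ((aeval (B ^ F) : ℤ[X] →ₐ[ℤ] ℂ).toRingHom.mapMatrix (m := ι)) P m).symm
        exact this
      rw [h2]
      have h3 := AddMonoidHom.map_trace ((aeval (B ^ F) : ℤ[X] →ₐ[ℤ] ℂ) : ℤ[X] →+ ℂ) (P ^ m)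
      exact h3.symm
    rw [_root_.smul_pow, Matrix.trace_smul, ← pow_mul, smul_eq_mul] at h1
    rw [hQ, eval_mul, eval_comp, eval_pow, eval_pow, eval_X, h1, aeval_def, eval_map]
    rfl
  have hRe : ∀ B : ℂ, B ≠ 0 → R.eval B = (aeval (B ^ F) δ) ^ (n * m) *
      (∑ k ∈ Finset.Icc (-K : ℤ) K, e k * B ^ ((m : ℤ) * k)) * B ^ (m * K) := by
    intro B hB
    rw [hR, eval_mul, eval_pow, eval_comp, eval_pow, eval_X, eval_map, aeval_def,
      eval_finsetSum, mul_assoc, Finset.sum_mul]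
    congr 1
    apply Finset.sum_congr rfl
    intro k hk
    rw [Finset.mem_Icc] at hk
    rw [eval_mul, eval_C, eval_pow, eval_X, mul_assoc]
    congr 1
    have h4 : 0 ≤ (m : ℤ) * (k + K) := mul_nonneg (Nat.cast_nonneg _) (by linarith [hk.1])
    rw [← zpow_natCast B (m * K), ← zpow_add₀ hB, ← zpow_natCast, Int.toNat_of_nonneg h4]
    congr 1
    push_cast
    ring
  have hQR : Q = R := by
    apply Polynomial.eq_of_infinite_eval_eq
    refine hinf.mono fun B hB => ?_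
    obtain ⟨h1, h2, h3⟩ := hBs B hB
    show Q.eval B = R.eval B
    rw [hQe B h1 h2, hRe B h1, h3]
  have h5 := hQe B hB hδ
  rw [hQR, hRe B hB] at h5
  have h6 : B ^ (m * K) ≠ 0 := pow_ne_zero _ hB
  have h7 : (aeval (B ^ F) δ) ^ (n * m) ≠ 0 := pow_ne_zero _ hδ
  exact (mul_left_cancel₀ h7 (mul_right_cancel₀ h6 h5)).symm

theorem T2_core {ι : Type} [Fintype ι] [DecidableEq ι] (U : ℂ → Matrix ι ι ℂ) (δ : ℤ[X]) (n : ℕ)
    (P : Matrix ι ι ℤ[X])
    (hP : ∀ A : ℂ, aeval A δ ≠ 0 → (aeval A δ) ^ n • U A = P.map (aeval A))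
    (hdet : ∀ A : ℂ, aeval A δ ≠ 0 → (U A).det ^ 2 = 1)
    (hfin : ∀ N0 : ℕ, ∃ N ≥ N0, ∃ A : ℂ, IsPrimitiveRoot A N ∧ aeval A δ ≠ 0 ∧
      ∃ n > 0, ∃ z : ℂ, U A ^ n = z • 1)
    (heig : ∀ {N : ℕ}, 0 < N → ∀ {A : ℂ}, IsPrimitiveRoot A N → ∀ M : Matrix ι ι ℂ,
      (∀ i j, M i j ∈ IntermediateField.adjoin ℚ ({A} : Set ℂ)) → ∀ {l : ℂ},
      M.charpoly.IsRoot l → (∃ m, 0 < m ∧ l ^ m = 1) →
      (l ^ (2 * Fintype.card ι).factorial) ^ N = 1)
    (htransfer : ∀ {N : ℕ}, 0 < N → ∀ {A A' : ℂ}, IsPrimitiveRoot A N → IsPrimitiveRoot A' N →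
      aeval A δ ≠ 0 → aeval A' δ ≠ 0 ∧ ∀ (k : ℕ) (z : ℂ), U A ^ k = z • 1 →
        ∃ z' : ℂ, U A' ^ k = z' • 1)
    (hnear : ∃ c > (0 : ℝ), ∃ ρ > (0 : ℝ), ∀ A : ℂ, ‖A - 1‖ < ρ → ∀ l : ℂ,
      (U A).charpoly.IsRoot l → ‖l - 1‖ ≤ c * ‖A - 1‖) :
    ∃ F > 0, ∃ (K : ℕ) (c : ℤ → ℕ), ∀ (m : ℕ) (B : ℂ), B ≠ 0 → aeval (B ^ F) δ ≠ 0 →
      (U (B ^ F) ^ m).trace = ∑ k ∈ Finset.Icc (-K : ℤ) K, (c k : ℂ) * B ^ ((m : ℤ) * k) := by
  classical
  obtain ⟨c, hc, ρ, hρ, hn⟩ := hnear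
  set F : ℕ := (2 * Fintype.card ι).factorial with hF
  have hFpos : 0 < F := Nat.factorial_pos _
  obtain ⟨K, hK⟩ := exists_nat_ge (c * Real.pi * F / 2)
  have hK' : c * Real.pi * F ≤ 2 * K := by linarith
  obtain ⟨N1, hN1⟩ := exists_nat_gt (2 * Real.pi / ρ)
  -- the set of good orders
  set S : Set ℕ := {N | N1 < N ∧ ∃ A : ℂ, IsPrimitiveRoot A N ∧ aeval A δ ≠ 0 ∧
      ∃ n > 0, ∃ z : ℂ, U A ^ n = z • 1} with hS
  have hSinf : S.Infinite := by
    rw [Set.infinite_iff_exists_gt]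
    intro a
    obtain ⟨N, hN, hA⟩ := hfin (max a N1 + 1)
    have h1 := le_max_left a N1
    have h2 := le_max_right a N1
    exact ⟨N, ⟨by omega, hA⟩, by omega⟩
  have hexp : ∀ N ∈ S, (0 < N) ∧ aeval (Complex.exp (2 * Real.pi * Complex.I / N)) δ ≠ 0 ∧
      ∃ e : ℤ → ℕ, (∀ k, e k ≤ Fintype.card ι) ∧ ∀ m : ℕ,
        (U (Complex.exp (2 * Real.pi * Complex.I / N)) ^ m).trace =
          ∑ k ∈ Finset.Icc (-K : ℤ) K, (e k : ℂ) *
            (Complex.exp (2 * Real.pi * Complex.I / ((N * F : ℕ) : ℂ))) ^ ((m : ℤ) * k) := by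
    rintro N ⟨hNN, A, hA, hδA, k0, hk0, z, hz⟩
    have hNpos : 0 < N := by omega
    have hprim : IsPrimitiveRoot (Complex.exp (2 * Real.pi * Complex.I / N)) N :=
      Complex.isPrimitiveRoot_exp N hNpos.ne'
    obtain ⟨h1, h2⟩ := htransfer hNpos hA hprim hδA
    obtain ⟨z', hz'⟩ := h2 k0 z hz
    have hNr : (0 : ℝ) < N := by exact_mod_cast hNpos
    refine ⟨hNpos, h1, T2_N U δ n P hP hdet heig c ρ K hK' hc hn hNpos ?_ h1 ⟨k0, hk0, z', hz'⟩⟩
    have h3 : 2 * Real.pi / ρ < N := by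
      refine hN1.trans ?_
      exact_mod_cast hNN
    rw [div_lt_iff₀ hρ] at h3
    rw [div_lt_iff₀ hNr]
    linarith
  choose! hpos hδ0 e he1 he2 using hexp
  -- pigeonhole
  have hSi : Infinite S := hSinf.to_subtype
  set code : S → (Finset.Icc (-K : ℤ) K → Fin (Fintype.card ι + 1)) := fun N k =>
    ⟨e N k, Nat.lt_succ_of_le (he1 N N.2 k)⟩ with hcode
  obtain ⟨y, hy⟩ := Finite.exists_infinite_fiber code
  have hyinf : (code ⁻¹' {y}).Infinite := Set.infinite_coe_iff.1 hy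
  set e' : ℤ → ℕ := fun k => if h : k ∈ Finset.Icc (-K : ℤ) K then (y ⟨k, h⟩ : ℕ) else 0 with he'
  refine ⟨F, hFpos, K, e', ?_⟩
  intro m B hB hδB
  set Bf : S → ℂ := fun N => Complex.exp (2 * Real.pi * Complex.I / (((N : ℕ) * F : ℕ) : ℂ))
    with hBf
  have hBprim : ∀ N : S, IsPrimitiveRoot (Bf N) ((N : ℕ) * F) := fun N =>
    Complex.isPrimitiveRoot_exp _ (Nat.mul_pos (hpos N N.2) hFpos).ne'
  have hBinj : Function.Injective Bf := by
    intro N N' h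
    have h1 := (hBprim N).unique (h ▸ hBprim N')
    exact Subtype.ext (Nat.eq_of_mul_eq_mul_right hFpos h1)
  refine T2_prop U δ n P hP F K (fun k => (e' k : ℂ)) m (Bf '' (code ⁻¹' {y}))
    (hyinf.image hBinj.injOn) ?_ B hB hδB
  rintro _ ⟨N, hN, rfl⟩
  have hN0 : ((N : ℕ) : ℂ) ≠ 0 := by
    have := hpos N N.2
    exact_mod_cast this.ne'
  have hF0 : (F : ℂ) ≠ 0 := by exact_mod_cast hFpos.ne'
  have hBF : Bf N ^ F = Complex.exp (2 * Real.pi * Complex.I / (N : ℕ)) := by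
    rw [hBf]
    show Complex.exp (2 * Real.pi * Complex.I / (((N : ℕ) * F : ℕ) : ℂ)) ^ F = _
    rw [← Complex.exp_nat_mul]
    congr 1
    push_cast
    field_simp
  refine ⟨Complex.exp_ne_zero _, ?_, ?_⟩
  · rw [hBF]
    exact hδ0 N N.2
  · rw [hBF, he2 N N.2 m]
    apply Finset.sum_congr rfl
    intro k hk
    have h2 : code N = y := hN
    have h3 : e N k = e' k := by
      have h4 := congrFun h2 ⟨k, hk⟩
      have h5 : e' k = (y ⟨k, hk⟩ : ℕ) := by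
        rw [he']
        show (if h : k ∈ Finset.Icc (-K : ℤ) K then (y ⟨k, h⟩ : ℕ) else 0) = _
        rw [dif_pos hk]
      rw [h5, ← h4]
    rw [h3]

end Pool.Agent.AMG
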