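import Pool.Agent.AMG.Defs

/-!
# The window representation

For `c = r - 2 - C` the space `V_r(Σ_{1,2}; c, 1)` has dimension `2 (C + 1)` and its matrices are
specialisations of matrices over `ℚ(A)` which only depend on `C`.
-/

namespace Pool.Agent.AMG

/-- Basis `|k, s⟩`, `k = 2 j - C`, `s = 0` for `+`, `s = 1` for `-`. -/
abbrev Win (C : ℕ) : Type := Fin (C + 1) × Fin 2

section
variable {F : Type*} [Field F]

/-- The direction of the shift of `y` (`b = true`) or `y⁻¹` (`b = false`) on the spin `s`. -/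
def dir (b : Bool) (s : Fin 2) : ℤ := if (s = 0) = (b = true) then -1 else 1

/-- Denominator. -/
def den (x a : F) (d : ℤ) : F := x * a ^ d + (x * a ^ d)⁻¹

/-- Coefficient of the spin flip. -/
def flipc (x a v : F) (d : ℤ) : F := (a * v + (a * v)⁻¹) / den x a d

/-- Coefficient of the shift. -/
def shiftc (x a v : F) (d : ℤ) : F := (v * x ^ (-d) - v⁻¹ * x ^ d) / den x a d

/-- The coefficient of `|k + 2 i, s'⟩` in the image of `|k, s⟩` under a letter,
where `x = A ^ k`, `a = A`, `v = A ^ C`. -/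
def lsym (l : Fin 2 × Bool) (s s' : Fin 2) (i : ℤ) (x a v : F) : F :=
  if l.1 = 0 then
    (if s' = s ∧ i = 0 then
      (if s = 0 then (if l.2 then x⁻¹ else x) else (if l.2 then -x else -x⁻¹)) else 0)
  else
    (if s' ≠ s ∧ i = 0 then flipc x a v (dir l.2 s)
     else if s' = s ∧ i = dir l.2 s then (if l.2 then 1 else -1) * shiftc x a v (dir l.2 s)
     else 0)

/-- The matrix of a letter. -/
def letW (C : ℕ) (A : F) (l : Fin 2 × Bool) : Matrix (Win C) (Win C) F :=
  Matrix.of fun q p =>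
    lsym l p.2 q.2 ((q.1 : ℤ) - (p.1 : ℤ)) (A ^ (2 * (p.1 : ℤ) - C)) A (A ^ C)

/-- The matrix of a word. -/
def wordW (C : ℕ) (A : F) (w : List (Fin 2 × Bool)) : Matrix (Win C) (Win C) F :=
  (w.map (letW C A)).prod

/-- `A` is good for the window `C`: no denominator vanishes. -/
def Good (C : ℕ) (A : F) : Prop :=
  A ≠ 0 ∧ ∀ n : ℤ, |n| ≤ C + 1 → A ^ n + A ^ (-n) ≠ 0

end

/-- Powers of words. -/
def pw (w : List (Fin 2 × Bool)) (n : ℕ) : List (Fin 2 × Bool) := (List.replicate n w).flatten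

end Pool.Agent.AMG
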